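import Pool.Agent.EFM.Defs

/-!
# Functions on an elliptic curve
-/

set_option autoImplicit false

section


namespace Pool.Agent.EFF

open Polynomial WeierstrassCurve WeierstrassCurve.Affine

open scoped Classical

universe u v w

section

theorem h_ideal {F : Type u} [Field F] (W : Affine F) (A B : W.Point) :
    Ip W A * Ip W B * Ideal.span {CoordinateRing.mk W (C (Df W A B))} =
      Ideal.span {Nf W A B} * Ip W (A + B) := by
  rcases A with _ | ⟨x₁, y₁, h₁⟩
  · have e1 : Ip W Point.zero = ⊤ := rfl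
    have e2 : Df W Point.zero B = 1 := by cases B <;> rfl
    have e3 : Nf W Point.zero B = 1 := by cases B <;> rfl
    have e4 : Point.zero + B = B := zero_add B
    rw [e1, e2, e3, e4, map_one, map_one, Ideal.span_singleton_one, Ideal.mul_top, Ideal.top_mul]
  · rcases B with _ | ⟨x₂, y₂, h₂⟩
    · have e1 : Ip W Point.zero = ⊤ := rfl
      have e2 : Df W (Point.some x₁ y₁ h₁) Point.zero = 1 := rfl
      have e3 : Nf W (Point.some x₁ y₁ h₁) Point.zero = 1 := rfl
      have e4 : Point.some x₁ y₁ h₁ + Point.zero = Point.some x₁ y₁ h₁ := add_zero _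
      rw [e1, e2, e3, e4, map_one, map_one, Ideal.span_singleton_one, Ideal.mul_top, Ideal.mul_top,
        Ideal.top_mul]
    · by_cases hxy : x₁ = x₂ ∧ y₁ = W.negY x₂ y₂
      · have e2 : Df W (Point.some x₁ y₁ h₁) (Point.some x₂ y₂ h₂) = 1 := if_pos hxy
        have e3 : Nf W (Point.some x₁ y₁ h₁) (Point.some x₂ y₂ h₂) =
          CoordinateRing.XClass W x₁ := if_pos hxy
        have e4 : Point.some x₁ y₁ h₁ + Point.some x₂ y₂ h₂ = 0 := Point.add_of_Y_eq hxy.1 hxy.2
        have e5 : Ip W 0 = ⊤ := rfl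
        obtain ⟨rfl, rfl⟩ := hxy
        rw [e2, e3, e4, e5, map_one, map_one, Ideal.span_singleton_one, Ideal.mul_top,
          Ideal.mul_top]
        exact CoordinateRing.XYIdeal_neg_mul h₂
      · have e2 : Df W (Point.some x₁ y₁ h₁) (Point.some x₂ y₂ h₂) =
          X - C (W.addX x₁ x₂ (W.slope x₁ x₂ y₁ y₂)) := if_neg hxy
        have e3 : Nf W (Point.some x₁ y₁ h₁) (Point.some x₂ y₂ h₂) =
          CoordinateRing.YClass W (linePolynomial x₁ y₁ (W.slope x₁ x₂ y₁ y₂)) := if_neg hxy
        have e4 : Point.some x₁ y₁ h₁ + Point.some x₂ y₂ h₂ = _ := Point.add_some hxy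
        rw [e2, e3, e4, mul_comm]
        exact CoordinateRing.XYIdeal_mul_XYIdeal h₁.left h₂.left hxy

end

end Pool.Agent.EFF

end

section


namespace Pool.Agent.EFF

open Polynomial WeierstrassCurve WeierstrassCurve.Affine

open scoped Classical

universe u v w

section

private theorem h_unit_n {F : Type u} [Field F] (W : Affine F) (S : W.Point) :
    Nf W S (-S) ≠ 0 := by
  cases S with
  | zero => 
    show (1 : W.CoordinateRing) ≠ 0
    exact one_ne_zero
  | some x y h =>
    have h1 : -(Point.some x y h) = Point.some x (W.negY x y) ((nonsingular_neg x y).mpr h) := rfl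
    rw [h1]
    have h2 : Nf W (Point.some x y h) (Point.some x (W.negY x y) ((nonsingular_neg x y).mpr h)) =
        CoordinateRing.XClass W x := by
      show (if x = x ∧ y = W.negY x (W.negY x y) then CoordinateRing.XClass W x
        else CoordinateRing.YClass W (linePolynomial x y (W.slope x x y (W.negY x y)))) = _
      rw [if_pos]
      exact ⟨rfl, (negY_negY x y).symm⟩
    rw [h2]
    exact CoordinateRing.XClass_ne_zero x

theorem h_unit {F : Type u} [Field F] (W : Affine F) (A B D : W.Point) :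
    ∃ u : (W.CoordinateRing)ˣ, Nf W A B * Nf W (A + B) D *
      (CoordinateRing.mk W (C (Df W B D)) * CoordinateRing.mk W (C (Df W A (B + D)))) =
      u * (Nf W B D * Nf W A (B + D) *
        (CoordinateRing.mk W (C (Df W A B)) * CoordinateRing.mk W (C (Df W (A + B) D)))) := by
  set a := Nf W A B with ha
  set b := Nf W (A + B) D with hb
  set c := Nf W B D with hc
  set d := Nf W A (B + D) with hd
  set a' := CoordinateRing.mk W (C (Df W A B)) with ha'
  set b' := CoordinateRing.mk W (C (Df W (A + B) D)) with hb'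
  set c' := CoordinateRing.mk W (C (Df W B D)) with hc'
  set d' := CoordinateRing.mk W (C (Df W A (B + D))) with hd'
  have E1 := h_ideal W A B
  have E2 := h_ideal W (A + B) D
  have E3 := h_ideal W B D
  have E4 := h_ideal W A (B + D)
  rw [← ha, ← ha'] at E1
  rw [← hb, ← hb'] at E2
  rw [← hc, ← hc'] at E3
  rw [← hd, ← hd', ← add_assoc] at E4
  have E5 := h_ideal W (A + B + D) (-(A + B + D))
  rw [add_neg_cancel] at E5
  have hI0 : Ip W 0 = 1 := by rw [Ideal.one_eq_top]; rfl
  rw [hI0, mul_one] at E5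
  have hn := h_unit_n W (A + B + D)
  set n := Nf W (A + B + D) (-(A + B + D)) with hnn
  set e := CoordinateRing.mk W (C (Df W (A + B + D) (-(A + B + D)))) with he
  set IS := Ip W (A + B + D) with hIS
  have key : Ideal.span {a} * Ideal.span {b} * (Ideal.span {c'} * Ideal.span {d'}) * IS =
      Ideal.span {c} * Ideal.span {d} * (Ideal.span {a'} * Ideal.span {b'}) * IS := by
    calc Ideal.span {a} * Ideal.span {b} * (Ideal.span {c'} * Ideal.span {d'}) * IS
        = Ideal.span {a} * (Ideal.span {c'} * Ideal.span {d'}) * (Ideal.span {b} * IS) := by ring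
      _ = Ideal.span {a} * (Ideal.span {c'} * Ideal.span {d'}) *
          (Ip W (A + B) * Ip W D * Ideal.span {b'}) := by rw [← E2]
      _ = (Ideal.span {a} * Ip W (A + B)) * (Ideal.span {c'} * Ideal.span {d'}) *
          (Ip W D * Ideal.span {b'}) := by ring
      _ = (Ip W A * Ip W B * Ideal.span {a'}) * (Ideal.span {c'} * Ideal.span {d'}) *
          (Ip W D * Ideal.span {b'}) := by rw [← E1]
      _ = Ip W A * (Ip W B * Ip W D * Ideal.span {c'}) *
          (Ideal.span {a'} * Ideal.span {d'} * Ideal.span {b'}) := by ring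
      _ = Ip W A * (Ideal.span {c} * Ip W (B + D)) *
          (Ideal.span {a'} * Ideal.span {d'} * Ideal.span {b'}) := by rw [← E3]
      _ = Ideal.span {c} * (Ip W A * Ip W (B + D) * Ideal.span {d'}) *
          (Ideal.span {a'} * Ideal.span {b'}) := by ring
      _ = Ideal.span {c} * (Ideal.span {d} * IS) *
          (Ideal.span {a'} * Ideal.span {b'}) := by rw [← E4]
      _ = _ := by ring
  have key2 : Ideal.span {a * b * (c' * d') * n} = Ideal.span {c * d * (a' * b') * n} := by
    simp only [← Ideal.span_singleton_mul_span_singleton]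
    rw [← E5, ← mul_assoc (Ideal.span {a} * Ideal.span {b} * _),
      ← mul_assoc (Ideal.span {a} * Ideal.span {b} * _), key]
    ring
  rw [Ideal.span_singleton_eq_span_singleton] at key2
  obtain ⟨u, hu⟩ := key2
  refine ⟨u⁻¹, ?_⟩
  apply mul_right_cancel₀ hn
  have hu1 : (↑u⁻¹ : W.CoordinateRing) * ↑u = 1 := Units.inv_mul u
  linear_combination (-(a * b * (c' * d') * n)) * hu1 + (↑u⁻¹ : W.CoordinateRing) * hu

end

end Pool.Agent.EFF

end

section


namespace Pool.Agent.EFF

open Polynomial WeierstrassCurve WeierstrassCurve.Affine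

open scoped Classical

universe u v w

section

theorem h_units {F : Type u} [Field F] (W : Affine F) (u : (W.CoordinateRing)ˣ) :
    ∃ a : F, a ≠ 0 ∧ (u : W.CoordinateRing) = CoordinateRing.mk W (C (C a)) := by
  obtain ⟨p, q, hpq⟩ := CoordinateRing.exists_smul_basis_eq (u : W.CoordinateRing)
  have hN : IsUnit (Algebra.norm F[X] (u : W.CoordinateRing)) := u.isUnit.map (Algebra.norm F[X])
  have hdeg : (Algebra.norm F[X] (u : W.CoordinateRing)).degree = 0 := degree_eq_zero_of_isUnit hN
  rw [← hpq, CoordinateRing.degree_norm_smul_basis] at hdeg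
  have hq : q = 0 := by
    by_contra hq
    have h1 : (2 • q.degree + 3 : WithBot ℕ) ≤ 0 := hdeg ▸ le_max_right _ _
    rw [degree_eq_natDegree hq] at h1
    have h2 : ((2 * q.natDegree + 3 : ℕ) : WithBot ℕ) ≤ ((0 : ℕ) : WithBot ℕ) := by
      refine le_trans (le_of_eq ?_) h1
      push_cast
      rw [two_nsmul, two_mul]
    have h3 : 2 * q.natDegree + 3 ≤ 0 := WithBot.coe_le_coe.1 h2
    omega
  subst hq
  have hp0 : p.degree = 0 := by
    rcases eq_or_ne p 0 with hp | hp
    · exfalso
      subst hp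
      rw [zero_smul, zero_smul, add_zero] at hpq
      exact u.ne_zero hpq.symm
    · have h1 : (2 • p.degree : WithBot ℕ) ≤ 0 := hdeg ▸ le_max_left _ _
      rw [degree_eq_natDegree hp] at h1
      have h2 : ((2 * p.natDegree : ℕ) : WithBot ℕ) ≤ ((0 : ℕ) : WithBot ℕ) := by
        refine le_trans (le_of_eq ?_) h1
        push_cast
        rw [two_nsmul, two_mul]
      have h3 : 2 * p.natDegree ≤ 0 := WithBot.coe_le_coe.1 h2
      have h4 : p.natDegree = 0 := by omega
      rw [degree_eq_natDegree hp, h4]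
      rfl
  have hpC := eq_C_of_degree_eq_zero hp0
  refine ⟨p.coeff 0, ?_, ?_⟩
  · intro h0
    rw [h0, C_0] at hpC
    rw [hpC, degree_zero] at hp0
    exact absurd hp0 (by decide)
  · rw [← hpq, zero_smul, add_zero]
    rw [CoordinateRing.smul, mul_one, ← hpC]

end

end Pool.Agent.EFF

end

section


namespace Pool.Agent.EFF

open Polynomial WeierstrassCurve WeierstrassCurve.Affine

open scoped Classical

universe u v w

section

private def Sm {F : Type u} [Field F] (r : F[X]) (a b : ℕ) : Prop := r = 0 ∨ r.natDegree + a ≤ b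

private lemma mm_mul {F : Type u} [Field F] {r s : F[X]} {a b a' b' : ℕ} (hr : Sm r a b)
    (hs : Sm s a' b') : Sm (r * s) (a + a') (b + b') := by
  rcases hr with hr | hr
  · left; rw [hr, zero_mul]
  rcases hs with hs | hs
  · left; rw [hs, mul_zero]
  right
  have := natDegree_mul_le (p := r) (q := s)
  omega

private lemma mm_add {F : Type u} [Field F] {r s : F[X]} {a b : ℕ} (hr : Sm r a b)
    (hs : Sm s a b) : Sm (r + s) a b := by
  rcases hr with hr | hr
  · rw [hr, zero_add]; exact hs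
  rcases hs with hs | hs
  · rw [hs, add_zero]; right; exact hr
  right
  have := natDegree_add_le r s
  rcases max_cases r.natDegree s.natDegree with ⟨h, _⟩ | ⟨h, _⟩ <;> omega

private lemma mm_neg {F : Type u} [Field F] {r : F[X]} {a b : ℕ} (hr : Sm r a b) :
    Sm (-r) a b := by
  rcases hr with hr | hr
  · left; rw [hr, neg_zero]
  · right; rw [natDegree_neg]; exact hr

private lemma mm_mono {F : Type u} [Field F] {r : F[X]} {a b a' b' : ℕ} (hr : Sm r a b)
    (h : a' + b ≤ a + b') : Sm r a' b' := by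
  rcases hr with hr | hr
  · exact Or.inl hr
  · right; omega

private lemma mm_lead {F : Type u} [Field F] {p r : F[X]} {m : ℕ} (hp : p.Monic)
    (hd : p.natDegree = m) (hr : Sm r 1 m) : (p + r).Monic ∧ (p + r).natDegree = m := by
  rcases hr with hr | hr
  · rw [hr, add_zero]; exact ⟨hp, hd⟩
  have h : r.degree < p.degree := degree_lt_degree (by omega)
  exact ⟨hp.add_of_left h, by rw [natDegree_add_eq_left_of_degree_lt h, hd]⟩

private lemma mm_c {F : Type u} [Field F] (W : Affine F) :
    (X ^ 3 + (C W.a₂ * X ^ 2 + C W.a₄ * X + C W.a₆) : F[X]).Monic ∧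
    (X ^ 3 + (C W.a₂ * X ^ 2 + C W.a₄ * X + C W.a₆) : F[X]).natDegree = 3 := by
  apply mm_lead (monic_X_pow 3) (natDegree_X_pow 3)
  right
  have := natDegree_quadratic_le (a := W.a₂) (b := W.a₄) (c := W.a₆)
  omega

private lemma mm_e {F : Type u} [Field F] (W : Affine F) :
    Sm (C W.a₁ * X + C W.a₃ : F[X]) 0 1 := by
  right
  have := natDegree_linear_le (a := W.a₁) (b := W.a₃)
  omega

private lemma mm_prod {F : Type u} [Field F] (W : Affine F) (p q p' q' : F[X]) :
    (p • (1 : W.CoordinateRing) + q • CoordinateRing.mk W X) *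
      (p' • (1 : W.CoordinateRing) + q' • CoordinateRing.mk W X) =
    (p * p' + q * q' * (X ^ 3 + (C W.a₂ * X ^ 2 + C W.a₄ * X + C W.a₆))) •
      (1 : W.CoordinateRing) +
    (p * q' + q * p' + -(q * q' * (C W.a₁ * X + C W.a₃))) • CoordinateRing.mk W X := by
  have h1 : (p • (1 : W.CoordinateRing) + q • CoordinateRing.mk W X) *
      (p' • (1 : W.CoordinateRing) + q' • CoordinateRing.mk W X) =
      p' • (p • (1 : W.CoordinateRing) + q • CoordinateRing.mk W X) +
      q' • ((p • (1 : W.CoordinateRing) + q • CoordinateRing.mk W X) *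
        CoordinateRing.mk W X) := by
    rw [mul_add, mul_smul_comm, mul_one, mul_smul_comm]
  rw [h1, CoordinateRing.smul_basis_mul_Y]
  simp only [smul_add, smul_smul, add_smul, mul_add, sub_smul, neg_smul, neg_add]
  module

theorem mon_mul {F : Type u} [Field F] (W : Affine F) (f g : W.CoordinateRing) (n m : ℕ)
    (hf : Mon W f n) (hg : Mon W g m) : Mon W (f * g) (n + m) := by
  obtain ⟨p, q, rfl, hf⟩ := hf
  obtain ⟨p', q', rfl, hg⟩ := hg
  obtain ⟨hc, hc3⟩ := mm_c W
  have he := mm_e W
  have hcs : Sm (X ^ 3 + (C W.a₂ * X ^ 2 + C W.a₄ * X + C W.a₆) : F[X]) 0 3 := Or.inr (by omega)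
  refine ⟨_, _, mm_prod W p q p' q', ?_⟩
  rcases hf with ⟨k, hk, hp, hpk, hq⟩ | ⟨k, hk, hq, hqk, hp⟩
  · have hps : Sm p 0 k := Or.inr (by omega)
    have hqs : Sm q 2 k := by
      rcases hq with h | h
      · exact Or.inl h
      · exact Or.inr (by omega)
    rcases hg with ⟨l, hl, hp', hpl, hq'⟩ | ⟨l, hl, hq', hql, hp'⟩
    · have hps' : Sm p' 0 l := Or.inr (by omega)
      have hqs' : Sm q' 2 l := by
        rcases hq' with h | h
        · exact Or.inl h
        · exact Or.inr (by omega)
      left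
      obtain ⟨h1, h2⟩ := mm_lead (hp.mul hp') (by rw [hp.natDegree_mul hp', hpk, hpl])
        (mm_mono (mm_mul (mm_mul hqs hqs') hcs) (a' := 1) (b' := k + l) (by omega))
      refine ⟨k + l, by omega, h1, h2, ?_⟩
      have h3 : Sm (p * q' + q * p' + -(q * q' * (C W.a₁ * X + C W.a₃))) 2 (k + l) :=
        mm_add (mm_add (mm_mono (mm_mul hps hqs') (by omega)) (mm_mono (mm_mul hqs hps')
          (by omega))) (mm_neg (mm_mono (mm_mul (mm_mul hqs hqs') he) (by omega)))
      rcases h3 with h | h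
      · exact Or.inl h
      · exact Or.inr (by omega)
    · have hqs' : Sm q' 0 l := Or.inr (by omega)
      have hps' : Sm p' 0 (l + 1) := by
        rcases hp' with h | h
        · exact Or.inl h
        · exact Or.inr (by omega)
      right
      have h0 : p * q' + q * p' + -(q * q' * (C W.a₁ * X + C W.a₃)) =
        p * q' + (q * p' + -(q * q' * (C W.a₁ * X + C W.a₃))) := by ring
      obtain ⟨h1, h2⟩ := mm_lead (hp.mul hq') (by rw [hp.natDegree_mul hq', hpk, hql])
        (mm_add (mm_mono (mm_mul hqs hps') (a' := 1) (b' := k + l) (by omega))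
          (mm_neg (mm_mono (mm_mul (mm_mul hqs hqs') he) (by omega))))
      refine ⟨k + l, by omega, by rw [h0]; exact h1, by rw [h0]; exact h2, ?_⟩
      have h3 : Sm (p * p' + q * q' * (X ^ 3 + (C W.a₂ * X ^ 2 + C W.a₄ * X + C W.a₆))) 0
          (k + l + 1) :=
        mm_add (mm_mono (mm_mul hps hps') (by omega)) (mm_mono (mm_mul (mm_mul hqs hqs') hcs)
          (by omega))
      rcases h3 with h | h
      · exact Or.inl h
      · exact Or.inr (by omega)
  · have hqs : Sm q 0 k := Or.inr (by omega)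
    have hps : Sm p 0 (k + 1) := by
      rcases hp with h | h
      · exact Or.inl h
      · exact Or.inr (by omega)
    rcases hg with ⟨l, hl, hp', hpl, hq'⟩ | ⟨l, hl, hq', hql, hp'⟩
    · have hps' : Sm p' 0 l := Or.inr (by omega)
      have hqs' : Sm q' 2 l := by
        rcases hq' with h | h
        · exact Or.inl h
        · exact Or.inr (by omega)
      right
      have h0 : p * q' + q * p' + -(q * q' * (C W.a₁ * X + C W.a₃)) =
        q * p' + (p * q' + -(q * q' * (C W.a₁ * X + C W.a₃))) := by ring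
      obtain ⟨h1, h2⟩ := mm_lead (hq.mul hp') (by rw [hq.natDegree_mul hp', hqk, hpl])
        (mm_add (mm_mono (mm_mul hps hqs') (a' := 1) (b' := k + l) (by omega))
          (mm_neg (mm_mono (mm_mul (mm_mul hqs hqs') he) (by omega))))
      refine ⟨k + l, by omega, by rw [h0]; exact h1, by rw [h0]; exact h2, ?_⟩
      have h3 : Sm (p * p' + q * q' * (X ^ 3 + (C W.a₂ * X ^ 2 + C W.a₄ * X + C W.a₆))) 0
          (k + l + 1) :=
        mm_add (mm_mono (mm_mul hps hps') (by omega)) (mm_mono (mm_mul (mm_mul hqs hqs') hcs)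
          (by omega))
      rcases h3 with h | h
      · exact Or.inl h
      · exact Or.inr (by omega)
    · have hqs' : Sm q' 0 l := Or.inr (by omega)
      have hps' : Sm p' 0 (l + 1) := by
        rcases hp' with h | h
        · exact Or.inl h
        · exact Or.inr (by omega)
      left
      have h0 : p * p' + q * q' * (X ^ 3 + (C W.a₂ * X ^ 2 + C W.a₄ * X + C W.a₆)) =
        q * q' * (X ^ 3 + (C W.a₂ * X ^ 2 + C W.a₄ * X + C W.a₆)) + p * p' := by ring
      obtain ⟨h1, h2⟩ := mm_lead ((hq.mul hq').mul hc)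
        (by rw [(hq.mul hq').natDegree_mul hc, hq.natDegree_mul hq', hqk, hql, hc3])
        (mm_mono (mm_mul hps hps') (a' := 1) (b' := k + l + 3) (by omega))
      refine ⟨k + l + 3, by omega, by rw [h0]; exact h1, by rw [h0]; exact h2, ?_⟩
      have h3 : Sm (p * q' + q * p' + -(q * q' * (C W.a₁ * X + C W.a₃))) 2 (k + l + 3) :=
        mm_add (mm_add (mm_mono (mm_mul hps hqs') (by omega)) (mm_mono (mm_mul hqs hps')
          (by omega))) (mm_neg (mm_mono (mm_mul (mm_mul hqs hqs') he) (by omega)))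
      rcases h3 with h | h
      · exact Or.inl h
      · exact Or.inr (by omega)

end

end Pool.Agent.EFF

end

section


namespace Pool.Agent.EFF

open Polynomial WeierstrassCurve WeierstrassCurve.Affine

open scoped Classical

universe u v w

section

private theorem mon_uniq_aux {F : Type u} [Field F] (a : F) (p : Polynomial F) (hp : p.Monic)
    (h : (C a * p).Monic) : a = 1 := by
  have h1 : (C a * p).leadingCoeff = 1 := h
  rw [leadingCoeff_mul, leadingCoeff_C, hp.leadingCoeff, mul_one] at h1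
  exact h1

theorem mon_uniq {F : Type u} [Field F] (W : Affine F) (f : W.CoordinateRing) (n m : ℕ) (a : F)
    (ha : a ≠ 0) (hf : Mon W f n) (hg : Mon W (CoordinateRing.mk W (C (C a)) * f) m) :
    a = 1 ∧ n = m := by
  obtain ⟨p, q, hpq, h⟩ := hf
  obtain ⟨p', q', hpq', h'⟩ := hg
  have e : (p' - C a * p) • (1 : W.CoordinateRing) + (q' - C a * q) • CoordinateRing.mk W X
      = 0 := by
    have e1 : CoordinateRing.mk W (C (C a)) * f =
        p' • (1 : W.CoordinateRing) + q' • CoordinateRing.mk W X := hpq'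
    rw [hpq] at e1
    rw [sub_smul, sub_smul]
    simp only [CoordinateRing.smul, map_mul] at e1 ⊢
    linear_combination -e1
  obtain ⟨e1, e2⟩ := CoordinateRing.smul_basis_eq_zero e
  have e3 : p' = C a * p := sub_eq_zero.1 e1
  have e4 : q' = C a * q := sub_eq_zero.1 e2
  subst e3 e4
  rcases h with ⟨k, hn, hm1, hd, hq⟩ | ⟨k, hn, hm1, hd, hp⟩
  · rcases h' with ⟨k', hn', hm1', hd', hq'⟩ | ⟨k', hn', hm1', hd', hp'⟩
    · rw [natDegree_C_mul ha] at hd'
      exact ⟨mon_uniq_aux a p hm1 hm1', by omega⟩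
    · exfalso
      have hq0 : q ≠ 0 := by
        rintro rfl
        exact hm1'.ne_zero (mul_zero _)
      have hp0 : C a * p ≠ 0 := mul_ne_zero (C_ne_zero.2 ha) hm1.ne_zero
      have h1 := hq.resolve_left hq0
      have h2 := hp'.resolve_left hp0
      rw [natDegree_C_mul ha] at hd' h2
      omega
  · rcases h' with ⟨k', hn', hm1', hd', hq'⟩ | ⟨k', hn', hm1', hd', hp'⟩
    · exfalso
      have hp0 : p ≠ 0 := by
        rintro rfl
        exact hm1'.ne_zero (mul_zero _)
      have hq0 : C a * q ≠ 0 := mul_ne_zero (C_ne_zero.2 ha) hm1.ne_zero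
      have h1 := hp.resolve_left hp0
      have h2 := hq'.resolve_left hq0
      rw [natDegree_C_mul ha] at hd' h2
      omega
    · rw [natDegree_C_mul ha] at hd'
      exact ⟨mon_uniq_aux a q hm1 hm1', by omega⟩

end

end Pool.Agent.EFF

end

section


namespace Pool.Agent.EFF

open Polynomial WeierstrassCurve WeierstrassCurve.Affine

open scoped Classical

universe u v w

section

private theorem mon_N_one {F : Type u} [Field F] (W : Affine F) : Mon W 1 0 :=
  ⟨1, 0, by simp, Or.inl ⟨0, rfl, monic_one, natDegree_one, Or.inl rfl⟩⟩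

private theorem mon_N_mkOne {F : Type u} [Field F] (W : Affine F) :
    Mon W (CoordinateRing.mk W (C (1 : F[X]))) 0 := by
  have h : CoordinateRing.mk W (C (1 : F[X])) = 1 := by simp
  rw [h]
  exact mon_N_one W

private theorem mon_N_X {F : Type u} [Field F] (W : Affine F) (a : F) :
    Mon W (CoordinateRing.mk W (C (X - C a))) 2 := by
  refine ⟨X - C a, 0, ?_, Or.inl ⟨1, rfl, monic_X_sub_C a, natDegree_X_sub_C a, Or.inl rfl⟩⟩
  rw [CoordinateRing.smul, zero_smul, add_zero, mul_one]

private theorem mon_N_Y {F : Type u} [Field F] (W : Affine F) (l : F[X]) (hl : l.natDegree ≤ 1) :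
    Mon W (CoordinateRing.YClass W l) 3 := by
  refine ⟨-l, 1, ?_, Or.inr ⟨0, rfl, monic_one, natDegree_one, Or.inr ?_⟩⟩
  · rw [CoordinateRing.smul, one_smul, mul_one, CoordinateRing.YClass, map_sub, C_neg, map_neg]
    ring
  · rw [natDegree_neg]
    omega

theorem mon_N {F : Type u} [Field F] (W : Affine F) (A B : W.Point) :
    ∃ n d : ℕ, Mon W (Nf W A B) n ∧ Mon W (CoordinateRing.mk W (C (Df W A B))) d ∧
      (n : ℤ) - d = 1 + (if A + B = 0 then 1 else 0) - (if A = 0 then 1 else 0) -
        (if B = 0 then 1 else 0) := by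
  rcases A with _ | ⟨x₁, y₁, h₁⟩
  · -- A = 0
    refine ⟨0, 0, mon_N_one W, mon_N_mkOne W, ?_⟩
    have h0 : (Point.zero : W.Point) = 0 := rfl
    rw [h0, zero_add]
    simp
  rcases B with _ | ⟨x₂, y₂, h₂⟩
  · refine ⟨0, 0, mon_N_one W, mon_N_mkOne W, ?_⟩
    have h0 : (Point.zero : W.Point) = 0 := rfl
    rw [h0, add_zero]
    simp
  by_cases hxy : x₁ = x₂ ∧ y₁ = W.negY x₂ y₂
  · refine ⟨2, 0, ?_, ?_, ?_⟩
    · rw [Nf, if_pos hxy]
      exact mon_N_X W x₁
    · rw [Df, if_pos hxy]
      exact mon_N_mkOne W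
    · have h0 : Point.some x₁ y₁ h₁ + Point.some x₂ y₂ h₂ = 0 :=
        Point.add_of_Y_eq hxy.1 hxy.2
      rw [h0]
      simp [Point.some_ne_zero]
  · refine ⟨3, 2, ?_, ?_, ?_⟩
    · rw [Nf, if_neg hxy]
      refine mon_N_Y W _ ?_
      rw [linePolynomial]
      compute_degree
    · rw [Df, if_neg hxy]
      exact mon_N_X W _
    · have h0 : Point.some x₁ y₁ h₁ + Point.some x₂ y₂ h₂ ≠ 0 := by
        rw [Point.add_some hxy]
        exact Point.some_ne_zero _
      rw [if_neg h0]
      simp [Point.some_ne_zero]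

end

end Pool.Agent.EFF

end

section


namespace Pool.Agent.EFF

open Polynomial WeierstrassCurve WeierstrassCurve.Affine

open scoped Classical

universe u v w

section

theorem h_cocyc {F : Type u} [Field F] (W : Affine F) (A B D : W.Point) :
    Nf W A B * Nf W (A + B) D *
      (CoordinateRing.mk W (C (Df W B D)) * CoordinateRing.mk W (C (Df W A (B + D)))) =
      Nf W B D * Nf W A (B + D) *
        (CoordinateRing.mk W (C (Df W A B)) * CoordinateRing.mk W (C (Df W (A + B) D))) := by
  obtain ⟨u, hu⟩ := h_unit W A B D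
  obtain ⟨a, ha, hua⟩ := h_units W u
  rw [hua] at hu
  obtain ⟨n1, d1, hn1, hd1, -⟩ := mon_N W A B
  obtain ⟨n2, d2, hn2, hd2, -⟩ := mon_N W (A + B) D
  obtain ⟨n3, d3, hn3, hd3, -⟩ := mon_N W B D
  obtain ⟨n4, d4, hn4, hd4, -⟩ := mon_N W A (B + D)
  have hL := mon_mul W _ _ _ _ (mon_mul W _ _ _ _ hn1 hn2) (mon_mul W _ _ _ _ hd3 hd4)
  have hR := mon_mul W _ _ _ _ (mon_mul W _ _ _ _ hn3 hn4) (mon_mul W _ _ _ _ hd1 hd2)
  rw [hu] at hL
  obtain ⟨h1, -⟩ := mon_uniq W _ _ _ a ha hR hL
  rw [hu, h1]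
  simp

end

end Pool.Agent.EFF

end

section


namespace Pool.Agent.EFF

open Polynomial WeierstrassCurve WeierstrassCurve.Affine

open scoped Classical

universe u v w

section

theorem h_symm {F : Type u} [Field F] (W : Affine F) (A B : W.Point) :
    Nf W A B = Nf W B A ∧ Df W A B = Df W B A := by
  match A, B with
  | 0, 0 => exact ⟨rfl, rfl⟩
  | 0, Point.some x y h => exact ⟨rfl, rfl⟩
  | Point.some x y h, 0 => exact ⟨rfl, rfl⟩
  | Point.some x₁ y₁ h₁, Point.some x₂ y₂ h₂ =>
    have hsw : (x₁ = x₂ ∧ y₁ = W.negY x₂ y₂) ↔ (x₂ = x₁ ∧ y₂ = W.negY x₁ y₁) := by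
      constructor
      · rintro ⟨rfl, rfl⟩
        exact ⟨rfl, (W.negY_negY _ _).symm⟩
      · rintro ⟨rfl, rfl⟩
        exact ⟨rfl, (W.negY_negY _ _).symm⟩
    by_cases hc : x₁ = x₂ ∧ y₁ = W.negY x₂ y₂
    · have hc' := hsw.1 hc
      refine ⟨?_, ?_⟩
      · show (if x₁ = x₂ ∧ y₁ = W.negY x₂ y₂ then CoordinateRing.XClass W x₁
          else CoordinateRing.YClass W (linePolynomial x₁ y₁ (W.slope x₁ x₂ y₁ y₂))) =
          (if x₂ = x₁ ∧ y₂ = W.negY x₁ y₁ then CoordinateRing.XClass W x₂
          else CoordinateRing.YClass W (linePolynomial x₂ y₂ (W.slope x₂ x₁ y₂ y₁)))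
        rw [if_pos hc, if_pos hc', hc.1]
      · show (if x₁ = x₂ ∧ y₁ = W.negY x₂ y₂ then (1 : F[X])
          else X - C (W.addX x₁ x₂ (W.slope x₁ x₂ y₁ y₂))) =
          (if x₂ = x₁ ∧ y₂ = W.negY x₁ y₁ then (1 : F[X])
          else X - C (W.addX x₂ x₁ (W.slope x₂ x₁ y₂ y₁)))
        rw [if_pos hc, if_pos hc']
    · have hc' : ¬ (x₂ = x₁ ∧ y₂ = W.negY x₁ y₁) := fun h => hc (hsw.2 h)
      have hline : linePolynomial x₁ y₁ (W.slope x₁ x₂ y₁ y₂) =
          linePolynomial x₂ y₂ (W.slope x₂ x₁ y₂ y₁) ∧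
          W.slope x₁ x₂ y₁ y₂ = W.slope x₂ x₁ y₂ y₁ := by
        by_cases hx : x₁ = x₂
        · subst hx
          have hy : y₁ ≠ W.negY x₁ y₂ := fun h => hc ⟨rfl, h⟩
          have hy2 : y₁ = y₂ := Y_eq_of_Y_ne h₁.1 h₂.1 rfl hy
          subst hy2
          exact ⟨rfl, rfl⟩
        · have hs : W.slope x₁ x₂ y₁ y₂ = W.slope x₂ x₁ y₂ y₁ := by
            rw [slope_of_X_ne hx, slope_of_X_ne (Ne.symm hx), ← neg_sub y₂ y₁, ← neg_sub x₂ x₁,
              neg_div_neg_eq]
          refine ⟨?_, hs⟩
          have h3 : W.slope x₁ x₂ y₁ y₂ * (x₁ - x₂) = y₁ - y₂ := by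
            rw [slope_of_X_ne hx]
            exact div_mul_cancel₀ _ (sub_ne_zero.2 hx)
          rw [← hs]
          generalize W.slope x₁ x₂ y₁ y₂ = s at h3
          have h4 : (C s * (C x₁ - C x₂) : F[X]) = C y₁ - C y₂ := by
            rw [← C_sub, ← C_mul, h3, C_sub]
          simp only [linePolynomial]
          linear_combination -h4
      refine ⟨?_, ?_⟩
      · show (if x₁ = x₂ ∧ y₁ = W.negY x₂ y₂ then CoordinateRing.XClass W x₁
          else CoordinateRing.YClass W (linePolynomial x₁ y₁ (W.slope x₁ x₂ y₁ y₂))) =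
          (if x₂ = x₁ ∧ y₂ = W.negY x₁ y₁ then CoordinateRing.XClass W x₂
          else CoordinateRing.YClass W (linePolynomial x₂ y₂ (W.slope x₂ x₁ y₂ y₁)))
        rw [if_neg hc, if_neg hc', hline.1]
      · show (if x₁ = x₂ ∧ y₁ = W.negY x₂ y₂ then (1 : F[X])
          else X - C (W.addX x₁ x₂ (W.slope x₁ x₂ y₁ y₂))) =
          (if x₂ = x₁ ∧ y₂ = W.negY x₁ y₁ then (1 : F[X])
          else X - C (W.addX x₂ x₁ (W.slope x₂ x₁ y₂ y₁)))
        rw [if_neg hc, if_neg hc', hline.2]
        have h5 : W.addX x₁ x₂ (W.slope x₂ x₁ y₂ y₁) = W.addX x₂ x₁ (W.slope x₂ x₁ y₂ y₁) := by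
          unfold addX
          ring
        rw [h5]

end

end Pool.Agent.EFF

end

section


namespace Pool.Agent.EFF

open Polynomial WeierstrassCurve WeierstrassCurve.Affine

open scoped Classical

universe u v w

section

theorem ev_basic {F : Type u} [Field F] (W : Affine F) {Ω : Type u} [Field Ω] [Algebra F Ω] (x y : Ω)
    (h : (W.baseChange Ω).toAffine.Equation x y) :
    (∀ p q : F[X], ev W x y h (p • (1 : W.CoordinateRing) + q • CoordinateRing.mk W X) =
      aeval x p + aeval x q * y) ∧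
    (∀ p : F[X], ev W x y h (CoordinateRing.mk W (C p)) = aeval x p) ∧
    (Transcendental F x → Function.Injective (ev W x y h)) := by
  have hmk : ∀ g : F[X][X], ev W x y h (CoordinateRing.mk W g) =
      g.eval₂ (aeval x : F[X] →ₐ[F] Ω).toRingHom y := fun g => AdjoinRoot.lift_mk _ _
  have hC : ∀ p : F[X], ev W x y h (CoordinateRing.mk W (C p)) = aeval x p := by
    intro p
    rw [hmk, eval₂_C]
    rfl
  have hX : ev W x y h (CoordinateRing.mk W X) = y := by
    rw [hmk, eval₂_X]
  have h1 : ∀ p q : F[X], ev W x y h (p • (1 : W.CoordinateRing) + q • CoordinateRing.mk W X) =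
      aeval x p + aeval x q * y := by
    intro p q
    rw [CoordinateRing.smul, CoordinateRing.smul, map_add, map_mul, map_mul, map_one, mul_one,
      hC, hC, hX]
  refine ⟨h1, hC, fun htr => ?_⟩
  rw [injective_iff_map_eq_zero]
  intro f hf
  obtain ⟨p, q, rfl⟩ := CoordinateRing.exists_smul_basis_eq f
  have hN := CoordinateRing.coe_norm_smul_basis (W' := W) p q
  have hfm : p • (1 : W.CoordinateRing) + q • CoordinateRing.mk W X =
      CoordinateRing.mk W (C p + C q * X) := by
    rw [CoordinateRing.smul, CoordinateRing.smul, mul_one, map_add, map_mul]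
  have hN2 : ev W x y h (CoordinateRing.mk W
      (C (Algebra.norm F[X] (p • (1 : W.CoordinateRing) + q • CoordinateRing.mk W X)))) = 0 := by
    have h3 : CoordinateRing.mk W
      (C (Algebra.norm F[X] (p • (1 : W.CoordinateRing) + q • CoordinateRing.mk W X))) =
      CoordinateRing.mk W ((C p + C q * X) *
        (C p + C q * (-(X : F[X][X]) - C (C W.a₁ * X + C W.a₃)))) := hN
    rw [h3, map_mul, map_mul, ← hfm, hf, zero_mul]
  rw [hC] at hN2
  have hN3 : Algebra.norm F[X] (p • (1 : W.CoordinateRing) + q • CoordinateRing.mk W X) = 0 := by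
    by_contra hne
    exact htr ⟨_, hne, hN2⟩
  have hdeg := CoordinateRing.degree_norm_smul_basis (W' := W) p q
  rw [hN3, degree_zero] at hdeg
  have hp : p = 0 := by
    by_contra hp
    have h4 : (2 • p.degree) ≤ ⊥ := by
      rw [hdeg]
      exact le_max_left _ _
    rw [le_bot_iff, degree_eq_natDegree hp, two_nsmul, ← Nat.cast_add] at h4
    exact WithBot.natCast_ne_bot _ h4
  have hq : q = 0 := by
    by_contra hq
    have h4 : (2 • q.degree + 3) ≤ ⊥ := by
      rw [hdeg]
      exact le_max_right _ _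
    have h5 : ((q.natDegree + q.natDegree + 3 : ℕ) : WithBot ℕ) ≤ ⊥ := by
      rw [degree_eq_natDegree hq, two_nsmul] at h4
      exact_mod_cast h4
    exact WithBot.natCast_ne_bot _ (le_bot_iff.1 h5)
  rw [hp, hq, zero_smul, zero_smul, add_zero]

end

end Pool.Agent.EFF

end

section


namespace Pool.Agent.EFF

open Polynomial WeierstrassCurve WeierstrassCurve.Affine

open scoped Classical

universe u v w

section

private theorem h_equi_evX {F : Type u} [Field F] (W : Affine F) {Ω : Type u} [Field Ω] [Algebra F Ω]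
    (x y : Ω) (h : (W.baseChange Ω).toAffine.Equation x y) (a : F) :
    ev W x y h (CoordinateRing.XClass W a) = x - algebraMap F Ω a := by
  rw [CoordinateRing.XClass, CoordinateRing.mk, ev, AdjoinRoot.lift_mk, eval₂_C]
  simp

private theorem h_equi_evY {F : Type u} [Field F] (W : Affine F) {Ω : Type u} [Field Ω] [Algebra F Ω]
    (x y : Ω) (h : (W.baseChange Ω).toAffine.Equation x y) (a b l : F) :
    ev W x y h (CoordinateRing.YClass W (linePolynomial a b l)) =
      y - (algebraMap F Ω l * (x - algebraMap F Ω a) + algebraMap F Ω b) := by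
  rw [CoordinateRing.YClass, CoordinateRing.mk, ev, AdjoinRoot.lift_mk, eval₂_sub, eval₂_X, eval₂_C,
    linePolynomial]
  simp

theorem h_equi {K Kb F Ω : Type u} [Field K] [Field Kb] [Field F] [Field Ω] [Algebra K Kb] [Algebra K F]
    [Algebra Kb Ω] [Algebra F Ω] [Algebra K Ω] [IsScalarTower K Kb Ω] [IsScalarTower K F Ω]
    [IsAlgClosed Kb] [Algebra.IsAlgebraic K Kb] (W : WeierstrassCurve K) (x y : Ω)
    (hT : ((W.baseChange Kb).toAffine.baseChange Ω).toAffine.Equation x y) (σ : Ω ≃ₐ[F] Ω)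
    (hx : σ x = x) (hy : σ y = y) (A B : Pts W Kb) :
    σ (ev (W.baseChange Kb).toAffine x y hT (Nf (W.baseChange Kb).toAffine A B)) =
      ev (W.baseChange Kb).toAffine x y hT (Nf (W.baseChange Kb).toAffine
        (act W (rk K Kb σ) A) (act W (rk K Kb σ) B)) ∧
    σ (aeval x (Df (W.baseChange Kb).toAffine A B)) =
      aeval x (Df (W.baseChange Kb).toAffine (act W (rk K Kb σ) A) (act W (rk K Kb σ) B)) := by
  rcases A with _ | ⟨x₁, y₁, h₁⟩
  · have e1 : act W (rk K Kb σ) Point.zero = Point.zero := rfl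
    rw [e1]
    constructor
    · change σ (ev (W.baseChange Kb).toAffine x y hT 1) = ev (W.baseChange Kb).toAffine x y hT 1
      rw [map_one, map_one]
    · change σ (aeval x (1 : Kb[X])) = aeval x (1 : Kb[X])
      rw [map_one, map_one]
  rcases B with _ | ⟨x₂, y₂, h₂⟩
  · have e1 : act W (rk K Kb σ) Point.zero = Point.zero := rfl
    rw [e1]
    constructor
    · change σ (ev (W.baseChange Kb).toAffine x y hT 1) = ev (W.baseChange Kb).toAffine x y hT 1
      rw [map_one, map_one]
    · change σ (aeval x (1 : Kb[X])) = aeval x (1 : Kb[X])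
      rw [map_one, map_one]
  obtain ⟨g, hg⟩ : ∃ g : Kb ≃ₐ[K] Kb, g = rk K Kb σ := ⟨_, rfl⟩
  have hga : ∀ a : Kb, σ (algebraMap Kb Ω a) = algebraMap Kb Ω (g a) := fun a => by
    rw [hg, rk_apply]
  rw [← hg]
  have hneg : ∀ a b : Kb, (W.baseChange Kb).toAffine.negY (g a) (g b) =
      g ((W.baseChange Kb).toAffine.negY a b) := fun a b =>
    WeierstrassCurve.Affine.baseChange_negY (W' := W) (f := g.toAlgHom) a b
  have hslope : (W.baseChange Kb).toAffine.slope (g x₁) (g x₂) (g y₁) (g y₂) =
      g ((W.baseChange Kb).toAffine.slope x₁ x₂ y₁ y₂) :=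
    WeierstrassCurve.Affine.baseChange_slope (W' := W) (f := g.toAlgHom) x₁ x₂ y₁ y₂
  have haddX : ∀ l : Kb, (W.baseChange Kb).toAffine.addX (g x₁) (g x₂) (g l) =
      g ((W.baseChange Kb).toAffine.addX x₁ x₂ l) := fun l =>
    WeierstrassCurve.Affine.baseChange_addX (W' := W) (f := g.toAlgHom) x₁ x₂ l
  have hcond : (g x₁ = g x₂ ∧ g y₁ = (W.baseChange Kb).toAffine.negY (g x₂) (g y₂)) ↔
      (x₁ = x₂ ∧ y₁ = (W.baseChange Kb).toAffine.negY x₂ y₂) := by
    rw [hneg, g.injective.eq_iff, g.injective.eq_iff]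
  have hN : ∀ (a b c d : Kb) ha hb, Nf (W.baseChange Kb).toAffine (Point.some a b ha) (Point.some c d hb) =
      if a = c ∧ b = (W.baseChange Kb).toAffine.negY c d then
        CoordinateRing.XClass (W.baseChange Kb).toAffine a
      else CoordinateRing.YClass (W.baseChange Kb).toAffine
        (linePolynomial a b ((W.baseChange Kb).toAffine.slope a c b d)) := fun _ _ _ _ _ _ => rfl
  have hD : ∀ (a b c d : Kb) ha hb, Df (W.baseChange Kb).toAffine (Point.some a b ha) (Point.some c d hb) =
      if a = c ∧ b = (W.baseChange Kb).toAffine.negY c d then 1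
      else X - C ((W.baseChange Kb).toAffine.addX a c ((W.baseChange Kb).toAffine.slope a c b d)) :=
    fun _ _ _ _ _ _ => rfl
  have hA : act W g (Point.some x₁ y₁ h₁) = Point.some (g x₁) (g y₁)
    ((WeierstrassCurve.Affine.baseChange_nonsingular W (f := g.toAlgHom) g.injective _ _).mpr h₁) := rfl
  have hB : act W g (Point.some x₂ y₂ h₂) = Point.some (g x₂) (g y₂)
    ((WeierstrassCurve.Affine.baseChange_nonsingular W (f := g.toAlgHom) g.injective _ _).mpr h₂) := rfl
  rw [hA, hB, hN, hN, hD, hD]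
  by_cases hc : x₁ = x₂ ∧ y₁ = (W.baseChange Kb).toAffine.negY x₂ y₂
  · rw [if_pos hc, if_pos hc, if_pos (hcond.2 hc), if_pos (hcond.2 hc)]
    refine ⟨?_, by rw [map_one, map_one]⟩
    rw [h_equi_evX, h_equi_evX, map_sub, hx, hga]
  · rw [if_neg hc, if_neg hc, if_neg (fun h => hc (hcond.1 h)), if_neg (fun h => hc (hcond.1 h))]
    constructor
    · rw [h_equi_evY, h_equi_evY, hslope, map_sub, map_add, map_mul, map_sub, hx, hy, hga, hga, hga]
    · rw [hslope, haddX]
      simp only [map_sub, aeval_X, aeval_C, hx, hga]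

end

end Pool.Agent.EFF

end

section


namespace Pool.Agent.EFF

open Polynomial WeierstrassCurve WeierstrassCurve.Affine

open scoped Classical

universe u v w

section

private theorem gen_ex_Df_ne {F : Type u} [Field F] (W : Affine F) (A B : W.Point) : Df W A B ≠ 0 := by
  rcases A with _ | ⟨x₁, y₁, h₁⟩
  · exact one_ne_zero
  · rcases B with _ | ⟨x₂, y₂, h₂⟩
    · exact one_ne_zero
    · change (if x₁ = x₂ ∧ y₁ = W.negY x₂ y₂ then (1 : F[X])
        else X - C (W.addX x₁ x₂ (W.slope x₁ x₂ y₁ y₂))) ≠ 0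
      split_ifs
      · exact one_ne_zero
      · exact X_sub_C_ne_zero _

private theorem gen_ex_Nf_ne {F : Type u} [Field F] (W : Affine F) (A B : W.Point) : Nf W A B ≠ 0 := by
  rcases A with _ | ⟨x₁, y₁, h₁⟩
  · exact one_ne_zero
  · rcases B with _ | ⟨x₂, y₂, h₂⟩
    · exact one_ne_zero
    · change (if x₁ = x₂ ∧ y₁ = W.negY x₂ y₂ then CoordinateRing.XClass W x₁
        else CoordinateRing.YClass W (linePolynomial x₁ y₁ (W.slope x₁ x₂ y₁ y₂))) ≠ 0
      split_ifs
      · exact CoordinateRing.XClass_ne_zero _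
      · exact CoordinateRing.YClass_ne_zero _

theorem gen_ex {K Kb F Ω : Type u} [Field K] [Field Kb] [Field F] [Field Ω] [Algebra K Kb] [Algebra K F]
    [Algebra Kb Ω] [Algebra F Ω] [Algebra K Ω] [IsScalarTower K Kb Ω] [IsScalarTower K F Ω]
    [IsAlgClosed Kb] [Algebra.IsAlgebraic K Kb] (W : WeierstrassCurve K) (x y : Ω)
    (hT : ((W.baseChange Kb).toAffine.baseChange Ω).toAffine.Equation x y)
    (hx : Transcendental Kb x) (halg : ∀ t : Ω, IsAlgebraic (IntermediateField.adjoin Kb {x}) t)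
    (hmem : x ∈ Set.range (algebraMap F Ω) ∧ y ∈ Set.range (algebraMap F Ω)) :
    ∃ H : Pts W Kb → Pts W Kb → Ωˣ, Gen W F x y hT H := by
  set W' := (W.baseChange Kb).toAffine with hW'
  obtain ⟨_, hevC, hevI⟩ := ev_basic W' x y hT
  have hI := hevI hx
  have hd : ∀ A B : W'.Point, aeval x (Df W' A B) ≠ 0 := fun A B h0 =>
    gen_ex_Df_ne W' A B ((transcendental_iff_injective.1 hx) (by rw [h0, map_zero]))
  have hn : ∀ A B : W'.Point, ev W' x y hT (Nf W' A B) ≠ 0 := fun A B h0 =>
    gen_ex_Nf_ne W' A B (hI (by rw [h0, map_zero]))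
  have hq : ∀ A B : W'.Point, ev W' x y hT (Nf W' A B) / aeval x (Df W' A B) ≠ 0 := fun A B =>
    div_ne_zero (hn A B) (hd A B)
  refine ⟨fun A B => Units.mk0 _ (hq A B), hx, halg, hmem, ?_, ?_⟩
  · intro A B
    simp only [Units.val_mk0]
    exact div_mul_cancel₀ _ (hd A B)
  · refine ⟨?_, ?_, ?_, ?_⟩
    · intro A B
      apply Units.ext
      simp only [Units.val_mk0]
      rw [(h_symm W' A B).1, (h_symm W' A B).2]
    · intro B
      apply Units.ext
      simp only [Units.val_mk0, Units.val_one]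
      have h1 : Nf W' 0 B = 1 := rfl
      have h2 : Df W' 0 B = 1 := rfl
      rw [h1, h2, map_one, map_one, div_one]
    · intro A B D
      apply Units.ext
      simp only [Units.val_mul, Units.val_mk0]
      have h := congrArg (ev W' x y hT) (h_cocyc W' A B D)
      simp only [map_mul, hevC] at h
      rw [div_mul_div_comm, div_mul_div_comm, div_eq_div_iff (mul_ne_zero (hd _ _) (hd _ _))
        (mul_ne_zero (hd _ _) (hd _ _))]
      linear_combination h
    · intro σ A B
      apply Units.ext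
      have hσx : σ x = x := by
        obtain ⟨a, ha⟩ := hmem.1
        rw [← ha, σ.commutes]
      have hσy : σ y = y := by
        obtain ⟨a, ha⟩ := hmem.2
        rw [← ha, σ.commutes]
      obtain ⟨e1, e2⟩ := h_equi W x y hT σ hσx hσy A B
      change σ (ev W' x y hT (Nf W' A B) / aeval x (Df W' A B)) =
        ev W' x y hT (Nf W' (act W (rk K Kb σ) A) (act W (rk K Kb σ) B)) /
          aeval x (Df W' (act W (rk K Kb σ) A) (act W (rk K Kb σ) B))
      rw [map_div₀]
      exact congrArg₂ (· / ·) e1 e2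

end

end Pool.Agent.EFF

end
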