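import Pool.Agent.EFM.Defs
import Pool.Agent.T1B.Transfer
import Pool.Agent.T1B.Transfer2

/-!
# The cochains attached to crossed homomorphisms
-/

set_option autoImplicit false

section


namespace Pool.Agent.EFF

open Polynomial WeierstrassCurve WeierstrassCurve.Affine

open scoped Classical

universe u v w

section

variable {K Kb F Ω : Type u} [Field K] [Field Kb] [Field F] [Field Ω] [Algebra K Kb] [Algebra K F]
  [Algebra Kb Ω] [Algebra F Ω] [Algebra K Ω] [IsScalarTower K Kb Ω] [IsScalarTower K F Ω]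
  [IsAlgClosed Kb] [Algebra.IsAlgebraic K Kb] (W : WeierstrassCurve K)

omit [IsAlgClosed Kb] [Algebra.IsAlgebraic K Kb] in
private theorem c_fin_act_one (P : Pts W Kb) : act W 1 P = P := by
  cases P with
  | zero => exact map_zero _
  | some x y h => rfl

/-- the coordinates of a point -/
private noncomputable def c_fin_coord : Pts W Kb → Finset Kb
  | 0 => ∅
  | Point.some x y _ => {x, y}

omit [IsAlgClosed Kb] [Algebra.IsAlgebraic K Kb] in
private theorem c_fin_act_congr (g g' : Kb ≃ₐ[K] Kb) (P : Pts W Kb)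
    (h : ∀ a ∈ c_fin_coord W P, g a = g' a) : act W g P = act W g' P := by
  cases P with
  | zero => exact (map_zero _).trans (map_zero _).symm
  | some x y hxy =>
    have hx : g x = g' x := h x (by simp [c_fin_coord])
    have hy : g y = g' y := h y (by simp [c_fin_coord])
    change Point.map g.toAlgHom (Point.some x y hxy) = Point.map g'.toAlgHom (Point.some x y hxy)
    rw [Point.map_some, Point.map_some]
    congr 1

theorem c_fin (c : (Kb ≃ₐ[K] Kb) → Pts W Kb) (hc : Crossed W c) :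
    ∃ S : Finset Kb, (∀ g g' : Kb ≃ₐ[K] Kb, (∀ a ∈ S, g a = g' a) → c g = c g') ∧
      (∀ (g g' h : Kb ≃ₐ[K] Kb), (∀ a ∈ S, g a = g' a) → act W g (c h) = act W g' (c h)) := by
  obtain ⟨hlc, hcr⟩ := hc
  have h1 : c 1 = 0 := by
    have h2 := hcr 1 1
    rw [mul_one] at h2
    have h3 : act W 1 (c 1) = c 1 := c_fin_act_one W (c 1)
    rw [h3] at h2
    simpa using h2
  have h4 : {g : Kb ≃ₐ[K] Kb | c g = 0} ∈ nhds (1 : Kb ≃ₐ[K] Kb) := by
    have h5 : IsOpen {g : Kb ≃ₐ[K] Kb | c g = 0} := hlc.isOpen_fiber 0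
    exact h5.mem_nhds h1
  rw [krullTopology_mem_nhds_one_iff] at h4
  obtain ⟨L, hL, hLs⟩ := h4
  haveI : FiniteDimensional K L := hL
  let b := Module.finBasis K L
  let S0 : Finset Kb := Finset.univ.image (fun i => ((b i : L) : Kb))
  have hS0 : ∀ g g' : Kb ≃ₐ[K] Kb, (∀ a ∈ S0, g a = g' a) → ∀ a : L, g (a : Kb) = g' (a : Kb) := by
    intro g g' hgg a
    have h6 : (g.toLinearMap.comp L.val.toLinearMap) = (g'.toLinearMap.comp L.val.toLinearMap) := by
      apply b.ext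
      intro i
      exact hgg _ (Finset.mem_image_of_mem _ (Finset.mem_univ i))
    exact LinearMap.congr_fun h6 a
  have hc0 : ∀ g g' : Kb ≃ₐ[K] Kb, (∀ a : L, g (a : Kb) = g' (a : Kb)) → c g = c g' := by
    intro g g' hgg
    have h7 : g' = g * (g⁻¹ * g') := by group
    have h8 : (g⁻¹ * g') ∈ L.fixingSubgroup := by
      rw [IntermediateField.mem_fixingSubgroup_iff]
      intro x hx
      have h9 := hgg ⟨x, hx⟩
      change g x = g' x at h9
      rw [AlgEquiv.mul_apply, ← h9]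
      exact AlgEquiv.symm_apply_apply g x
    have h10 : c (g⁻¹ * g') = 0 := hLs h8
    rw [h7, hcr, h10, map_zero, add_zero]
  have hfin : (Set.range c).Finite := by
    let Fm : (L →ₐ[K] Kb) → Pts W Kb := fun φ =>
      if h : ∃ g : Kb ≃ₐ[K] Kb, g.toAlgHom.comp L.val = φ then c h.choose else 0
    refine (Set.finite_range Fm).subset ?_
    rintro _ ⟨g, rfl⟩
    refine ⟨g.toAlgHom.comp L.val, ?_⟩
    have h11 : ∃ g' : Kb ≃ₐ[K] Kb, g'.toAlgHom.comp L.val = g.toAlgHom.comp L.val := ⟨g, rfl⟩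
    have h12 : Fm (g.toAlgHom.comp L.val) = c h11.choose := dif_pos h11
    rw [h12]
    apply hc0
    intro a
    exact DFunLike.congr_fun h11.choose_spec a
  refine ⟨S0 ∪ hfin.toFinset.biUnion (c_fin_coord W), ?_, ?_⟩
  · intro g g' hgg
    exact hc0 g g' (hS0 g g' fun a ha => hgg a (Finset.mem_union_left _ ha))
  · intro g g' h hgg
    apply c_fin_act_congr W g g' (c h)
    intro a ha
    apply hgg
    refine Finset.mem_union_right _ (Finset.mem_biUnion.2 ⟨c h, ?_, ha⟩)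
    rw [Set.Finite.mem_toFinset]
    exact ⟨h, rfl⟩

end

end Pool.Agent.EFF

end

section


namespace Pool.Agent.EFF

open Polynomial WeierstrassCurve WeierstrassCurve.Affine

open scoped Classical

universe u v w

section

variable {K Kb F Ω : Type u} [Field K] [Field Kb] [Field F] [Field Ω] [Algebra K Kb] [Algebra K F]
  [Algebra Kb Ω] [Algebra F Ω] [Algebra K Ω] [IsScalarTower K Kb Ω] [IsScalarTower K F Ω]
  [IsAlgClosed Kb] [Algebra.IsAlgebraic K Kb] (W : WeierstrassCurve K)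
theorem s_lc (H : Pts W Kb → Pts W Kb → Ωˣ) (c : (Kb ≃ₐ[K] Kb) → Pts W Kb) (hc : Crossed W c) :
    T1B.LC2 (fc W F H c) := by
  obtain ⟨S, hS1, hS2⟩ := c_fin W c hc
  refine ⟨IntermediateField.adjoin F ((S.image (algebraMap Kb Ω) : Finset Ω) : Set Ω), ?_, ?_⟩
  · apply IntermediateField.finiteDimensional_adjoin
    intro x hx
    rw [Finset.coe_image] at hx
    obtain ⟨a, -, rfl⟩ := hx
    have h1 : IsAlgebraic K a := Algebra.IsAlgebraic.isAlgebraic a
    have h2 : IsAlgebraic K (algebraMap Kb Ω a) := h1.algebraMap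
    have h3 : IsAlgebraic F (algebraMap Kb Ω a) := h2.extendScalars (algebraMap K F).injective
    exact h3.isIntegral
  · intro σ σ' τ τ' hσ hτ
    have key : ∀ ρ ρ' : Ω ≃ₐ[F] Ω, (∀ x ∈ IntermediateField.adjoin F
        ((S.image (algebraMap Kb Ω) : Finset Ω) : Set Ω), ρ x = ρ' x) →
        ∀ a ∈ S, rk K Kb ρ a = rk K Kb ρ' a := by
      intro ρ ρ' h a ha
      apply (algebraMap Kb Ω).injective
      rw [rk_apply, rk_apply]
      apply h
      apply IntermediateField.subset_adjoin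
      exact Finset.mem_coe.2 (Finset.mem_image_of_mem _ ha)
    have h1 := hS1 _ _ (key σ σ' hσ)
    have h2 := hS1 _ _ (key τ τ' hτ)
    have h3 := hS2 _ _ (rk K Kb τ') (key σ σ' hσ)
    unfold fc
    rw [h1, h2, h3]

end

end Pool.Agent.EFF

end

section


namespace Pool.Agent.EFF

open Polynomial WeierstrassCurve WeierstrassCurve.Affine

open scoped Classical

universe u v w

section

variable {K Kb F Ω : Type u} [Field K] [Field Kb] [Field F] [Field Ω] [Algebra K Kb] [Algebra K F]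
  [Algebra Kb Ω] [Algebra F Ω] [Algebra K Ω] [IsScalarTower K Kb Ω] [IsScalarTower K F Ω]
  [IsAlgClosed Kb] [Algebra.IsAlgebraic K Kb] (W : WeierstrassCurve K)
theorem s_coc (H : Pts W Kb → Pts W Kb → Ωˣ) (hH : HFun W F H) (c : (Kb ≃ₐ[K] Kb) → Pts W Kb)
    (hc : ∀ σ τ : Kb ≃ₐ[K] Kb, c (σ * τ) = c σ + act W σ (c τ)) (N : Subgroup (Ω ≃ₐ[F] Ω)) :
    T1B.Coc N (fc W F H c) := by
  intro σ _ τ _ ρ _
  have hact : ∀ (g h : Kb ≃ₐ[K] Kb) (P : Pts W Kb), act W (g * h) P = act W g (act W h P) := by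
    intro g h P
    have h1 := Point.map_map (W' := W) (f := h.toAlgHom) (g := g.toAlgHom) P
    exact h1.symm
  unfold fc
  rw [hH.equi, map_mul, map_mul, hc, hc, hact, map_add, hH.assoc]

end

end Pool.Agent.EFF

end

section


namespace Pool.Agent.EFF

open Polynomial WeierstrassCurve WeierstrassCurve.Affine

open scoped Classical

universe u v w

section

variable {K Kb F Ω : Type u} [Field K] [Field Kb] [Field F] [Field Ω] [Algebra K Kb] [Algebra K F]
  [Algebra Kb Ω] [Algebra F Ω] [Algebra K Ω] [IsScalarTower K Kb Ω] [IsScalarTower K F Ω]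
  [IsAlgClosed Kb] [Algebra.IsAlgebraic K Kb] (W : WeierstrassCurve K)
private theorem s_triv_ext (S : Finset Kb) : ∃ E : IntermediateField F Ω, FiniteDimensional F E ∧
    ∀ σ σ' : Ω ≃ₐ[F] Ω, (∀ x ∈ E, σ x = σ' x) → ∀ a ∈ S, rk K Kb σ a = rk K Kb σ' a := by
  refine ⟨IntermediateField.adjoin F (algebraMap Kb Ω '' (S : Set Kb)), ?_, ?_⟩
  · have hf : Finite ↥(algebraMap Kb Ω '' (S : Set Kb)) := (S.finite_toSet.image _).to_subtype
    refine IntermediateField.finiteDimensional_adjoin ?_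
    rintro _ ⟨a, -, rfl⟩
    have h1 : IsIntegral K a := (Algebra.IsAlgebraic.isAlgebraic (R := K) a).isIntegral
    have h2 : IsIntegral K (algebraMap Kb Ω a) := h1.map (IsScalarTower.toAlgHom K Kb Ω)
    exact h2.tower_top
  · intro σ σ' h a ha
    apply (algebraMap Kb Ω).injective
    rw [rk_apply, rk_apply]
    exact h _ (IntermediateField.subset_adjoin F _ ⟨a, ha, rfl⟩)

omit [IsAlgClosed Kb] [Algebra.IsAlgebraic K Kb] in
private theorem s_triv_pt (R : Pts W Kb) : ∃ S : Finset Kb,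
    ∀ g g' : Kb ≃ₐ[K] Kb, (∀ a ∈ S, g a = g' a) → act W g R = act W g' R := by
  cases R with
  | zero => exact ⟨∅, fun g g' _ => (map_zero (act W g)).trans (map_zero (act W g')).symm⟩
  | some x y hxy =>
    refine ⟨{x, y}, fun g g' h => ?_⟩
    have hx : g x = g' x := h x (by simp)
    have hy : g y = g' y := h y (by simp)
    change Point.map g.toAlgHom (Point.some x y hxy) = Point.map g'.toAlgHom (Point.some x y hxy)
    rw [Point.map_some, Point.map_some]
    congr 1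

omit [IsAlgClosed Kb] [Algebra.IsAlgebraic K Kb] in
private theorem s_triv_mul (g h : Kb ≃ₐ[K] Kb) (P : Pts W Kb) :
    act W (g * h) P = act W g (act W h P) := by
  cases P with
  | zero =>
    have h1 : act W h 0 = 0 := map_zero _
    have h2 : act W g 0 = 0 := map_zero _
    have h3 : act W (g * h) 0 = 0 := map_zero _
    show act W (g * h) 0 = act W g (act W h 0)
    rw [h1, h2, h3]
  | some x y hxy => rfl

theorem s_triv (H : Pts W Kb → Pts W Kb → Ωˣ) (hH : HFun W F H) (c : (Kb ≃ₐ[K] Kb) → Pts W Kb)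
    (D : Subgroup (Ω ≃ₐ[F] Ω)) (R : Pts W Kb)
    (hR : ∀ σ ∈ D, c (rk K Kb σ) = act W (rk K Kb σ) R - R) :
    T1B.Triv D (fc W F H c) := by
  obtain ⟨S, hS⟩ := s_triv_pt W R
  obtain ⟨E, hE, hEr⟩ := s_triv_ext (K := K) (Kb := Kb) (F := F) (Ω := Ω) S
  refine ⟨fun σ => H (act W (rk K Kb σ) R - R) R, ⟨E, hE, fun σ σ' h => ?_⟩,
    fun σ hσ τ hτ => ?_⟩
  · show H (act W (rk K Kb σ) R - R) R = H (act W (rk K Kb σ') R - R) R
    rw [hS _ _ (hEr σ σ' h)]
  · show H (c (rk K Kb σ)) (act W (rk K Kb σ) (c (rk K Kb τ))) *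
        H (act W (rk K Kb (σ * τ)) R - R) R =
      H (act W (rk K Kb σ) R - R) R * σ • H (act W (rk K Kb τ) R - R) R
    rw [hR σ hσ, hR τ hτ, hH.equi, map_mul, s_triv_mul, map_sub]
    generalize act W (rk K Kb σ) (act W (rk K Kb τ) R) = T
    generalize act W (rk K Kb σ) R = U
    have h1 := hH.assoc (U - R) (T - U) R
    have h2 := hH.assoc (U - R) R (T - U)
    rw [show U - R + (T - U) = T - R by abel] at h1
    rw [show U - R + R = U by abel, add_comm R (T - U), hH.symm U (T - U),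
      hH.symm R (T - U)] at h2
    rw [h1, h2]

end

end Pool.Agent.EFF

end

section


namespace Pool.Agent.EFF

open Polynomial WeierstrassCurve WeierstrassCurve.Affine

open scoped Classical

universe u v w

section

variable {K Kb F Ω : Type u} [Field K] [Field Kb] [Field F] [Field Ω] [Algebra K Kb] [Algebra K F]
  [Algebra Kb Ω] [Algebra F Ω] [Algebra K Ω] [IsScalarTower K Kb Ω] [IsScalarTower K F Ω]
  [IsAlgClosed Kb] [Algebra.IsAlgebraic K Kb] (W : WeierstrassCurve K)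
private theorem s_add_ext (S : Finset Kb) : ∃ E : IntermediateField F Ω, FiniteDimensional F E ∧
    ∀ σ σ' : Ω ≃ₐ[F] Ω, (∀ x ∈ E, σ x = σ' x) → ∀ a ∈ S, rk K Kb σ a = rk K Kb σ' a := by
  refine ⟨IntermediateField.adjoin F (algebraMap Kb Ω '' (S : Set Kb)), ?_, ?_⟩
  · have hf : Finite ↥(algebraMap Kb Ω '' (S : Set Kb)) := (S.finite_toSet.image _).to_subtype
    refine IntermediateField.finiteDimensional_adjoin ?_
    rintro _ ⟨a, -, rfl⟩
    have h1 : IsIntegral K a := (Algebra.IsAlgebraic.isAlgebraic (R := K) a).isIntegral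
    have h2 : IsIntegral K (algebraMap Kb Ω a) := h1.map (IsScalarTower.toAlgHom K Kb Ω)
    exact h2.tower_top
  · intro σ σ' h a ha
    apply (algebraMap Kb Ω).injective
    rw [rk_apply, rk_apply]
    exact h _ (IntermediateField.subset_adjoin F _ ⟨a, ha, rfl⟩)

theorem s_add (H : Pts W Kb → Pts W Kb → Ωˣ) (hH : HFun W F H) (c c' : (Kb ≃ₐ[K] Kb) → Pts W Kb)
    (hc : Crossed W c) (hc' : Crossed W c') (N : Subgroup (Ω ≃ₐ[F] Ω)) :
    T1B.Triv N (fun σ τ => fc W F H (fun g => c g + c' g) σ τ *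
      (fc W F H c σ τ * fc W F H c' σ τ)⁻¹) := by
  obtain ⟨S, hS, hS2⟩ := c_fin W c hc
  obtain ⟨S', hS', hS'2⟩ := c_fin W c' hc'
  obtain ⟨E, hE, hEr⟩ := s_add_ext (K := K) (Kb := Kb) (F := F) (Ω := Ω) (S ∪ S')
  refine ⟨fun σ => (H (c (rk K Kb σ)) (c' (rk K Kb σ)))⁻¹, ⟨E, hE, fun σ σ' h => ?_⟩,
    fun σ _ τ _ => ?_⟩
  · have h1 := hEr σ σ' h
    show (H (c (rk K Kb σ)) (c' (rk K Kb σ)))⁻¹ = (H (c (rk K Kb σ')) (c' (rk K Kb σ')))⁻¹
    rw [hS _ _ fun a ha => h1 a (Finset.mem_union_left _ ha),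
      hS' _ _ fun a ha => h1 a (Finset.mem_union_right _ ha)]
  · have e1 : c (rk K Kb (σ * τ)) = c (rk K Kb σ) + act W (rk K Kb σ) (c (rk K Kb τ)) := by
      rw [map_mul]
      exact hc.2 _ _
    have e2 : c' (rk K Kb (σ * τ)) = c' (rk K Kb σ) + act W (rk K Kb σ) (c' (rk K Kb τ)) := by
      rw [map_mul]
      exact hc'.2 _ _
    show H (c (rk K Kb σ) + c' (rk K Kb σ))
        (act W (rk K Kb σ) (c (rk K Kb τ) + c' (rk K Kb τ))) *
      (H (c (rk K Kb σ)) (act W (rk K Kb σ) (c (rk K Kb τ))) *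
        H (c' (rk K Kb σ)) (act W (rk K Kb σ) (c' (rk K Kb τ))))⁻¹ *
      (H (c (rk K Kb (σ * τ))) (c' (rk K Kb (σ * τ))))⁻¹ =
      (H (c (rk K Kb σ)) (c' (rk K Kb σ)))⁻¹ * σ • (H (c (rk K Kb τ)) (c' (rk K Kb τ)))⁻¹
    rw [e1, e2, map_add, smul_inv', hH.equi]
    generalize c (rk K Kb σ) = A
    generalize act W (rk K Kb σ) (c (rk K Kb τ)) = B
    generalize c' (rk K Kb σ) = A'
    generalize act W (rk K Kb σ) (c' (rk K Kb τ)) = B'
    have h1 := congrArg Additive.ofMul (hH.assoc A A' (B + B'))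
    have h2 := congrArg Additive.ofMul (hH.assoc A' B B')
    have h3 := congrArg Additive.ofMul (hH.assoc A B (A' + B'))
    have h4 := congrArg Additive.ofMul (hH.assoc B A' B')
    have e3 : A' + (B + B') = B + (A' + B') := by abel
    have e4 : A' + B = B + A' := add_comm _ _
    rw [e3] at h1
    rw [e4, hH.symm A' B] at h2
    simp only [ofMul_mul] at h1 h2 h3 h4
    apply Additive.ofMul.injective
    simp only [ofMul_mul, ofMul_inv]
    have h5 := congrArg₂ (· - ·) (congrArg₂ (· + ·) h1 h4) (congrArg₂ (· + ·) h2 h3)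
    rw [← sub_eq_zero]
    rw [← sub_eq_zero] at h5
    have h6 : ∀ x y : Additive Ωˣ, x = 0 → y = x → y = 0 := fun x y h h' => h'.trans h
    refine h6 _ _ h5 ?_
    abel

end

end Pool.Agent.EFF

end

section


namespace Pool.Agent.EFF

open Polynomial WeierstrassCurve WeierstrassCurve.Affine

open scoped Classical

universe u v w

section

variable {K Kb F Ω : Type u} [Field K] [Field Kb] [Field F] [Field Ω] [Algebra K Kb] [Algebra K F]
  [Algebra Kb Ω] [Algebra F Ω] [Algebra K Ω] [IsScalarTower K Kb Ω] [IsScalarTower K F Ω]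
  [IsAlgClosed Kb] [Algebra.IsAlgebraic K Kb] (W : WeierstrassCurve K)
theorem s_smul (H : Pts W Kb → Pts W Kb → Ωˣ) (hH : HFun W F H) (c : (Kb ≃ₐ[K] Kb) → Pts W Kb)
    (hc : Crossed W c) (n : ℕ) (N : Subgroup (Ω ≃ₐ[F] Ω)) :
    T1B.Triv N (fun σ τ => fc W F H (fun g => n • c g) σ τ * (fc W F H c σ τ ^ n)⁻¹) := by
  induction n with
  | zero =>
    refine ⟨fun _ => 1, T1B.LC1.one, fun σ _ τ _ => ?_⟩
    simp [fc, hH.zero]
  | succ n ih =>
    have hn : Crossed W (fun g => n • c g) := by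
      refine ⟨hc.1.comp (fun P => n • P), fun σ τ => ?_⟩
      show n • c (σ * τ) = n • c σ + act W σ (n • c τ)
      rw [hc.2, nsmul_add, map_nsmul]
    have h1 := s_add W H hH (fun g => n • c g) c hn hc N
    refine T1B.Triv.congr (T1B.Triv.mul h1 ih) ?_
    intro σ _ τ _
    have e : (fun g => (n + 1) • c g) = (fun g => n • c g + c g) := by
      funext g
      exact succ_nsmul _ _
    rw [e]
    generalize fc W F H (fun g => n • c g + c g) σ τ = x
    generalize fc W F H (fun g => n • c g) σ τ = y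
    generalize fc W F H c σ τ = z
    rw [pow_succ, mul_inv, mul_inv]
    calc x * (y⁻¹ * z⁻¹) * (y * (z ^ n)⁻¹) = (y⁻¹ * y) * (x * ((z ^ n)⁻¹ * z⁻¹)) := by ac_rfl
      _ = x * ((z ^ n)⁻¹ * z⁻¹) := by rw [inv_mul_cancel, one_mul]

end

end Pool.Agent.EFF

end

section


namespace Pool.Agent.EFF

open Polynomial WeierstrassCurve WeierstrassCurve.Affine

open scoped Classical

universe u v w

section

variable {K Kb F Ω : Type u} [Field K] [Field Kb] [Field F] [Field Ω] [Algebra K Kb] [Algebra K F]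
  [Algebra Kb Ω] [Algebra F Ω] [Algebra K Ω] [IsScalarTower K Kb Ω] [IsScalarTower K F Ω]
  [IsAlgClosed Kb] [Algebra.IsAlgebraic K Kb] (W : WeierstrassCurve K)
theorem s_congr (H : Pts W Kb → Pts W Kb → Ωˣ) (hH : HFun W F H) (c c' : (Kb ≃ₐ[K] Kb) → Pts W Kb)
    (hc : Crossed W c) (hc' : Crossed W c') (D : Subgroup (Ω ≃ₐ[F] Ω)) (R : Pts W Kb)
    (hR : ∀ σ ∈ D, c (rk K Kb σ) - c' (rk K Kb σ) = act W (rk K Kb σ) R - R) :
    T1B.Triv D (fun σ τ => fc W F H c σ τ * (fc W F H c' σ τ)⁻¹) := by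
  have hd : Crossed W (fun g => c g - c' g) := by
    refine ⟨hc.1.sub hc'.1, fun σ τ => ?_⟩
    show c (σ * τ) - c' (σ * τ) = c σ - c' σ + act W σ (c τ - c' τ)
    rw [hc.2, hc'.2, map_sub]
    abel
  have h1 := s_triv W H hH (fun g => c g - c' g) D R hR
  have h2 := s_add W H hH (fun g => c g - c' g) c' hd hc' D
  have h3 : (fun g => (fun g => c g - c' g) g + c' g) = c := by
    funext g
    show c g - c' g + c' g = c g
    abel
  rw [h3] at h2
  refine (h2.mul h1).congr fun σ _ τ _ => ?_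
  show fc W F H c σ τ * (fc W F H (fun g => c g - c' g) σ τ * fc W F H c' σ τ)⁻¹ *
    fc W F H (fun g => c g - c' g) σ τ = fc W F H c σ τ * (fc W F H c' σ τ)⁻¹
  rw [mul_inv, mul_assoc, mul_comm ((fc W F H (fun g => c g - c' g) σ τ)⁻¹), mul_assoc,
    inv_mul_cancel, mul_one]

end

end Pool.Agent.EFF

end

section


namespace Pool.Agent.EFF

open Polynomial WeierstrassCurve WeierstrassCurve.Affine

open scoped Classical

universe u v w

section

theorem s_inv {F Ω : Type u} [Field F] [Field Ω] [Algebra F Ω] [Algebra.IsAlgebraic F Ω] [IsAlgClosed Ω]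
    (f : (Ω ≃ₐ[F] Ω) → (Ω ≃ₐ[F] Ω) → Ωˣ) (hf : T1B.LC2 f) (hc : T1B.Coc ⊤ f)
    (N : Subgroup (Ω ≃ₐ[F] Ω)) (g : Ω ≃ₐ[F] Ω) :
    T1B.Triv N (fun σ τ => g • f (g⁻¹ * σ * g) (g⁻¹ * τ * g) * (f σ τ)⁻¹) := by
  obtain ⟨E, hE, hf1⟩ := hf
  have : IsAlgClosure F Ω := ⟨inferInstance, inferInstance⟩
  have : Normal F Ω := IsAlgClosure.normal F Ω
  obtain ⟨E', hE', hst, hle⟩ := T1B.exists_stable E
  refine ⟨fun σ => f g (g⁻¹ * σ * g) * (f σ g)⁻¹, ⟨E', hE', ?_⟩, ?_⟩
  · intro σ σ' h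
    have h1 : T1B.Eqv E' (g⁻¹ * σ * g) (g⁻¹ * σ' * g) :=
      T1B.Eqv.mul hst (T1B.Eqv.mul hst (T1B.Eqv.refl E' _) h) (T1B.Eqv.refl E' _)
    have h2 : f g (g⁻¹ * σ * g) = f g (g⁻¹ * σ' * g) :=
      hf1 _ _ _ _ (fun _ _ => rfl) fun x hx => h1 x (hle hx)
    have h3 : f σ g = f σ' g := hf1 _ _ _ _ (fun x hx => h x (hle hx)) fun _ _ => rfl
    simp only [h2, h3]
  · intro σ _ τ _
    have k1 := hc g trivial (g⁻¹ * σ * g) trivial (g⁻¹ * τ * g) trivial
    have k2 := hc σ trivial g trivial (g⁻¹ * τ * g) trivial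
    have k3 := hc σ trivial τ trivial g trivial
    have e1 : g * (g⁻¹ * σ * g) = σ * g := by group
    have e2 : g * (g⁻¹ * τ * g) = τ * g := by group
    have e3 : g⁻¹ * σ * g * (g⁻¹ * τ * g) = g⁻¹ * (σ * τ) * g := by group
    rw [e1, e3] at k1
    rw [e2] at k2
    show g • f (g⁻¹ * σ * g) (g⁻¹ * τ * g) * (f σ τ)⁻¹ * (f g (g⁻¹ * (σ * τ) * g) * (f (σ * τ) g)⁻¹) =
      f g (g⁻¹ * σ * g) * (f σ g)⁻¹ * σ • (f g (g⁻¹ * τ * g) * (f τ g)⁻¹)
    rw [smul_mul', smul_inv']
    generalize f g (g⁻¹ * σ * g) = a at *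
    generalize f (σ * g) (g⁻¹ * τ * g) = b at *
    generalize g • f (g⁻¹ * σ * g) (g⁻¹ * τ * g) = c at *
    generalize f g (g⁻¹ * (σ * τ) * g) = d at *
    generalize f σ g = e at *
    generalize σ • f g (g⁻¹ * τ * g) = x at *
    generalize f σ (τ * g) = h at *
    generalize f σ τ = i at *
    generalize f (σ * τ) g = j at *
    generalize σ • f τ g = k at *
    have h1 : (c * d) * (e * k) = (a * x) * (i * j) := by
      rw [← k1, k3]
      calc a * b * (e * k) = a * (e * b) * k := by ac_rfl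
        _ = a * (x * h) * k := by rw [k2]
        _ = a * x * (k * h) := by ac_rfl
    calc c * i⁻¹ * (d * j⁻¹) = (c * d) * (i * j)⁻¹ := by rw [mul_inv]; ac_rfl
      _ = (a * x) * (e * k)⁻¹ := by
          rw [mul_inv_eq_iff_eq_mul, mul_assoc, mul_comm (e * k)⁻¹, ← mul_assoc, eq_mul_inv_iff_mul_eq, h1]
      _ = _ := by rw [mul_inv]; exact mul_mul_mul_comm a x e⁻¹ k⁻¹

end

end Pool.Agent.EFF

end
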