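import Pool.Agent.EFM.Defs
import Pool.Agent.T1B.Transfer2
import Pool.Agent.TBM.Coh
import Pool.Agent.TBM.Br
import Pool.Agent.EFM.H
import Pool.Agent.T1B.Transfer3
import Pool.Agent.EFM.S

set_option maxSynthPendingDepth 3

/-!
# Injectivity
-/

set_option autoImplicit false

section


namespace Pool.Agent.EFF

open Polynomial WeierstrassCurve WeierstrassCurve.Affine

open scoped Classical

universe u v w

section

variable {k K Kb F Ω : Type u} [Field k] [Field K] [Field Kb] [Field F] [Field Ω] [Algebra k K]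
  [Algebra k Kb] [Algebra k F] [Algebra k Ω] [Algebra K Kb] [Algebra K F]
  [Algebra Kb Ω] [Algebra F Ω] [Algebra K Ω] [IsScalarTower K Kb Ω] [IsScalarTower K F Ω]
  [IsScalarTower k K Kb] [IsScalarTower k K F] [IsScalarTower k K Ω] [IsScalarTower k Kb Ω]
  [IsScalarTower k F Ω]
  [IsAlgClosed Kb] [Algebra.IsAlgebraic K Kb] [IsAlgClosed Ω] [Algebra.IsAlgebraic F Ω]
  (W : WeierstrassCurve K)
theorem j_inf (H : Pts W Kb → Pts W Kb → Ωˣ) (hH : HFun W F H)
    (c : (Kb ≃ₐ[K] Kb) → Pts W Kb) (hc : Crossed W c)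
    (ht : T1B.Triv (T1B.geo k F Ω) (fc W F H c)) :
    ∃ b : (Ω ≃ₐ[F] Ω) → Ωˣ, T1B.LC1 b ∧
      (∀ σ ∈ T1B.geo k F Ω, ∀ τ ∈ T1B.geo k F Ω, fc W F H c σ τ * b (σ * τ) = b σ * σ • b τ) ∧
      ∀ σ ∈ T1B.geo k F Ω, ∀ s ∈ T1B.geo k F Ω, rk K Kb s = 1 →
        b (σ * s) = b σ ∧ s • b σ = b σ := by
  obtain ⟨b₀, ⟨E, hE, hb₀⟩, hc₀⟩ := ht
  have hc1 : c 1 = 0 := by
    have h := hc.2 1 1
    have h2 : act W (1 : Kb ≃ₐ[K] Kb) (c 1) = c 1 := by
      cases c 1 with
      | zero => rfl
      | some x y h => rfl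
    rw [mul_one, h2] at h
    exact (left_eq_add.1 h)
  have hf1 : ∀ s τ : Ω ≃ₐ[F] Ω, rk K Kb s = 1 → fc W F H c s τ = 1 := by
    intro s τ hs
    unfold fc
    rw [hs, hc1]
    exact hH.zero _
  have hf2 : ∀ σ s : Ω ≃ₐ[F] Ω, rk K Kb s = 1 → fc W F H c σ s = 1 := by
    intro σ s hs
    unfold fc
    rw [hs, hc1, map_zero, hH.symm]
    exact hH.zero _
  have hD : ∃ D : Subgroup (Ω ≃ₐ[F] Ω), ∀ s, s ∈ D ↔ s ∈ T1B.geo k F Ω ∧ rk K Kb s = 1 :=
    ⟨T1B.geo k F Ω ⊓ (rk K Kb).ker, fun s => Iff.rfl⟩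
  obtain ⟨D, hD⟩ := hD
  have horb : TBR.Orb (⊤ : Subgroup (Ω ≃ₐ[F] Ω)) (Set.univ : Set Ω) := by
    intro x _
    obtain ⟨p, hp0, hp⟩ : IsAlgebraic F x := Algebra.IsAlgebraic.isAlgebraic x
    refine ((p.aroots Ω).toFinset.finite_toSet).subset ?_
    rintro y ⟨σ, -, rfl⟩
    rw [Finset.mem_coe, Multiset.mem_toFinset, Polynomial.mem_aroots]
    refine ⟨hp0, ?_⟩
    rw [Polynomial.aeval_algHom_apply, hp, map_zero]
  have hfg : E.FG := IntermediateField.fg_of_fg_toSubalgebra E (Subalgebra.fg_of_fg_toSubmodule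
    (Module.Finite.iff_fg.1 (inferInstanceAs (Module.Finite F E))))
  obtain ⟨S₀, hS₀⟩ := hfg
  obtain ⟨S₁, hS01, -, hS₁⟩ := TBR.exists_stable (⊤ : Subgroup (Ω ≃ₐ[F] Ω)) Set.univ
    (fun _ _ _ _ => Set.mem_univ _) horb S₀ (Set.subset_univ _)
  have hag : ∀ σ τ : Ω ≃ₐ[F] Ω, TBR.Ag (S₁ : Set Ω) σ τ → b₀ σ = b₀ τ := by
    intro σ τ h
    refine hb₀ σ τ ?_
    intro x hx
    rw [← hS₀] at hx
    induction hx using IntermediateField.adjoin_induction with
    | mem x hx => exact h x (hS01 hx)
    | algebraMap x => rw [AlgEquiv.commutes, AlgEquiv.commutes]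
    | add x y _ _ hx hy => rw [map_add, map_add, hx, hy]
    | inv x _ hx => rw [map_inv₀, map_inv₀, hx]
    | mul x y _ _ hx hy => rw [map_mul, map_mul, hx, hy]
  have hx : ∀ s ∈ D, ∀ t ∈ D, b₀ (s * t) = b₀ s * s • b₀ t := by
    intro s hs t ht
    have h2 := hc₀ s ((hD s).1 hs).1 t ((hD t).1 ht).1
    rw [hf1 s t ((hD s).1 hs).2, one_mul] at h2
    exact h2
  obtain ⟨y, -, hy⟩ := TBR.h90u D S₁ (fun σ _ x hx => hS₁ σ (Subgroup.mem_top _) x hx) b₀
    (fun σ _ τ _ h => hag σ τ h) hx
  obtain ⟨b₁, hb₁⟩ : ∃ b₁ : (Ω ≃ₐ[F] Ω) → Ωˣ, ∀ σ, b₁ σ = b₀ σ * σ • y * y⁻¹ := ⟨_, fun _ => rfl⟩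
  have hcob : ∀ σ ∈ T1B.geo k F Ω, ∀ τ ∈ T1B.geo k F Ω,
      fc W F H c σ τ * b₁ (σ * τ) = b₁ σ * σ • b₁ τ := by
    intro σ hσ τ hτ
    have h2 := hc₀ σ hσ τ hτ
    rw [hb₁, hb₁, hb₁, smul_mul', smul_mul', mul_smul, smul_inv']
    calc fc W F H c σ τ * (b₀ (σ * τ) * σ • τ • y * y⁻¹)
        = (fc W F H c σ τ * b₀ (σ * τ)) * (σ • τ • y * y⁻¹) := by
          simp only [mul_assoc]
      _ = (b₀ σ * σ • b₀ τ) * (σ • τ • y * y⁻¹) := by rw [h2]
      _ = b₀ σ * σ • y * y⁻¹ * (σ • b₀ τ * σ • τ • y * (σ • y)⁻¹) := by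
          apply Additive.ofMul.injective
          simp only [ofMul_mul, ofMul_inv]
          abel
  have hs1 : ∀ s ∈ D, b₁ s = 1 := by
    intro s hs
    rw [hb₁, hy s hs, mul_inv_cancel]
  have hr : ∀ σ ∈ T1B.geo k F Ω, ∀ s ∈ D, b₁ (σ * s) = b₁ σ := by
    intro σ hσ s hs
    have h2 := hcob σ hσ s ((hD s).1 hs).1
    rw [hf2 σ s ((hD s).1 hs).2, one_mul, hs1 s hs, smul_one, mul_one] at h2
    exact h2
  have hconj : ∀ σ ∈ T1B.geo k F Ω, ∀ s ∈ D, σ⁻¹ * s * σ ∈ D := by
    intro σ hσ s hs
    refine (hD _).2 ⟨(T1B.geo k F Ω).mul_mem ((T1B.geo k F Ω).mul_mem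
      ((T1B.geo k F Ω).inv_mem hσ) ((hD s).1 hs).1) hσ, ?_⟩
    rw [map_mul, map_mul, ((hD s).1 hs).2, mul_one, map_inv, inv_mul_cancel]
  have hfix : ∀ σ ∈ T1B.geo k F Ω, ∀ s ∈ D, s • b₁ σ = b₁ σ := by
    intro σ hσ s hs
    have h2 := hcob s ((hD s).1 hs).1 σ hσ
    rw [hf1 s σ ((hD s).1 hs).2, hs1 s hs, one_mul, one_mul] at h2
    rw [← h2]
    have h3 : s * σ = σ * (σ⁻¹ * s * σ) := by group
    rw [h3]
    exact hr σ hσ _ (hconj σ hσ s hs)
  refine ⟨b₁, ?_, hcob, fun σ hσ s hs hs' => ⟨hr σ hσ s ((hD s).2 ⟨hs, hs'⟩),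
    hfix σ hσ s ((hD s).2 ⟨hs, hs'⟩)⟩⟩
  have hyint : IsIntegral F (y : Ω) :=
    (Algebra.IsAlgebraic.isAlgebraic (R := F) (y : Ω)).isIntegral
  haveI : FiniteDimensional F (IntermediateField.adjoin F {(y : Ω)}) :=
    IntermediateField.adjoin.finiteDimensional hyint
  refine ⟨E ⊔ IntermediateField.adjoin F {(y : Ω)}, inferInstance, ?_⟩
  intro σ σ' h
  have h1 : b₀ σ = b₀ σ' := hb₀ σ σ' (fun x hx => h x ((le_sup_left : E ≤ _) hx))
  have h2 : σ • y = σ' • y := by
    apply Units.ext
    exact h _ ((le_sup_right : IntermediateField.adjoin F {(y : Ω)} ≤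
      E ⊔ IntermediateField.adjoin F {(y : Ω)})
      (IntermediateField.mem_adjoin_simple_self F (y : Ω)))
  rw [hb₁, hb₁, h1, h2]

end

end Pool.Agent.EFF

end

section


namespace Pool.Agent.EFF

open Polynomial WeierstrassCurve WeierstrassCurve.Affine

open scoped Classical

universe u v w

section

variable {k K Kb F Ω : Type u} [Field k] [Field K] [Field Kb] [Field F] [Field Ω] [Algebra k K]
  [Algebra k Kb] [Algebra k F] [Algebra k Ω] [Algebra K Kb] [Algebra K F]
  [Algebra Kb Ω] [Algebra F Ω] [Algebra K Ω] [IsScalarTower K Kb Ω] [IsScalarTower K F Ω]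
  [IsScalarTower k K Kb] [IsScalarTower k K F] [IsScalarTower k K Ω] [IsScalarTower k Kb Ω]
  [IsScalarTower k F Ω]
  [IsAlgClosed Kb] [Algebra.IsAlgebraic K Kb] [IsAlgClosed Ω] [Algebra.IsAlgebraic F Ω]
  (W : WeierstrassCurve K)
theorem j_pow (q : ℕ) [ExpChar Ω q] (x y : Ω)
    (hF : ∀ f : F, algebraMap F Ω f ∈ IntermediateField.adjoin Kb ({x, y} : Set Ω))
    (v : Ω) (hv : ∀ s ∈ T1B.geo k F Ω, rk K Kb s = 1 → s v = v) :
    ∃ r : ℕ, v ^ q ^ r ∈ IntermediateField.adjoin Kb ({x, y} : Set Ω) := by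
  have hFE : ∀ f : F, algebraMap F Ω f ∈
      (algebraMap (IntermediateField.adjoin Kb ({x, y} : Set Ω)) Ω).range := fun f =>
    ⟨⟨algebraMap F Ω f, hF f⟩, rfl⟩
  have halg : ∀ t : Ω, IsAlgebraic (IntermediateField.adjoin Kb ({x, y} : Set Ω)) t := by
    intro t
    have ht : IsAlgebraic F t := Algebra.IsAlgebraic.isAlgebraic t
    obtain ⟨p, hp0, hp⟩ := ht
    let φ : F →+* (IntermediateField.adjoin Kb ({x, y} : Set Ω)) :=
      (algebraMap F Ω).codRestrict (IntermediateField.adjoin Kb ({x, y} : Set Ω)).toSubring hF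
    refine ⟨p.map φ, ?_, ?_⟩
    · exact (Polynomial.map_ne_zero_iff φ.injective).2 hp0
    · rw [Polynomial.aeval_def, Polynomial.eval₂_map]
      exact hp
  refine TBR.perf q (IntermediateField.adjoin Kb ({x, y} : Set Ω)) halg v ?_
  intro σ hσ
  have hs : ∀ f : F, (σ : Ω ≃+* Ω) (algebraMap F Ω f) = algebraMap F Ω f := fun f =>
    hσ _ (hF f)
  let s : Ω ≃ₐ[F] Ω := AlgEquiv.ofRingEquiv (f := (σ : Ω ≃+* Ω)) hs
  have hsσ : ∀ t : Ω, s t = σ t := fun t => rfl
  rw [← hsσ]
  refine hv s ?_ ?_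
  · intro t ht
    have ht' : IsAlgebraic Kb t := IsAlgebraic.extendScalars (algebraMap k Kb).injective ht
    have hint : IsIntegral Kb t := ht'.isIntegral
    have hdeg : (minpoly Kb t).degree = 1 :=
      IsAlgClosed.degree_eq_one_of_irreducible Kb (minpoly.irreducible hint)
    obtain ⟨a, ha⟩ := minpoly.mem_range_of_degree_eq_one Kb t hdeg
    rw [← ha, hsσ]
    exact σ.commutes a
  · ext a
    apply (algebraMap Kb Ω).injective
    rw [rk_apply, hsσ, σ.commutes]
    rfl

end

end Pool.Agent.EFF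

end

section


namespace Pool.Agent.EFF

open Polynomial WeierstrassCurve WeierstrassCurve.Affine

open scoped Classical

universe u v w

section

theorem j_max {F : Type u} [Field F] [IsAlgClosed F] (W : Affine F)
    (I : Ideal W.CoordinateRing) (hI : I.IsMaximal) :
    ∃ x y : F, W.Equation x y ∧ I = CoordinateRing.XYIdeal W x (C y) := by
  let _ : Field (W.CoordinateRing ⧸ I) := Ideal.Quotient.field I
  have hfin1 : Module.Finite F[X] W.CoordinateRing :=
    Module.Finite.of_basis (CoordinateRing.basis W)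
  have hft1 : Algebra.FiniteType F W.CoordinateRing :=
    Algebra.FiniteType.trans (S := F[X]) inferInstance inferInstance
  have hft : Algebra.FiniteType F (W.CoordinateRing ⧸ I) :=
    Algebra.FiniteType.of_surjective (Ideal.Quotient.mkₐ F I) Ideal.Quotient.mk_surjective
  have hfin : Module.Finite F (W.CoordinateRing ⧸ I) :=
    finite_of_finite_type_of_isJacobsonRing F (W.CoordinateRing ⧸ I)
  have hint : Algebra.IsIntegral F (W.CoordinateRing ⧸ I) := inferInstance
  have hsurj : Function.Surjective (algebraMap F (W.CoordinateRing ⧸ I)) :=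
    (IsAlgClosed.algebraMap_bijective_of_isIntegral (k := F) (K := W.CoordinateRing ⧸ I)).2
  obtain ⟨x, hx⟩ := hsurj (Ideal.Quotient.mk I (CoordinateRing.mk W (C X)))
  obtain ⟨y, hy⟩ := hsurj (Ideal.Quotient.mk I (CoordinateRing.mk W X))
  have halg : ∀ a : F, algebraMap F (W.CoordinateRing ⧸ I) a =
      Ideal.Quotient.mk I (CoordinateRing.mk W (C (C a))) := fun a => rfl
  have hXmem : CoordinateRing.XClass W x ∈ I := by
    rw [← Ideal.Quotient.eq_zero_iff_mem, CoordinateRing.XClass, C_sub, map_sub, map_sub, ← hx,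
      halg, sub_self]
  have hYmem : CoordinateRing.YClass W (C y) ∈ I := by
    rw [← Ideal.Quotient.eq_zero_iff_mem, CoordinateRing.YClass, map_sub, map_sub, ← hy,
      halg, sub_self]
  have hle : CoordinateRing.XYIdeal W x (C y) ≤ I := by
    rw [CoordinateRing.XYIdeal, Ideal.span_le]
    rintro z (rfl | hz)
    · exact hXmem
    · rw [Set.mem_singleton_iff.1 hz]
      exact hYmem
  have heq : W.Equation x y := by
    have hring : ((Ideal.Quotient.mk I).comp (CoordinateRing.mk W)) =
        (algebraMap F (W.CoordinateRing ⧸ I)).comp (evalEvalRingHom x y) := by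
      apply Polynomial.ringHom_ext'
      · apply Polynomial.ringHom_ext'
        · ext a
          simp [halg]
        · simp [hx]
      · simp [hy]
    have h0 := congrArg (fun f => f W.polynomial) hring
    simp only [RingHom.comp_apply] at h0
    have h1 : CoordinateRing.mk W W.polynomial = 0 := AdjoinRoot.mk_self
    rw [h1, map_zero] at h0
    have h2 := (algebraMap F (W.CoordinateRing ⧸ I)).injective (h0.symm.trans (map_zero _).symm)
    exact h2
  refine ⟨x, y, heq, ?_⟩
  have hmax : (CoordinateRing.XYIdeal W x (C y)).IsMaximal := by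
    refine Ideal.Quotient.maximal_of_isField _ ?_
    exact (CoordinateRing.quotientXYIdealEquiv (W' := W) (x := x) (y := C y)
      heq).toMulEquiv.isField (Field.toIsField F)
  exact (hmax.eq_of_le hI.ne_top hle).symm

end

end Pool.Agent.EFF

end

section


namespace Pool.Agent.EFF

open Polynomial WeierstrassCurve WeierstrassCurve.Affine

open scoped Classical

universe u v w

section

theorem j_pt {F : Type u} [Field F] (W : Affine F) :
    (∀ x y : F, W.Equation x y → (CoordinateRing.XYIdeal W x (C y)).IsMaximal ∧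
      CoordinateRing.XYIdeal W x (C y) ≠ ⊥) ∧
    ∀ x y x' y' : F, W.Equation x y → W.Equation x' y' →
      CoordinateRing.XYIdeal W x (C y) = CoordinateRing.XYIdeal W x' (C y') → x = x' ∧ y = y' := by
  have hmax : ∀ x y : F, W.Equation x y → (CoordinateRing.XYIdeal W x (C y)).IsMaximal ∧
      CoordinateRing.XYIdeal W x (C y) ≠ ⊥ := by
    intro x y h
    refine ⟨?_, ?_⟩
    · have he : (W.polynomial.eval (C y)).eval x = 0 := h
      exact Ideal.Quotient.maximal_of_isField _
        ((CoordinateRing.quotientXYIdealEquiv he).toMulEquiv.isField (Field.toIsField F))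
    · intro h0
      apply CoordinateRing.XClass_ne_zero (W' := W) x
      have h1 : CoordinateRing.XClass W x ∈ CoordinateRing.XYIdeal W x (C y) :=
        Ideal.subset_span (by simp)
      rw [h0] at h1
      exact h1
  refine ⟨hmax, ?_⟩
  intro x y x' y' h h' he
  have hX : CoordinateRing.XClass W x ∈ CoordinateRing.XYIdeal W x (C y) :=
    Ideal.subset_span (by simp)
  have hX' : CoordinateRing.XClass W x' ∈ CoordinateRing.XYIdeal W x (C y) := by
    rw [he]
    exact Ideal.subset_span (by simp)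
  have hY : CoordinateRing.YClass W (C y) ∈ CoordinateRing.XYIdeal W x (C y) :=
    Ideal.subset_span (by simp)
  have hY' : CoordinateRing.YClass W (C y') ∈ CoordinateRing.XYIdeal W x (C y) := by
    rw [he]
    exact Ideal.subset_span (by simp)
  have hkey : ∀ a : F, CoordinateRing.mk W (C (C a)) ∈ CoordinateRing.XYIdeal W x (C y) →
      a = 0 := by
    intro a ha
    by_contra h0
    apply (hmax x y h).1.ne_top
    refine Ideal.eq_top_of_isUnit_mem _ ha ?_
    exact ((isUnit_iff_ne_zero.2 h0).map (C : F →+* F[X])).map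
      ((CoordinateRing.mk W).comp (C : F[X] →+* F[X][X]))
  constructor
  · have h1 : CoordinateRing.mk W (C (C (x' - x))) = CoordinateRing.XClass W x -
        CoordinateRing.XClass W x' := by
      simp only [CoordinateRing.XClass, map_sub]
      ring
    have h2 := hkey (x' - x) (by rw [h1]; exact Ideal.sub_mem _ hX hX')
    exact (sub_eq_zero.1 h2).symm
  · have h1 : CoordinateRing.mk W (C (C (y' - y))) = CoordinateRing.YClass W (C y) -
        CoordinateRing.YClass W (C y') := by
      simp only [CoordinateRing.YClass, map_sub]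
      ring
    have h2 := hkey (y' - y) (by rw [h1]; exact Ideal.sub_mem _ hY hY')
    exact (sub_eq_zero.1 h2).symm

end

end Pool.Agent.EFF

end

section


namespace Pool.Agent.EFF

open Polynomial WeierstrassCurve WeierstrassCurve.Affine

open scoped Classical

universe u v w

private theorem j_ded_aux {S : Type*} [CommRing S] [IsDomain S] [IsLocalRing S]
    [IsNoetherianRing S] (J : Ideal S) (c : S) (hc0 : c ≠ 0)
    (hmap : J * IsLocalRing.maximalIdeal S = Ideal.span {c}) : IsDiscreteValuationRing S := by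
  have hm0 : IsLocalRing.maximalIdeal S ≠ ⊥ := by
    intro h0
    rw [h0, Ideal.mul_bot] at hmap
    exact hc0 (Ideal.span_singleton_eq_bot.1 hmap.symm)
  have hnf : ¬ IsField S := by
    rw [IsLocalRing.isField_iff_maximalIdeal_eq]
    exact hm0
  have hunit : IsUnit ((IsLocalRing.maximalIdeal S : Ideal S) :
      FractionalIdeal (nonZeroDivisors S) (FractionRing S)) := by
    have h4 := congrArg (fun I : Ideal S =>
      (I : FractionalIdeal (nonZeroDivisors S) (FractionRing S))) hmap
    simp only [FractionalIdeal.coeIdeal_mul, FractionalIdeal.coeIdeal_span_singleton] at h4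
    refine isUnit_of_mul_isUnit_right (x := (J :
      FractionalIdeal (nonZeroDivisors S) (FractionRing S))) ?_
    rw [h4]
    refine .of_mul_eq_one (FractionalIdeal.spanSingleton _
      (algebraMap S (FractionRing S) c)⁻¹) ?_
    rw [FractionalIdeal.spanSingleton_mul_spanSingleton, mul_inv_cancel₀,
      FractionalIdeal.spanSingleton_one]
    intro h5
    exact hc0 ((IsFractionRing.injective S (FractionRing S)) (by rw [h5, map_zero]))
  have hpr : (IsLocalRing.maximalIdeal S).IsPrincipal := by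
    refine Ideal.IsPrincipal.of_finite_maximals_of_isUnit ?_ hunit
    refine Set.Subsingleton.finite ?_
    intro I hI J hJ
    rw [IsLocalRing.eq_maximalIdeal hI, IsLocalRing.eq_maximalIdeal hJ]
  exact ((IsDiscreteValuationRing.TFAE S hnf).out 4 0).1 hpr

section

theorem j_ded {F : Type u} [Field F] [IsAlgClosed F] (W : WeierstrassCurve F) [W.IsElliptic] :
    IsDedekindDomain W.toAffine.CoordinateRing := by
  haveI hfin : Module.Finite F[X] W.toAffine.CoordinateRing :=
    Module.Finite.of_basis (CoordinateRing.basis W.toAffine)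
  haveI hnoe : IsNoetherianRing W.toAffine.CoordinateRing :=
    IsNoetherianRing.of_finite F[X] W.toAffine.CoordinateRing
  haveI hdvr : IsDedekindDomainDvr W.toAffine.CoordinateRing := by
    refine { toIsNoetherian := hnoe, is_dvr_at_nonzero_prime := ?_ }
    intro P hP hPp
    obtain ⟨t, htP, ht0⟩ := Submodule.exists_mem_ne_zero_of_ne_bot hP
    have h1 : P.comap (algebraMap F[X] W.toAffine.CoordinateRing) ≠ ⊥ :=
      Ideal.comap_ne_bot_of_integral_mem ht0 htP (Algebra.IsIntegral.isIntegral t)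
    have hPp' : (P.comap (algebraMap F[X] W.toAffine.CoordinateRing)).IsPrime := inferInstance
    have h2 : (P.comap (algebraMap F[X] W.toAffine.CoordinateRing)).IsMaximal :=
      Ideal.IsPrime.isMaximal hPp' h1
    have h3 : P.IsMaximal := Ideal.isMaximal_of_isIntegral_of_isMaximal_comap P h2
    obtain ⟨x, y, he, hPe⟩ := j_max W.toAffine P h3
    have hns : W.toAffine.Nonsingular x y := equation_iff_nonsingular.1 he
    have hmul := CoordinateRing.XYIdeal_neg_mul hns
    rw [← hPe] at hmul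
    have hX0 := CoordinateRing.XClass_ne_zero (W' := W.toAffine) x
    haveI hdom : IsDomain (Localization.AtPrime P) :=
      IsLocalization.isDomain_localization P.primeCompl_le_nonZeroDivisors
    haveI hnoe' : IsNoetherianRing (Localization.AtPrime P) :=
      IsLocalization.isNoetherianRing P.primeCompl _ hnoe
    have hc0 : algebraMap W.toAffine.CoordinateRing (Localization.AtPrime P)
        (CoordinateRing.XClass W.toAffine x) ≠ 0 := by
      intro h0
      exact hX0 ((IsLocalization.injective (Localization.AtPrime P)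
        P.primeCompl_le_nonZeroDivisors) (by rw [h0, map_zero]))
    have hmap := congrArg (Ideal.map (algebraMap W.toAffine.CoordinateRing
      (Localization.AtPrime P))) hmul
    rw [Ideal.map_mul, CoordinateRing.XIdeal, Ideal.map_span, Set.image_singleton,
      Localization.AtPrime.map_eq_maximalIdeal] at hmap
    exact j_ded_aux _ _ hc0 hmap
  infer_instance

end

end Pool.Agent.EFF

end

section


namespace Pool.Agent.EFF

open Polynomial WeierstrassCurve WeierstrassCurve.Affine

open scoped Classical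

universe u v w

section

private theorem j_cls_unit {F : Type u} [Field F] (W : Affine F) (s : Multiset W.Point) :
    ∃ U : (FractionalIdeal (nonZeroDivisors W.CoordinateRing) W.FunctionField)ˣ,
      (U : FractionalIdeal (nonZeroDivisors W.CoordinateRing) W.FunctionField) = ((s.map (Ip W)).prod : Ideal W.CoordinateRing) ∧
      Point.toClass (W := W) s.sum = Additive.ofMul (ClassGroup.mk W.FunctionField U) := by
  induction s using Multiset.induction_on with
  | empty =>
    refine ⟨1, ?_, ?_⟩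
    · rw [Multiset.map_zero, Multiset.prod_zero, Units.val_one, Ideal.one_eq_top, FractionalIdeal.coeIdeal_top]
    · rw [Multiset.sum_zero, map_zero, map_one]
      rfl
  | cons A s ih =>
    obtain ⟨U, h1, h2⟩ := ih
    obtain ⟨V, h3, h4⟩ : ∃ V : (FractionalIdeal (nonZeroDivisors W.CoordinateRing) W.FunctionField)ˣ,
        (V : FractionalIdeal (nonZeroDivisors W.CoordinateRing) W.FunctionField) = (Ip W A : Ideal W.CoordinateRing) ∧
        Point.toClass (W := W) A = Additive.ofMul (ClassGroup.mk W.FunctionField V) := by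
      rcases A with _ | ⟨x, y, h⟩
      · refine ⟨1, ?_, ?_⟩
        · rw [Units.val_one]
          show (1 : FractionalIdeal (nonZeroDivisors W.CoordinateRing) W.FunctionField) = ((⊤ : Ideal W.CoordinateRing) : FractionalIdeal _ _)
          rw [FractionalIdeal.coeIdeal_top]
        · rw [map_one]
          rfl
      · exact ⟨CoordinateRing.XYIdeal' (W := W) h, CoordinateRing.XYIdeal'_eq (W := W) h, Point.toClass_some (W := W) h⟩
    refine ⟨V * U, ?_, ?_⟩
    · rw [Multiset.map_cons, Multiset.prod_cons, Units.val_mul, h1, h3, FractionalIdeal.coeIdeal_mul]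
    · rw [Multiset.sum_cons, map_add, h2, h4, map_mul]
      rfl

theorem j_cls {F : Type u} [Field F] (W : Affine F) (s : Multiset W.Point) (a b : W.CoordinateRing)
    (ha : a ≠ 0) (hb : b ≠ 0)
    (h : Ideal.span {a} * (s.map (Ip W)).prod = Ideal.span {b}) : s.sum = 0 := by
  obtain ⟨U, hU1, hU2⟩ := j_cls_unit W s
  apply Point.toClass_injective (W := W)
  rw [map_zero, hU2]
  have h1 : ClassGroup.mk W.FunctionField U = ClassGroup.mk W.FunctionField 1 := by
    refine (ClassGroup.mk_eq_mk_of_coe_ideal (I' := (s.map (Ip W)).prod) (J' := ⊤) hU1 ?_).2 ⟨a, b, ha, hb, ?_⟩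
    · rw [Units.val_one, FractionalIdeal.coeIdeal_top]
    · rw [h, Ideal.mul_top]
  rw [h1, map_one]
  rfl

end

end Pool.Agent.EFF

end

section


namespace Pool.Agent.EFF

open Polynomial WeierstrassCurve WeierstrassCurve.Affine

open scoped Classical

universe u v w

section

private theorem j_dv_prime {F : Type u} [Field F] [IsAlgClosed F] (W : WeierstrassCurve F)
    (P : W.toAffine.Point) (hP : P ≠ 0) : (Ip W.toAffine P).IsMaximal ∧ Ip W.toAffine P ≠ ⊥ := by
  rcases P with _ | ⟨x, y, h⟩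
  · exact absurd rfl hP
  · exact (j_pt W.toAffine).1 x y h.1

private theorem j_dv_inj {F : Type u} [Field F] [IsAlgClosed F] (W : WeierstrassCurve F)
    (P Q : W.toAffine.Point) (hP : P ≠ 0) (hQ : Q ≠ 0)
    (h : Ip W.toAffine P = Ip W.toAffine Q) : P = Q := by
  rcases P with _ | ⟨x, y, hx⟩
  · exact absurd rfl hP
  rcases Q with _ | ⟨x', y', hx'⟩
  · exact absurd rfl hQ
  obtain ⟨h1, h2⟩ := (j_pt W.toAffine).2 x y x' y' hx.1 hx'.1 h
  subst h1; subst h2; rfl

theorem j_dv {F : Type u} [Field F] [IsAlgClosed F] (W : WeierstrassCurve F) [W.IsElliptic] :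
    ∃ dv : W.toAffine.CoordinateRing → (W.toAffine.Point →₀ ℤ),
      (∀ f, f ≠ 0 → dv f 0 = 0 ∧ ∀ P : W.toAffine.Point, P ≠ 0 → 0 ≤ dv f P ∧
        ∀ n : ℕ, f ∈ Ip W.toAffine P ^ n ↔ (n : ℤ) ≤ dv f P) ∧
      (∀ f g, f ≠ 0 → g ≠ 0 → dv (f * g) = dv f + dv g) ∧
      (∀ f, f ≠ 0 → (dv f).sum (fun P n => n • P) = 0) ∧
      ∀ A B, dv (Nf W.toAffine A B) - dv (CoordinateRing.mk W.toAffine (C (Df W.toAffine A B))) =
        (if A = 0 then 0 else Finsupp.single A 1) + (if B = 0 then 0 else Finsupp.single B 1) -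
          (if A + B = 0 then 0 else Finsupp.single (A + B) 1) := by
  have hD : IsDedekindDomain W.toAffine.CoordinateRing := j_ded W
  -- the point of a maximal ideal
  have hex : ∀ I : Ideal W.toAffine.CoordinateRing, I.IsMaximal →
      ∃ P : W.toAffine.Point, P ≠ 0 ∧ Ip W.toAffine P = I := by
    intro I hI
    obtain ⟨x, y, h, hI'⟩ := j_max W.toAffine I hI
    have hns : W.toAffine.Nonsingular x y := by
      exact (W.toAffine.equation_iff_nonsingular).1 h
    exact ⟨Point.some x y hns, Point.some_ne_zero hns, hI'.symm⟩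
  let pt : Ideal W.toAffine.CoordinateRing → W.toAffine.Point := fun I =>
    if h : ∃ P : W.toAffine.Point, P ≠ 0 ∧ Ip W.toAffine P = I then h.choose else 0
  have hpt : ∀ I : Ideal W.toAffine.CoordinateRing, I.IsMaximal → pt I ≠ 0 ∧
      Ip W.toAffine (pt I) = I := by
    intro I hI
    have h := hex I hI
    have h1 : pt I = h.choose := dif_pos h
    rw [h1]
    exact h.choose_spec
  have hptP : ∀ P : W.toAffine.Point, P ≠ 0 → pt (Ip W.toAffine P) = P := by
    intro P hP
    obtain ⟨h1, h2⟩ := hpt _ (j_dv_prime W P hP).1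
    exact j_dv_inj W _ _ h1 hP h2
  let nf : Ideal W.toAffine.CoordinateRing → Multiset (Ideal W.toAffine.CoordinateRing) :=
    UniqueFactorizationMonoid.normalizedFactors
  let s : Ideal W.toAffine.CoordinateRing → Multiset W.toAffine.Point := fun I => (nf I).map pt
  let D : Multiset W.toAffine.Point → (W.toAffine.Point →₀ ℤ) := fun t =>
    (t.map (fun P => Finsupp.single P (1 : ℤ))).sum
  have hnfmax : ∀ I : Ideal W.toAffine.CoordinateRing, ∀ J ∈ nf I, J.IsMaximal := by
    intro I J hJ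
    have h1 : Prime J := UniqueFactorizationMonoid.prime_of_normalized_factor J hJ
    have h2 : J.IsPrime := Ideal.isPrime_of_prime h1
    exact h2.isMaximal h1.ne_zero
  have hmap : ∀ I : Ideal W.toAffine.CoordinateRing, (s I).map (Ip W.toAffine) = nf I := by
    intro I
    show ((nf I).map pt).map _ = _
    rw [Multiset.map_map]
    conv_rhs => rw [← Multiset.map_id (nf I)]
    exact Multiset.map_congr rfl (fun J hJ => (hpt J (hnfmax I J hJ)).2)
  have hs0 : ∀ I : Ideal W.toAffine.CoordinateRing, ∀ P ∈ s I, P ≠ 0 := by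
    intro I P hP
    obtain ⟨J, hJ, rfl⟩ := Multiset.mem_map.1 hP
    exact (hpt J (hnfmax I J hJ)).1
  have hsmul : ∀ I J : Ideal W.toAffine.CoordinateRing, I ≠ ⊥ → J ≠ ⊥ → s (I * J) = s I + s J := by
    intro I J hI hJ
    show (UniqueFactorizationMonoid.normalizedFactors (I * J)).map pt = _
    rw [UniqueFactorizationMonoid.normalizedFactors_mul hI hJ, Multiset.map_add]
  have hDadd : ∀ t t', D (t + t') = D t + D t' := by
    intro t t'
    show ((t + t').map _).sum = _
    rw [Multiset.map_add, Multiset.sum_add]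
  have hDcount : ∀ t P, D t P = (t.count P : ℤ) := by
    intro t P
    induction t using Multiset.induction_on with
    | empty => simp [D]
    | cons a t ih =>
      have h1 : D (a ::ₘ t) = Finsupp.single a 1 + D t := by simp [D]
      rw [h1, Finsupp.add_apply, ih, Multiset.count_cons, Finsupp.single_apply]
      by_cases h : a = P
      · subst h; simp; ring
      · rw [if_neg h, if_neg (Ne.symm h)]; simp
  have hDsum : ∀ t, (D t).sum (fun P n => n • P) = t.sum := by
    intro t
    induction t using Multiset.induction_on with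
    | empty => simp [D]
    | cons a t ih =>
      have h1 : D (a ::ₘ t) = Finsupp.single a 1 + D t := by simp [D]
      rw [h1, Finsupp.sum_add_index' (fun P => zero_smul ℤ P) (fun P m n => add_smul m n P), ih,
        Finsupp.sum_single_index (zero_smul ℤ a), one_smul, Multiset.sum_cons]
  have hcount : ∀ I : Ideal W.toAffine.CoordinateRing, ∀ P : W.toAffine.Point, P ≠ 0 →
      (s I).count P = (nf I).count (Ip W.toAffine P) := by
    intro I P hP
    have e1 : (nf I).count (Ip W.toAffine P) =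
        Multiset.card ((s I).filter (fun Q => Ip W.toAffine P = Ip W.toAffine Q)) := by
      have := Multiset.count_map (Ip W.toAffine) (s I) (Ip W.toAffine P)
      rwa [hmap I] at this
    rw [e1, Multiset.count_eq_card_filter_eq]
    congr 1
    apply Multiset.filter_congr
    intro Q hQ
    constructor
    · rintro rfl; rfl
    · intro h
      exact j_dv_inj W _ _ hP (hs0 I Q hQ) h
  have hprod : ∀ I : Ideal W.toAffine.CoordinateRing, I ≠ ⊥ →
      ((s I).map (Ip W.toAffine)).prod = I := by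
    intro I hI
    rw [hmap I]
    exact UniqueFactorizationMonoid.prod_normalizedFactors_eq hI |>.trans (normalize_eq I)
  have hsIp : ∀ P : W.toAffine.Point, s (Ip W.toAffine P) = if P = 0 then 0 else {P} := by
    intro P
    by_cases hP : P = 0
    · subst hP
      rw [if_pos rfl]
      show (UniqueFactorizationMonoid.normalizedFactors (⊤ : Ideal W.toAffine.CoordinateRing)).map pt = 0
      have : (⊤ : Ideal W.toAffine.CoordinateRing) = 1 := Ideal.one_eq_top.symm
      rw [this, UniqueFactorizationMonoid.normalizedFactors_one, Multiset.map_zero]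
    · rw [if_neg hP]
      have h1 := j_dv_prime W P hP
      have h2 : Irreducible (Ip W.toAffine P) := by
        have := Ideal.prime_of_isPrime h1.2 h1.1.isPrime
        exact this.irreducible
      show (UniqueFactorizationMonoid.normalizedFactors (Ip W.toAffine P)).map pt = {P}
      rw [UniqueFactorizationMonoid.normalizedFactors_irreducible h2, normalize_eq,
        Multiset.map_singleton, hptP P hP]
  have hIpne : ∀ P : W.toAffine.Point, Ip W.toAffine P ≠ ⊥ := by
    intro P
    by_cases hP : P = 0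
    · subst hP
      exact top_ne_bot
    · exact (j_dv_prime W P hP).2
  have hspan : ∀ f : W.toAffine.CoordinateRing, f ≠ 0 → Ideal.span {f} ≠ ⊥ := by
    intro f hf h
    exact hf (Ideal.span_singleton_eq_bot.1 h)
  refine ⟨fun f => D (s (Ideal.span {f})), ?_, ?_, ?_, ?_⟩
  · intro f hf
    refine ⟨?_, ?_⟩
    · show D _ 0 = 0
      rw [hDcount, Multiset.count_eq_zero.2 (fun h => hs0 _ _ h rfl)]
      rfl
    · intro P hP
      have hc : D (s (Ideal.span {f})) P = ((nf (Ideal.span {f})).count (Ip W.toAffine P) : ℤ) := by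
        rw [hDcount, hcount _ P hP]
      refine ⟨?_, ?_⟩
      · show 0 ≤ D _ P
        rw [hc]; positivity
      · intro n
        show _ ↔ (n : ℤ) ≤ D _ P
        rw [hc, Nat.cast_le]
        have h1 := j_dv_prime W P hP
        have h2 : Irreducible (Ip W.toAffine P) := (Ideal.prime_of_isPrime h1.2 h1.1.isPrime).irreducible
        have h3 := UniqueFactorizationMonoid.emultiplicity_eq_count_normalizedFactors h2 (hspan f hf)
        rw [normalize_eq] at h3
        rw [← Ideal.span_singleton_le_iff_mem, ← Ideal.dvd_iff_le, pow_dvd_iff_le_emultiplicity, h3,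
          Nat.cast_le]
  · intro f g hf hg
    show D (s (Ideal.span {f * g})) = _
    rw [← Ideal.span_singleton_mul_span_singleton, hsmul _ _ (hspan f hf) (hspan g hg), hDadd]
  · intro f hf
    show (D (s (Ideal.span {f}))).sum _ = 0
    rw [hDsum]
    apply j_cls W.toAffine (s (Ideal.span {f})) 1 f one_ne_zero hf
    rw [hprod _ (hspan f hf), Ideal.span_singleton_one, Ideal.top_mul]
  · intro A B
    have hid := h_ideal W.toAffine A B
    have hDf : CoordinateRing.mk W.toAffine (C (Df W.toAffine A B)) ≠ 0 := by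
      have hdf : Df W.toAffine A B ≠ 0 := by
        rcases A with _ | ⟨x, y, h⟩
        · exact one_ne_zero
        rcases B with _ | ⟨x', y', h'⟩
        · exact one_ne_zero
        simp only [Df]
        split_ifs
        · exact one_ne_zero
        · exact X_sub_C_ne_zero _
      apply AdjoinRoot.mk_ne_zero_of_natDegree_lt W.toAffine.monic_polynomial
      · rwa [Ne, C_eq_zero]
      · rw [natDegree_C, WeierstrassCurve.Affine.natDegree_polynomial]; norm_num
    have hNf : Ideal.span {Nf W.toAffine A B} ≠ ⊥ := by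
      intro h
      rw [h, Ideal.bot_mul] at hid
      have := mul_ne_zero (mul_ne_zero (hIpne A) (hIpne B)) (hspan _ hDf)
      exact this hid
    have h1 : D (s (Ip W.toAffine A * Ip W.toAffine B *
          Ideal.span {CoordinateRing.mk W.toAffine (C (Df W.toAffine A B))})) =
        D (s (Ideal.span {Nf W.toAffine A B} * Ip W.toAffine (A + B))) :=
      congrArg (fun I => D (s I)) hid
    rw [hsmul _ _ (mul_ne_zero (hIpne A) (hIpne B)) (hspan _ hDf), hsmul _ _ (hIpne A) (hIpne B),
      hsmul _ _ hNf (hIpne _), hDadd, hDadd, hDadd, hsIp, hsIp, hsIp] at h1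
    have hite : ∀ P : W.toAffine.Point, D (if P = 0 then 0 else {P}) =
        if P = 0 then 0 else Finsupp.single P 1 := by
      intro P
      split_ifs
      · simp [D]
      · simp [D]
    rw [hite, hite, hite] at h1
    show D (s (Ideal.span {Nf W.toAffine A B})) -
      D (s (Ideal.span {CoordinateRing.mk W.toAffine (C (Df W.toAffine A B))})) = _
    rw [sub_eq_sub_iff_add_eq_add, ← h1]

end

end Pool.Agent.EFF

end

section


namespace Pool.Agent.EFF

open Polynomial WeierstrassCurve WeierstrassCurve.Affine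

open scoped Classical

universe u v w

section

private theorem j_dvO_mem {Kb Ω : Type u} [Field Kb] [Field Ω] [Algebra Kb Ω] (W : Affine Kb) (x y : Ω)
    (h : (W.baseChange Ω).toAffine.Equation x y) (hx : Transcendental Kb x) (t : Ω)
    (ht : t ∈ IntermediateField.adjoin Kb ({x, y} : Set Ω)) :
    ∃ f g : W.CoordinateRing, g ≠ 0 ∧ t * ev W x y h g = ev W x y h f := by
  obtain ⟨h1, h2, h3⟩ := ev_basic W x y h
  have hinj := h3 hx
  have hne : ∀ g : W.CoordinateRing, g ≠ 0 → ev W x y h g ≠ 0 := fun g hg h0 =>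
    hg (hinj (by rw [h0, map_zero]))
  have hX : ev W x y h (CoordinateRing.mk W (C X)) = x := by rw [h2]; simp
  have hY : ev W x y h (CoordinateRing.mk W X) = y := by
    have := h1 0 1
    simpa using this
  have hC : ∀ a : Kb, ev W x y h (CoordinateRing.mk W (C (C a))) = algebraMap Kb Ω a := by
    intro a; rw [h2]; simp
  induction ht using IntermediateField.adjoin_induction with
  | mem t ht =>
    rcases ht with rfl | ht
    · exact ⟨CoordinateRing.mk W (C X), 1, one_ne_zero, by rw [map_one, mul_one, hX]⟩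
    · rw [Set.mem_singleton_iff] at ht
      subst ht
      exact ⟨CoordinateRing.mk W X, 1, one_ne_zero, by rw [map_one, mul_one, hY]⟩
  | algebraMap a =>
    exact ⟨CoordinateRing.mk W (C (C a)), 1, one_ne_zero, by rw [map_one, mul_one, hC]⟩
  | add s t _ _ ihs iht =>
    obtain ⟨f, g, hg, e1⟩ := ihs
    obtain ⟨f', g', hg', e2⟩ := iht
    refine ⟨f * g' + f' * g, g * g', mul_ne_zero hg hg', ?_⟩
    rw [map_add, map_mul, map_mul, map_mul, ← e1, ← e2]
    ring
  | inv t _ iht =>
    obtain ⟨f, g, hg, e1⟩ := iht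
    by_cases ht : t = 0
    · exact ⟨0, 1, one_ne_zero, by rw [ht, inv_zero, zero_mul, map_zero]⟩
    · have hf : f ≠ 0 := by
        rintro rfl
        rw [map_zero] at e1
        exact (mul_ne_zero ht (hne g hg)) e1
      refine ⟨g, f, hf, ?_⟩
      rw [← e1]
      field_simp
  | mul s t _ _ ihs iht =>
    obtain ⟨f, g, hg, e1⟩ := ihs
    obtain ⟨f', g', hg', e2⟩ := iht
    refine ⟨f * f', g * g', mul_ne_zero hg hg', ?_⟩
    rw [map_mul, map_mul, ← e1, ← e2]
    ring

end

section

variable {K Kb F Ω : Type u} [Field K] [Field Kb] [Field F] [Field Ω] [Algebra K Kb] [Algebra K F]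
  [Algebra Kb Ω] [Algebra F Ω] [Algebra K Ω] [IsScalarTower K Kb Ω] [IsScalarTower K F Ω]
  [IsAlgClosed Kb] [Algebra.IsAlgebraic K Kb]
  (W : WeierstrassCurve K)

/-- the action of `σ` on the coordinate ring -/
private theorem j_dvO_star (x y : Ω) (hT : ((W.baseChange Kb).toAffine.baseChange Ω).toAffine.Equation x y)
    (hx : Transcendental Kb x) (σ : Ω ≃ₐ[F] Ω) (hσx : σ x = x) (hσy : σ y = y) :
    ∃ S : (W.baseChange Kb).toAffine.CoordinateRing →+* (W.baseChange Kb).toAffine.CoordinateRing,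
      (∀ f, ev (W.baseChange Kb).toAffine x y hT (S f) = σ (ev (W.baseChange Kb).toAffine x y hT f)) ∧
      ∀ P n f, f ∈ Ip (W.baseChange Kb).toAffine P ^ n →
        S f ∈ Ip (W.baseChange Kb).toAffine (act W (rk K Kb σ) P) ^ n := by
  obtain ⟨h1, h2, h3⟩ := ev_basic (W.baseChange Kb).toAffine x y hT
  have hinj := h3 hx
  set e := ev (W.baseChange Kb).toAffine x y hT with he
  set g := rk K Kb σ with hg
  have hX : e (CoordinateRing.mk _ (C X)) = x := by rw [h2]; simp
  have hY : e (CoordinateRing.mk _ X) = y := by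
    have := h1 0 1
    simpa using this
  have hC : ∀ a : Kb, e (CoordinateRing.mk _ (C (C a))) = algebraMap Kb Ω a := by
    intro a; rw [h2]; simp
  have hp : ∀ p : Kb[X], σ (aeval x p) = aeval x (p.map (g : Kb →+* Kb)) := by
    intro p
    induction p using Polynomial.induction_on' with
    | add p q hp hq => rw [map_add, map_add, hp, hq, Polynomial.map_add, map_add]
    | monomial n a =>
      rw [aeval_monomial, map_mul, map_pow, hσx, Polynomial.map_monomial, aeval_monomial,
        ← rk_apply (K := K) (Kb := Kb) σ a]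
      rfl
  have hex : ∀ f, ∃ f', e f' = σ (e f) := by
    intro f
    obtain ⟨p, q, rfl⟩ := CoordinateRing.exists_smul_basis_eq f
    refine ⟨(p.map (g : Kb →+* Kb)) • 1 + (q.map (g : Kb →+* Kb)) • CoordinateRing.mk _ X, ?_⟩
    rw [h1]
    erw [h1]
    rw [map_add, map_mul, hσy, hp, hp]
  choose S hS using hex
  let S' : (W.baseChange Kb).toAffine.CoordinateRing →+* (W.baseChange Kb).toAffine.CoordinateRing :=
    { toFun := S
      map_one' := hinj (by rw [hS, map_one, map_one])
      map_mul' := fun a b => hinj (by rw [map_mul, hS, hS, hS, map_mul, map_mul])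
      map_zero' := hinj (by rw [hS, map_zero, map_zero])
      map_add' := fun a b => hinj (by rw [map_add, hS, hS, hS, map_add, map_add]) }
  have hS' : ∀ f, e (S' f) = σ (e f) := hS
  refine ⟨S', hS', ?_⟩
  have key : ∀ P, Ideal.map S' (Ip (W.baseChange Kb).toAffine P) ≤
      Ip (W.baseChange Kb).toAffine (act W g P) := by
    intro P
    rcases P with _ | ⟨a, b, hab⟩
    · have : act W g (Point.zero : Pts W Kb) = 0 := map_zero _
      erw [this]
      exact le_top
    · rw [Ideal.map_le_iff_le_comap]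
      change CoordinateRing.XYIdeal (W.baseChange Kb).toAffine a (C b) ≤
        Ideal.comap S' (CoordinateRing.XYIdeal (W.baseChange Kb).toAffine (g a) (C (g b)))
      have e1 : S' (CoordinateRing.XClass (W.baseChange Kb).toAffine a) =
          CoordinateRing.XClass (W.baseChange Kb).toAffine (g a) := by
        apply hinj
        rw [hS', CoordinateRing.XClass, CoordinateRing.XClass, h2, h2, map_sub, aeval_X,
          aeval_C, map_sub, map_sub, aeval_X, aeval_C, hσx, ← rk_apply (K := K) (Kb := Kb) σ a]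
      have e2 : S' (CoordinateRing.YClass (W.baseChange Kb).toAffine (C b)) =
          CoordinateRing.YClass (W.baseChange Kb).toAffine (C (g b)) := by
        apply hinj
        rw [hS', CoordinateRing.YClass, CoordinateRing.YClass, map_sub, map_sub, map_sub, map_sub,
          map_sub, hY, hC, hC, hσy, ← rk_apply (K := K) (Kb := Kb) σ b]
      rw [CoordinateRing.XYIdeal, Ideal.span_le]
      rintro t (rfl | ht)
      · rw [SetLike.mem_coe, Ideal.mem_comap, e1]
        exact Ideal.subset_span (Set.mem_insert _ _)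
      · rw [Set.mem_singleton_iff] at ht
        rw [ht, SetLike.mem_coe, Ideal.mem_comap, e2]
        exact Ideal.subset_span (Set.mem_insert_of_mem _ rfl)
  intro P n f hf
  have h4 : S' f ∈ Ideal.map S' (Ip (W.baseChange Kb).toAffine P ^ n) := Ideal.mem_map_of_mem _ hf
  rw [Ideal.map_pow] at h4
  exact Ideal.pow_right_mono (key P) n h4

end

section

variable {k K Kb F Ω : Type u} [Field k] [Field K] [Field Kb] [Field F] [Field Ω] [Algebra k K]
  [Algebra k Kb] [Algebra k F] [Algebra k Ω] [Algebra K Kb] [Algebra K F]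
  [Algebra Kb Ω] [Algebra F Ω] [Algebra K Ω] [IsScalarTower K Kb Ω] [IsScalarTower K F Ω]
  [IsScalarTower k K Kb] [IsScalarTower k K F] [IsScalarTower k K Ω] [IsScalarTower k Kb Ω]
  [IsScalarTower k F Ω]
  [IsAlgClosed Kb] [Algebra.IsAlgebraic K Kb] [IsAlgClosed Ω] [Algebra.IsAlgebraic F Ω]
  (W : WeierstrassCurve K)
theorem j_dvO (x y : Ω) (hT : ((W.baseChange Kb).toAffine.baseChange Ω).toAffine.Equation x y)
    (H : Pts W Kb → Pts W Kb → Ωˣ) (hG : Gen W F x y hT H)
    (hell : (W.baseChange Kb).IsElliptic) :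
    ∃ dv : Ωˣ → (Pts W Kb →₀ ℤ),
      (∀ u v : Ωˣ, (u : Ω) ∈ IntermediateField.adjoin Kb ({x, y} : Set Ω) →
        (v : Ω) ∈ IntermediateField.adjoin Kb ({x, y} : Set Ω) → dv (u * v) = dv u + dv v) ∧
      (∀ A B, dv (H A B) = (if A = 0 then 0 else Finsupp.single A 1) +
        (if B = 0 then 0 else Finsupp.single B 1) -
          (if A + B = 0 then 0 else Finsupp.single (A + B) 1)) ∧
      (∀ u : Ωˣ, (u : Ω) ∈ IntermediateField.adjoin Kb ({x, y} : Set Ω) →
        (dv u).sum (fun P n => n • P) = 0) ∧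
      ∀ (σ : Ω ≃ₐ[F] Ω) (u : Ωˣ), (u : Ω) ∈ IntermediateField.adjoin Kb ({x, y} : Set Ω) →
        dv (σ • u) = (dv u).mapDomain (act W (rk K Kb σ)) := by
  obtain ⟨dv', hd1, hd2, hd3, hd4⟩ := j_dv (W.baseChange Kb)
  obtain ⟨h1, h2, h3⟩ := ev_basic (W.baseChange Kb).toAffine x y hT
  have hinj := h3 hG.trans
  set e := ev (W.baseChange Kb).toAffine x y hT with he
  have hne : ∀ g, g ≠ 0 → e g ≠ 0 := fun g hg h0 => hg (hinj (by rw [h0, map_zero]))
  let dv : Ωˣ → (Pts W Kb →₀ ℤ) := fun u =>
    if h : ∃ f g, f ≠ 0 ∧ g ≠ 0 ∧ (u : Ω) * e g = e f then dv' h.choose - dv' h.choose_spec.choose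
    else 0
  have hdv : ∀ (u : Ωˣ) f g, f ≠ 0 → g ≠ 0 → (u : Ω) * e g = e f → dv u = dv' f - dv' g := by
    intro u f g hf hg hfg
    have h : ∃ f g, f ≠ 0 ∧ g ≠ 0 ∧ (u : Ω) * e g = e f := ⟨f, g, hf, hg, hfg⟩
    have e1 : dv u = dv' h.choose - dv' h.choose_spec.choose := dif_pos h
    rw [e1]
    obtain ⟨hf', hg', hfg'⟩ := h.choose_spec.choose_spec
    generalize h.choose_spec.choose = g' at *
    generalize h.choose = f' at *
    have h5 : f' * g = f * g' := by
      apply hinj
      rw [map_mul, map_mul, ← hfg, ← hfg']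
      ring
    have h6 := hd2 f' g hf' hg
    rw [h5, hd2 f g' hf hg'] at h6
    rw [sub_eq_sub_iff_add_eq_add, ← h6]
  have hrep : ∀ u : Ωˣ, (u : Ω) ∈ IntermediateField.adjoin Kb ({x, y} : Set Ω) →
      ∃ f g, f ≠ 0 ∧ g ≠ 0 ∧ (u : Ω) * e g = e f := by
    intro u hu
    obtain ⟨f, g, hg, h4⟩ := j_dvO_mem (W.baseChange Kb).toAffine x y hT hG.trans u hu
    refine ⟨f, g, ?_, hg, h4⟩
    rintro rfl
    rw [map_zero] at h4
    exact mul_ne_zero u.ne_zero (hne g hg) h4
  refine ⟨dv, ?_, ?_, ?_, ?_⟩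
  · intro u v hu hv
    obtain ⟨f, g, hf, hg, e1⟩ := hrep u hu
    obtain ⟨f', g', hf', hg', e2⟩ := hrep v hv
    rw [hdv u f g hf hg e1, hdv v f' g' hf' hg' e2,
      hdv (u * v) (f * f') (g * g') (mul_ne_zero hf hf') (mul_ne_zero hg hg')
        (by rw [Units.val_mul, map_mul, map_mul, ← e1, ← e2]; ring), hd2 f f' hf hf',
      hd2 g g' hg hg']
    abel
  · intro A B
    have hDf : Df (W.baseChange Kb).toAffine A B ≠ 0 := by
      unfold Df
      split
      · exact one_ne_zero
      · exact one_ne_zero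
      · split_ifs
        · exact one_ne_zero
        · exact X_sub_C_ne_zero _
    have hDe : e (CoordinateRing.mk (W.baseChange Kb).toAffine (C (Df (W.baseChange Kb).toAffine A B)))
        = aeval x (Df (W.baseChange Kb).toAffine A B) := h2 _
    have hDe0 : aeval x (Df (W.baseChange Kb).toAffine A B) ≠ 0 := by
      intro h0
      exact hG.trans ⟨_, hDf, h0⟩
    have hmk : CoordinateRing.mk (W.baseChange Kb).toAffine (C (Df (W.baseChange Kb).toAffine A B)) ≠ 0 := by
      intro h0
      rw [h0, map_zero] at hDe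
      exact hDe0 hDe.symm
    have hval := hG.val A B
    have hNf : Nf (W.baseChange Kb).toAffine A B ≠ 0 := by
      intro h0
      rw [h0, map_zero] at hval
      exact mul_ne_zero (H A B).ne_zero hDe0 hval
    rw [hdv (H A B) _ _ hNf hmk (by rw [hDe, hval])]
    exact hd4 A B
  · intro u hu
    obtain ⟨f, g, hf, hg, e1⟩ := hrep u hu
    rw [hdv u f g hf hg e1, Finsupp.sum_sub_index (fun a b₁ b₂ => sub_smul b₁ b₂ a), hd3 f hf, hd3 g hg,
      sub_zero]
  · intro σ u hu
    obtain ⟨x₀, hx₀⟩ := hG.mem.1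
    obtain ⟨y₀, hy₀⟩ := hG.mem.2
    have hσx : ∀ τ : Ω ≃ₐ[F] Ω, τ x = x := fun τ => by rw [← hx₀, τ.commutes]
    have hσy : ∀ τ : Ω ≃ₐ[F] Ω, τ y = y := fun τ => by rw [← hy₀, τ.commutes]
    obtain ⟨S, hS1, hS2⟩ := j_dvO_star W x y hT hG.trans σ (hσx σ) (hσy σ)
    obtain ⟨T, hT1, hT2⟩ := j_dvO_star W x y hT hG.trans σ⁻¹ (hσx _) (hσy _)
    have hTS : ∀ f, T (S f) = f := by
      intro f
      apply hinj
      rw [he, hT1, hS1]
      exact σ.symm_apply_apply _
    have hS0 : ∀ f, f ≠ 0 → S f ≠ 0 := by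
      intro f hf h0
      exact hf (by rw [← hTS f, h0, map_zero])
    have hgg0 : ∀ (τ : Ω ≃ₐ[F] Ω) (P : Pts W Kb),
        act W (rk K Kb τ⁻¹) (act W (rk K Kb τ) P) = P := by
      intro τ P
      rw [map_inv]
      generalize rk K Kb τ = g
      rcases P with _ | ⟨a, b, hab⟩
      · rfl
      · change (Point.some (g⁻¹ (g a)) (g⁻¹ (g b)) _ : Pts W Kb) = Point.some a b hab
        have ha : g⁻¹ (g a) = a := g.symm_apply_apply a
        have hb : g⁻¹ (g b) = b := g.symm_apply_apply b
        congr 1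
    have hgg := hgg0 σ
    have hgg' : ∀ P : Pts W Kb, act W (rk K Kb σ) (act W (rk K Kb σ⁻¹) P) = P := by
      intro P
      have := hgg0 σ⁻¹ P
      rwa [inv_inv] at this
    have hga : Function.Injective (act W (rk K Kb σ)) := fun P Q h => by
      rw [← hgg P, h, hgg]
    have key : ∀ f, f ≠ 0 → dv' (S f) = (dv' f).mapDomain (act W (rk K Kb σ)) := by
      intro f hf
      ext Q
      rw [← hgg' Q]
      generalize act W (rk K Kb σ⁻¹) Q = P
      rw [Finsupp.mapDomain_apply hga]
      by_cases hP : P = 0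
      · rw [hP, map_zero, (hd1 f hf).1, (hd1 _ (hS0 f hf)).1]
      · have hgP : act W (rk K Kb σ) P ≠ 0 := fun h => hP (hga (by rw [h, map_zero]))
        obtain ⟨ha0, ha⟩ := (hd1 f hf).2 P hP
        obtain ⟨hb0, hb⟩ := (hd1 _ (hS0 f hf)).2 _ hgP
        apply le_antisymm
        · have h4 : S f ∈ Ip (W.baseChange Kb).toAffine (act W (rk K Kb σ) P) ^
              (dv' (S f) (act W (rk K Kb σ) P)).toNat := (hb _).2 (by rw [Int.toNat_of_nonneg hb0])
          have h5 := hT2 _ _ _ h4
          rw [hTS, hgg] at h5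
          have h6 := (ha _).1 h5
          rwa [Int.toNat_of_nonneg hb0] at h6
        · have h4 : f ∈ Ip (W.baseChange Kb).toAffine P ^ (dv' f P).toNat :=
            (ha _).2 (by rw [Int.toNat_of_nonneg ha0])
          have h6 := (hb _).1 (hS2 _ _ _ h4)
          rwa [Int.toNat_of_nonneg ha0] at h6
    obtain ⟨f, g, hf, hg, e1⟩ := hrep u hu
    have e2 : ((σ • u : Ωˣ) : Ω) * e (S g) = e (S f) := by
      rw [he, hS1, hS1]
      have : ((σ • u : Ωˣ) : Ω) = σ u := rfl
      rw [this, ← map_mul, ← he, e1]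
    rw [hdv u f g hf hg e1, hdv _ _ _ (hS0 f hf) (hS0 g hg) e2, key f hf, key g hg]
    exact (map_sub (Finsupp.mapDomain.addMonoidHom (M := ℤ) (act W (rk K Kb σ))) (dv' f) (dv' g)).symm

end

end Pool.Agent.EFF

end

section


namespace Pool.Agent.EFF

open Polynomial WeierstrassCurve WeierstrassCurve.Affine

open scoped Classical

universe u v w

section

theorem j_perm {G : Type u} {X : Type v} [Group G] [MulAction G X] (D : G → X →₀ ℤ)
    (hD : ∀ σ τ : G, D (σ * τ) = D σ + (D τ).mapDomain (σ • ·)) (N : Subgroup G)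
    (hN : N.FiniteIndex) (h0 : ∀ ν ∈ N, D ν = 0) :
    ∃ E : X →₀ ℤ, ∀ σ : G, D σ = E.mapDomain (σ • ·) - E := by
  have mapD : ∀ (f : X →₀ ℤ) (σ : G) (y : X), (f.mapDomain (σ • ·)) y = f (σ⁻¹ • y) := by
    intro f σ y
    have h := Finsupp.mapDomain_apply (f := fun x : X => σ • x) (MulAction.injective σ) f (σ⁻¹ • y)
    have h2 : σ • (σ⁻¹ • y) = y := smul_inv_smul σ y
    rw [← h]
    show _ = (f.mapDomain fun x : X => σ • x) (σ • (σ⁻¹ • y))
    rw [h2]
  have hDy : ∀ (σ τ : G) (y : X), D (σ * τ) y = D σ y + D τ (σ⁻¹ • y) := by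
    intro σ τ y
    rw [hD, Finsupp.add_apply, mapD]
  have hstab : ∀ (h : G) (x : X), h • x = x → D h x = 0 := by
    intro h x hx
    have hx' : h⁻¹ • x = x := by
      rw [inv_smul_eq_iff]; exact hx.symm
    have hx'' : ∀ n : ℕ, (h ^ n)⁻¹ • x = x := by
      intro n
      induction n with
      | zero => simp
      | succ n ih =>
        rw [pow_succ, mul_inv_rev, mul_smul, ih, hx']
    have hpow : ∀ n : ℕ, D (h ^ n) x = n * D h x := by
      intro n
      induction n with
      | zero =>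
        have h1 := h0 1 N.one_mem
        simp [h1]
      | succ n ih =>
        rw [pow_succ, hDy, hx'' n, ih]
        push_cast
        ring
    obtain ⟨n, hn, -, hmem⟩ := Subgroup.exists_pow_mem_of_index_ne_zero hN.index_ne_zero h
    have h1 := hpow n
    rw [h0 _ hmem] at h1
    have h2 : (n : ℤ) ≠ 0 := by exact_mod_cast hn.ne'
    have h3 : (n : ℤ) * D h x = 0 := by rw [← h1]; rfl
    exact (mul_eq_zero.mp h3).resolve_left h2
  have hr : ∀ y : X, ∃ τ : G, τ • (Quotient.mk (MulAction.orbitRel G X) y).out = y := by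
    intro y
    have h := Quotient.exact (Quotient.out_eq (Quotient.mk (MulAction.orbitRel G X) y))
    have h' := MulAction.orbitRel_apply.mp ((MulAction.orbitRel G X).symm h)
    exact h'
  have hrinv : ∀ (σ : G) (y : X), (Quotient.mk (MulAction.orbitRel G X) (σ • y)).out
      = (Quotient.mk (MulAction.orbitRel G X) y).out := by
    intro σ y
    congr 1
    apply Quotient.sound
    exact ⟨σ, rfl⟩
  choose t ht using hr
  have hwell : ∀ (τ : G) (y : X), τ • (Quotient.mk (MulAction.orbitRel G X) y).out = y →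
      D τ y = D (t y) y := by
    intro τ y hτ
    have h1 : (t y)⁻¹ • y = (Quotient.mk (MulAction.orbitRel G X) y).out := by
      rw [inv_smul_eq_iff]; exact (ht y).symm
    have h2 : τ = t y * ((t y)⁻¹ * τ) := by group
    have h3 : ((t y)⁻¹ * τ) • (Quotient.mk (MulAction.orbitRel G X) y).out
        = (Quotient.mk (MulAction.orbitRel G X) y).out := by
      rw [mul_smul, hτ, h1]
    rw [h2, hDy, h1, hstab _ _ h3, add_zero]
  have hfin : (Set.range D).Finite := by
    have : Finite (G ⧸ N) := N.finite_quotient_of_finiteIndex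
    refine (Set.finite_range (fun q : G ⧸ N => D q.out)).subset ?_
    rintro _ ⟨σ, rfl⟩
    refine ⟨(σ : G ⧸ N), ?_⟩
    obtain ⟨ν, hν⟩ := QuotientGroup.mk_out_eq_mul N σ
    show D ((σ : G ⧸ N).out) = D σ
    rw [hν, hD, h0 _ ν.2, Finsupp.mapDomain_zero, add_zero]
  have hsupp : (Function.support (fun y : X => - D (t y) y)).Finite := by
    refine (hfin.biUnion (fun f _ => f.hasFiniteSupport)).subset ?_
    intro y hy
    rw [Set.mem_iUnion₂]
    refine ⟨D (t y), ⟨t y, rfl⟩, ?_⟩
    intro hzero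
    apply hy
    show - D (t y) y = 0
    rw [hzero, neg_zero]
  refine ⟨Finsupp.ofSupportFinite (fun y : X => - D (t y) y) hsupp, ?_⟩
  intro σ
  ext y
  rw [Finsupp.sub_apply, mapD]
  show D σ y = (- D (t (σ⁻¹ • y)) (σ⁻¹ • y)) - (- D (t y) y)
  have h1 : (σ⁻¹ * t y) • (Quotient.mk (MulAction.orbitRel G X) (σ⁻¹ • y)).out = σ⁻¹ • y := by
    rw [hrinv, mul_smul, ht]
  have h2 := hwell _ _ h1
  have h3 := hDy σ (σ⁻¹ * t y) y
  rw [mul_inv_cancel_left] at h3
  rw [h3, ← h2]
  ring

end

end Pool.Agent.EFF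

end

section


namespace Pool.Agent.EFF

open Polynomial WeierstrassCurve WeierstrassCurve.Affine

open scoped Classical

universe u v w

section

variable {K Kb F Ω : Type u} [Field K] [Field Kb] [Field F] [Field Ω] [Algebra K Kb] [Algebra K F]
  [Algebra Kb Ω] [Algebra F Ω] [Algebra K Ω] [IsScalarTower K Kb Ω] [IsScalarTower K F Ω]
  [IsAlgClosed Kb] [Algebra.IsAlgebraic K Kb] (W : WeierstrassCurve K)

private theorem j_main_ext (S : Finset Kb) : ∃ E : IntermediateField F Ω, FiniteDimensional F E ∧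
    ∀ σ σ' : Ω ≃ₐ[F] Ω, (∀ x ∈ E, σ x = σ' x) → ∀ a ∈ S, rk K Kb σ a = rk K Kb σ' a := by
  refine ⟨IntermediateField.adjoin F (algebraMap Kb Ω '' (S : Set Kb)), ?_, ?_⟩
  · have hf : Finite ↥(algebraMap Kb Ω '' (S : Set Kb)) := (S.finite_toSet.image _).to_subtype
    refine IntermediateField.finiteDimensional_adjoin ?_
    rintro _ ⟨a, -, rfl⟩
    have h1 : IsIntegral K a := (Algebra.IsAlgebraic.isAlgebraic (R := K) a).isIntegral
    have h2 : IsIntegral K (algebraMap Kb Ω a) := h1.map (IsScalarTower.toAlgHom K Kb Ω)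
    exact h2.tower_top
  · intro σ σ' h a ha
    apply (algebraMap Kb Ω).injective
    rw [rk_apply, rk_apply]
    exact h _ (IntermediateField.subset_adjoin F _ ⟨a, ha, rfl⟩)

omit [IsAlgClosed Kb] [Algebra.IsAlgebraic K Kb] in
private theorem j_main_one (P : Pts W Kb) : act W 1 P = P := by
  cases P with
  | zero => exact map_zero _
  | some x y h => rfl

omit [IsAlgClosed Kb] [Algebra.IsAlgebraic K Kb] in
private theorem j_main_mul (g h : Kb ≃ₐ[K] Kb) (P : Pts W Kb) :
    act W (g * h) P = act W g (act W h P) := by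
  cases P with
  | zero =>
    have h1 : act W h 0 = 0 := map_zero _
    have h2 : act W g 0 = 0 := map_zero _
    have h3 : act W (g * h) 0 = 0 := map_zero _
    show act W (g * h) 0 = act W g (act W h 0)
    rw [h1, h2, h3]
  | some x y hxy => rfl

omit [IsAlgClosed Kb] [Algebra.IsAlgebraic K Kb] in
private theorem j_main_zero (g : Kb ≃ₐ[K] Kb) (P : Pts W Kb) : act W g P = 0 ↔ P = 0 := by
  constructor
  · intro h
    have h1 := congrArg (act W g⁻¹) h
    rw [← j_main_mul, inv_mul_cancel, j_main_one, map_zero] at h1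
    exact h1
  · rintro rfl
    exact map_zero _

/-- the values of the functions lie in the function field -/
private theorem j_main_memH (x y : Ω)
    (hT : ((W.baseChange Kb).toAffine.baseChange Ω).toAffine.Equation x y)
    (H : Pts W Kb → Pts W Kb → Ωˣ) (hG : Gen W F x y hT H) (A B : Pts W Kb) :
    (H A B : Ω) ∈ IntermediateField.adjoin Kb ({x, y} : Set Ω) := by
  have hx : x ∈ IntermediateField.adjoin Kb ({x, y} : Set Ω) :=
    IntermediateField.subset_adjoin Kb _ (by simp)
  have hy : y ∈ IntermediateField.adjoin Kb ({x, y} : Set Ω) :=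
    IntermediateField.subset_adjoin Kb _ (by simp)
  have ha : ∀ p : Kb[X], aeval x p ∈ IntermediateField.adjoin Kb ({x, y} : Set Ω) := by
    intro p
    induction p using Polynomial.induction_on' with
    | add p q hp hq => rw [map_add]; exact add_mem hp hq
    | monomial n a =>
      rw [aeval_monomial]
      exact mul_mem (IntermediateField.algebraMap_mem _ a) (pow_mem hx n)
  have hev : ∀ f, ev (W.baseChange Kb).toAffine x y hT f ∈
      IntermediateField.adjoin Kb ({x, y} : Set Ω) := by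
    intro f
    induction f using AdjoinRoot.induction_on with
    | ih p =>
      rw [ev, AdjoinRoot.lift_mk]
      induction p using Polynomial.induction_on' with
      | add p q hp hq => rw [eval₂_add]; exact add_mem hp hq
      | monomial n a =>
        rw [eval₂_monomial]
        exact mul_mem (ha a) (pow_mem hy n)
  have hD : aeval x (Df (W.baseChange Kb).toAffine A B) ≠ 0 := by
    intro h
    have h1 : Df (W.baseChange Kb).toAffine A B = 0 := by
      by_contra h2
      exact hG.trans ⟨_, h2, h⟩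
    revert h1
    unfold Df
    split
    · exact one_ne_zero
    · exact one_ne_zero
    · split
      · exact one_ne_zero
      · exact X_sub_C_ne_zero _
  have h1 : (H A B : Ω) = ev (W.baseChange Kb).toAffine x y hT (Nf (W.baseChange Kb).toAffine A B) /
      aeval x (Df (W.baseChange Kb).toAffine A B) := by
    rw [eq_div_iff hD]
    exact hG.val A B
  rw [h1]
  exact div_mem (hev _) (ha _)

/-- automorphisms preserve the function field -/
private theorem j_main_memS (x y : Ω)
    (hT : ((W.baseChange Kb).toAffine.baseChange Ω).toAffine.Equation x y)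
    (H : Pts W Kb → Pts W Kb → Ωˣ) (hG : Gen W F x y hT H) (σ : Ω ≃ₐ[F] Ω) (u : Ω)
    (hu : u ∈ IntermediateField.adjoin Kb ({x, y} : Set Ω)) :
    σ u ∈ IntermediateField.adjoin Kb ({x, y} : Set Ω) := by
  induction hu using IntermediateField.adjoin_induction with
  | mem z hz =>
    have h1 : σ z = z := by
      rcases hz with rfl | hz
      · obtain ⟨a, ha⟩ := hG.mem.1
        rw [← ha, AlgEquiv.commutes]
      · rw [Set.mem_singleton_iff] at hz
        subst hz
        obtain ⟨a, ha⟩ := hG.mem.2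
        rw [← ha, AlgEquiv.commutes]
    rw [h1]
    exact IntermediateField.subset_adjoin Kb _ hz
  | algebraMap a =>
    rw [← rk_apply (K := K)]
    exact IntermediateField.algebraMap_mem _ _
  | add a b _ _ ha hb => rw [map_add]; exact add_mem ha hb
  | inv a _ ha => rw [map_inv₀]; exact inv_mem ha
  | mul a b _ _ ha hb => rw [map_mul]; exact mul_mem ha hb

end

section

variable {F Ω : Type u} [Field F] [Field Ω] [Algebra F Ω]

private theorem j_main_index (G : Subgroup (Ω ≃ₐ[F] Ω)) (E : IntermediateField F Ω)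
    (hE : FiniteDimensional F E) : (E.fixingSubgroup.subgroupOf G).FiniteIndex := by
  have h1 : Finite (↥G ⧸ E.fixingSubgroup.subgroupOf G) := by
    refine Finite.of_injective (β := E →ₐ[F] Ω)
      (fun q => (q.out : ↥G).1.toAlgHom.comp E.val) ?_
    intro q q' h
    rw [← q.out_eq, ← q'.out_eq]
    refine QuotientGroup.eq.2 ?_
    rw [Subgroup.mem_subgroupOf, IntermediateField.mem_fixingSubgroup_iff]
    intro a ha
    have h2 : (q.out : ↥G).1 a = (q'.out : ↥G).1 a := DFunLike.congr_fun h ⟨a, ha⟩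
    show ((q.out : ↥G).1)⁻¹ ((q'.out : ↥G).1 a) = a
    rw [← h2]
    exact AlgEquiv.symm_apply_apply _ a
  exact Subgroup.finiteIndex_of_finite_quotient

end

section

variable {X : Type u} [AddCommGroup X]

private noncomputable def j_mainδ (A : X) : X →₀ ℤ := if A = 0 then 0 else Finsupp.single A 1

private noncomputable def j_mains : (X →₀ ℤ) →+ X :=
  Finsupp.liftAddHom (fun P => (smulAddHom ℤ X).flip P)

private theorem j_mains_apply (f : X →₀ ℤ) : j_mains f = f.sum (fun P n => n • P) := by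
  rw [j_mains, Finsupp.liftAddHom_apply]
  rfl

private theorem j_mains_δ (A : X) : j_mains (j_mainδ A) = A := by
  rw [j_mains_apply, j_mainδ]
  split_ifs with h
  · rw [Finsupp.sum_zero_index, h]
  · rw [Finsupp.sum_single_index (zero_smul ℤ A), one_smul]

private theorem j_mains_map (f : X →₀ ℤ) (g : X →+ X) : j_mains (f.mapDomain g) = g (j_mains f) := by
  induction f using Finsupp.induction_linear with
  | zero => simp
  | add a b ha hb => rw [Finsupp.mapDomain_add, map_add, map_add, map_add, ha, hb]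
  | single P n =>
    have e1 := Finsupp.sum_single_index (h := fun (Q : X) (m : ℤ) => m • Q) (a := P) (b := n)
      (zero_smul ℤ P)
    have e2 := Finsupp.sum_single_index (h := fun (Q : X) (m : ℤ) => m • Q) (a := g P) (b := n)
      (zero_smul ℤ (g P))
    rw [Finsupp.mapDomain_single, j_mains_apply, j_mains_apply, e1, e2, map_zsmul]

private theorem j_mainδ_map (A : X) (g : X →+ X) (hg : g A = 0 ↔ A = 0) :
    (j_mainδ A).mapDomain g = j_mainδ (g A) := by
  unfold j_mainδ
  by_cases h : A = 0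
  · rw [if_pos h, if_pos (hg.2 h), Finsupp.mapDomain_zero]
  · rw [if_neg h, if_neg (fun h' => h (hg.1 h')), Finsupp.mapDomain_single]

end

section

variable {k K Kb F Ω : Type u} [Field k] [Field K] [Field Kb] [Field F] [Field Ω] [Algebra k K]
  [Algebra k Kb] [Algebra k F] [Algebra k Ω] [Algebra K Kb] [Algebra K F]
  [Algebra Kb Ω] [Algebra F Ω] [Algebra K Ω] [IsScalarTower K Kb Ω] [IsScalarTower K F Ω]
  [IsScalarTower k K Kb] [IsScalarTower k K F] [IsScalarTower k K Ω] [IsScalarTower k Kb Ω]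
  [IsScalarTower k F Ω]
  [IsAlgClosed Kb] [Algebra.IsAlgebraic K Kb] [IsAlgClosed Ω] [Algebra.IsAlgebraic F Ω]
  (W : WeierstrassCurve K)
theorem j_main (x y : Ω) (hT : ((W.baseChange Kb).toAffine.baseChange Ω).toAffine.Equation x y)
    (H : Pts W Kb → Pts W Kb → Ωˣ) (hG : Gen W F x y hT H)
    (hell : (W.baseChange Kb).IsElliptic)
    (hF : ∀ f : F, algebraMap F Ω f ∈ IntermediateField.adjoin K ({x, y} : Set Ω))
    (q : ℕ) [ExpChar Ω q] (c : (Kb ≃ₐ[K] Kb) → Pts W Kb) (hc : Crossed W c)
    (ht : T1B.Triv (T1B.geo k F Ω) (fc W F H c)) :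
    ∃ (r : ℕ) (R : Pts W Kb), ∀ σ ∈ T1B.geo k F Ω,
      q ^ r • c (rk K Kb σ) = act W (rk K Kb σ) R - R := by
  obtain ⟨b, hb, hcob, hfix⟩ := j_inf (k := k) W H hG.hfun c hc ht
  -- the function field
  have hF' : ∀ f : F, algebraMap F Ω f ∈ IntermediateField.adjoin Kb ({x, y} : Set Ω) := by
    intro f
    have h0 : ∀ z ∈ IntermediateField.adjoin K ({x, y} : Set Ω),
        z ∈ IntermediateField.adjoin Kb ({x, y} : Set Ω) := by
      intro z h1
      induction h1 using IntermediateField.adjoin_induction with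
      | mem z hz => exact IntermediateField.subset_adjoin Kb _ hz
      | algebraMap a =>
        rw [IsScalarTower.algebraMap_apply K Kb Ω]
        exact IntermediateField.algebraMap_mem _ _
      | add a b _ _ ha hb => exact add_mem ha hb
      | inv a _ ha => exact inv_mem ha
      | mul a b _ _ ha hb => exact mul_mem ha hb
    exact h0 _ (hF f)
  have hmS := j_main_memS W x y hT H hG
  have hmH := j_main_memH W x y hT H hG
  -- a uniform exponent
  obtain ⟨r, hr⟩ : ∃ r : ℕ, ∀ σ ∈ T1B.geo k F Ω,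
      ((b σ : Ωˣ) : Ω) ^ q ^ r ∈ IntermediateField.adjoin Kb ({x, y} : Set Ω) := by
    have h1 : ∀ u ∈ hb.finite_range.toFinset, ∃ r : ℕ, (∃ σ ∈ T1B.geo k F Ω, b σ = u) →
        (u : Ω) ^ q ^ r ∈ IntermediateField.adjoin Kb ({x, y} : Set Ω) := by
      intro u _
      by_cases h2 : ∃ σ ∈ T1B.geo k F Ω, b σ = u
      · obtain ⟨σ, hσ, h3⟩ := h2
        obtain ⟨r, hr⟩ := j_pow (k := k) (K := K) (Kb := Kb) (F := F) q x y hF' (u : Ω)
          (fun s hs hs' => by
            have h4 := (hfix σ hσ s hs hs').2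
            rw [h3] at h4
            exact congrArg Units.val h4)
        exact ⟨r, fun _ => hr⟩
      · exact ⟨0, fun h => absurd h h2⟩
    choose! ρ hρ using h1
    refine ⟨hb.finite_range.toFinset.sup ρ, fun σ hσ => ?_⟩
    have h2 : b σ ∈ hb.finite_range.toFinset := by
      rw [Set.Finite.mem_toFinset]
      exact ⟨σ, rfl⟩
    have h3 := hρ _ h2 ⟨σ, hσ, rfl⟩
    have h4 : ρ (b σ) ≤ hb.finite_range.toFinset.sup ρ := Finset.le_sup h2
    rw [← Nat.add_sub_of_le h4, pow_add, pow_mul]
    exact pow_mem h3 _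
  obtain ⟨dv, hdm, hdH, hds, hda⟩ := j_dvO W x y hT H hG hell
  have hdH' : ∀ A B, dv (H A B) = j_mainδ A + j_mainδ B - j_mainδ (A + B) := by
    intro A B
    rw [hdH]
    simp only [j_mainδ]
    split_ifs <;> rfl
  have hd1 : dv 1 = 0 := by
    have h1 := hdm 1 1 (one_mem _) (one_mem _)
    rw [mul_one] at h1
    exact (left_eq_add.1 h1)
  have hdp : ∀ u : Ωˣ, (u : Ω) ∈ IntermediateField.adjoin Kb ({x, y} : Set Ω) → ∀ n : ℕ,
      dv (u ^ n) = n • dv u := by
    intro u hu n
    induction n with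
    | zero => rw [pow_zero, hd1, zero_smul]
    | succ n ih =>
      rw [pow_succ, hdm _ _ (by rw [Units.val_pow_eq_pow_val]; exact pow_mem hu n) hu, ih,
        succ_nsmul]
  have hbm : ∀ σ ∈ T1B.geo k F Ω,
      ((b σ ^ q ^ r : Ωˣ) : Ω) ∈ IntermediateField.adjoin Kb ({x, y} : Set Ω) := by
    intro σ hσ
    rw [Units.val_pow_eq_pow_val]
    exact hr σ hσ
  -- the action of the Galois group on the points
  let act1 : MulAction (T1B.geo k F Ω) (Pts W Kb) :=
    { smul := fun σ P => act W (rk K Kb σ.1) P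
      one_smul := fun P => by
        show act W (rk K Kb ((1 : T1B.geo k F Ω) : Ω ≃ₐ[F] Ω)) P = P
        rw [OneMemClass.coe_one, map_one, j_main_one]
      mul_smul := fun σ τ P => by
        show act W (rk K Kb ((σ * τ : T1B.geo k F Ω) : Ω ≃ₐ[F] Ω)) P =
          act W (rk K Kb σ.1) (act W (rk K Kb τ.1) P)
        rw [MulMemClass.coe_mul, map_mul, j_main_mul] }
  obtain ⟨D, hDd⟩ : ∃ D : T1B.geo k F Ω → Pts W Kb →₀ ℤ, ∀ σ, D σ =
      q ^ r • j_mainδ (c (rk K Kb σ.1)) - dv (b σ.1 ^ q ^ r) := ⟨_, fun _ => rfl⟩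
  have hD : ∀ σ τ : T1B.geo k F Ω, D (σ * τ) = D σ + (D τ).mapDomain (σ • ·) := by
    intro σ τ
    have h1 := hcob σ.1 σ.2 τ.1 τ.2
    have h2 := congrArg (fun u => dv (u ^ q ^ r)) h1
    simp only [mul_pow] at h2
    have hm : (((σ.1 • b τ.1) ^ q ^ r : Ωˣ) : Ω) ∈
        IntermediateField.adjoin Kb ({x, y} : Set Ω) := by
      have h3 := hmS σ.1 _ (hbm τ.1 τ.2)
      rw [Units.val_pow_eq_pow_val, map_pow] at h3
      rw [Units.val_pow_eq_pow_val]
      exact h3
    have hmf : ((fc W F H c σ.1 τ.1 : Ωˣ) : Ω) ∈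
        IntermediateField.adjoin Kb ({x, y} : Set Ω) := hmH _ _
    have hsp : (σ.1 • b τ.1) ^ q ^ r = σ.1 • (b τ.1 ^ q ^ r) := (smul_pow' σ.1 (b τ.1) _).symm
    rw [hdm _ _ (by rw [Units.val_pow_eq_pow_val]; exact pow_mem hmf _)
        (hbm _ ((T1B.geo k F Ω).mul_mem σ.2 τ.2)), hdm _ _ (hbm σ.1 σ.2) hm, hdp _ hmf, hsp,
      hda σ.1 _ (hbm τ.1 τ.2)] at h2
    have hce : c (rk K Kb (σ.1 * τ.1)) = c (rk K Kb σ.1) + act W (rk K Kb σ.1) (c (rk K Kb τ.1)) := by
      rw [map_mul]
      exact hc.2 _ _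
    have h3 : dv (fc W F H c σ.1 τ.1) = j_mainδ (c (rk K Kb σ.1)) +
        j_mainδ (act W (rk K Kb σ.1) (c (rk K Kb τ.1))) - j_mainδ (c (rk K Kb (σ.1 * τ.1))) := by
      rw [hce]
      exact hdH' _ _
    have h4 : (D τ).mapDomain (σ • ·) = q ^ r • j_mainδ (act W (rk K Kb σ.1) (c (rk K Kb τ.1))) -
        (dv (b τ.1 ^ q ^ r)).mapDomain (act W (rk K Kb σ.1)) := by
      show (D τ).mapDomain (act W (rk K Kb σ.1)) = _
      rw [hDd, ← j_mainδ_map _ _ (j_main_zero W _ _)]
      have h5 := (Finsupp.mapDomain.addMonoidHom (M := ℤ) (act W (rk K Kb σ.1))).map_sub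
        (q ^ r • j_mainδ (c (rk K Kb τ.1))) (dv (b τ.1 ^ q ^ r))
      have h6 := (Finsupp.mapDomain.addMonoidHom (M := ℤ) (act W (rk K Kb σ.1))).map_nsmul
        (q ^ r) (j_mainδ (c (rk K Kb τ.1)))
      rw [h6] at h5
      exact h5
    rw [h3] at h2
    rw [h4, hDd, hDd]
    show q ^ r • j_mainδ (c (rk K Kb (σ.1 * τ.1))) - dv (b (σ.1 * τ.1) ^ q ^ r) = _
    have h7 : ∀ a a' : Pts W Kb →₀ ℤ, a = a' → ∀ z z' : Pts W Kb →₀ ℤ,
        z - z' = a' - a → z = z' := by
      intro a a' h z z' h'
      rw [← sub_eq_zero, h', h, sub_self]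
    refine h7 _ _ h2 _ _ ?_
    rw [nsmul_sub, nsmul_add]
    abel
  -- a subgroup of finite index on which everything is trivial
  obtain ⟨S, hS, -⟩ := c_fin W c hc
  obtain ⟨E, hE, hEr⟩ := j_main_ext (K := K) (Kb := Kb) (F := F) (Ω := Ω) S
  obtain ⟨E', hE', hEb⟩ := id hb
  have hEE : FiniteDimensional F (E ⊔ E' : IntermediateField F Ω) :=
    IntermediateField.finiteDimensional_sup E E'
  have hc1 : c 1 = 0 := by
    have h2 := hc.2 1 1
    rw [mul_one, j_main_one] at h2
    exact left_eq_add.1 h2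
  have hb1 : b 1 = 1 := by
    have h1 := hcob 1 (one_mem _) 1 (one_mem _)
    have h2 : fc W F H c (1 : Ω ≃ₐ[F] Ω) 1 = 1 := by
      unfold fc
      rw [map_one, hc1]
      exact hG.hfun.zero _
    rw [h2, one_mul, mul_one, one_smul] at h1
    exact left_eq_mul.1 h1
  have hN := j_main_index (T1B.geo k F Ω) (E ⊔ E') hEE
  obtain ⟨E₁, hE₁⟩ := j_perm D hD _ hN (by
    intro ν hν
    rw [Subgroup.mem_subgroupOf, IntermediateField.mem_fixingSubgroup_iff] at hν
    have h1 : c (rk K Kb ν.1) = 0 := by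
      rw [hS (rk K Kb ν.1) (rk K Kb (1 : Ω ≃ₐ[F] Ω)) (hEr _ _ fun a ha =>
        hν a ((le_sup_left : E ≤ E ⊔ E') ha)), map_one, hc1]
    have h2 : b ν.1 = 1 := by
      rw [hEb ν.1 1 (fun a ha => hν a ((le_sup_right : E' ≤ E ⊔ E') ha)), hb1]
    rw [hDd, h1, h2, one_pow, hd1]
    simp [j_mainδ])
  refine ⟨r, j_mains E₁, fun σ hσ => ?_⟩
  have h1 := congrArg j_mains (hE₁ ⟨σ, hσ⟩)
  rw [hDd, map_sub, map_sub, map_nsmul, j_mains_δ, j_mains_apply (dv _),
    hds _ (hbm σ hσ), sub_zero] at h1
  rw [h1]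
  congr 1
  exact j_mains_map E₁ (act W (rk K Kb σ))

end

end Pool.Agent.EFF

end

section


namespace Pool.Agent.EFF

open Polynomial WeierstrassCurve WeierstrassCurve.Affine

open scoped Classical

universe u v w

section

variable {k K Kb F Ω : Type u} [Field k] [Field K] [Field Kb] [Field F] [Field Ω] [Algebra k K]
  [Algebra k Kb] [Algebra k F] [Algebra k Ω] [Algebra K Kb] [Algebra K F]
  [Algebra Kb Ω] [Algebra F Ω] [Algebra K Ω] [IsScalarTower K Kb Ω] [IsScalarTower K F Ω]
  [IsScalarTower k K Kb] [IsScalarTower k K F] [IsScalarTower k K Ω] [IsScalarTower k Kb Ω]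
  [IsScalarTower k F Ω]
  [IsAlgClosed Kb] [Algebra.IsAlgebraic K Kb] [IsAlgClosed Ω] [Algebra.IsAlgebraic F Ω]
  (W : WeierstrassCurve K)
omit [Algebra K F] [Algebra F Ω] [Algebra K Ω] [IsScalarTower K Kb Ω] [IsScalarTower K F Ω]
  [IsAlgClosed Kb] [Algebra.IsAlgebraic K Kb] [IsAlgClosed Ω] [Algebra.IsAlgebraic F Ω] in
private lemma jl_poly (g : Kb ≃ₐ[K] Kb) :
    (W.baseChange Kb).toAffine.polynomial.map
      ((mapEquiv g.toRingEquiv : Kb[X] ≃+* Kb[X]) : Kb[X] →+* Kb[X]) =
    (W.baseChange Kb).toAffine.polynomial := by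
  have h1 : (((W.baseChange Kb).map ((g.toRingEquiv : Kb ≃+* Kb) : Kb →+* Kb)).toAffine).polynomial =
      ((W.baseChange Kb).toAffine.polynomial).map
        (mapRingHom ((g.toRingEquiv : Kb ≃+* Kb) : Kb →+* Kb)) :=
    WeierstrassCurve.Affine.map_polynomial _ _
  have h2 : (W.baseChange Kb).map ((g.toRingEquiv : Kb ≃+* Kb) : Kb →+* Kb) =
      W.baseChange Kb := by
    rw [WeierstrassCurve.baseChange, WeierstrassCurve.map_map]
    congr 1
    ext a
    simp
  rw [h2] at h1
  have h3 : ((mapEquiv g.toRingEquiv : Kb[X] ≃+* Kb[X]) : Kb[X] →+* Kb[X]) =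
      mapRingHom ((g.toRingEquiv : Kb ≃+* Kb) : Kb →+* Kb) := by
    ext <;> simp
  rw [h3]
  exact h1.symm

theorem j_lift (x y : Ω) (hT : ((W.baseChange Kb).toAffine.baseChange Ω).toAffine.Equation x y)
    (H : Pts W Kb → Pts W Kb → Ωˣ) (hG : Gen W F x y hT H)
    (hF : ∀ f : F, algebraMap F Ω f ∈ IntermediateField.adjoin K ({x, y} : Set Ω))
    (g : Kb ≃ₐ[K] Kb) (hg : g ∈ T1B.geo k K Kb) :
    ∃ σ ∈ T1B.geo k F Ω, rk K Kb σ = g := by
  set W' := (W.baseChange Kb).toAffine with hW'
  obtain ⟨hb1, hb2, hb3⟩ := ev_basic W' x y hT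
  have hinj := hb3 hG.trans
  set e1 : W'.CoordinateRing →+* Ω := ev W' x y hT with he1
  have hroot : e1 (AdjoinRoot.root W'.polynomial) = y := by
    have := hb1 0 1
    simpa using this
  have hof : ∀ p : Kb[X], e1 (AdjoinRoot.of W'.polynomial p) = aeval x p := fun p => hb2 p
  let _ : Algebra W'.CoordinateRing Ω := e1.toAlgebra
  have halg1 : ∀ r : W'.CoordinateRing, algebraMap W'.CoordinateRing Ω r = e1 r := fun r => rfl
  have : Module.IsTorsionFree W'.CoordinateRing Ω :=
    Module.isTorsionFree_iff_algebraMap_injective.mpr hinj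
  have hA : Algebra.IsAlgebraic W'.CoordinateRing Ω := by
    refine ⟨fun t => ?_⟩
    have h1 := hG.alg t
    open scoped IntermediateField.algebraAdjoinAdjoin in
    have h2 : IsAlgebraic (Algebra.adjoin Kb {x}) t :=
      (IsFractionRing.isAlgebraic_iff (Algebra.adjoin Kb {x})
        (IntermediateField.adjoin Kb {x}) Ω).2 h1
    let e : Kb[X] ≃ₐ[Kb] Algebra.adjoin Kb {x} := algEquivOfTranscendental Kb x hG.trans
    have hof1 : Function.Injective (AdjoinRoot.of W'.polynomial) := by
      intro p q hpq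
      have h3 := congrArg e1 hpq
      rw [hof, hof] at h3
      exact transcendental_iff_injective.1 hG.trans h3
    refine IsAlgebraic.ringHom_of_comp_eq
      ((AdjoinRoot.of W'.polynomial).comp (e.symm : Algebra.adjoin Kb {x} →+* Kb[X]))
      (RingHom.id Ω) h2 ?_ ?_
    · exact hof1.comp e.symm.injective
    · ext z
      obtain ⟨p, rfl⟩ := e.surjective z
      have h3 : ((AdjoinRoot.of W'.polynomial).comp
          (e.symm : Algebra.adjoin Kb {x} →+* Kb[X])) (e p) = AdjoinRoot.of W'.polynomial p := by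
        have h4 : (e.symm : Algebra.adjoin Kb {x} →+* Kb[X]) (e p) = p := e.symm_apply_apply p
        rw [RingHom.comp_apply, h4]
      have h5 : algebraMap (Algebra.adjoin Kb {x}) Ω (e p) = aeval x p := by
        have h6 : (e p : Ω) = aeval x p := by
          simp [e]
        exact h6
      have h7 : (algebraMap W'.CoordinateRing Ω) (((AdjoinRoot.of W'.polynomial).comp
          (e.symm : Algebra.adjoin Kb {x} →+* Kb[X])) (e p)) =
          (algebraMap (Algebra.adjoin Kb {x}) Ω) (e p) := by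
        rw [h3, halg1, hof, h5]
      exact h7
  have : IsAlgClosure W'.CoordinateRing Ω := ⟨inferInstance, hA⟩
  let τ : W'.CoordinateRing ≃+* W'.CoordinateRing :=
    AdjoinRoot.mapRingEquiv (mapEquiv g.toRingEquiv) W'.polynomial W'.polynomial
      (by rw [jl_poly])
  have hτroot : τ (AdjoinRoot.root W'.polynomial) = AdjoinRoot.root W'.polynomial := by
    simp [τ]
  have hτof : ∀ p : Kb[X], τ (AdjoinRoot.of W'.polynomial p) =
      AdjoinRoot.of W'.polynomial (p.map (g.toRingEquiv : Kb →+* Kb)) := by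
    intro p
    simp [τ]
  let σ₀ : Ω ≃+* Ω := IsAlgClosure.equivOfEquiv Ω Ω τ
  have hσ : ∀ r, σ₀ (e1 r) = e1 (τ r) := fun r => IsAlgClosure.equivOfEquiv_algebraMap Ω Ω τ r
  have hσy : σ₀ y = y := by
    have := hσ (AdjoinRoot.root W'.polynomial)
    rw [hτroot, hroot] at this
    exact this
  have hσx : σ₀ x = x := by
    have := hσ (AdjoinRoot.of W'.polynomial X)
    rw [hτof, hof, hof] at this
    simpa using this
  have hσb : ∀ c : Kb, σ₀ (algebraMap Kb Ω c) = algebraMap Kb Ω (g c) := by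
    intro c
    have := hσ (AdjoinRoot.of W'.polynomial (C c))
    rw [hτof, hof, hof] at this
    simpa using this
  have hσK : ∀ c : K, σ₀ (algebraMap K Ω c) = algebraMap K Ω c := by
    intro c
    rw [IsScalarTower.algebraMap_apply K Kb Ω, hσb, g.commutes]
  have hσF : ∀ f : F, σ₀ (algebraMap F Ω f) = algebraMap F Ω f := by
    intro f
    refine IntermediateField.adjoin_induction K (s := {x, y})
      (p := fun z _ => σ₀ z = z) ?_ ?_ ?_ ?_ ?_ (hF f)
    · rintro z (rfl | rfl)
      · exact hσx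
      · exact hσy
    · exact hσK
    · intro a b _ _ ha hb
      rw [map_add, ha, hb]
    · intro a _ ha
      rw [map_inv₀, ha]
    · intro a b _ _ ha hb
      rw [map_mul, ha, hb]
  let σ : Ω ≃ₐ[F] Ω := AlgEquiv.ofRingEquiv (f := σ₀) hσF
  have hσ' : ∀ z, σ z = σ₀ z := fun z => rfl
  refine ⟨σ, ?_, ?_⟩
  · intro z hz
    have hz1 : IsAlgebraic Kb z := hz.tower_top Kb
    obtain ⟨c, hc⟩ : ∃ c : Kb, algebraMap Kb Ω c = z := by
      have h1 := IsAlgClosed.degree_eq_one_of_irreducible Kb
        (minpoly.irreducible hz1.isIntegral)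
      exact minpoly.mem_range_of_degree_eq_one Kb z h1
    subst hc
    have hc1 : IsAlgebraic k c := (isAlgebraic_algebraMap_iff (algebraMap Kb Ω).injective).1 hz
    rw [hσ', hσb, hg c hc1]
  · ext a
    apply (algebraMap Kb Ω).injective
    rw [rk_apply, hσ', hσb]

end

end Pool.Agent.EFF

end
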