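import Pool.Agent.EFM.Defs
import Pool.Agent.TBM.Val
import Pool.Agent.EFM.H
import Pool.Agent.TBM.TGroup
import Pool.Agent.T1B.Transfer2
import Pool.Agent.T1B.Transfer
import Pool.Agent.EFM.S

/-!
# Unramifiedness
-/

set_option autoImplicit false

section


namespace Pool.Agent.EFF

open Polynomial WeierstrassCurve WeierstrassCurve.Affine

open scoped Classical

universe u v w

section

private theorem v_fix_le {F Ω : Type u} [Field F] [Field Ω] [Algebra F Ω]
    (V : ValuationSubring Ω) (σ : Ω ≃ₐ[F] Ω) (hσ : σ ∈ T1B.stab V) (x y : Ω) :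
    V.valuation (σ x) ≤ V.valuation (σ y) ↔ V.valuation x ≤ V.valuation y := by
  have hσ' : ∀ z : Ω, σ z ∈ V ↔ z ∈ V := hσ
  rw [V.valuation_le_iff, V.valuation_le_iff]
  constructor
  · rintro ⟨a, ha⟩
    refine ⟨⟨σ.symm (a : Ω), ?_⟩, ?_⟩
    · rw [← hσ' (σ.symm (a : Ω)), σ.apply_symm_apply]
      exact a.2
    · apply σ.injective
      rw [map_mul]
      show σ (σ.symm (a : Ω)) * σ y = σ x
      rw [σ.apply_symm_apply]
      exact ha
  · rintro ⟨a, ha⟩
    refine ⟨⟨σ (a : Ω), (hσ' _).2 a.2⟩, ?_⟩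
    show σ (a : Ω) * σ y = σ x
    rw [← map_mul, ha]

private theorem v_fix_lt {F Ω : Type u} [Field F] [Field Ω] [Algebra F Ω]
    (V : ValuationSubring Ω) (σ : Ω ≃ₐ[F] Ω) (hσ : σ ∈ T1B.stab V) (x y : Ω) :
    V.valuation (σ x) < V.valuation (σ y) ↔ V.valuation x < V.valuation y := by
  rw [← not_le, ← not_le, v_fix_le V σ hσ]

private theorem v_fix_orbit {F Ω : Type u} [Field F] [Field Ω] [Algebra F Ω]
    [Algebra.IsAlgebraic F Ω] (σ : Ω ≃ₐ[F] Ω) (u : Ω) :
    ∃ i j : ℕ, i ≠ j ∧ (σ ^ i) u = (σ ^ j) u := by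
  have hu : IsIntegral F u := Algebra.IsIntegral.isIntegral u
  have hm : ∀ n : ℕ, (σ ^ n) u ∈ (minpoly F u).rootSet Ω := by
    intro n
    rw [mem_rootSet]
    refine ⟨minpoly.ne_zero hu, ?_⟩
    have h := aeval_algHom_apply ((σ ^ n : Ω ≃ₐ[F] Ω) : Ω →ₐ[F] Ω) u (minpoly F u)
    rw [minpoly.aeval, map_zero] at h
    exact h
  have hfin : Finite ((minpoly F u).rootSet Ω) := inferInstance
  obtain ⟨i, j, hij, h⟩ := Finite.exists_ne_map_eq_of_infinite
    (fun n : ℕ => (⟨(σ ^ n) u, hm n⟩ : (minpoly F u).rootSet Ω))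
  exact ⟨i, j, hij, congrArg Subtype.val h⟩

theorem v_fix {F Ω : Type u} [Field F] [Field Ω] [Algebra F Ω] [Algebra.IsAlgebraic F Ω]
    (V : ValuationSubring Ω) (σ : Ω ≃ₐ[F] Ω) (hσ : σ ∈ T1B.stab V) (u : Ω) :
    V.valuation (σ u) = V.valuation u := by
  obtain ⟨i, j, hij, h⟩ := v_fix_orbit σ u
  have hs : ∀ n : ℕ, (σ ^ (n + 1)) u = σ ((σ ^ n) u) := by
    intro n
    rw [pow_succ']
    rfl
  have h' : V.valuation ((σ ^ i) u) = V.valuation ((σ ^ j) u) := congrArg _ h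
  rcases lt_trichotomy (V.valuation (σ u)) (V.valuation u) with h1 | h1 | h1
  · exfalso
    have ha : StrictAnti (fun n : ℕ => V.valuation ((σ ^ n) u)) := by
      apply strictAnti_nat_of_succ_lt
      intro n
      induction n with
      | zero =>
        show V.valuation ((σ ^ (0 + 1)) u) < V.valuation ((σ ^ 0) u)
        rw [hs, pow_zero]
        exact h1
      | succ m ih =>
        show V.valuation ((σ ^ (m + 1 + 1)) u) < V.valuation ((σ ^ (m + 1)) u)
        rw [hs (m + 1), hs m, v_fix_lt V σ hσ, ← hs m]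
        exact ih
    exact hij (ha.injective h')
  · exact h1
  · exfalso
    have ha : StrictMono (fun n : ℕ => V.valuation ((σ ^ n) u)) := by
      apply strictMono_nat_of_lt_succ
      intro n
      induction n with
      | zero =>
        show V.valuation ((σ ^ 0) u) < V.valuation ((σ ^ (0 + 1)) u)
        rw [hs, pow_zero]
        exact h1
      | succ m ih =>
        show V.valuation ((σ ^ (m + 1)) u) < V.valuation ((σ ^ (m + 1 + 1)) u)
        rw [hs (m + 1), hs m, v_fix_lt V σ hσ, ← hs m]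
        exact ih
    exact hij (ha.injective h')

end

end Pool.Agent.EFF

end

section


namespace Pool.Agent.EFF

open Polynomial WeierstrassCurve WeierstrassCurve.Affine

open scoped Classical

universe u v w

section

variable {L Ω : Type u} [Field L] [Field Ω] [Algebra L Ω]

theorem v_aff_one (V : ValuationSubring Ω) (hV : ∀ a : L, algebraMap L Ω a ∈ V) (a : L)
    (ha : a ≠ 0) : V.valuation (algebraMap L Ω a) = 1 := by
  have h1 : V.valuation (algebraMap L Ω a) ≤ 1 := (V.valuation_le_one_iff _).mpr (hV a)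
  have h2 : V.valuation (algebraMap L Ω a⁻¹) ≤ 1 := (V.valuation_le_one_iff _).mpr (hV a⁻¹)
  have h3 : V.valuation (algebraMap L Ω a) * V.valuation (algebraMap L Ω a⁻¹) = 1 := by
    rw [← map_mul, ← map_mul, mul_inv_cancel₀ ha, map_one, map_one]
  refine le_antisymm h1 ?_
  calc (1 : V.ValueGroup) = V.valuation (algebraMap L Ω a) * V.valuation (algebraMap L Ω a⁻¹) :=
        h3.symm
    _ ≤ V.valuation (algebraMap L Ω a) * 1 := mul_le_mul_right h2 _
    _ = V.valuation (algebraMap L Ω a) := mul_one _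

theorem v_aff_zero (V : ValuationSubring Ω) (hV : ∀ a : L, algebraMap L Ω a ∈ V) (a : L)
    (ha : V.valuation (algebraMap L Ω a) < 1) : a = 0 := by
  by_contra h
  exact absurd (v_aff_one V hV a h) ha.ne

theorem v_aff_poly (V : ValuationSubring Ω) (hV : ∀ a : L, algebraMap L Ω a ∈ V) (x : Ω)
    (hx : x ∈ V) (p : L[X]) : aeval x p ∈ V := by
  rw [Polynomial.aeval_eq_sum_range]
  refine sum_mem fun i _ => ?_
  rw [Algebra.smul_def]
  exact mul_mem (hV _) (pow_mem hx i)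

theorem v_aff_res [IsAlgClosed L] (V : ValuationSubring Ω)
    (hV : ∀ a : L, algebraMap L Ω a ∈ V) (hV' : V ≠ ⊤) (x : Ω) (hx : x ∈ V)
    (halg : ∀ t : Ω, IsAlgebraic (IntermediateField.adjoin L {x}) t) :
    ∃ α : L, V.valuation (x - algebraMap L Ω α) < 1 := by
  by_contra! hcon
  have h1 : ∀ α : L, V.valuation (x - algebraMap L Ω α) = 1 := fun α =>
    le_antisymm ((V.valuation_le_one_iff _).mpr (sub_mem hx (hV _))) (hcon α)
  have h2 : ∀ r : L[X], r ≠ 0 → V.valuation (Polynomial.aeval x r) = 1 := by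
    intro r hr
    have hs : r.Splits := IsAlgClosed.splits r
    rw [hs.eq_prod_roots, map_mul, Polynomial.aeval_C, map_mul]
    have h3 : V.valuation (algebraMap L Ω r.leadingCoeff) = 1 :=
      v_aff_one V hV _ (Polynomial.leadingCoeff_ne_zero.mpr hr)
    rw [h3, one_mul, map_multiset_prod, map_multiset_prod, Multiset.map_map, Multiset.map_map]
    refine Multiset.prod_eq_one fun y hy => ?_
    obtain ⟨α, -, rfl⟩ := Multiset.mem_map.mp hy
    simp only [Function.comp_apply, map_sub, Polynomial.aeval_X, Polynomial.aeval_C]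
    exact h1 α
  refine hV' (Pool.Agent.TBR.V.eq_top V (IntermediateField.adjoin L {x}) (fun z hz => ?_) halg)
  obtain ⟨r, s, rfl⟩ := (IntermediateField.mem_adjoin_simple_iff L z).mp hz
  by_cases hr : r = 0
  · rw [hr, map_zero, zero_div]; exact V.zero_mem
  by_cases hs : s = 0
  · rw [hs, map_zero, div_zero]; exact V.zero_mem
  rw [← V.valuation_le_one_iff, map_div₀, h2 r hr, h2 s hs, div_one]

/-- `y` is in `V` -/
theorem v_aff_y (V : ValuationSubring Ω) (x y a₁ a₂ a₃ a₄ a₆ : Ω) (hx : x ∈ V) (h1 : a₁ ∈ V)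
    (h2 : a₂ ∈ V) (h3 : a₃ ∈ V) (h4 : a₄ ∈ V) (h6 : a₆ ∈ V)
    (h : y ^ 2 + a₁ * x * y + a₃ * y = x ^ 3 + a₂ * x ^ 2 + a₄ * x + a₆) : y ∈ V := by
  by_contra hy
  have hy0 : y ≠ 0 := fun h0 => hy (h0 ▸ V.zero_mem)
  have hyi : y⁻¹ ∈ V := (V.mem_or_inv_mem y).resolve_left hy
  refine hy ?_
  have e : y = -(a₁ * x + a₃) + (x ^ 3 + a₂ * x ^ 2 + a₄ * x + a₆) * y⁻¹ := by
    rw [← h]
    field_simp
    ring
  rw [e]
  exact add_mem (neg_mem (add_mem (mul_mem h1 hx) h3)) (mul_mem (add_mem (add_mem (add_mem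
    (pow_mem hx 3) (mul_mem h2 (pow_mem hx 2))) (mul_mem h4 hx)) h6) hyi)

/-- `I` has the value `γ` -/
def v_aff_IsVal {R : Type u} [CommRing R] (φ : R →+* Ω) (V : ValuationSubring Ω) (I : Ideal R)
    (γ : V.ValueGroup) : Prop :=
  (∀ f ∈ I, V.valuation (φ f) ≤ γ) ∧ ∃ f ∈ I, V.valuation (φ f) = γ

theorem v_aff_IsVal_unique {R : Type u} [CommRing R] (φ : R →+* Ω) (V : ValuationSubring Ω)
    (I : Ideal R) (γ δ : V.ValueGroup) (h : v_aff_IsVal φ V I γ) (h' : v_aff_IsVal φ V I δ) :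
    γ = δ := by
  obtain ⟨f, hf, hfγ⟩ := h.2
  obtain ⟨g, hg, hgδ⟩ := h'.2
  refine le_antisymm ?_ ?_
  · rw [← hfγ]; exact h'.1 f hf
  · rw [← hgδ]; exact h.1 g hg

theorem v_aff_IsVal_mul {R : Type u} [CommRing R] (φ : R →+* Ω) (V : ValuationSubring Ω)
    (I J : Ideal R) (γ δ : V.ValueGroup) (h : v_aff_IsVal φ V I γ) (h' : v_aff_IsVal φ V J δ) :
    v_aff_IsVal φ V (I * J) (γ * δ) := by
  constructor
  · intro f hf
    refine Submodule.mul_induction_on hf ?_ ?_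
    · intro a ha b hb
      rw [map_mul, map_mul]
      exact mul_le_mul' (h.1 a ha) (h'.1 b hb)
    · intro a b ha hb
      rw [map_add]
      exact (V.valuation.map_add _ _).trans (max_le ha hb)
  · obtain ⟨f, hf, hfγ⟩ := h.2
    obtain ⟨g, hg, hgδ⟩ := h'.2
    exact ⟨f * g, Ideal.mul_mem_mul hf hg, by rw [map_mul, map_mul, hfγ, hgδ]⟩

theorem v_aff_IsVal_span {R : Type u} [CommRing R] (φ : R →+* Ω) (V : ValuationSubring Ω)
    (hφ : ∀ f : R, φ f ∈ V) (g : R) :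
    v_aff_IsVal φ V (Ideal.span {g}) (V.valuation (φ g)) := by
  constructor
  · intro f hf
    obtain ⟨r, rfl⟩ := Ideal.mem_span_singleton'.mp hf
    rw [map_mul, map_mul]
    calc V.valuation (φ r) * V.valuation (φ g) ≤ 1 * V.valuation (φ g) :=
          mul_le_mul_left ((V.valuation_le_one_iff _).mpr (hφ r)) _
      _ = V.valuation (φ g) := one_mul _
  · exact ⟨g, Ideal.mem_span_singleton_self g, rfl⟩

theorem v_aff_IsVal_pair {R : Type u} [CommRing R] (φ : R →+* Ω) (V : ValuationSubring Ω)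
    (hφ : ∀ f : R, φ f ∈ V) (g h : R) :
    v_aff_IsVal φ V (Ideal.span {g, h}) (max (V.valuation (φ g)) (V.valuation (φ h))) := by
  constructor
  · intro f hf
    obtain ⟨r, s, rfl⟩ := Ideal.mem_span_pair.mp hf
    rw [map_add]
    refine (V.valuation.map_add _ _).trans (max_le_max ?_ ?_)
    · rw [map_mul, map_mul]
      calc V.valuation (φ r) * V.valuation (φ g) ≤ 1 * V.valuation (φ g) :=
            mul_le_mul_left ((V.valuation_le_one_iff _).mpr (hφ r)) _
        _ = V.valuation (φ g) := one_mul _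
    · rw [map_mul, map_mul]
      calc V.valuation (φ s) * V.valuation (φ h) ≤ 1 * V.valuation (φ h) :=
            mul_le_mul_left ((V.valuation_le_one_iff _).mpr (hφ s)) _
        _ = V.valuation (φ h) := one_mul _
  · rcases le_total (V.valuation (φ g)) (V.valuation (φ h)) with hh | hh
    · exact ⟨h, Ideal.subset_span (by simp), (max_eq_right hh).symm⟩
    · exact ⟨g, Ideal.subset_span (by simp), (max_eq_left hh).symm⟩

theorem v_aff_IsVal_top {R : Type u} [CommRing R] (φ : R →+* Ω) (V : ValuationSubring Ω)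
    (hφ : ∀ f : R, φ f ∈ V) : v_aff_IsVal φ V (⊤ : Ideal R) 1 :=
  ⟨fun f _ => (V.valuation_le_one_iff _).mpr (hφ f), 1, Submodule.mem_top, by simp⟩

/-- the value of a point -/
noncomputable def v_aff_w (W : Affine L) (V : ValuationSubring Ω) (x y : Ω) :
    W.Point → V.ValueGroup
  | 0 => 1
  | Point.some a b _ => max (V.valuation (x - algebraMap L Ω a)) (V.valuation (y - algebraMap L Ω b))

theorem v_aff_ev_mem (W : Affine L) (V : ValuationSubring Ω)
    (hV : ∀ a : L, algebraMap L Ω a ∈ V) (x y : Ω) (h : (W.baseChange Ω).toAffine.Equation x y)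
    (hx : x ∈ V) (hy : y ∈ V) (f : W.CoordinateRing) : ev W x y h f ∈ V := by
  obtain ⟨p, q, rfl⟩ := CoordinateRing.exists_smul_basis_eq f
  rw [(ev_basic W x y h).1 p q]
  exact add_mem (v_aff_poly V hV x hx p) (mul_mem (v_aff_poly V hV x hx q) hy)

theorem v_aff_Ip (W : Affine L) (V : ValuationSubring Ω)
    (hV : ∀ a : L, algebraMap L Ω a ∈ V) (x y : Ω) (h : (W.baseChange Ω).toAffine.Equation x y)
    (hx : x ∈ V) (hy : y ∈ V) (A : W.Point) :
    v_aff_IsVal (ev W x y h) V (Ip W A) (v_aff_w W V x y A) := by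
  have hφ := v_aff_ev_mem W V hV x y h hx hy
  rcases A with _ | ⟨a, b, hab⟩
  · exact v_aff_IsVal_top _ V hφ
  · have h1 := v_aff_IsVal_pair (ev W x y h) V hφ (CoordinateRing.XClass W a)
      (CoordinateRing.YClass W (C b))
    have e1 : ev W x y h (CoordinateRing.XClass W a) = x - algebraMap L Ω a := by
      unfold CoordinateRing.XClass
      rw [(ev_basic W x y h).2.1]
      simp
    have e2 : ev W x y h (CoordinateRing.YClass W (C b)) = y - algebraMap L Ω b := by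
      have e3 : ev W x y h (CoordinateRing.mk W X) = y := by
        have := (ev_basic W x y h).1 0 1
        simpa using this
      unfold CoordinateRing.YClass
      rw [map_sub, map_sub, e3, (ev_basic W x y h).2.1]
      simp
    rw [e1, e2] at h1
    exact h1

/-- the equation of the curve in `Ω` -/
theorem v_aff_eqn (W : Affine L) (x y : Ω) (h : (W.baseChange Ω).toAffine.Equation x y) :
    y ^ 2 + algebraMap L Ω W.a₁ * x * y + algebraMap L Ω W.a₃ * y =
      x ^ 3 + algebraMap L Ω W.a₂ * x ^ 2 + algebraMap L Ω W.a₄ * x + algebraMap L Ω W.a₆ := by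
  have h1 := (equation_iff _ _).1 h
  simp only [map_a₁, map_a₂, map_a₃, map_a₄, map_a₆, WeierstrassCurve.baseChange] at h1
  exact h1

/-- the reduction of the generic point -/
theorem v_aff_pt [IsAlgClosed L] (W : Affine L) (hell : W.IsElliptic) (V : ValuationSubring Ω)
    (hV : ∀ a : L, algebraMap L Ω a ∈ V) (hV' : V ≠ ⊤) (x y : Ω)
    (h : (W.baseChange Ω).toAffine.Equation x y) (hx : x ∈ V) (hy : y ∈ V)
    (halg : ∀ t : Ω, IsAlgebraic (IntermediateField.adjoin L {x}) t) :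
    ∃ (α β : L), W.Nonsingular α β ∧ V.valuation (x - algebraMap L Ω α) < 1 ∧
      V.valuation (y - algebraMap L Ω β) < 1 := by
  obtain ⟨α, hα⟩ := v_aff_res V hV hV' x hx halg
  have hE := v_aff_eqn W x y h
  obtain ⟨β, hβ⟩ : ∃ β : L, β ^ 2 + W.a₁ * α * β + W.a₃ * β =
      α ^ 3 + W.a₂ * α ^ 2 + W.a₄ * α + W.a₆ := by
    obtain ⟨β, hβ⟩ := IsAlgClosed.exists_root
      (X ^ 2 + C (W.a₁ * α + W.a₃) * X - C (α ^ 3 + W.a₂ * α ^ 2 + W.a₄ * α + W.a₆) : L[X]) (by
        have : (X ^ 2 + C (W.a₁ * α + W.a₃) * X -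
          C (α ^ 3 + W.a₂ * α ^ 2 + W.a₄ * α + W.a₆) : L[X]).degree = 2 := by compute_degree!
        rw [this]; decide)
    refine ⟨β, ?_⟩
    simp only [IsRoot.def, eval_sub, eval_add, eval_pow, eval_X, eval_mul, eval_C] at hβ
    linear_combination hβ
  have hlt : ∀ u ∈ V, V.valuation ((x - algebraMap L Ω α) * u) < 1 := by
    intro u hu
    rw [map_mul]
    calc V.valuation (x - algebraMap L Ω α) * V.valuation u
        ≤ V.valuation (x - algebraMap L Ω α) * 1 :=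
          mul_le_mul_right ((V.valuation_le_one_iff _).mpr hu) _
      _ = V.valuation (x - algebraMap L Ω α) := mul_one _
      _ < 1 := hα
  set β₂ : L := -(W.a₁ * α + W.a₃) - β with hβ₂
  have hβ' : β₂ ^ 2 + W.a₁ * α * β₂ + W.a₃ * β₂ = α ^ 3 + W.a₂ * α ^ 2 + W.a₄ * α + W.a₆ := by
    rw [hβ₂, ← hβ]; ring
  have hprod : V.valuation ((y - algebraMap L Ω β) * (y - algebraMap L Ω β₂)) < 1 := by
    have e : (y - algebraMap L Ω β) * (y - algebraMap L Ω β₂) =
        (x - algebraMap L Ω α) * (x ^ 2 + x * algebraMap L Ω α + algebraMap L Ω α ^ 2 +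
          algebraMap L Ω W.a₂ * (x + algebraMap L Ω α) + algebraMap L Ω W.a₄ -
          algebraMap L Ω W.a₁ * y) := by
      have hβm := congrArg (algebraMap L Ω) hβ
      simp only [map_add, map_mul, map_pow] at hβm
      rw [hβ₂]
      simp only [map_sub, map_neg, map_add, map_mul]
      linear_combination hE - hβm
    rw [e]
    refine hlt _ (sub_mem (add_mem (add_mem (add_mem (add_mem (pow_mem hx 2)
      (mul_mem hx (hV _))) (pow_mem (hV _) 2)) (mul_mem (hV _) (add_mem hx (hV _)))) (hV _))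
      (mul_mem (hV _) hy))
  have hor : V.valuation (y - algebraMap L Ω β) < 1 ∨ V.valuation (y - algebraMap L Ω β₂) < 1 := by
    by_contra! hcon
    have h1 : V.valuation (y - algebraMap L Ω β) = 1 :=
      le_antisymm ((V.valuation_le_one_iff _).mpr (sub_mem hy (hV _))) hcon.1
    have h2 : V.valuation (y - algebraMap L Ω β₂) = 1 :=
      le_antisymm ((V.valuation_le_one_iff _).mpr (sub_mem hy (hV _))) hcon.2
    rw [map_mul, h1, h2, one_mul] at hprod
    exact absurd hprod (lt_irrefl _)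
  have := hell
  rcases hor with hb | hb
  · exact ⟨α, β, equation_iff_nonsingular.mp ((equation_iff _ _).mpr hβ), hα, hb⟩
  · exact ⟨α, β₂, equation_iff_nonsingular.mp ((equation_iff _ _).mpr hβ'), hα, hb⟩

theorem v_aff_ne (V : ValuationSubring Ω) (hV : ∀ a : L, algebraMap L Ω a ∈ V) (z : Ω) (α a : L)
    (hz : V.valuation (z - algebraMap L Ω α) < 1) (ha : a ≠ α) :
    V.valuation (z - algebraMap L Ω a) = 1 := by
  have e : z - algebraMap L Ω a = (z - algebraMap L Ω α) + algebraMap L Ω (α - a) := by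
    rw [map_sub]; ring
  have h1 : V.valuation (algebraMap L Ω (α - a)) = 1 :=
    v_aff_one V hV _ (sub_ne_zero.mpr (Ne.symm ha))
  rw [e, Valuation.map_add_eq_of_lt_right _ (by rw [h1]; exact hz), h1]

/-- the values of all points -/
theorem v_aff_all (W : Affine L) (V : ValuationSubring Ω)
    (hV : ∀ a : L, algebraMap L Ω a ∈ V) (x y : Ω) (hx : x ∈ V) (hy : y ∈ V)
    (α β : L) (hns : W.Nonsingular α β) (hα : V.valuation (x - algebraMap L Ω α) < 1)
    (hβ : V.valuation (y - algebraMap L Ω β) < 1) (A : W.Point) :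
    v_aff_w W V x y A = if A = Point.some α β hns then
      max (V.valuation (x - algebraMap L Ω α)) (V.valuation (y - algebraMap L Ω β)) else 1 := by
  rcases A with _ | ⟨a, b, hab⟩
  · rw [if_neg (by intro hh; cases hh)]
    rfl
  · by_cases ha : a = α
    · by_cases hb : b = β
      · subst ha; subst hb
        rw [if_pos rfl]
        rfl
      · rw [if_neg (by intro hh; exact hb (Point.some.inj hh).2)]
        change max (V.valuation (x - algebraMap L Ω a)) (V.valuation (y - algebraMap L Ω b)) = 1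
        rw [v_aff_ne V hV y β b hβ hb]
        exact max_eq_right ((V.valuation_le_one_iff _).mpr (sub_mem hx (hV _)))
    · rw [if_neg (by intro hh; exact ha (Point.some.inj hh).1)]
      change max (V.valuation (x - algebraMap L Ω a)) (V.valuation (y - algebraMap L Ω b)) = 1
      rw [v_aff_ne V hV x α a hα ha]
      exact max_eq_left ((V.valuation_le_one_iff _).mpr (sub_mem hy (hV _)))

theorem v_aff_Df (W : Affine L) (x : Ω) (htr : Transcendental L x) (A B : W.Point) :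
    aeval x (Df W A B) ≠ 0 := by
  have h0 : Df W A B ≠ 0 := by
    rcases A with _ | ⟨a, b, hab⟩
    · exact one_ne_zero
    · rcases B with _ | ⟨c, d, hcd⟩
      · exact one_ne_zero
      · unfold Df
        simp only
        split_ifs
        · exact one_ne_zero
        · exact X_sub_C_ne_zero _
  intro h
  exact htr ⟨_, h0, h⟩

/-- the valuation of the functions -/
theorem v_aff_H (W : Affine L) (V : ValuationSubring Ω)
    (hV : ∀ a : L, algebraMap L Ω a ∈ V) (x y : Ω) (h : (W.baseChange Ω).toAffine.Equation x y)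
    (hx : x ∈ V) (hy : y ∈ V) (htr : Transcendental L x) (A B : W.Point) (H : Ω)
    (hH : H * aeval x (Df W A B) = ev W x y h (Nf W A B)) :
    v_aff_w W V x y A * v_aff_w W V x y B = V.valuation H * v_aff_w W V x y (A + B) := by
  have hφ := v_aff_ev_mem W V hV x y h hx hy
  have hid := h_ideal W A B
  have h1 := v_aff_IsVal_mul _ V _ _ _ _ (v_aff_IsVal_mul _ V _ _ _ _
    (v_aff_Ip W V hV x y h hx hy A) (v_aff_Ip W V hV x y h hx hy B))
    (v_aff_IsVal_span _ V hφ (CoordinateRing.mk W (C (Df W A B))))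
  have h2 := v_aff_IsVal_mul _ V _ _ _ _ (v_aff_IsVal_span _ V hφ (Nf W A B))
    (v_aff_Ip W V hV x y h hx hy (A + B))
  rw [hid] at h1
  have h3 := v_aff_IsVal_unique _ V _ _ _ h1 h2
  rw [(ev_basic W x y h).2.1, ← hH, map_mul] at h3
  have h4 : V.valuation (aeval x (Df W A B)) ≠ 0 :=
    (Valuation.ne_zero_iff _).mpr (v_aff_Df W x htr A B)
  refine mul_right_cancel₀ h4 ?_
  rw [h3]
  exact mul_right_comm _ _ _

end

section

variable {k K Kb F Ω : Type u} [Field k] [Field K] [Field Kb] [Field F] [Field Ω] [Algebra k K]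
  [Algebra k Kb] [Algebra k F] [Algebra k Ω] [Algebra K Kb] [Algebra K F]
  [Algebra Kb Ω] [Algebra F Ω] [Algebra K Ω] [IsScalarTower K Kb Ω] [IsScalarTower K F Ω]
  [IsScalarTower k K Kb] [IsScalarTower k K F] [IsScalarTower k K Ω] [IsScalarTower k Kb Ω]
  [IsScalarTower k F Ω]
  [IsAlgClosed Kb] [Algebra.IsAlgebraic K Kb] [IsAlgClosed Ω] [Algebra.IsAlgebraic F Ω]
  (W : WeierstrassCurve K)
theorem v_aff (x y : Ω) (hT : ((W.baseChange Kb).toAffine.baseChange Ω).toAffine.Equation x y)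
    (H : Pts W Kb → Pts W Kb → Ωˣ) (hG : Gen W F x y hT H) (V : ValuationSubring Ω)
    (hV : ∀ a : Kb, algebraMap Kb Ω a ∈ V) (hV' : V ≠ ⊤) (hell : (W.baseChange Kb).IsElliptic)
    (hx : x ∈ V) :
    ∃ (π : Ωˣ) (e : Pts W Kb → ℤ), (∀ A B, V.valuation (H A B : Ω) =
      V.valuation (π : Ω) ^ (e A + e B - e (A + B))) ∧
      ∀ σ : Ω ≃ₐ[F] Ω, σ ∈ T1B.stab V → σ • π = π ∧ ∀ A, e (act W (rk K Kb σ) A) = e A := by
  have hE := v_aff_eqn (W.baseChange Kb).toAffine x y hT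
  have hy : y ∈ V := v_aff_y V x y _ _ _ _ _ hx (hV _) (hV _) (hV _) (hV _) (hV _) hE
  obtain ⟨α, β, hns, hα, hβ⟩ := v_aff_pt (W.baseChange Kb).toAffine hell V hV hV' x y hT hx hy
    hG.alg
  obtain ⟨γ, hγ⟩ : ∃ γ, γ = max (V.valuation (x - algebraMap Kb Ω α))
    (V.valuation (y - algebraMap Kb Ω β)) := ⟨_, rfl⟩
  obtain ⟨π₀, hπv, hπ⟩ : ∃ π₀ : Ω, V.valuation π₀ = γ ∧
      (π₀ = x - algebraMap Kb Ω α ∨ π₀ = y - algebraMap Kb Ω β) := by
    rcases le_total (V.valuation (x - algebraMap Kb Ω α)) (V.valuation (y - algebraMap Kb Ω β)) with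
      hh | hh
    · exact ⟨_, by rw [hγ, max_eq_right hh], Or.inr rfl⟩
    · exact ⟨_, by rw [hγ, max_eq_left hh], Or.inl rfl⟩
  have hxα : x - algebraMap Kb Ω α ≠ 0 := by
    intro h0
    refine hG.trans ?_
    rw [sub_eq_zero.mp h0]
    exact isAlgebraic_algebraMap α
  have hγ0 : γ ≠ 0 := by
    have h0 : 0 < V.valuation (x - algebraMap Kb Ω α) :=
      zero_lt_iff.mpr ((Valuation.ne_zero_iff _).mpr hxα)
    rw [hγ]
    exact (lt_of_lt_of_le h0 (le_max_left _ _)).ne'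
  have hπ0 : π₀ ≠ 0 := by
    intro h0
    apply hγ0
    rw [← hπv, h0, map_zero]
  obtain ⟨Q, hQ⟩ : ∃ Q : Pts W Kb, Q = Point.some α β hns := ⟨_, rfl⟩
  refine ⟨Units.mk0 π₀ hπ0, fun A => if A = Q then 1 else 0, ?_, ?_⟩
  · intro A B
    have hval := v_aff_H (W.baseChange Kb).toAffine V hV x y hT hx hy hG.trans A B (H A B)
      (hG.val A B)
    have hw : ∀ A : Pts W Kb, v_aff_w (W.baseChange Kb).toAffine V x y A =
        γ ^ (if A = Q then (1 : ℤ) else 0) := by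
      intro A
      rw [v_aff_all (W.baseChange Kb).toAffine V hV x y hx hy α β hns hα hβ A, ← hγ, ← hQ]
      split_ifs
      · rw [zpow_one]
      · rw [zpow_zero]
    rw [hw, hw, hw] at hval
    rw [Units.val_mk0, hπv, zpow_sub₀ hγ0, zpow_add₀ hγ0, hval, mul_div_assoc,
      div_self (zpow_ne_zero _ hγ0), mul_one]
  · intro σ hσ
    obtain ⟨x0, hx0⟩ := hG.mem.1
    obtain ⟨y0, hy0⟩ := hG.mem.2
    have hσx : σ x = x := by rw [← hx0, σ.commutes]
    have hσy : σ y = y := by rw [← hy0, σ.commutes]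
    have key : ∀ (z : Ω) (a : Kb), σ z = z → V.valuation (z - algebraMap Kb Ω a) < 1 →
        rk K Kb σ a = a := by
      intro z a hz ha
      have h1 : V.valuation (z - algebraMap Kb Ω (rk K Kb σ a)) < 1 := by
        have h3 := v_fix V σ hσ (z - algebraMap Kb Ω a)
        rw [map_sub, hz, ← rk_apply (K := K) σ a] at h3
        rw [h3]
        exact ha
      have h2 : V.valuation (algebraMap Kb Ω (rk K Kb σ a - a)) < 1 := by
        have e : algebraMap Kb Ω (rk K Kb σ a - a) =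
            (z - algebraMap Kb Ω a) - (z - algebraMap Kb Ω (rk K Kb σ a)) := by
          rw [map_sub]; ring
        rw [e]
        exact (V.valuation.map_sub _ _).trans_lt (max_lt ha h1)
      exact sub_eq_zero.mp (v_aff_zero V hV _ h2)
    have hσα := key x α hσx hα
    have hσβ := key y β hσy hβ
    constructor
    · apply Units.ext
      change σ π₀ = π₀
      rcases hπ with hh | hh
      · rw [hh, map_sub, hσx, ← rk_apply (K := K) σ α, hσα]
      · rw [hh, map_sub, hσy, ← rk_apply (K := K) σ β, hσβ]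
    · intro A
      have hQ' : act W (rk K Kb σ) Q = Q := by
        rw [hQ]
        unfold act
        rw [Point.map_some]
        simp only [Point.some.injEq]
        exact ⟨hσα, hσβ⟩
      have hiff : act W (rk K Kb σ) A = Q ↔ A = Q :=
        ⟨fun h => Point.map_injective _ (h.trans hQ'.symm), fun h => by rw [h, hQ']⟩
      simp only [hiff]

end

end Pool.Agent.EFF

end

section


namespace Pool.Agent.EFF

open Polynomial WeierstrassCurve WeierstrassCurve.Affine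

open scoped Classical

universe u v w

section VInfAux

private theorem v_inf_const {F Ω : Type u} [Field F] [Field Ω] [Algebra F Ω] (V : ValuationSubring Ω)
    (hV : ∀ a : F, algebraMap F Ω a ∈ V) (a : F) : V.valuation (algebraMap F Ω a) ≤ 1 :=
  (V.valuation_le_one_iff _).2 (hV a)

private theorem v_inf_const1 {F Ω : Type u} [Field F] [Field Ω] [Algebra F Ω] (V : ValuationSubring Ω)
    (hV : ∀ a : F, algebraMap F Ω a ∈ V) (a : F) (ha : a ≠ 0) :
    V.valuation (algebraMap F Ω a) = 1 := by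
  refine le_antisymm (v_inf_const V hV a) ?_
  have h1 := v_inf_const V hV a⁻¹
  have h2 : V.valuation (algebraMap F Ω a) * V.valuation (algebraMap F Ω a⁻¹) = 1 := by
    rw [← map_mul, ← map_mul, mul_inv_cancel₀ ha, map_one, map_one]
  calc (1 : V.ValueGroup) = V.valuation (algebraMap F Ω a) * V.valuation (algebraMap F Ω a⁻¹) := h2.symm
    _ ≤ V.valuation (algebraMap F Ω a) * 1 := by gcongr
    _ = V.valuation (algebraMap F Ω a) := mul_one _

private theorem v_inf_poly {F Ω : Type u} [Field F] [Field Ω] [Algebra F Ω] (V : ValuationSubring Ω)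
    (hV : ∀ a : F, algebraMap F Ω a ∈ V) (x : Ω) (hx : 1 < V.valuation x) :
    ∀ (n : ℕ) (p : F[X]), p ≠ 0 → p.natDegree = n →
      V.valuation (aeval x p) = V.valuation x ^ n := by
  intro n
  induction n with
  | zero =>
    intro p hp hn
    obtain ⟨a, rfl⟩ : ∃ a, p = C a := ⟨p.coeff 0, eq_C_of_natDegree_eq_zero hn⟩
    have ha : a ≠ 0 := by rintro rfl; simp at hp
    rw [aeval_C, v_inf_const1 V hV a ha, pow_zero]
  | succ n ih =>
    intro p hp hn
    have h1 : p.divX.natDegree = n := by rw [natDegree_divX_eq_natDegree_tsub_one, hn]; simp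
    have h0 : p.divX ≠ 0 := by
      intro h0
      have := divX_mul_X_add p
      rw [h0, zero_mul, zero_add] at this
      rw [← this, natDegree_C] at hn
      omega
    have h2 := ih p.divX h0 h1
    have h3 : aeval x p = aeval x p.divX * x + algebraMap F Ω (p.coeff 0) := by
      conv_lhs => rw [← divX_mul_X_add p]
      simp
    have h4 : V.valuation (aeval x p.divX * x) = V.valuation x ^ (n + 1) := by
      rw [map_mul, h2, pow_succ]
    have h5 : 1 < V.valuation x ^ (n + 1) := one_lt_pow₀ hx (by omega)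
    rw [h3, Valuation.map_add_eq_of_lt_left, h4]
    rw [h4]
    exact lt_of_le_of_lt (v_inf_const V hV _) h5

private theorem v_inf_eq {F Ω : Type u} [Field F] [Field Ω] [Algebra F Ω] (W : WeierstrassCurve F)
    (V : ValuationSubring Ω)
    (hV : ∀ a : F, algebraMap F Ω a ∈ V) (x y : Ω) (hx : 1 < V.valuation x)
    (hT : (W.toAffine.baseChange Ω).toAffine.Equation x y) :
    V.valuation x < V.valuation y ∧ V.valuation y ^ 2 = V.valuation x ^ 3 := by
  have hT' := (equation_iff _ _).1 hT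
  simp only [map_a₁, map_a₂, map_a₃, map_a₄, map_a₆, WeierstrassCurve.baseChange] at hT'
  set P : F[X] := X ^ 3 + C W.a₂ * X ^ 2 + C W.a₄ * X + C W.a₆ with hP
  have hdeg : P.natDegree = 3 := by rw [hP]; compute_degree!
  have hP0 : P ≠ 0 := by intro h; rw [h] at hdeg; simp at hdeg
  have h1 := v_inf_poly V hV x hx 3 P hP0 hdeg
  have h2 : aeval x P = y * (y + (algebraMap F Ω W.a₁ * x + algebraMap F Ω W.a₃)) := by
    rw [hP]
    simp only [map_add, map_mul, map_pow, aeval_X, aeval_C]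
    linear_combination -hT'
  have hx0 : (0 : V.ValueGroup) < V.valuation x := lt_trans zero_lt_one hx
  have h3 : V.valuation (algebraMap F Ω W.a₁ * x + algebraMap F Ω W.a₃) ≤ V.valuation x := by
    refine Valuation.map_add_le _ ?_ ?_
    · rw [map_mul]
      calc _ ≤ 1 * V.valuation x := by
            gcongr
            exact v_inf_const V hV _
        _ = _ := one_mul _
    · exact (v_inf_const V hV _).trans hx.le
  rw [h2, map_mul] at h1
  have h4 : V.valuation x < V.valuation y := by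
    by_contra h
    rw [not_lt] at h
    have h5 : V.valuation (y + (algebraMap F Ω W.a₁ * x + algebraMap F Ω W.a₃)) ≤ V.valuation x :=
      Valuation.map_add_le _ h h3
    have h6 : V.valuation x ^ 3 ≤ V.valuation x * V.valuation x := by
      rw [← h1]; gcongr
    have h7 : V.valuation x * V.valuation x < V.valuation x ^ 3 := by
      rw [← sq]; exact pow_lt_pow_right₀ hx (by norm_num)
    exact absurd h6 (not_le.2 h7)
  refine ⟨h4, ?_⟩
  rw [← h1, Valuation.map_add_eq_of_lt_left, sq]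
  exact lt_of_le_of_lt h3 h4

private theorem v_inf_mon {F Ω : Type u} [Field F] [Field Ω] [Algebra F Ω] (W : Affine F)
    (V : ValuationSubring Ω) (hV : ∀ a : F, algebraMap F Ω a ∈ V) (x y : Ω)
    (hT : (W.baseChange Ω).toAffine.Equation x y) (hx : 1 < V.valuation x)
    (t : V.ValueGroup) (ht : 1 < t) (htx : V.valuation x = t ^ 2) (hty : V.valuation y = t ^ 3)
    (f : W.CoordinateRing) (n : ℕ) (hf : Mon W f n) : V.valuation (ev W x y hT f) = t ^ n := by
  obtain ⟨p, q, rfl, h⟩ := hf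
  rw [(ev_basic W x y hT).1 p q]
  have hp : p ≠ 0 → V.valuation (aeval x p) = t ^ (2 * p.natDegree) := fun h0 => by
    rw [v_inf_poly V hV x hx _ p h0 rfl, htx, pow_mul]
  have hq : q ≠ 0 → V.valuation (aeval x q * y) = t ^ (2 * q.natDegree + 3) := fun h0 => by
    rw [map_mul, v_inf_poly V hV x hx _ q h0 rfl, htx, hty, pow_add, pow_mul]
  rcases h with ⟨m, rfl, hpm, hpd, hq0⟩ | ⟨m, rfl, hqm, hqd, hp0⟩
  · have h1 := hp hpm.ne_zero
    rw [hpd] at h1
    by_cases hq1 : q = 0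
    · rw [hq1, map_zero, zero_mul, add_zero, h1]
    · rw [Valuation.map_add_eq_of_lt_left, h1]
      rw [h1, hq hq1]
      exact pow_lt_pow_right₀ ht (hq0.resolve_left hq1)
  · have h1 := hq hqm.ne_zero
    rw [hqd] at h1
    by_cases hp1 : p = 0
    · rw [hp1, map_zero, zero_add, h1]
    · rw [Valuation.map_add_eq_of_lt_right, h1]
      rw [h1, hp hp1]
      exact pow_lt_pow_right₀ ht (hp0.resolve_left hp1)

end VInfAux

section

variable {k K Kb F Ω : Type u} [Field k] [Field K] [Field Kb] [Field F] [Field Ω] [Algebra k K]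
  [Algebra k Kb] [Algebra k F] [Algebra k Ω] [Algebra K Kb] [Algebra K F]
  [Algebra Kb Ω] [Algebra F Ω] [Algebra K Ω] [IsScalarTower K Kb Ω] [IsScalarTower K F Ω]
  [IsScalarTower k K Kb] [IsScalarTower k K F] [IsScalarTower k K Ω] [IsScalarTower k Kb Ω]
  [IsScalarTower k F Ω]
  [IsAlgClosed Kb] [Algebra.IsAlgebraic K Kb] [IsAlgClosed Ω] [Algebra.IsAlgebraic F Ω]
  (W : WeierstrassCurve K)
theorem v_inf (x y : Ω) (hT : ((W.baseChange Kb).toAffine.baseChange Ω).toAffine.Equation x y)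
    (H : Pts W Kb → Pts W Kb → Ωˣ) (hG : Gen W F x y hT H) (V : ValuationSubring Ω)
    (hV : ∀ a : Kb, algebraMap Kb Ω a ∈ V) (hx : x ∉ V) :
    ∃ (π : Ωˣ) (e : Pts W Kb → ℤ), (∀ A B, V.valuation (H A B : Ω) =
      V.valuation (π : Ω) ^ (e A + e B - e (A + B))) ∧
      ∀ σ : Ω ≃ₐ[F] Ω, σ ∈ T1B.stab V → σ • π = π ∧ ∀ A, e (act W (rk K Kb σ) A) = e A := by
  have hx1 : 1 < V.valuation x := by
    rw [← not_le, V.valuation_le_one_iff]; exact hx
  obtain ⟨hxy, hy2⟩ := v_inf_eq (W.baseChange Kb) V hV x y hx1 hT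
  have hvx0 : V.valuation x ≠ 0 := (lt_trans zero_lt_one hx1).ne'
  have hvy0 : V.valuation y ≠ 0 := (lt_trans (lt_trans zero_lt_one hx1) hxy).ne'
  have hx0 : x ≠ 0 := (V.valuation.ne_zero_iff).1 hvx0
  have hy0 : y ≠ 0 := (V.valuation.ne_zero_iff).1 hvy0
  set t : V.ValueGroup := V.valuation y / V.valuation x with ht
  have ht1 : 1 < t := by
    rw [ht, lt_div_iff₀ (lt_trans zero_lt_one hx1), one_mul]; exact hxy
  have htx : V.valuation x = t ^ 2 := by
    rw [ht, div_pow, hy2]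
    field_simp
  have hty : V.valuation y = t ^ 3 := by
    rw [pow_succ, ← htx, ht]
    field_simp
  have hpi : V.valuation (x / y) = t⁻¹ := by
    rw [map_div₀, ht, inv_div]
  refine ⟨Units.mk0 (x / y) (div_ne_zero hx0 hy0), fun A => (if A = 0 then 1 else 0) - 1, ?_, ?_⟩
  · intro A B
    obtain ⟨n, d, hn, hd, hnd⟩ := mon_N (W.baseChange Kb).toAffine A B
    have h1 := v_inf_mon (W.baseChange Kb).toAffine V hV x y hT hx1 t ht1 htx hty _ n hn
    have h2 := v_inf_mon (W.baseChange Kb).toAffine V hV x y hT hx1 t ht1 htx hty _ d hd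
    rw [(ev_basic (W.baseChange Kb).toAffine x y hT).2.1] at h2
    have h3 := hG.val A B
    rw [← h3, map_mul, h2] at h1
    have ht0 : t ≠ 0 := (lt_trans zero_lt_one ht1).ne'
    have h4 : V.valuation (H A B : Ω) = t ^ ((n : ℤ) - d) := by
      rw [zpow_sub₀ ht0, zpow_natCast, zpow_natCast, ← h1]
      field_simp
    rw [h4, Units.val_mk0, hpi, inv_zpow', hnd]
    congr 1
    ring
  · intro σ _
    obtain ⟨⟨x', hx'⟩, ⟨y', hy'⟩⟩ := hG.mem
    refine ⟨?_, ?_⟩
    · apply Units.ext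
      rw [Units.val_mk0]
      change σ (x / y) = x / y
      rw [map_div₀, ← hx', ← hy', σ.commutes, σ.commutes]
    · intro A
      have h1 : act W (rk K Kb σ) A = 0 ↔ A = 0 := by
        constructor
        · intro h
          have hinj : Function.Injective (act W (rk K Kb σ)) := Point.map_injective _
          apply hinj
          rw [h, map_zero]
        · rintro rfl; exact map_zero _
      simp only [h1]

end

end Pool.Agent.EFF

end

section


namespace Pool.Agent.EFF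

open Polynomial WeierstrassCurve WeierstrassCurve.Affine

open scoped Classical

universe u v w

section

variable {k K Kb F Ω : Type u} [Field k] [Field K] [Field Kb] [Field F] [Field Ω] [Algebra k K]
  [Algebra k Kb] [Algebra k F] [Algebra k Ω] [Algebra K Kb] [Algebra K F]
  [Algebra Kb Ω] [Algebra F Ω] [Algebra K Ω] [IsScalarTower K Kb Ω] [IsScalarTower K F Ω]
  [IsScalarTower k K Kb] [IsScalarTower k K F] [IsScalarTower k K Ω] [IsScalarTower k Kb Ω]
  [IsScalarTower k F Ω]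
  [IsAlgClosed Kb] [Algebra.IsAlgebraic K Kb] [IsAlgClosed Ω] [Algebra.IsAlgebraic F Ω]
  (W : WeierstrassCurve K)
theorem v_red (x y : Ω) (hT : ((W.baseChange Kb).toAffine.baseChange Ω).toAffine.Equation x y)
    (H : Pts W Kb → Pts W Kb → Ωˣ) (hG : Gen W F x y hT H) (V : ValuationSubring Ω)
    (hV : ∀ a : Kb, algebraMap Kb Ω a ∈ V) (hV' : V ≠ ⊤) (hell : (W.baseChange Kb).IsElliptic) :
    ∃ (π : Ωˣ) (e : Pts W Kb → ℤ), (∀ A B, V.valuation (H A B : Ω) =
      V.valuation (π : Ω) ^ (e A + e B - e (A + B))) ∧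
      ∀ σ : Ω ≃ₐ[F] Ω, σ ∈ T1B.stab V → σ • π = π ∧ ∀ A, e (act W (rk K Kb σ) A) = e A := by
  by_cases hx : x ∈ V
  · exact v_aff W x y hT H hG V hV hV' hell hx
  · exact v_inf W x y hT H hG V hV hx

end

end Pool.Agent.EFF

end

section


namespace Pool.Agent.EFF

open Polynomial WeierstrassCurve WeierstrassCurve.Affine

open scoped Classical

universe u v w

section

open scoped IntermediateField.algebraAdjoinAdjoin in
theorem v_res_alg {Kb Ω : Type u} [Field Kb] [Field Ω] [Algebra Kb Ω] (x : Ω)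
    (hfr : Algebra.IsAlgebraic (IntermediateField.adjoin Kb ({x} : Set Ω)) Ω) :
    Algebra.IsAlgebraic (Algebra.adjoin Kb ({x} : Set Ω)) Ω :=
  (IsFractionRing.comap_isAlgebraic_iff (A := Algebra.adjoin Kb ({x} : Set Ω))
    (K := IntermediateField.adjoin Kb ({x} : Set Ω)) (C := Ω)).mpr hfr

theorem v_res {Kb Ω : Type u} [Field Kb] [Field Ω] [Algebra Kb Ω] [IsAlgClosed Kb] (x : Ω)
    (hx : Transcendental Kb x) (halg : ∀ t : Ω, IsAlgebraic (IntermediateField.adjoin Kb {x}) t)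
    (V : ValuationSubring Ω) (hV : ∀ a : Kb, algebraMap Kb Ω a ∈ V) (hV' : V ≠ ⊤) (u : Ω)
    (hu : V.valuation u = 1) :
    ∃! κ : Kb, κ ≠ 0 ∧ V.valuation (u * (algebraMap Kb Ω κ)⁻¹ - 1) < 1 := by
  have hunit : ∀ κ : Kb, κ ≠ 0 → V.valuation (algebraMap Kb Ω κ) = 1 := by
    intro κ hκ
    have h1 : V.valuation (algebraMap Kb Ω κ) ≤ 1 := (V.valuation_le_one_iff _).mpr (hV κ)
    have h2 : V.valuation (algebraMap Kb Ω κ⁻¹) ≤ 1 := (V.valuation_le_one_iff _).mpr (hV κ⁻¹)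
    have h3 : V.valuation (algebraMap Kb Ω κ) * V.valuation (algebraMap Kb Ω κ⁻¹) = 1 := by
      rw [← map_mul, ← map_mul, mul_inv_cancel₀ hκ, map_one, map_one]
    refine le_antisymm h1 ?_
    rw [← h3]
    exact mul_le_of_le_one_right' h2
  have halgcl : IsAlgClosed (⊥ : IntermediateField Kb Ω) :=
    IsAlgClosed.of_ringEquiv Kb _ (IntermediateField.botEquiv Kb Ω).symm.toRingEquiv
  have hfr : Algebra.IsAlgebraic (IntermediateField.adjoin Kb ({x} : Set Ω)) Ω := ⟨halg⟩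
  have htr : Algebra.trdeg Kb Ω ≤ 1 := by
    have h1 : Algebra.IsAlgebraic (Algebra.adjoin Kb ({x} : Set Ω)) Ω := by
      exact v_res_alg x hfr
    have h2 := Algebra.IsAlgebraic.trdeg_le_cardinalMk (R := Kb) (A := Ω) ({x} : Set Ω)
    simpa using h2
  have hA1 : ∀ t : Ω, t ∉ (⊥ : IntermediateField Kb Ω) → ∀ y : Ω,
      IsAlgebraic (TBR.AA (⊥ : IntermediateField Kb Ω) {t}) y := by
    intro t ht y
    have htt : Transcendental Kb t := by
      intro h
      have h1 : IsIntegral Kb t := h.isIntegral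
      have h2 : (minpoly Kb t).degree = 1 :=
        IsAlgClosed.degree_eq_one_of_irreducible Kb (minpoly.irreducible h1)
      obtain ⟨c, hc⟩ := minpoly.mem_range_of_degree_eq_one Kb t h2
      exact ht (IntermediateField.mem_bot.mpr ⟨c, hc⟩)
    have hind : AlgebraicIndependent Kb (fun _ : PUnit.{u+1} => t) := by
      rw [algebraicIndependent_unique_type_iff]
      exact htt
    have hb := hind.isTranscendenceBasis_of_trdeg_le_of_finite (by simpa using htr)
    have := hb.isAlgebraic_field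
    have e : TBR.AA (⊥ : IntermediateField Kb Ω) {t} =
        IntermediateField.adjoin Kb (Set.range (fun _ : PUnit.{u+1} => t)) := by
      rw [TBR.AA, bot_sup_eq, Set.range_const]
    rw [e]
    exact this.isAlgebraic y
  obtain ⟨α, hα, hα2⟩ := TBR.V.residue (⊥ : IntermediateField Kb Ω) hA1 V (by
    intro y hy
    obtain ⟨c, rfl⟩ := IntermediateField.mem_bot.mp hy
    exact hV c) hV' u ((V.valuation_le_one_iff _).mp hu.le)
  obtain ⟨κ, rfl⟩ := IntermediateField.mem_bot.mp hα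
  rw [V.mem_nonunits_iff] at hα2
  have key : ∀ κ' : Kb, κ' ≠ 0 → V.valuation (u * (algebraMap Kb Ω κ')⁻¹ - 1) =
      V.valuation (u - algebraMap Kb Ω κ') := by
    intro κ' hκ'
    have h0 : algebraMap Kb Ω κ' ≠ 0 := (_root_.map_ne_zero _).mpr hκ'
    have h1 : u * (algebraMap Kb Ω κ')⁻¹ - 1 = (u - algebraMap Kb Ω κ') *
        (algebraMap Kb Ω κ')⁻¹ := by
      field_simp
    rw [h1, map_mul, map_inv₀, hunit κ' hκ', inv_one, mul_one]
  have hκ0 : κ ≠ 0 := by
    rintro rfl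
    rw [map_zero, sub_zero, hu] at hα2
    exact lt_irrefl _ hα2
  refine ⟨κ, ⟨hκ0, by rw [key κ hκ0]; exact hα2⟩, ?_⟩
  rintro κ' ⟨hκ', h'⟩
  rw [key κ' hκ'] at h'
  by_contra hne
  have h1 : V.valuation (algebraMap Kb Ω (κ - κ')) < 1 := by
    have h2 : algebraMap Kb Ω (κ - κ') = (u - algebraMap Kb Ω κ') - (u - algebraMap Kb Ω κ) := by
      rw [map_sub]; ring
    rw [h2]
    exact lt_of_le_of_lt (V.valuation.map_sub _ _) (max_lt h' hα2)
  rw [hunit _ (sub_ne_zero.mpr (Ne.symm hne))] at h1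
  exact lt_irrefl _ h1

end

end Pool.Agent.EFF

end

section


namespace Pool.Agent.EFF

open Polynomial WeierstrassCurve WeierstrassCurve.Affine

open scoped Classical

universe u v w

section

private theorem v_root_aux {Ω : Type u} [Field Ω] (V : ValuationSubring Ω) (s : Multiset Ω)
    (h : ∀ r ∈ s, ¬ V.valuation (1 - r) < 1) :
    ¬ V.valuation ((s.map (fun r => 1 - r)).prod) < 1 := by
  induction s using Multiset.induction_on with
  | empty => simp
  | cons a s ih =>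
    rw [Multiset.map_cons, Multiset.prod_cons, map_mul, not_lt]
    have h1 := not_lt.1 (h a (Multiset.mem_cons_self a s))
    have h2 := not_lt.1 (ih (fun r hr => h r (Multiset.mem_cons_of_mem hr)))
    exact one_le_mul h1 h2

private theorem v_root_lift {Ω : Type u} [Field Ω] (V : ValuationSubring Ω) (r : Ω)
    (h : V.valuation (r - 1) < 1) : ∃ r' : V, (r' : Ω) = r ∧ IsLocalRing.residue V r' = 1 := by
  have h1 : r - 1 ∈ V := (V.valuation_le_one_iff _).1 h.le
  have h2 : r ∈ V := by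
    have := V.add_mem _ _ h1 V.one_mem
    simpa using this
  refine ⟨⟨r, h2⟩, rfl, ?_⟩
  have h3 : (⟨r, h2⟩ - 1 : V) ∈ IsLocalRing.maximalIdeal V := by
    rw [V.valuation_lt_one_iff]
    exact h
  have h4 := (IsLocalRing.residue_eq_zero_iff _).2 h3
  rw [map_sub, map_one] at h4
  exact sub_eq_zero.1 h4

theorem v_root {Ω : Type u} [Field Ω] [IsAlgClosed Ω] (V : ValuationSubring Ω) (m : ℕ)
    (hm : V.valuation (m : Ω) = 1) (u : Ω) (hu : V.valuation (u - 1) < 1) :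
    ∃! r : Ω, r ^ m = u ∧ V.valuation (r - 1) < 1 := by
  have hm0 : m ≠ 0 := by
    rintro rfl
    simp at hm
  have hmm : (X ^ m - C u : Polynomial Ω).Monic := monic_X_pow_sub_C u hm0
  have hex : ∃ r : Ω, r ^ m = u ∧ V.valuation (r - 1) < 1 := by
    by_contra hcon
    have h1 := (IsAlgClosed.splits (X ^ m - C u : Polynomial Ω)).eval_eq_prod_roots_of_monic hmm 1
    have h2 : ∀ r ∈ (X ^ m - C u : Polynomial Ω).roots, ¬ V.valuation (1 - r) < 1 := by
      intro r hr hlt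
      rw [mem_roots hmm.ne_zero, IsRoot.def] at hr
      simp only [eval_sub, eval_pow, eval_X, eval_C] at hr
      exact hcon ⟨r, sub_eq_zero.1 hr, by rw [Valuation.map_sub_swap]; exact hlt⟩
    have h3 := v_root_aux V _ h2
    apply h3
    rw [← h1]
    simp only [eval_sub, eval_pow, eval_X, eval_C, one_pow]
    rw [Valuation.map_sub_swap]
    exact hu
  obtain ⟨r, hr1, hr2⟩ := hex
  refine ⟨r, ⟨hr1, hr2⟩, ?_⟩
  rintro s ⟨hs1, hs2⟩
  by_contra hne
  obtain ⟨r', hr', hr1'⟩ := v_root_lift V r hr2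
  obtain ⟨s', hs', hs1'⟩ := v_root_lift V s hs2
  have h1 : (s' - r' : V) ≠ 0 := by
    intro h0
    have : s' = r' := sub_eq_zero.1 h0
    apply hne
    rw [← hs', ← hr', this]
  have h2 : (∑ i ∈ Finset.range m, s' ^ i * r' ^ (m - 1 - i)) * (s' - r') = 0 := by
    rw [geom_sum₂_mul]
    apply Subtype.ext
    have : (s' : Ω) ^ m - (r' : Ω) ^ m = 0 := by rw [hs', hr', hs1, hr1, sub_self]
    simpa using this
  have h3 := (mul_eq_zero.1 h2).resolve_right h1
  have h4 := congrArg (IsLocalRing.residue V) h3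
  simp only [map_sum, map_mul, map_pow, hs1', hr1', one_pow, mul_one, map_zero,
    Finset.sum_const, Finset.card_range, nsmul_eq_mul] at h4
  have h5 : IsLocalRing.residue V (m : V) = 0 := by
    rw [map_natCast]
    exact h4
  have h6 := (V.valuation_lt_one_iff _).1 ((IsLocalRing.residue_eq_zero_iff _).1 h5)
  have h7 : (((m : V) : Ω)) = (m : Ω) := by simp
  rw [h7, hm] at h6
  exact lt_irrefl _ h6

end

end Pool.Agent.EFF

end

section


namespace Pool.Agent.EFF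

open Polynomial WeierstrassCurve WeierstrassCurve.Affine

open scoped Classical

universe u v w

section

variable {k K Kb F Ω : Type u} [Field k] [Field K] [Field Kb] [Field F] [Field Ω] [Algebra k K]
  [Algebra k Kb] [Algebra k F] [Algebra k Ω] [Algebra K Kb] [Algebra K F]
  [Algebra Kb Ω] [Algebra F Ω] [Algebra K Ω] [IsScalarTower K Kb Ω] [IsScalarTower K F Ω]
  [IsScalarTower k K Kb] [IsScalarTower k K F] [IsScalarTower k K Ω] [IsScalarTower k Kb Ω]
  [IsScalarTower k F Ω]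
  [IsAlgClosed Kb] [Algebra.IsAlgebraic K Kb] [IsAlgClosed Ω] [Algebra.IsAlgebraic F Ω]
  (W : WeierstrassCurve K)
theorem v_tsen (z : K) (hz : ∀ a : K, IsAlgebraic (IntermediateField.adjoin k {z}) a)
    (D : Subgroup (Ω ≃ₐ[F] Ω)) (hD : D ≤ T1B.geo k F Ω) (S : Finset Kb)
    (κ : (Ω ≃ₐ[F] Ω) → (Ω ≃ₐ[F] Ω) → Kbˣ)
    (hS : ∀ σ σ' τ τ' : Ω ≃ₐ[F] Ω, (∀ a ∈ S, rk K Kb σ a = rk K Kb σ' a) →
      (∀ a ∈ S, rk K Kb τ a = rk K Kb τ' a) → κ σ τ = κ σ' τ')
    (hκ : ∀ σ ∈ D, ∀ τ ∈ D, ∀ ρ ∈ D, κ σ τ * κ (σ * τ) ρ =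
      Units.map (rk K Kb σ : Kb →* Kb) (κ τ ρ) * κ σ (τ * ρ)) :
    ∃ (β : (Ω ≃ₐ[F] Ω) → Kbˣ) (S' : Finset Kb),
      (∀ σ σ' : Ω ≃ₐ[F] Ω, (∀ a ∈ S', rk K Kb σ a = rk K Kb σ' a) → β σ = β σ') ∧
      ∀ σ ∈ D, ∀ τ ∈ D, κ σ τ * β (σ * τ) = β σ * Units.map (rk K Kb σ : Kb →* Kb) (β τ) := by
  classical
  let κ₀ : IntermediateField k Kb := algebraicClosure k Kb
  let t : Kb := algebraMap K Kb z
  let φ : (Ω ≃ₐ[F] Ω) →* (Kb ≃ₐ[k] Kb) :=
    { toFun := fun σ => (rk K Kb σ).restrictScalars k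
      map_one' := by rw [map_one]; rfl
      map_mul' := fun σ τ => by rw [map_mul]; rfl }
  have hφ : ∀ (σ : Ω ≃ₐ[F] Ω) (a : Kb), φ σ a = rk K Kb σ a := fun _ _ => rfl
  let D' : Subgroup (Kb ≃ₐ[k] Kb) := D.map φ
  let c' : (Kb ≃ₐ[k] Kb) → (Kb ≃ₐ[k] Kb) → Kbˣ := fun g h =>
    if H : ∃ p : (Ω ≃ₐ[F] Ω) × (Ω ≃ₐ[F] Ω), (∀ a ∈ S, rk K Kb p.1 a = g a) ∧
      (∀ a ∈ S, rk K Kb p.2 a = h a) then κ H.choose.1 H.choose.2 else 1
  have hc' : ∀ (g h : Kb ≃ₐ[k] Kb) (σ τ : Ω ≃ₐ[F] Ω), (∀ a ∈ S, rk K Kb σ a = g a) →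
      (∀ a ∈ S, rk K Kb τ a = h a) → c' g h = κ σ τ := by
    intro g h σ τ h1 h2
    have H : ∃ p : (Ω ≃ₐ[F] Ω) × (Ω ≃ₐ[F] Ω), (∀ a ∈ S, rk K Kb p.1 a = g a) ∧
      (∀ a ∈ S, rk K Kb p.2 a = h a) := ⟨(σ, τ), h1, h2⟩
    have e : c' g h = κ H.choose.1 H.choose.2 := dif_pos H
    rw [e]
    exact hS _ _ _ _ (fun a ha => (H.choose_spec.1 a ha).trans (h1 a ha).symm)
      (fun a ha => (H.choose_spec.2 a ha).trans (h2 a ha).symm)
  have hcc : ∀ σ τ : Ω ≃ₐ[F] Ω, c' (φ σ) (φ τ) = κ σ τ := fun σ τ =>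
    hc' _ _ _ _ (fun _ _ => rfl) (fun _ _ => rfl)
  haveI : IsAlgClosed κ₀ := (inferInstance : IsAlgClosure k κ₀).isAlgClosed
  have hfix : D' ≤ TBR.Fx k (κ₀ : Set Kb) := by
    rintro _ ⟨σ, hσ, rfl⟩ x hx
    have hx' : IsAlgebraic k x := mem_algebraicClosure_iff.1 hx
    apply (algebraMap Kb Ω).injective
    rw [hφ, rk_apply]
    exact hD hσ _ (hx'.algebraMap)
  have halg : ∀ x : Kb, IsAlgebraic (TBR.AA κ₀ {t}) x := by
    intro x
    haveI : Algebra.IsAlgebraic (IntermediateField.adjoin k {z}) K := ⟨hz⟩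
    have hx : IsAlgebraic (IntermediateField.adjoin k {z}) x :=
      (Algebra.IsAlgebraic.trans (IntermediateField.adjoin k {z}) K Kb).isAlgebraic x
    have hmem : ∀ a : IntermediateField.adjoin k {z},
        ((algebraMap K Kb).comp (algebraMap (IntermediateField.adjoin k {z}) K)) a ∈
          TBR.AA κ₀ {t} := by
      intro a
      have h1 : (IsScalarTower.toAlgHom k K Kb) (a : K) ∈
          (IntermediateField.adjoin k {z}).map (IsScalarTower.toAlgHom k K Kb) :=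
        ⟨a, a.2, rfl⟩
      rw [IntermediateField.adjoin_map, Set.image_singleton] at h1
      exact (le_sup_right : _ ≤ κ₀ ⊔ IntermediateField.adjoin k {t}) h1
    obtain ⟨p, hp0, hp⟩ := hx
    let f : IntermediateField.adjoin k {z} →+* TBR.AA κ₀ {t} := RingHom.codRestrict _ _ hmem
    refine ⟨p.map f, (Polynomial.map_ne_zero_iff f.injective).2 hp0, ?_⟩
    rw [Polynomial.aeval_def, Polynomial.eval₂_map]
    exact hp
  have horb : TBR.Orb D' ((⊤ : IntermediateField k Kb) : Set Kb) := by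
    intro x _
    refine ((minpoly K x).rootSet_finite Kb).subset ?_
    rintro _ ⟨_, ⟨σ, _, rfl⟩, rfl⟩
    rw [Polynomial.mem_rootSet]
    refine ⟨minpoly.ne_zero (Algebra.IsIntegral.isIntegral x), ?_⟩
    show aeval (rk K Kb σ x) (minpoly K x) = 0
    have h2 : aeval (rk K Kb σ x) (minpoly K x) = rk K Kb σ (aeval x (minpoly K x)) :=
      Polynomial.aeval_algHom_apply (rk K Kb σ : Kb →ₐ[K] Kb) x (minpoly K x)
    rw [h2, minpoly.aeval, map_zero]
  have hlc : TBR.Lc2 ((⊤ : IntermediateField k Kb) : Set Kb) c' := by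
    refine ⟨S, fun _ _ => trivial, ?_⟩
    intro g g' h h' hg hh
    by_cases H : ∃ p : (Ω ≃ₐ[F] Ω) × (Ω ≃ₐ[F] Ω), (∀ a ∈ S, rk K Kb p.1 a = g a) ∧
      (∀ a ∈ S, rk K Kb p.2 a = h a)
    · obtain ⟨p, h1, h2⟩ := H
      rw [hc' g h p.1 p.2 h1 h2, hc' g' h' p.1 p.2 (fun a ha => (h1 a ha).trans (hg a ha))
        (fun a ha => (h2 a ha).trans (hh a ha))]
    · have H' : ¬ ∃ p : (Ω ≃ₐ[F] Ω) × (Ω ≃ₐ[F] Ω), (∀ a ∈ S, rk K Kb p.1 a = g' a) ∧
        (∀ a ∈ S, rk K Kb p.2 a = h' a) := by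
        rintro ⟨p, h1, h2⟩
        exact H ⟨p, fun a ha => (h1 a ha).trans (hg a ha).symm,
          fun a ha => (h2 a ha).trans (hh a ha).symm⟩
      have e1 : c' g h = 1 := dif_neg H
      have e2 : c' g' h' = 1 := dif_neg H'
      rw [e1, e2]
  have hsm : ∀ (σ : Ω ≃ₐ[F] Ω) (u : Kbˣ), φ σ • u = Units.map (rk K Kb σ : Kb →* Kb) u :=
    fun σ u => Units.ext rfl
  have hcoc : TBR.Coc D' c' := by
    rintro _ ⟨σ, hσ, rfl⟩ _ ⟨τ, hτ, rfl⟩ _ ⟨ρ, hρ, rfl⟩
    rw [← map_mul, ← map_mul, hcc, hcc, hcc, hcc, hsm]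
    exact hκ σ hσ τ hτ ρ hρ
  obtain ⟨b, ⟨S', _, hS'⟩, _, hb⟩ := TBR.tsu D' κ₀ ⊤ le_top hfix (fun _ _ _ _ => trivial) t
    trivial (fun x _ => halg x) horb c' (fun _ _ _ _ => trivial) hlc hcoc
  refine ⟨fun σ => b (φ σ), S', fun σ σ' h => hS' _ _ fun a ha => h a ha, ?_⟩
  intro σ hσ τ hτ
  have h3 := hb (φ σ) ⟨σ, hσ, rfl⟩ (φ τ) ⟨τ, hτ, rfl⟩
  rw [hcc, ← map_mul, hsm] at h3
  exact h3

end

end Pool.Agent.EFF

end

section


namespace Pool.Agent.EFF

open Polynomial WeierstrassCurve WeierstrassCurve.Affine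

open scoped Classical

universe u v w

section

variable {k K Kb F Ω : Type u} [Field k] [Field K] [Field Kb] [Field F] [Field Ω] [Algebra k K]
  [Algebra k Kb] [Algebra k F] [Algebra k Ω] [Algebra K Kb] [Algebra K F]
  [Algebra Kb Ω] [Algebra F Ω] [Algebra K Ω] [IsScalarTower K Kb Ω] [IsScalarTower K F Ω]
  [IsScalarTower k K Kb] [IsScalarTower k K F] [IsScalarTower k K Ω] [IsScalarTower k Kb Ω]
  [IsScalarTower k F Ω]
  [IsAlgClosed Kb] [Algebra.IsAlgebraic K Kb] [IsAlgClosed Ω] [Algebra.IsAlgebraic F Ω]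
  (W : WeierstrassCurve K)
theorem v_hom (D : Subgroup (Ω ≃ₐ[F] Ω)) (V : ValuationSubring Ω) (hD : D ≤ T1B.stab V)
    (b : (Ω ≃ₐ[F] Ω) → Ωˣ) (hb : T1B.LC1 b)
    (h : ∀ σ ∈ D, ∀ τ ∈ D, V.valuation (b (σ * τ) : Ω) = V.valuation (b σ : Ω) *
      V.valuation (σ (b τ : Ω))) :
    ∀ σ ∈ D, V.valuation (b σ : Ω) = 1 := by
  have hfix : ∀ σ ∈ D, ∀ u : Ω, V.valuation (σ u) = V.valuation u := fun σ hσ u =>
    v_fix V σ (hD hσ) u
  have hne : ∀ σ, V.valuation (b σ : Ω) ≠ 0 := fun σ => by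
    rw [Ne, Valuation.zero_iff]
    exact (b σ).ne_zero
  have h1 : V.valuation (b 1 : Ω) = 1 := by
    have := h 1 D.one_mem 1 D.one_mem
    rw [hfix 1 D.one_mem, mul_one] at this
    exact (mul_left_cancel₀ (hne 1) (by rw [mul_one]; exact this)).symm
  intro σ hσ
  have hpow : ∀ n : ℕ, V.valuation (b (σ ^ n) : Ω) = V.valuation (b σ : Ω) ^ n := by
    intro n
    induction n with
    | zero => rw [pow_zero, pow_zero, h1]
    | succ n ih =>
      rw [pow_succ, h _ (D.pow_mem hσ n) _ hσ, hfix _ (D.pow_mem hσ n), ih, pow_succ]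
  obtain ⟨E, hE, hE'⟩ := hb
  haveI := hE
  have hfin : Finite (E →ₐ[F] Ω) := inferInstance
  have key : ∀ i j : ℕ, i < j →
      ((σ ^ i : Ω ≃ₐ[F] Ω).toAlgHom.comp E.val : E →ₐ[F] Ω) =
        ((σ ^ j : Ω ≃ₐ[F] Ω).toAlgHom.comp E.val : E →ₐ[F] Ω) →
      V.valuation (b σ : Ω) = 1 := by
    intro i j hij he
    have h2 : b (σ ^ i) = b (σ ^ j) := hE' _ _ (fun x hx => DFunLike.congr_fun he ⟨x, hx⟩)
    have h3 : V.valuation (b σ : Ω) ^ i = V.valuation (b σ : Ω) ^ j := by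
      rw [← hpow, ← hpow, h2]
    obtain ⟨m, rfl⟩ := Nat.exists_eq_add_of_lt hij
    rw [add_assoc, pow_add] at h3
    have h4 : V.valuation (b σ : Ω) ^ (m + 1) = 1 :=
      (mul_left_cancel₀ (pow_ne_zero i (hne σ)) (by rw [mul_one]; exact h3)).symm
    rcases lt_trichotomy (V.valuation (b σ : Ω)) 1 with h5 | h5 | h5
    · exact absurd h4 (ne_of_lt (pow_lt_one₀ zero_le h5 (Nat.succ_ne_zero m)))
    · exact h5
    · exact absurd h4 (ne_of_gt (one_lt_pow₀ h5 (Nat.succ_ne_zero m)))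
  obtain ⟨i, j, hij, he⟩ := Finite.exists_ne_map_eq_of_infinite
    (fun n : ℕ => ((σ ^ n : Ω ≃ₐ[F] Ω).toAlgHom.comp E.val : E →ₐ[F] Ω))
  rcases lt_or_gt_of_ne hij with h2 | h2
  · exact key i j h2 he
  · exact key j i h2 he.symm

end

end Pool.Agent.EFF

end

section


namespace Pool.Agent.EFF

open Polynomial WeierstrassCurve WeierstrassCurve.Affine

open scoped Classical

universe u v w

private theorem v_unit_aux {G : Type*} [CommGroup G] (A B X P Q R S : G)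
    (h : A * (B * X) = P * Q * (R * S)) : X * (Q * S)⁻¹ = P * R * (A * B)⁻¹ := by
  calc X * (Q * S)⁻¹ = (A * (B * X)) * (A * B)⁻¹ * (Q * S)⁻¹ := by
        apply Additive.ofMul.injective
        simp only [ofMul_mul, ofMul_inv]
        abel
    _ = (P * Q * (R * S)) * (A * B)⁻¹ * (Q * S)⁻¹ := by rw [h]
    _ = P * R * (A * B)⁻¹ := by
        apply Additive.ofMul.injective
        simp only [ofMul_mul, ofMul_inv]
        abel

section

variable {k K Kb F Ω : Type u} [Field k] [Field K] [Field Kb] [Field F] [Field Ω] [Algebra k K]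
  [Algebra k Kb] [Algebra k F] [Algebra k Ω] [Algebra K Kb] [Algebra K F]
  [Algebra Kb Ω] [Algebra F Ω] [Algebra K Ω] [IsScalarTower K Kb Ω] [IsScalarTower K F Ω]
  [IsScalarTower k K Kb] [IsScalarTower k K F] [IsScalarTower k K Ω] [IsScalarTower k Kb Ω]
  [IsScalarTower k F Ω]
  [IsAlgClosed Kb] [Algebra.IsAlgebraic K Kb] [IsAlgClosed Ω] [Algebra.IsAlgebraic F Ω]
  (W : WeierstrassCurve K)
theorem v_unit (x : Ω) (hx : Transcendental Kb x)
    (halg : ∀ t : Ω, IsAlgebraic (IntermediateField.adjoin Kb {x}) t)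
    (V : ValuationSubring Ω) (hV : ∀ a : Kb, algebraMap Kb Ω a ∈ V) (hV' : V ≠ ⊤)
    (D : Subgroup (Ω ≃ₐ[F] Ω)) (hD : D ≤ T1B.stab V) (m : ℕ) (hm : (m : K) ≠ 0)
    (u : (Ω ≃ₐ[F] Ω) → (Ω ≃ₐ[F] Ω) → Ωˣ) (hlc : T1B.LC2 u) (hc : T1B.Coc D u)
    (h1 : ∀ σ ∈ D, ∀ τ ∈ D, V.valuation ((u σ τ : Ω) - 1) < 1)
    (ht : T1B.Triv D (fun σ τ => u σ τ ^ m)) :
    T1B.Triv D u := by
  have hmKb : (m : Kb) ≠ 0 := by
    intro h0
    apply hm
    apply (algebraMap K Kb).injective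
    rw [map_natCast, h0, map_zero]
  have hvK : ∀ a : Kb, a ≠ 0 → V.valuation (algebraMap Kb Ω a) = 1 := by
    intro a ha
    have h2 : V.valuation (algebraMap Kb Ω a) ≤ 1 := (V.valuation_le_one_iff _).2 (hV a)
    have h3 : V.valuation (algebraMap Kb Ω a⁻¹) ≤ 1 := (V.valuation_le_one_iff _).2 (hV a⁻¹)
    refine le_antisymm h2 ?_
    have h4 : V.valuation (algebraMap Kb Ω a) * V.valuation (algebraMap Kb Ω a⁻¹) = 1 := by
      rw [← map_mul, ← map_mul, mul_inv_cancel₀ ha, map_one, map_one]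
    calc (1 : V.ValueGroup) = V.valuation (algebraMap Kb Ω a) *
        V.valuation (algebraMap Kb Ω a⁻¹) := h4.symm
      _ ≤ V.valuation (algebraMap Kb Ω a) * 1 := by gcongr
      _ = _ := mul_one _
  have hvm : V.valuation (m : Ω) = 1 := by
    have := hvK (m : Kb) hmKb
    rwa [map_natCast] at this
  have hfix : ∀ σ ∈ D, ∀ t : Ω, V.valuation (σ t) = V.valuation t := fun σ hσ t =>
    v_fix V σ (hD hσ) t
  let ι : Kbˣ →* Ωˣ := Units.map (algebraMap Kb Ω).toMonoidHom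
  have hι : ∀ κ : Kbˣ, ((ι κ : Ωˣ) : Ω) = algebraMap Kb Ω (κ : Kb) := fun _ => rfl
  -- units
  have hU1 : ∀ t : Ωˣ, t ∈ V.principalUnitGroup → V.valuation (t : Ω) = 1 := fun t ht =>
    (V.mem_unitGroup_iff t).1 (V.principal_units_le_units ht)
  have hUs : ∀ σ ∈ D, ∀ t : Ωˣ, t ∈ V.principalUnitGroup → σ • t ∈ V.principalUnitGroup := by
    intro σ hσ t ht
    rw [ValuationSubring.mem_principalUnitGroup_iff] at ht ⊢
    have h2 : ((σ • t : Ωˣ) : Ω) - 1 = σ ((t : Ω) - 1) := by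
      rw [map_sub, map_one]
      rfl
    rw [h2, hfix σ hσ]
    exact ht
  -- the residue
  have hres : ∀ w : Ωˣ, V.valuation (w : Ω) = 1 → ∃ κ : Kbˣ, ∃ s : Ωˣ,
      s ∈ V.principalUnitGroup ∧ s ^ m * ι κ = w := by
    intro w hw
    obtain ⟨κ, ⟨hκ0, hκ⟩, -⟩ := v_res x hx halg V hV hV' (w : Ω) hw
    obtain ⟨r, ⟨hr, hr1⟩, -⟩ := v_root V m hvm ((w : Ω) * (algebraMap Kb Ω κ)⁻¹) hκ
    have hm0 : m ≠ 0 := by
      rintro rfl
      exact hm Nat.cast_zero
    have hκ1 : algebraMap Kb Ω κ ≠ 0 := (_root_.map_ne_zero _).2 hκ0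
    have hr0 : r ≠ 0 := by
      rintro rfl
      rw [zero_pow hm0] at hr
      exact (mul_ne_zero w.ne_zero (inv_ne_zero hκ1)) hr.symm
    refine ⟨Units.mk0 κ hκ0, Units.mk0 r hr0, hr1, ?_⟩
    ext
    rw [Units.val_mul, Units.val_pow_eq_pow_val, hι, Units.val_mk0, Units.val_mk0, hr, mul_assoc,
      inv_mul_cancel₀ hκ1, mul_one]
  have hκuniq : ∀ κ κ' : Kbˣ, ι κ * (ι κ')⁻¹ ∈ V.principalUnitGroup → κ = κ' := by
    intro κ κ' h2
    obtain ⟨κ0, -, h3⟩ := v_res x hx halg V hV hV' (algebraMap Kb Ω (κ : Kb))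
      (hvK _ κ.ne_zero)
    have h4 : (κ : Kb) = κ0 := by
      apply h3
      refine ⟨κ.ne_zero, ?_⟩
      rw [mul_inv_cancel₀ ((_root_.map_ne_zero _).2 κ.ne_zero), sub_self, map_zero]
      exact zero_lt_one
    have h5 : (κ' : Kb) = κ0 := by
      apply h3
      refine ⟨κ'.ne_zero, ?_⟩
      rw [ValuationSubring.mem_principalUnitGroup_iff, Units.val_mul, Units.val_inv_eq_inv_val,
        hι, hι] at h2
      exact h2
    exact Units.ext (h4.trans h5.symm)
  have hsuniq : ∀ s s' : Ωˣ, s ∈ V.principalUnitGroup → s' ∈ V.principalUnitGroup →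
      s ^ m = s' ^ m → s = s' := by
    intro s s' hs hs' h2
    have h2' : V.valuation (((s ^ m : Ωˣ) : Ω) - 1) < 1 :=
      (V.mem_principalUnitGroup_iff _).1 (V.principalUnitGroup.pow_mem hs m)
    rw [Units.val_pow_eq_pow_val] at h2'
    obtain ⟨r, -, h3⟩ := v_root V m hvm ((s : Ω) ^ m) h2'
    have h4 : (s : Ω) = r := h3 _ ⟨rfl, (V.mem_principalUnitGroup_iff _).1 hs⟩
    have h5 : (s' : Ω) = r := by
      refine h3 _ ⟨?_, (V.mem_principalUnitGroup_iff _).1 hs'⟩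
      have := congrArg (fun t : Ωˣ => (t : Ω)) h2
      simpa using this.symm
    exact Units.ext (h4.trans h5.symm)
  have hchoice : ∀ w : Ωˣ, ∃ κ : Kbˣ, ∃ s : Ωˣ, V.valuation (w : Ω) = 1 →
      s ∈ V.principalUnitGroup ∧ s ^ m * ι κ = w := by
    intro w
    by_cases hw : V.valuation (w : Ω) = 1
    · obtain ⟨κ, s, h2⟩ := hres w hw
      exact ⟨κ, s, fun _ => h2⟩
    · exact ⟨1, 1, fun h2 => absurd h2 hw⟩
  choose κf sf hf using hchoice
  obtain ⟨b, hb, hbe⟩ := ht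
  have hbval : ∀ σ ∈ D, V.valuation (b σ : Ω) = 1 := by
    refine v_hom D V hD b hb ?_
    intro σ hσ τ hτ
    have h2 := congrArg (fun t : Ωˣ => V.valuation (t : Ω)) (hbe σ hσ τ hτ)
    simp only [Units.val_mul, map_mul, Units.val_pow_eq_pow_val, map_pow] at h2
    have h3 : V.valuation (u σ τ : Ω) = 1 :=
      hU1 _ ((V.mem_principalUnitGroup_iff _).2 (h1 σ hσ τ hτ))
    rw [h3, one_pow, one_mul] at h2
    exact h2
  obtain ⟨E, hE, hE'⟩ := id hb
  obtain ⟨r, hr, hr'⟩ := T1B.LC1.mk' (b := fun σ => sf (b σ)) (D : Set (Ω ≃ₐ[F] Ω)) E hE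
    (fun σ _ σ' _ h2 => by
      show sf (b σ) = sf (b σ')
      rw [hE' σ σ' h2])
  refine ⟨r, hr, ?_⟩
  intro σ hσ τ hτ
  rw [hr' σ hσ, hr' τ hτ, hr' (σ * τ) (D.mul_mem hσ hτ)]
  obtain ⟨a1, a2⟩ := hf (b σ) (hbval σ hσ)
  obtain ⟨c1, c2⟩ := hf (b τ) (hbval τ hτ)
  obtain ⟨d1, d2⟩ := hf (b (σ * τ)) (hbval _ (D.mul_mem hσ hτ))
  have huU : u σ τ ∈ V.principalUnitGroup := (V.mem_principalUnitGroup_iff _).2 (h1 σ hσ τ hτ)
  have e1 : u σ τ ^ m * (sf (b (σ * τ)) ^ m * ι (κf (b (σ * τ)))) =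
      sf (b σ) ^ m * ι (κf (b σ)) * σ • (sf (b τ) ^ m * ι (κf (b τ))) := by
    rw [a2, c2, d2]
    exact hbe σ hσ τ hτ
  have e2 : σ • ι (κf (b τ)) = ι (Units.map (rk K Kb σ : Kb ≃ₐ[K] Kb).toAlgHom.toRingHom.toMonoidHom
      (κf (b τ))) := by
    ext
    exact (rk_apply σ ((κf (b τ) : Kbˣ) : Kb)).symm
  rw [smul_mul', smul_pow', e2] at e1
  generalize Units.map (rk K Kb σ : Kb ≃ₐ[K] Kb).toAlgHom.toRingHom.toMonoidHom
    (κf (b τ)) = κ' at e1
  have hτU := hUs σ hσ _ c1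
  have e3 : ι (κf (b (σ * τ))) * (ι (κf (b σ) * κ'))⁻¹ =
      (sf (b σ) * σ • sf (b τ) * (u σ τ * sf (b (σ * τ)))⁻¹) ^ m := by
    rw [map_mul, mul_pow, inv_pow, mul_pow, mul_pow]
    exact v_unit_aux _ _ _ _ _ _ _ e1
  have e4 : κf (b (σ * τ)) = κf (b σ) * κ' := by
    apply hκuniq
    rw [e3]
    exact V.principalUnitGroup.pow_mem (V.principalUnitGroup.mul_mem
      (V.principalUnitGroup.mul_mem a1 hτU) (V.principalUnitGroup.inv_mem
      (V.principalUnitGroup.mul_mem huU d1))) m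
  apply hsuniq _ _ (V.principalUnitGroup.mul_mem huU d1) (V.principalUnitGroup.mul_mem a1 hτU)
  rw [e4, map_mul] at e1
  rw [mul_pow, mul_pow]
  apply mul_right_cancel (b := ι (κf (b σ)) * ι κ')
  rw [mul_assoc, e1]
  apply Additive.ofMul.injective
  simp only [ofMul_mul, ofMul_inv]
  abel

end

end Pool.Agent.EFF

end

section


namespace Pool.Agent.EFF

open Polynomial WeierstrassCurve WeierstrassCurve.Affine

open scoped Classical

universe u v w

/-- residues -/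
def v_mainRes (Kb : Type u) {Ω : Type u} [Field Kb] [Field Ω] [Algebra Kb Ω]
    (V : ValuationSubring Ω) (u : Ωˣ) (κ : Kbˣ) : Prop :=
  V.valuation ((u : Ω) * (algebraMap Kb Ω (κ : Kb))⁻¹ - 1) < 1

theorem v_mainRes_mul {Kb Ω : Type u} [Field Kb] [Field Ω] [Algebra Kb Ω]
    (V : ValuationSubring Ω) (u u' : Ωˣ) (κ κ' : Kbˣ) (h : v_mainRes Kb V u κ)
    (h' : v_mainRes Kb V u' κ') : v_mainRes Kb V (u * u') (κ * κ') := by
  unfold v_mainRes at *
  set a := (u : Ω) * (algebraMap Kb Ω (κ : Kb))⁻¹ with ha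
  set a' := (u' : Ω) * (algebraMap Kb Ω (κ' : Kb))⁻¹ with ha'
  have e : ((u * u' : Ωˣ) : Ω) * (algebraMap Kb Ω ((κ * κ' : Kbˣ) : Kb))⁻¹ - 1 =
      a * (a' - 1) + (a - 1) := by
    rw [ha, ha', Units.val_mul, Units.val_mul, map_mul, mul_inv]
    ring
  have h1 : V.valuation a ≤ 1 := by
    have e1 : a = (a - 1) + 1 := by ring
    rw [e1]
    refine (V.valuation.map_add _ _).trans ?_
    rw [map_one]
    exact max_le h.le le_rfl
  rw [e]
  refine (V.valuation.map_add _ _).trans_lt (max_lt ?_ h)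
  rw [map_mul]
  calc V.valuation a * V.valuation (a' - 1) ≤ 1 * V.valuation (a' - 1) :=
        mul_le_mul_left h1 _
    _ < 1 := by rw [one_mul]; exact h'

theorem v_mainRes_uniq {Kb Ω : Type u} [Field Kb] [Field Ω] [Algebra Kb Ω]
    (V : ValuationSubring Ω) (hV : ∀ a : Kb, algebraMap Kb Ω a ∈ V) (u : Ωˣ) (κ κ' : Kbˣ)
    (h : v_mainRes Kb V u κ) (h' : v_mainRes Kb V u κ') : κ = κ' := by
  by_contra hne
  unfold v_mainRes at *
  have hk : (κ : Kb) - κ' ≠ 0 := fun h0 => hne (Units.ext (sub_eq_zero.1 h0))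
  set a := (u : Ω) * (algebraMap Kb Ω (κ : Kb))⁻¹ with ha
  set a' := (u : Ω) * (algebraMap Kb Ω (κ' : Kb))⁻¹ with ha'
  have h1 : ∀ t : Kb, t ≠ 0 → V.valuation (algebraMap Kb Ω t) = 1 := by
    intro t ht
    apply le_antisymm ((V.valuation_le_one_iff _).2 (hV t))
    have h2 : V.valuation (algebraMap Kb Ω t⁻¹) ≤ 1 := (V.valuation_le_one_iff _).2 (hV t⁻¹)
    rw [map_inv₀, map_inv₀] at h2
    have h3 : V.valuation (algebraMap Kb Ω t) ≠ 0 := by
      rw [Valuation.ne_zero_iff]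
      exact (_root_.map_ne_zero _).2 ht
    exact (inv_le_one₀ (zero_lt_iff.2 h3)).1 h2
  have hκ0 : algebraMap Kb Ω (κ : Kb) ≠ 0 := (_root_.map_ne_zero _).2 κ.ne_zero
  have hκ0' : algebraMap Kb Ω (κ' : Kb) ≠ 0 := (_root_.map_ne_zero _).2 κ'.ne_zero
  have e : algebraMap Kb Ω ((κ : Kb) - κ') =
      algebraMap Kb Ω κ' * (a' - 1) - algebraMap Kb Ω κ * (a - 1) := by
    rw [ha, ha', map_sub]
    field_simp
    ring
  have h2 := h1 _ hk
  rw [e] at h2
  have h3 : V.valuation (algebraMap Kb Ω κ' * (a' - 1) - algebraMap Kb Ω κ * (a - 1)) < 1 := by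
    refine (V.valuation.map_sub _ _).trans_lt (max_lt ?_ ?_)
    · rw [map_mul, h1 _ κ'.ne_zero, one_mul]
      exact h'
    · rw [map_mul, h1 _ κ.ne_zero, one_mul]
      exact h
  exact absurd h2 h3.ne

section

variable {k K Kb F Ω : Type u} [Field k] [Field K] [Field Kb] [Field F] [Field Ω] [Algebra k K]
  [Algebra k Kb] [Algebra k F] [Algebra k Ω] [Algebra K Kb] [Algebra K F]
  [Algebra Kb Ω] [Algebra F Ω] [Algebra K Ω] [IsScalarTower K Kb Ω] [IsScalarTower K F Ω]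
  [IsScalarTower k K Kb] [IsScalarTower k K F] [IsScalarTower k K Ω] [IsScalarTower k Kb Ω]
  [IsScalarTower k F Ω]
  [IsAlgClosed Kb] [Algebra.IsAlgebraic K Kb] [IsAlgClosed Ω] [Algebra.IsAlgebraic F Ω]
  (W : WeierstrassCurve K)
theorem v_mainRes_smul (V : ValuationSubring Ω) (σ : Ω ≃ₐ[F] Ω) (hσ : σ ∈ T1B.stab V) (u : Ωˣ)
    (κ : Kbˣ) (h : v_mainRes Kb V u κ) :
    v_mainRes Kb V (σ • u) (Units.map (rk K Kb σ : Kb →* Kb) κ) := by
  unfold v_mainRes at *
  have e : ((σ • u : Ωˣ) : Ω) *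
      (algebraMap Kb Ω ((Units.map (rk K Kb σ : Kb →* Kb) κ : Kbˣ) : Kb))⁻¹ - 1 =
      σ ((u : Ω) * (algebraMap Kb Ω (κ : Kb))⁻¹ - 1) := by
    have e1 : ((Units.map (rk K Kb σ : Kb →* Kb) κ : Kbˣ) : Kb) = rk K Kb σ (κ : Kb) := rfl
    have e2 : ((σ • u : Ωˣ) : Ω) = σ (u : Ω) := rfl
    rw [e1, e2, rk_apply, map_sub, map_mul, map_inv₀, map_one]
  rw [e, v_fix V σ hσ]
  exact h

theorem v_main_alg {G A : Type*} [Group G] [CommGroup A] [MulDistribMulAction G A] (σ : G)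
    (a b k l : A) : σ • a * b * (σ • k * l)⁻¹ = σ • (a * k⁻¹) * (b * l⁻¹) := by
  rw [smul_mul', smul_inv', mul_inv, mul_mul_mul_comm]

theorem v_mainLC (S : Finset Kb) : ∃ E : IntermediateField F Ω, FiniteDimensional F E ∧
    ∀ σ σ' : Ω ≃ₐ[F] Ω, (∀ x ∈ E, σ x = σ' x) → ∀ a ∈ S, rk K Kb σ a = rk K Kb σ' a := by
  classical
  refine ⟨IntermediateField.adjoin F (algebraMap Kb Ω '' (S : Set Kb)), ?_, ?_⟩
  · have : Finite (algebraMap Kb Ω '' (S : Set Kb)) := (S.finite_toSet.image _).to_subtype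
    exact IntermediateField.finiteDimensional_adjoin
      (fun x _ => (Algebra.IsAlgebraic.isAlgebraic (R := F) x).isIntegral)
  · intro σ σ' h a ha
    apply (algebraMap Kb Ω).injective
    rw [rk_apply, rk_apply]
    exact h _ (IntermediateField.subset_adjoin F _ ⟨a, ha, rfl⟩)

theorem v_main (x y : Ω) (hT : ((W.baseChange Kb).toAffine.baseChange Ω).toAffine.Equation x y)
    (H : Pts W Kb → Pts W Kb → Ωˣ) (hG : Gen W F x y hT H) (V : ValuationSubring Ω)
    (hV : ∀ a : Kb, algebraMap Kb Ω a ∈ V) (hV' : V ≠ ⊤) (hell : (W.baseChange Kb).IsElliptic)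
    (z : K) (hz : ∀ a : K, IsAlgebraic (IntermediateField.adjoin k {z}) a)
    (c : (Kb ≃ₐ[K] Kb) → Pts W Kb) (hc : Crossed W c) (m : ℕ) (hm : (m : k) ≠ 0)
    (hcm : Principal W ⊤ (fun g => m • c g)) :
    T1B.Triv (T1B.geo k F Ω ⊓ T1B.stab V) (fc W F H c) := by
  classical
  have hH := hG.hfun
  obtain ⟨π, e, he, hst⟩ := v_red W x y hT H hG V hV hV' hell
  set D := T1B.geo k F Ω ⊓ T1B.stab V with hD
  have hDg : D ≤ T1B.geo k F Ω := inf_le_left
  have hDs : D ≤ T1B.stab V := inf_le_right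
  -- the unit part
  set w : Pts W Kb → Pts W Kb → Ωˣ := fun A B => H A B * π ^ (-(e A + e B - e (A + B))) with hw
  have hw1 : ∀ A B, V.valuation (w A B : Ω) = 1 := by
    intro A B
    have h1 : ((w A B : Ωˣ) : Ω) = (H A B : Ω) * (π : Ω) ^ (-(e A + e B - e (A + B))) := by
      rw [hw]
      push_cast
      rfl
    rw [h1, map_mul, he, map_zpow₀, ← zpow_add₀, add_neg_cancel, zpow_zero]
    rw [Valuation.ne_zero_iff]
    exact π.ne_zero
  have hres : ∀ A B, ∃ κ : Kbˣ, v_mainRes Kb V (w A B) κ := by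
    intro A B
    obtain ⟨κ, ⟨h0, h1⟩, -⟩ := v_res x hG.trans hG.alg V hV hV' (w A B : Ω) (hw1 A B)
    exact ⟨Units.mk0 κ h0, h1⟩
  choose r hr using hres
  have hsm : ∀ σ ∈ D, ∀ A B, σ • w A B = w (act W (rk K Kb σ) A) (act W (rk K Kb σ) B) := by
    intro σ hσ A B
    have h1 := hst σ (hDs hσ)
    simp only [hw]
    rw [smul_mul', hH.equi, ← map_add, h1.2, h1.2, h1.2]
    congr 1
    rw [smul_zpow', h1.1]
  have hww : ∀ A B C, w A B * w (A + B) C = w B C * w A (B + C) := by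
    intro A B C
    simp only [hw]
    rw [mul_mul_mul_comm, hH.assoc, ← zpow_add, mul_mul_mul_comm (H B C), ← zpow_add, add_assoc A B C]
    congr 2
    ring
  set κ : (Ω ≃ₐ[F] Ω) → (Ω ≃ₐ[F] Ω) → Kbˣ := fun σ τ =>
    r (c (rk K Kb σ)) (act W (rk K Kb σ) (c (rk K Kb τ))) with hκ
  obtain ⟨S, hS1, hS2⟩ := c_fin W c hc
  have hcs : ∀ σ τ : Ω ≃ₐ[F] Ω, c (rk K Kb (σ * τ)) =
      c (rk K Kb σ) + act W (rk K Kb σ) (c (rk K Kb τ)) := by
    intro σ τ
    rw [map_mul]
    exact hc.2 _ _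
  have hact : ∀ (σ τ : Ω ≃ₐ[F] Ω) (A : Pts W Kb), act W (rk K Kb (σ * τ)) A =
      act W (rk K Kb σ) (act W (rk K Kb τ) A) := by
    intro σ τ A
    have h1 : act W (rk K Kb (σ * τ)) A = act W (rk K Kb σ * rk K Kb τ) A := by rw [map_mul]
    rw [h1]
    cases A <;> rfl
  have hdep : ∀ σ σ' τ τ' : Ω ≃ₐ[F] Ω, (∀ a ∈ S, rk K Kb σ a = rk K Kb σ' a) →
      (∀ a ∈ S, rk K Kb τ a = rk K Kb τ' a) → c (rk K Kb σ) = c (rk K Kb σ') ∧
      act W (rk K Kb σ) (c (rk K Kb τ)) = act W (rk K Kb σ') (c (rk K Kb τ')) := by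
    intro σ σ' τ τ' h1 h2
    refine ⟨hS1 _ _ h1, ?_⟩
    rw [hS1 _ _ h2]
    exact hS2 _ _ _ h1
  have hκd : ∀ σ σ' τ τ' : Ω ≃ₐ[F] Ω, (∀ a ∈ S, rk K Kb σ a = rk K Kb σ' a) →
      (∀ a ∈ S, rk K Kb τ a = rk K Kb τ' a) → κ σ τ = κ σ' τ' := by
    intro σ σ' τ τ' h1 h2
    obtain ⟨h3, h4⟩ := hdep σ σ' τ τ' h1 h2
    simp only [hκ]
    rw [h3, h4]
  have hκc : ∀ σ ∈ D, ∀ τ ∈ D, ∀ ρ ∈ D, κ σ τ * κ (σ * τ) ρ =
      Units.map (rk K Kb σ : Kb →* Kb) (κ τ ρ) * κ σ (τ * ρ) := by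
    intro σ hσ τ hτ ρ hρ
    apply v_mainRes_uniq V hV (w (c (rk K Kb σ)) (act W (rk K Kb σ) (c (rk K Kb τ))) *
      w (c (rk K Kb (σ * τ))) (act W (rk K Kb (σ * τ)) (c (rk K Kb ρ))))
    · exact v_mainRes_mul V _ _ _ _ (hr _ _) (hr _ _)
    · rw [hcs, hact, hww, ← hsm σ hσ, ← map_add, ← hcs]
      exact v_mainRes_mul V _ _ _ _ (v_mainRes_smul V σ (hDs hσ) _ _ (hr _ _)) (hr _ _)
  obtain ⟨β, S', hβ1, hβ2⟩ := v_tsen (k := k) z hz D hDg S κ hκd hκc
  have hsmul : ∀ (σ : Ω ≃ₐ[F] Ω) (a : Kbˣ), σ • Units.map (algebraMap Kb Ω : Kb →* Ω) a =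
      Units.map (algebraMap Kb Ω : Kb →* Ω) (Units.map (rk K Kb σ : Kb →* Kb) a) := by
    intro σ a
    apply Units.ext
    exact (rk_apply σ (a : Kb)).symm
  obtain ⟨E, hE, hES⟩ := v_mainLC (K := K) (F := F) (Ω := Ω) S
  obtain ⟨E', hE', hES'⟩ := v_mainLC (K := K) (F := F) (Ω := Ω) S'
  -- the two coboundaries
  have hT1 : T1B.Triv D (fun σ τ => π ^ (e (c (rk K Kb σ)) +
      e (act W (rk K Kb σ) (c (rk K Kb τ))) -
      e (c (rk K Kb σ) + act W (rk K Kb σ) (c (rk K Kb τ))))) := by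
    refine ⟨fun σ => π ^ (e (c (rk K Kb σ))), ⟨E, hE, fun σ σ' h => ?_⟩, fun σ hσ τ hτ => ?_⟩
    · have h1 := hS1 _ _ (hES σ σ' h)
      show π ^ (e (c (rk K Kb σ))) = π ^ (e (c (rk K Kb σ')))
      rw [h1]
    · have h1 := hst σ (hDs hσ)
      show _ * π ^ (e (c (rk K Kb (σ * τ)))) = π ^ (e (c (rk K Kb σ))) *
        σ • (π ^ (e (c (rk K Kb τ))))
      beta_reduce
      rw [smul_zpow', h1.1, hcs, h1.2, ← zpow_add, ← zpow_add]
      congr 1
      ring
  have hT2 : T1B.Triv D (fun σ τ => Units.map (algebraMap Kb Ω : Kb →* Ω) (κ σ τ)) := by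
    refine ⟨fun σ => Units.map (algebraMap Kb Ω : Kb →* Ω) (β σ),
      ⟨E', hE', fun σ σ' h => ?_⟩, fun σ hσ τ hτ => ?_⟩
    · show Units.map (algebraMap Kb Ω : Kb →* Ω) (β σ) =
        Units.map (algebraMap Kb Ω : Kb →* Ω) (β σ')
      rw [hβ1 σ σ' (hES' σ σ' h)]
    · show Units.map (algebraMap Kb Ω : Kb →* Ω) (κ σ τ) *
        Units.map (algebraMap Kb Ω : Kb →* Ω) (β (σ * τ)) = _
      rw [← map_mul, hβ2 σ hσ τ hτ, map_mul, ← hsmul]
  set u : (Ω ≃ₐ[F] Ω) → (Ω ≃ₐ[F] Ω) → Ωˣ := fun σ τ =>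
    w (c (rk K Kb σ)) (act W (rk K Kb σ) (c (rk K Kb τ))) *
      (Units.map (algebraMap Kb Ω : Kb →* Ω) (κ σ τ))⁻¹ with hu
  have hfc : ∀ σ τ : Ω ≃ₐ[F] Ω, fc W F H c σ τ = u σ τ * (Units.map (algebraMap Kb Ω : Kb →* Ω)
      (κ σ τ) * π ^ (e (c (rk K Kb σ)) + e (act W (rk K Kb σ) (c (rk K Kb τ))) -
      e (c (rk K Kb σ) + act W (rk K Kb σ) (c (rk K Kb τ))))) := by
    intro σ τ
    simp only [hu, hw]
    rw [← mul_assoc, inv_mul_cancel_right, mul_assoc, ← zpow_add, neg_add_cancel, zpow_zero, mul_one]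
    rfl
  have hu2 : T1B.LC2 u := by
    refine ⟨E, hE, fun σ σ' τ τ' h1 h2 => ?_⟩
    obtain ⟨h3, h4⟩ := hdep σ σ' τ τ' (hES _ _ h1) (hES _ _ h2)
    simp only [hu]
    rw [h3, h4, hκd σ σ' τ τ' (hES _ _ h1) (hES _ _ h2)]
  have huc : T1B.Coc D u := by
    intro σ hσ τ hτ ρ hρ
    have h1 : w (c (rk K Kb σ)) (act W (rk K Kb σ) (c (rk K Kb τ))) *
        w (c (rk K Kb (σ * τ))) (act W (rk K Kb (σ * τ)) (c (rk K Kb ρ))) =
        σ • w (c (rk K Kb τ)) (act W (rk K Kb τ) (c (rk K Kb ρ))) *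
        w (c (rk K Kb σ)) (act W (rk K Kb σ) (c (rk K Kb (τ * ρ)))) := by
      rw [hcs, hact, hww, hsm σ hσ, ← map_add, ← hcs]
    have h2 := congrArg (Units.map (algebraMap Kb Ω : Kb →* Ω)) (hκc σ hσ τ hτ ρ hρ)
    rw [map_mul, map_mul, ← hsmul] at h2
    simp only [hu]
    rw [mul_mul_mul_comm, h1, ← mul_inv, h2]
    exact v_main_alg σ _ _ _ _
  have hu1 : ∀ σ ∈ D, ∀ τ ∈ D, V.valuation ((u σ τ : Ω) - 1) < 1 := by
    intro σ _ τ _
    have h1 : v_mainRes Kb V (w (c (rk K Kb σ)) (act W (rk K Kb σ) (c (rk K Kb τ)))) (κ σ τ) :=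
      hr _ _
    unfold v_mainRes at h1
    have h2 : ((u σ τ : Ωˣ) : Ω) = (w (c (rk K Kb σ)) (act W (rk K Kb σ) (c (rk K Kb τ))) : Ω) *
        (algebraMap Kb Ω (κ σ τ : Kb))⁻¹ := by
      simp only [hu]
      rw [Units.val_mul, Units.val_inv_eq_inv_val]
      rfl
    rw [h2]
    exact h1
  have hT3 : T1B.Triv D (fun σ τ => fc W F H c σ τ ^ (m : ℤ)) := by
    obtain ⟨R, hR⟩ := hcm
    have h1 := s_triv (F := F) W H hH (fun g => m • c g) D R (fun σ _ => hR _ trivial)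
    have h2 := s_smul (F := F) W H hH c hc m D
    refine (h1.mul (h2.pow (-1))).congr (fun σ _ τ _ => ?_)
    show fc W F H (fun g => m • c g) σ τ * (fc W F H (fun g => m • c g) σ τ *
      (fc W F H c σ τ ^ m)⁻¹) ^ (-1 : ℤ) = fc W F H c σ τ ^ (m : ℤ)
    rw [zpow_neg_one, zpow_natCast, mul_inv, inv_inv, mul_inv_cancel_left]
  have hT4 : T1B.Triv D (fun σ τ => u σ τ ^ m) := by
    refine (hT3.mul ((hT2.mul hT1).pow (-(m : ℤ)))).congr (fun σ _ τ _ => ?_)
    rw [hfc σ τ, mul_zpow, zpow_neg, mul_inv_cancel_right, zpow_natCast]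
  have hmK : (m : K) ≠ 0 := by
    have h1 : algebraMap k K (m : k) = (m : K) := map_natCast _ _
    rw [← h1]
    exact (_root_.map_ne_zero _).2 hm
  have hT5 := v_unit x hG.trans hG.alg V hV hV' D hDs m hmK u hu2 huc hu1 hT4
  exact (hT5.mul (hT2.mul hT1)).congr (fun σ _ τ _ => (hfc σ τ).symm)

end

end Pool.Agent.EFF

end
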