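import Pool.Agent.EFM.Defs
import Pool.Agent.T1B.Transfer
import Pool.Agent.T1B.Transfer2
import Pool.Agent.TBM.Val
import Pool.Agent.EFM.S
import Pool.Agent.EFM.V
import Pool.Agent.T1B.Transfer3
import Pool.Agent.TBM.Br
import Pool.Agent.EFM.H
import Pool.Agent.EFM.J

/-!
# The Tate module of the Tate-Shafarevich group over the field with algebraically closed constants
-/

set_option autoImplicit false

section


namespace Pool.Agent.EFF

open Polynomial WeierstrassCurve WeierstrassCurve.Affine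

open scoped Classical

universe u v w

section

theorem c_tors {k K Kb : Type u} [Field k] [Field K] [Field Kb] [Algebra K Kb] [Algebra k Kb]
    (W : WeierstrassCurve K) (ℓ : ℕ) (c : ℕ → (Kb ≃ₐ[K] Kb) → Pts W Kb)
    (hc : ShaSys W k ℓ c) :
    (∀ n, Principal W ⊤ (fun g => ℓ ^ n • c n g)) ∧
    ∀ n a, Principal W ⊤ (fun g => ℓ ^ a • c (n + a) g - c n g) := by
  have second : ∀ n a, Principal W ⊤ (fun g => ℓ ^ a • c (n + a) g - c n g) := by
    intro n a
    induction a with
    | zero =>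
      refine ⟨0, fun σ _ => ?_⟩
      show ℓ ^ 0 • c (n + 0) σ - c n σ = _
      rw [map_zero, sub_zero, pow_zero, one_smul, add_zero, sub_self]
    | succ a ih =>
      obtain ⟨R, hR⟩ := ih
      obtain ⟨Q, hQ⟩ := hc.step (n + a)
      refine ⟨ℓ ^ a • Q + R, fun σ hσ => ?_⟩
      have h1 : ℓ • c (n + a + 1) σ - c (n + a) σ = act W σ Q - Q := hQ σ hσ
      have h2 : ℓ ^ a • c (n + a) σ - c n σ = act W σ R - R := hR σ hσ
      have h3 : ℓ ^ (a + 1) • c (n + a + 1) σ - c n σ =
          ℓ ^ a • (ℓ • c (n + a + 1) σ - c (n + a) σ) + (ℓ ^ a • c (n + a) σ - c n σ) := by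
        rw [smul_sub, smul_smul, ← pow_succ]
        abel
      show ℓ ^ (a + 1) • c (n + a + 1) σ - c n σ = _
      rw [h3, h1, h2, map_add, map_nsmul, smul_sub]
      abel
  refine ⟨fun n => ?_, second⟩
  obtain ⟨P, hP⟩ := second 0 n
  obtain ⟨P0, hP0⟩ := hc.zero
  refine ⟨P + P0, fun σ hσ => ?_⟩
  have h1 : ℓ ^ n • c (0 + n) σ - c 0 σ = act W σ P - P := hP σ hσ
  have h2 : c 0 σ = act W σ P0 - P0 := hP0 σ hσ
  rw [zero_add] at h1
  show ℓ ^ n • c n σ = _
  have h3 : ℓ ^ n • c n σ = (ℓ ^ n • c n σ - c 0 σ) + c 0 σ := by abel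
  rw [h3, h1, h2, map_add]
  abel

end

end Pool.Agent.EFF

end

section
namespace Pool.Agent.EFF
open Polynomial WeierstrassCurve WeierstrassCurve.Affine
open scoped Classical
universe u v w
theorem c_cop {K Kb : Type u} [Field K] [Field Kb] [Algebra K Kb] (W : WeierstrassCurve K)
    (D : Subgroup (Kb ≃ₐ[K] Kb)) (c : (Kb ≃ₐ[K] Kb) → Pts W Kb) (a b : ℕ) (hab : Nat.Coprime a b)
    (ha : Principal W D (fun g => a • c g)) (hb : Principal W D (fun g => b • c g)) :
    Principal W D c := by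
  obtain ⟨P, hP⟩ := ha
  obtain ⟨Q, hQ⟩ := hb
  have hbz : (1 : ℤ) = a * Nat.gcdA a b + b * Nat.gcdB a b := by
    have h := Nat.gcd_eq_gcd_ab a b
    rw [hab.gcd_eq_one] at h
    exact_mod_cast h
  refine ⟨Nat.gcdA a b • P + Nat.gcdB a b • Q, fun σ hσ => ?_⟩
  have h1 : c σ = Nat.gcdA a b • (a • c σ) + Nat.gcdB a b • (b • c σ) := by
    have e1 : (a • c σ : Pts W Kb) = (a : ℤ) • c σ := (natCast_zsmul _ _).symm
    have e2 : (b • c σ : Pts W Kb) = (b : ℤ) • c σ := (natCast_zsmul _ _).symm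
    rw [e1, e2, smul_smul, smul_smul, ← add_smul]
    have : Nat.gcdA a b * (a : ℤ) + Nat.gcdB a b * (b : ℤ) = 1 := by rw [hbz]; ring
    rw [this, one_smul]
  have h2 := hP σ hσ
  have h3 := hQ σ hσ
  simp only at h2 h3
  rw [h1, h2, h3, map_add, map_zsmul, map_zsmul, smul_sub, smul_sub]
  abel
end Pool.Agent.EFF

end

section


namespace Pool.Agent.EFF

open Polynomial WeierstrassCurve WeierstrassCurve.Affine

open scoped Classical

universe u v w

section

variable {k K Kb F Ω : Type u} [Field k] [Field K] [Field Kb] [Field F] [Field Ω] [Algebra k K]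
  [Algebra k Kb] [Algebra k F] [Algebra k Ω] [Algebra K Kb] [Algebra K F]
  [Algebra Kb Ω] [Algebra F Ω] [Algebra K Ω] [IsScalarTower K Kb Ω] [IsScalarTower K F Ω]
  [IsScalarTower k K Kb] [IsScalarTower k K F] [IsScalarTower k K Ω] [IsScalarTower k Kb Ω]
  [IsScalarTower k F Ω]
  [IsAlgClosed Kb] [Algebra.IsAlgebraic K Kb] [IsAlgClosed Ω] [Algebra.IsAlgebraic F Ω]
  (W : WeierstrassCurve K)
theorem sys_row (x y : Ω) (hT : ((W.baseChange Kb).toAffine.baseChange Ω).toAffine.Equation x y)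
    (H : Pts W Kb → Pts W Kb → Ωˣ) (hG : Gen W F x y hT H) (hell : (W.baseChange Kb).IsElliptic)
    (z : K) (hz : ∀ a : K, IsAlgebraic (IntermediateField.adjoin k {z}) a)
    (ℓ : ℕ) (hℓ : (ℓ : k) ≠ 0) (c : ℕ → (Kb ≃ₐ[K] Kb) → Pts W Kb) (hc : ShaSys W k ℓ c) :
    T1B.Sys k ℓ (fun n => fc W F H (c n)) := by
  have hcc : ∀ n, Crossed W (c n) := hc.crossed
  have hH := hG.hfun
  refine ⟨fun n => s_lc W H (c n) (hcc n), fun n => s_coc W H hH (c n) (hcc n).2 _, ?_, fun n => ?_,
    fun n g => s_inv _ (s_lc W H (c n) (hcc n)) (s_coc W H hH (c n) (hcc n).2 ⊤) _ g, fun n V hV hV' => ?_⟩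
  · obtain ⟨P, hP⟩ := hc.zero
    exact s_triv W H hH (c 0) _ P fun σ _ => hP _ (Subgroup.mem_top _)
  · have h1 := s_smul W H hH (c (n + 1)) (hcc (n + 1)) ℓ (T1B.geo k F Ω)
    have hcr : Crossed W (fun g => ℓ • c (n + 1) g) := by
      refine ⟨(hcc (n + 1)).1.comp (fun P => ℓ • P), fun σ τ => ?_⟩
      show ℓ • c (n + 1) (σ * τ) = ℓ • c (n + 1) σ + act W σ (ℓ • c (n + 1) τ)
      rw [(hcc (n + 1)).2, smul_add, map_nsmul]
    obtain ⟨P, hP⟩ := hc.step n
    have h2 := s_congr W H hH (fun g => ℓ • c (n + 1) g) (c n) hcr (hcc n) (T1B.geo k F Ω) P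
      (fun σ _ => hP _ (Subgroup.mem_top _))
    refine ((h1.pow (-1)).mul h2).congr fun σ _ τ _ => ?_
    rw [zpow_neg_one, mul_inv_rev, inv_inv, mul_assoc, inv_mul_cancel_left]
  · by_cases hKb : ∀ a : Kb, algebraMap Kb Ω a ∈ V
    · refine v_main W x y hT H hG V hKb hV' hell z hz (c n) (hcc n) (ℓ ^ n) ?_ ((c_tors W ℓ c hc).1 n)
      rw [Nat.cast_pow]
      exact pow_ne_zero n hℓ
    · obtain ⟨P, hP⟩ := hc.loc n (V.comap (algebraMap Kb Ω)) (fun a => by
        rw [ValuationSubring.mem_comap, ← IsScalarTower.algebraMap_apply]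
        exact hV a) (fun htop => hKb fun a => by
        have h1 : a ∈ V.comap (algebraMap Kb Ω) := by
          rw [htop]
          exact ValuationSubring.mem_top a
        exact ValuationSubring.mem_comap.1 h1)
      refine s_triv W H hH (c n) _ P fun σ hσ => hP _ fun a => ?_
      rw [ValuationSubring.mem_comap, ValuationSubring.mem_comap, rk_apply]
      exact (Subgroup.mem_inf.1 hσ).2 _

end

end Pool.Agent.EFF

end

section


namespace Pool.Agent.EFF

open Polynomial WeierstrassCurve WeierstrassCurve.Affine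

open scoped Classical

universe u v w

section

/-- the field `Ω` is algebraic over `Kb(x)` -/
private theorem sha_geo_alg {K Kb F Ω : Type u} [Field K] [Field Kb] [Field F] [Field Ω] [Algebra K Kb] [Algebra K F]
    [Algebra Kb Ω] [Algebra F Ω] [Algebra K Ω] [IsScalarTower K Kb Ω] [IsScalarTower K F Ω]
    [Algebra.IsAlgebraic F Ω] (x' y' : Ω)
    (hF : ∀ f : F, algebraMap F Ω f ∈ IntermediateField.adjoin K ({x', y'} : Set Ω)) (a₁ a₂ a₃ a₄ a₆ : Kb)
    (heq : (((⟨a₁, a₂, a₃, a₄, a₆⟩ : WeierstrassCurve Kb).toAffine.baseChange Ω).toAffine).Equation x' y') (t : Ω) :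
    IsAlgebraic (IntermediateField.adjoin Kb {x'}) t := by
  obtain ⟨A, hA⟩ : ∃ A : IntermediateField Kb Ω, A = IntermediateField.adjoin Kb {x'} := ⟨_, rfl⟩
  rw [← hA]
  have hx : x' ∈ A := by
    rw [hA]
    exact IntermediateField.mem_adjoin_simple_self Kb x'
  have hy : IsIntegral A y' := by
    have h1 := (equation_iff _ _).1 heq
    simp only [map_a₁, map_a₂, map_a₃, map_a₄, map_a₆, WeierstrassCurve.baseChange] at h1
    refine ⟨X ^ 2 + C (algebraMap Kb A a₁ * ⟨x', hx⟩ + algebraMap Kb A a₃) * X -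
      C (⟨x', hx⟩ ^ 3 + algebraMap Kb A a₂ * ⟨x', hx⟩ ^ 2 + algebraMap Kb A a₄ * ⟨x', hx⟩ + algebraMap Kb A a₆), ?_, ?_⟩
    · monicity!
    · simp only [eval₂_sub, eval₂_add, eval₂_mul, eval₂_pow, eval₂_X, eval₂_C, map_add, map_mul, map_pow]
      have h2 : ∀ a : Kb, algebraMap A Ω (algebraMap Kb A a) = algebraMap Kb Ω a := fun a => rfl
      have h3 : algebraMap A Ω ⟨x', hx⟩ = x' := rfl
      rw [h2, h2, h2, h2, h2, h3]
      linear_combination h1
  obtain ⟨E, hE⟩ : ∃ E : IntermediateField A Ω, E = algebraicClosure A Ω := ⟨_, rfl⟩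
  have hAE : ∀ a ∈ A, a ∈ E := fun a ha => E.algebraMap_mem (⟨a, ha⟩ : A)
  have hE' : ∀ t ∈ IntermediateField.adjoin K ({x', y'} : Set Ω), t ∈ E := by
    intro t ht
    induction ht using IntermediateField.adjoin_induction with
    | mem t ht =>
      rcases ht with h | h
      · rw [h]
        exact hAE _ hx
      · rw [Set.mem_singleton_iff.1 h, hE]
        exact (mem_algebraicClosure_iff).2 hy.isAlgebraic
    | algebraMap a =>
      rw [IsScalarTower.algebraMap_apply K Kb Ω]
      exact hAE _ (A.algebraMap_mem _)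
    | add x y _ _ hx hy => exact E.add_mem hx hy
    | inv x _ hx => exact E.inv_mem hx
    | mul x y _ _ hx hy => exact E.mul_mem hx hy
  let ψ : F →+* E := (algebraMap F Ω).codRestrict E (fun f => hE' _ (hF f))
  have hint : IsIntegral E t := by
    have h1 : IsIntegral F t := Algebra.IsIntegral.isIntegral t
    refine ⟨(minpoly F t).map ψ, (minpoly.monic h1).map ψ, ?_⟩
    rw [eval₂_map]
    have h2 : (algebraMap E Ω).comp ψ = algebraMap F Ω := RingHom.ext fun _ => rfl
    rw [h2]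
    exact minpoly.aeval F t
  have halgE : Algebra.IsAlgebraic A E := by
    rw [hE]
    infer_instance
  exact hint.isAlgebraic.restrictScalars A

theorem sha_geo {k K Kb F : Type u} [Field k] [Field K] [Field Kb] [Field F] [Algebra k K]
    [Algebra k Kb] [Algebra k F] [Algebra K Kb] [Algebra K F] [IsScalarTower k K Kb]
    [IsScalarTower k K F] [IsAlgClosed Kb] [Algebra.IsAlgebraic K Kb] (W : WeierstrassCurve K)
    (hell : W.IsElliptic) (x y : F) (hxy : (W.baseChange F).toAffine.Equation x y)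
    (hx : Transcendental K x) (hF : ∀ f : F, f ∈ IntermediateField.adjoin K ({x, y} : Set F))
    (z : K) (hz : ∀ a : K, IsAlgebraic (IntermediateField.adjoin k {z}) a)
    (ℓ : ℕ) (hℓ : ℓ.Prime) (hℓk : (ℓ : k) ≠ 0) (hT : T1B.T1 k F ℓ)
    (c : ℕ → (Kb ≃ₐ[K] Kb) → Pts W Kb) (hc : ShaSys W k ℓ c) (n : ℕ) :
    Principal W (T1B.geo k K Kb) (c n) := by
  have := hell
  have hsKF : IsScalarTower K F (AlgebraicClosure F) := inferInstance
  have hskF : IsScalarTower k F (AlgebraicClosure F) := inferInstance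
  have hskK : IsScalarTower k K (AlgebraicClosure F) := inferInstance
  let φ : Kb →ₐ[K] AlgebraicClosure F := IsAlgClosed.lift
  let _ : Algebra Kb (AlgebraicClosure F) := φ.toRingHom.toAlgebra
  have hsKb : IsScalarTower K Kb (AlgebraicClosure F) :=
    IsScalarTower.of_algebraMap_eq fun a => (φ.commutes a).symm
  have hskb : IsScalarTower k Kb (AlgebraicClosure F) := IsScalarTower.of_algebraMap_eq fun a => by
    rw [IsScalarTower.algebraMap_apply k K Kb, ← IsScalarTower.algebraMap_apply K Kb (AlgebraicClosure F),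
      ← IsScalarTower.algebraMap_apply k K (AlgebraicClosure F)]
  obtain ⟨x', hx'⟩ : ∃ x' : AlgebraicClosure F, x' = algebraMap F (AlgebraicClosure F) x := ⟨_, rfl⟩
  obtain ⟨y', hy'⟩ : ∃ y' : AlgebraicClosure F, y' = algebraMap F (AlgebraicClosure F) y := ⟨_, rfl⟩
  have hco : ∀ a : K, algebraMap Kb (AlgebraicClosure F) (algebraMap K Kb a) =
      algebraMap F (AlgebraicClosure F) (algebraMap K F a) := fun a => by
    rw [← IsScalarTower.algebraMap_apply K Kb (AlgebraicClosure F), ← IsScalarTower.algebraMap_apply K F (AlgebraicClosure F)]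
  have heq : ((W.baseChange Kb).toAffine.baseChange (AlgebraicClosure F)).toAffine.Equation x' y' := by
    rw [equation_iff] at hxy ⊢
    simp only [map_a₁, map_a₂, map_a₃, map_a₄, map_a₆, WeierstrassCurve.baseChange] at hxy ⊢
    rw [hco, hco, hco, hco, hco, hx', hy']
    have h1 := congrArg (algebraMap F (AlgebraicClosure F)) hxy
    simp only [map_add, map_mul, map_pow] at h1
    exact h1
  have htr : Transcendental Kb x' := by
    intro h
    have h1 : IsAlgebraic K x' := h.restrictScalars K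
    rw [hx', isAlgebraic_algebraMap_iff (algebraMap F (AlgebraicClosure F)).injective] at h1
    exact hx h1
  have hmem : x' ∈ Set.range (algebraMap F (AlgebraicClosure F)) ∧
      y' ∈ Set.range (algebraMap F (AlgebraicClosure F)) := ⟨⟨x, hx'.symm⟩, ⟨y, hy'.symm⟩⟩
  have hF' : ∀ f : F, algebraMap F (AlgebraicClosure F) f ∈
      IntermediateField.adjoin K ({x', y'} : Set (AlgebraicClosure F)) := by
    intro f
    have h1 : (IsScalarTower.toAlgHom K F (AlgebraicClosure F)) f ∈
        (IntermediateField.adjoin K ({x, y} : Set F)).map (IsScalarTower.toAlgHom K F (AlgebraicClosure F)) :=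
      ⟨f, hF f, rfl⟩
    rw [IntermediateField.adjoin_map, Set.image_pair] at h1
    rw [hx', hy']
    exact h1
  have halg : ∀ t : AlgebraicClosure F, IsAlgebraic (IntermediateField.adjoin Kb {x'}) t :=
    sha_geo_alg (K := K) (F := F) x' y' hF' _ _ _ _ _ heq
  obtain ⟨H, hG⟩ := gen_ex (F := F) W x' y' heq htr halg hmem
  have hellb : (W.baseChange Kb).IsElliptic := by
    change (W.map (algebraMap K Kb)).IsElliptic
    infer_instance
  have hsys := sys_row W x' y' heq H hG hellb z hz ℓ hℓk c hc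
  have htriv := hT _ hsys n
  obtain ⟨q, hq⟩ := ExpChar.exists (AlgebraicClosure F)
  obtain ⟨r, R, hR⟩ := j_main (k := k) W x' y' heq H hG hellb hF' q (c n) (hc.crossed n) htriv
  have h1 : Principal W (T1B.geo k K Kb) (fun g => q ^ r • c n g) := by
    refine ⟨R, fun g hg => ?_⟩
    obtain ⟨σ, hσ, hσg⟩ := j_lift (k := k) W x' y' heq H hG hF' g hg
    rw [← hσg]
    exact hR σ hσ
  have h2 : Principal W (T1B.geo k K Kb) (fun g => ℓ ^ n • c n g) := by
    obtain ⟨P, hP⟩ := (c_tors W ℓ c hc).1 n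
    exact ⟨P, fun σ _ => hP σ (Subgroup.mem_top _)⟩
  refine c_cop W _ (c n) (q ^ r) (ℓ ^ n) ?_ h1 h2
  rcases expChar_is_prime_or_one (AlgebraicClosure F) q with hqp | hq1
  · refine Nat.Coprime.pow r n ((Nat.coprime_primes hqp hℓ).2 ?_)
    rintro rfl
    apply hℓk
    have h3 : CharP (AlgebraicClosure F) q := by
      rcases hq with _ | _
      · exact absurd hqp Nat.not_prime_one
      · assumption
    apply (algebraMap k (AlgebraicClosure F)).injective
    rw [map_natCast, map_zero]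
    exact CharP.cast_eq_zero _ _
  · rw [hq1, one_pow]
    exact Nat.coprime_one_left _

end

end Pool.Agent.EFF

end
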