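import Pool.Agent.EFM.Fam
import Pool.Agent.TBM.TGroup

/-!
# The double planes are unirational
-/

set_option autoImplicit false

section


namespace Pool.Agent.EFF

open Polynomial

open scoped Classical

universe u v w

section

theorem i_map {k : Type u} {L : Type v} [Field k] [Field L] [Algebra k L] (a₂ a₄ a₆ : k[X])
    (hD : Deg a₂ a₄ a₆) (hN : NonIso a₂ a₄ a₆) :
    Deg (a₂.map (algebraMap k L)) (a₄.map (algebraMap k L)) (a₆.map (algebraMap k L)) ∧
    NonIso (a₂.map (algebraMap k L)) (a₄.map (algebraMap k L)) (a₆.map (algebraMap k L)) := by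
  obtain ⟨h2, h4, h6⟩ := hD
  obtain ⟨hd, hj⟩ := hN
  refine ⟨⟨?_, ?_, ?_⟩, ?_⟩
  · rw [natDegree_map]
    exact h2
  · rw [natDegree_map]
    exact h4
  · rw [natDegree_map]
    exact h6
  have hcrv : crv (a₂.map (algebraMap k L)) (a₄.map (algebraMap k L)) (a₆.map (algebraMap k L))
      (X : L[X]) = (crv a₂ a₄ a₆ (X : k[X])).map (mapRingHom (algebraMap k L)) := by
    simp only [crv, WeierstrassCurve.map, aeval_X_left_apply, map_zero, coe_mapRingHom]
  have hinj : Function.Injective (mapRingHom (algebraMap k L)) := by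
    rw [coe_mapRingHom]
    exact map_injective _ (algebraMap k L).injective
  unfold NonIso
  rw [hcrv, WeierstrassCurve.map_Δ, WeierstrassCurve.map_c₄, ← map_pow]
  refine ⟨fun h => hd (hinj (h.trans (map_zero _).symm)), ?_⟩
  intro j h
  obtain ⟨n, hn⟩ : ∃ n, (crv a₂ a₄ a₆ (X : k[X])).Δ.coeff n ≠ 0 := by
    by_contra hc
    push Not at hc
    exact hd (Polynomial.ext fun n => by rw [hc n, coeff_zero])
  have hn' : (algebraMap k L) ((crv a₂ a₄ a₆ (X : k[X])).Δ.coeff n) ≠ 0 := fun h0 =>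
    hn ((algebraMap k L).injective (h0.trans (map_zero _).symm))
  have h1 := congrArg (fun f => f.coeff n) h
  simp only [coe_mapRingHom, coeff_map, coeff_C_mul] at h1
  refine hj (((crv a₂ a₄ a₆ (X : k[X])).c₄ ^ 3).coeff n /
    (crv a₂ a₄ a₆ (X : k[X])).Δ.coeff n) (hinj ?_)
  rw [h, map_mul]
  congr 1
  rw [coe_mapRingHom, map_C, map_div₀, h1, mul_div_cancel_right₀ _ hn']

end

end Pool.Agent.EFF

end

section


namespace Pool.Agent.EFF

open Polynomial

open scoped Classical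

universe u v w

section

theorem d_loc {k : Type u} {L : Type v} [Field k] [Field L] [Algebra k L] (hk : (2 : L) ≠ 0)
    (a₂ a₄ a₆ : k[X]) (hD : Deg a₂ a₄ a₆) (r l : L) (hr : cub a₂ a₄ a₆ r l = 0)
    (hΔ : (crv a₂ a₄ a₆ l).Δ ≠ 0) :
    ∃ m u p v q b₁ b₂ b₃ : L, Loc a₂ a₄ a₆ r l m u p v q b₁ b₂ b₃ ∧ m ≠ 0 ∧ u ^ 2 - 4 * m ≠ 0 := by
  obtain ⟨h2, h4, h6⟩ := hD
  have e2 : ∀ {R : Type v} [CommRing R] [Algebra k R] (t : R),
      aeval t a₂ = algebraMap k R (a₂.coeff 0) + algebraMap k R (a₂.coeff 1) * t := by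
    intro R _ _ t
    rw [aeval_eq_sum_range' (Nat.lt_succ_of_le h2) t]
    simp only [Finset.sum_range_succ, Finset.sum_range_zero, Algebra.smul_def, pow_zero, mul_one,
      pow_one, zero_add]
  have e4 : ∀ {R : Type v} [CommRing R] [Algebra k R] (t : R),
      aeval t a₄ = algebraMap k R (a₄.coeff 0) + algebraMap k R (a₄.coeff 1) * t +
        algebraMap k R (a₄.coeff 2) * t ^ 2 := by
    intro R _ _ t
    rw [aeval_eq_sum_range' (Nat.lt_succ_of_le h4) t]
    simp only [Finset.sum_range_succ, Finset.sum_range_zero, Algebra.smul_def, pow_zero, mul_one,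
      pow_one, zero_add]
  have e6 : ∀ {R : Type v} [CommRing R] [Algebra k R] (t : R),
      aeval t a₆ = algebraMap k R (a₆.coeff 0) + algebraMap k R (a₆.coeff 1) * t +
        algebraMap k R (a₆.coeff 2) * t ^ 2 + algebraMap k R (a₆.coeff 3) * t ^ 3 := by
    intro R _ _ t
    rw [aeval_eq_sum_range' (Nat.lt_succ_of_le h6) t]
    simp only [Finset.sum_range_succ, Finset.sum_range_zero, Algebra.smul_def, pow_zero, mul_one,
      pow_one, zero_add]
  have hC : ∀ c : k, algebraMap k L[X] c = C (algebraMap k L c) := fun c => rfl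
  generalize hc20 : algebraMap k L (a₂.coeff 0) = c20 at *
  generalize hc21 : algebraMap k L (a₂.coeff 1) = c21 at *
  generalize hc40 : algebraMap k L (a₄.coeff 0) = c40 at *
  generalize hc41 : algebraMap k L (a₄.coeff 1) = c41 at *
  generalize hc42 : algebraMap k L (a₄.coeff 2) = c42 at *
  generalize hc60 : algebraMap k L (a₆.coeff 0) = c60 at *
  generalize hc61 : algebraMap k L (a₆.coeff 1) = c61 at *
  generalize hc62 : algebraMap k L (a₆.coeff 2) = c62 at *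
  generalize hc63 : algebraMap k L (a₆.coeff 3) = c63 at *
  have hr' : r ^ 3 + (c20 + c21 * l) * r ^ 2 + (c40 + c41 * l + c42 * l ^ 2) * r +
      (c60 + c61 * l + c62 * l ^ 2 + c63 * l ^ 3) = 0 := by
    unfold cub at hr
    rw [e2, e4, e6, hc20, hc21, hc40, hc41, hc42, hc60, hc61, hc62, hc63] at hr
    exact hr
  have hΔ' : (crv a₂ a₄ a₆ l).Δ =
      16 * (3 * r ^ 2 + 2 * (c20 + c21 * l) * r + (c40 + c41 * l + c42 * l ^ 2)) ^ 2 *
        ((3 * r + (c20 + c21 * l)) ^ 2 -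
          4 * (3 * r ^ 2 + 2 * (c20 + c21 * l) * r + (c40 + c41 * l + c42 * l ^ 2))) := by
    have hA6 : c60 + c61 * l + c62 * l ^ 2 + c63 * l ^ 3 =
        -(r ^ 3 + (c20 + c21 * l) * r ^ 2 + (c40 + c41 * l + c42 * l ^ 2) * r) := by
      linear_combination hr'
    unfold crv WeierstrassCurve.Δ WeierstrassCurve.b₂ WeierstrassCurve.b₄ WeierstrassCurve.b₆
      WeierstrassCurve.b₈
    simp only []
    rw [e2, e4, e6, hc20, hc21, hc40, hc41, hc42, hc60, hc61, hc62, hc63, hA6]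
    ring
  refine ⟨3 * r ^ 2 + 2 * (c20 + c21 * l) * r + (c40 + c41 * l + c42 * l ^ 2),
    3 * r + (c20 + c21 * l), c21, 2 * c21 * r + c41 + 2 * c42 * l, c42,
    c21 * r ^ 2 + (c41 + 2 * c42 * l) * r + (c61 + 2 * c62 * l + 3 * c63 * l ^ 2),
    c42 * r + c62 + 3 * c63 * l, c63, ?_, ?_, ?_⟩
  · intro ξ s
    have hr'' : (C r : L[X]) ^ 3 + (C c20 + C c21 * C l) * C r ^ 2 +
        (C c40 + C c41 * C l + C c42 * C l ^ 2) * C r +
        (C c60 + C c61 * C l + C c62 * C l ^ 2 + C c63 * C l ^ 3) = 0 := by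
      have := congrArg (C : L → L[X]) hr'
      simpa only [map_add, map_mul, map_pow, map_zero] using this
    unfold cub cl
    rw [e2, e4, e6]
    simp only [hC, hc20, hc21, hc40, hc41, hc42, hc60, hc61, hc62, hc63, map_add, map_mul, map_pow,
      map_ofNat]
    linear_combination hr''
  · intro h0
    apply hΔ
    rw [hΔ', h0]; ring
  · intro h0
    apply hΔ
    rw [hΔ', h0]; ring

end

end Pool.Agent.EFF

end

section


namespace Pool.Agent.EFF

open Polynomial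

open scoped Classical

universe u v w

section

theorem d_quart {L : Type u} [Field L] [IsAlgClosed L] (δ : L[X]) (hδ : δ.natDegree = 4) :
    (∃ α β : L, α ≠ β ∧ δ.eval α = 0 ∧ δ.eval β = 0) ∨ ∃ κ α : L, δ = C κ * (X - C α) ^ 4 := by
  by_cases h : ∃ α β : L, α ≠ β ∧ δ.eval α = 0 ∧ δ.eval β = 0
  · exact Or.inl h
  · right
    push Not at h
    have h0 : δ ≠ 0 := by rintro rfl; simp at hδ
    have hs : δ.Splits := IsAlgClosed.splits δ
    have hc : δ.roots.card = 4 := by rw [← hδ]; exact hs.natDegree_eq_card_roots.symm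
    obtain ⟨α, hα⟩ := Multiset.card_pos_iff_exists_mem.1 (show 0 < δ.roots.card by omega)
    have hr : δ.roots = Multiset.replicate 4 α := by
      rw [Multiset.eq_replicate]
      refine ⟨hc, fun β hβ => ?_⟩
      by_contra hne
      exact h β α hne ((mem_roots h0).1 hβ) ((mem_roots h0).1 hα)
    refine ⟨δ.leadingCoeff, α, ?_⟩
    have h1 := hs.eq_prod_roots
    rw [hr, Multiset.map_replicate, Multiset.prod_replicate] at h1
    exact h1

end

end Pool.Agent.EFF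

end

section


namespace Pool.Agent.EFF

open Polynomial

open scoped Classical

universe u v w

section

theorem d_sq {L : Type u} [Field L] [IsAlgClosed L] (hL : (2 : L) ≠ 0) (e₁ e₂ e₃ : L)
    (h : e₂ ^ 2 = 4 * e₁ * e₃) : ∃ a b : L, e₃ = a ^ 2 ∧ e₂ = 2 * a * b ∧ e₁ = b ^ 2 := by
  obtain ⟨a, ha⟩ := IsAlgClosed.exists_pow_nat_eq e₃ (n := 2) two_pos
  obtain ⟨b, hb⟩ := IsAlgClosed.exists_pow_nat_eq e₁ (n := 2) two_pos
  have h1 : e₂ ^ 2 = (2 * a * b) ^ 2 := by rw [h, ← ha, ← hb]; ring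
  rcases sq_eq_sq_iff_eq_or_eq_neg.1 h1 with h2 | h2
  · exact ⟨a, b, ha.symm, h2, hb.symm⟩
  · exact ⟨a, -b, ha.symm, by rw [h2]; ring, by rw [← hb]; ring⟩

end

end Pool.Agent.EFF

end

section


namespace Pool.Agent.EFF

open Polynomial

open scoped Classical

universe u v w

section

theorem d_four {L : Type u} [Field L] [IsAlgClosed L] (hL : (2 : L) ≠ 0)
    (m u p v q b₁ b₂ b₃ κ α : L) (h : dl m u p v q b₁ b₂ b₃ = C κ * (X - C α) ^ 4) :
    ∃ a b p' v' q' : L, (∀ ξ s : L[X], cl (C m) (C u) (C p) (C v) (C q) (C b₁) (C b₂) (C b₃)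
        (C α * s + ξ) s = cl (C m) (C u) (C p') (C v') (C q') (C (b ^ 2)) (C (2 * a * b))
          (C (a ^ 2)) ξ s) ∧
      u * v' = 2 * b ^ 2 + 2 * p' * m ∧
      v' ^ 2 + 4 * a * b * u = 4 * p' * b ^ 2 + 4 * q' * m ∧
      a * b * v' = q' * b ^ 2 + a ^ 2 * m := by
  have h2 := congrArg (fun P : L[X] => P.comp (X + C α)) h
  simp only [dl, sub_comp, add_comp, mul_comp, pow_comp, C_comp, X_comp, ofNat_comp] at h2
  set e₁ := b₁ + m * α with he₁
  set e₂ := b₂ + v * α + u * α ^ 2 with he₂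
  set e₃ := b₃ + q * α + p * α ^ 2 + α ^ 3 with he₃
  set p' := p + 3 * α with hp'
  set v' := v + 2 * u * α with hv'
  set q' := q + 2 * p * α + 3 * α ^ 2 with hq'
  have c2 : (C (2 : L) : L[X]) = 2 := rfl
  have c3 : (C (3 : L) : L[X]) = 3 := rfl
  have c4 : (C (4 : L) : L[X]) = 4 := rfl
  have h3 : C (u ^ 2 - 4 * m) * X ^ 4 + C (2 * u * v' - 4 * (m * p' + e₁)) * X ^ 3 +
      C (v' ^ 2 + 2 * u * e₂ - 4 * (m * q' + e₁ * p')) * X ^ 2 +
      C (2 * v' * e₂ - 4 * (m * e₃ + e₁ * q')) * X + C (e₂ ^ 2 - 4 * e₁ * e₃) =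
      C κ * X ^ 4 := by
    have h4 : C κ * (X + C α - C α) ^ 4 = C κ * X ^ 4 := by rw [add_sub_cancel_right]
    rw [← h4, ← h2, he₁, he₂, he₃, hp', hv', hq']
    simp only [C_add, C_sub, C_mul, C_pow, c2, c3, c4]
    ring
  have k0 := congrArg (fun P : L[X] => P.coeff 0) h3
  have k1 := congrArg (fun P : L[X] => P.coeff 1) h3
  have k2 := congrArg (fun P : L[X] => P.coeff 2) h3
  have k3 := congrArg (fun P : L[X] => P.coeff 3) h3
  simp only [coeff_add, coeff_C_mul, coeff_X_pow, coeff_X, coeff_C] at k0 k1 k2 k3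
  norm_num at k0 k1 k2 k3
  have h4 : (4 : L) ≠ 0 := by
    have : (4 : L) = 2 * 2 := by norm_num
    rw [this]; exact mul_ne_zero hL hL
  obtain ⟨a, b, ha, hab, hb⟩ := d_sq hL e₁ e₂ e₃ (by linear_combination k0)
  refine ⟨a, b, p', v', q', ?_, ?_, ?_, ?_⟩
  · intro ξ s
    rw [← hb, ← ha, ← hab, he₁, he₂, he₃, hp', hv', hq']
    simp only [cl, C_add, C_mul, C_pow, c2, c3]
    ring
  · rw [hb] at k3
    apply mul_left_cancel₀ hL
    linear_combination k3
  · rw [hb, hab] at k2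
    linear_combination k2
  · rw [hb, hab, ha] at k1
    apply mul_left_cancel₀ h4
    linear_combination k1

end

end Pool.Agent.EFF

end

section


namespace Pool.Agent.EFF

open Polynomial

open scoped Classical

universe u v w

section

theorem d_fac {L : Type u} [Field L] (m u p v q a b : L) (hm : m ≠ 0) (hb : b ≠ 0)
    (h1 : u * v = 2 * b ^ 2 + 2 * p * m)
    (h2 : v ^ 2 + 4 * a * b * u = 4 * p * b ^ 2 + 4 * q * m)
    (h3 : a * b * v = q * b ^ 2 + a ^ 2 * m) (hL : (2 : L) ≠ 0) :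
    ∃ κ : L, ∀ s : L[X], cl (C m) (C u) (C p) (C v) (C q) (C (b ^ 2)) (C (2 * a * b)) (C (a ^ 2))
      (C κ * (C a * s + C b)) s = 0 := by
  obtain ⟨W, hW⟩ : ∃ W : L, W = b * v - 2 * a * m := ⟨_, rfl⟩
  have hv : v = (W + 2 * a * m) / b := by
    rw [hW]; field_simp; ring
  have hp : p = (u * v - 2 * b ^ 2) / (2 * m) := by
    rw [eq_div_iff (mul_ne_zero hL hm)]
    linear_combination -h1
  have hq : q = (a * b * v - a ^ 2 * m) / b ^ 2 := by
    rw [eq_div_iff (pow_ne_zero 2 hb)]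
    linear_combination -h3
  have hs : m * W ^ 2 - 2 * b ^ 3 * u * W + 4 * b ^ 6 = 0 := by
    rw [hW]
    linear_combination (b ^ 2 * m) * h2 - 2 * b ^ 4 * h1 - 4 * m ^ 2 * h3
  clear h1 h2 h3 hW
  subst hv
  subst hp
  subst hq
  have hW0 : W ≠ 0 := by
    intro h
    rw [h] at hs
    have h4 : (4 : L) * b ^ 6 = 0 := by linear_combination hs
    have h5 : (4 : L) ≠ 0 := by
      have : (4 : L) = 2 * 2 := by norm_num
      rw [this]; exact mul_ne_zero hL hL
    exact mul_ne_zero h5 (pow_ne_zero 6 hb) h4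
  obtain ⟨κ, hκ⟩ : ∃ κ : L, κ = -2 * b ^ 2 / W := ⟨_, rfl⟩
  obtain ⟨v, hv⟩ : ∃ v : L, v = (W + 2 * a * m) / b := ⟨_, rfl⟩
  rw [← hv]
  obtain ⟨p, hp⟩ : ∃ p : L, p = (u * v - 2 * b ^ 2) / (2 * m) := ⟨_, rfl⟩
  obtain ⟨q, hq⟩ : ∃ q : L, q = (a * b * v - a ^ 2 * m) / b ^ 2 := ⟨_, rfl⟩
  rw [← hp, ← hq]
  have e0 : κ ^ 3 * b ^ 2 + u * κ ^ 2 * b + m * κ = 0 := by
    have : κ ^ 3 * b ^ 2 + u * κ ^ 2 * b + m * κ =
        κ * (m * W ^ 2 - 2 * b ^ 3 * u * W + 4 * b ^ 6) / W ^ 2 := by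
      rw [hκ]; field_simp; ring
    rw [this, hs]; simp
  have e1 : 2 * a * b * κ ^ 3 + u * a * κ ^ 2 + v * κ + p * b * κ ^ 2 + b = 0 := by
    have : 2 * a * b * κ ^ 3 + u * a * κ ^ 2 + v * κ + p * b * κ ^ 2 + b =
        -(b * (W + 4 * a * m)) * (m * W ^ 2 - 2 * b ^ 3 * u * W + 4 * b ^ 6) / (m * W ^ 3) := by
      rw [hκ, hp, hv]; field_simp; ring
    rw [this, hs]; simp
  have e2 : κ ^ 3 * a ^ 2 + p * a * κ ^ 2 + q * κ + a = 0 := by
    have : κ ^ 3 * a ^ 2 + p * a * κ ^ 2 + q * κ + a =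
        -(a * W + 2 * a ^ 2 * m) * (m * W ^ 2 - 2 * b ^ 3 * u * W + 4 * b ^ 6) / (m * W ^ 3) := by
      rw [hκ, hp, hq, hv]; field_simp; ring
    rw [this, hs]; simp
  refine ⟨κ, fun s => ?_⟩
  have E0 : C κ ^ 3 * C b ^ 2 + C u * C κ ^ 2 * C b + C m * C κ = (0 : L[X]) := by
    have := congrArg C e0
    simpa only [map_add, map_mul, map_pow, map_zero] using this
  have E1 : 2 * C a * C b * C κ ^ 3 + C u * C a * C κ ^ 2 + C v * C κ + C p * C b * C κ ^ 2 + C b =
      (0 : L[X]) := by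
    have := congrArg C e1
    simpa only [map_add, map_mul, map_pow, map_zero, map_ofNat] using this
  have E2 : C κ ^ 3 * C a ^ 2 + C p * C a * C κ ^ 2 + C q * C κ + C a = (0 : L[X]) := by
    have := congrArg C e2
    simpa only [map_add, map_mul, map_pow, map_zero] using this
  unfold cl
  simp only [map_mul, map_pow, map_ofNat]
  linear_combination (C a * s + C b) * (E0 + s * E1 + s ^ 2 * E2)

end

end Pool.Agent.EFF

end

section


namespace Pool.Agent.EFF

open Polynomial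

open scoped Classical

universe u v w

section

theorem d_line {k : Type u} {L : Type v} [Field k] [Field L] [Algebra k L] [IsAlgClosed L]
    (hL : (2 : L) ≠ 0) (a₂ a₄ a₆ : k[X]) (r l m u p v q b₁ b₂ b₃ κ α : L)
    (hloc : Loc a₂ a₄ a₆ r l m u p v q b₁ b₂ b₃) (hm : m ≠ 0)
    (h : dl m u p v q b₁ b₂ b₃ = C κ * (X - C α) ^ 4) :
    ∃ lam ν : L, cub a₂ a₄ a₆ (C lam * X + C ν) (X : L[X]) = 0 := by
  obtain ⟨a, b, p', v', q', hcl, h1, h2, h3⟩ := d_four hL m u p v q b₁ b₂ b₃ κ α h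
  have key : ∃ c d : L, ∀ s : L[X], cl (C m) (C u) (C p) (C v) (C q) (C b₁) (C b₂) (C b₃)
      (C α * s + (C c * s + C d)) s = 0 := by
    by_cases hb : b = 0
    · have ha : a = 0 := by
        rw [hb] at h3
        have h4 : a ^ 2 * m = 0 := by linear_combination -h3
        rcases mul_eq_zero.1 h4 with h5 | h5
        · exact pow_eq_zero_iff (two_ne_zero) |>.1 h5
        · exact absurd h5 hm
      refine ⟨0, 0, fun s => ?_⟩
      rw [hcl, ha, hb]
      unfold cl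
      simp only [map_zero, zero_mul, add_zero, mul_zero]
      ring_nf
      simp
    · obtain ⟨κ', hκ⟩ := d_fac m u p' v' q' a b hm hb h1 h2 h3 hL
      refine ⟨κ' * a, κ' * b, fun s => ?_⟩
      rw [hcl, ← hκ s]
      have hE : C (κ' * a) * s + C (κ' * b) = C κ' * (C a * s + C b) := by
        rw [C_mul, C_mul]
        ring
      rw [hE]
  obtain ⟨c, d, hcd⟩ := key
  refine ⟨α + c, r + d - (α + c) * l, ?_⟩
  have h5 := hcd (X - C l)
  rw [← hloc] at h5
  rw [← h5]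
  have hE1 : C (α + c) * X + C (r + d - (α + c) * l) =
      C r + (C α * (X - C l) + (C c * (X - C l) + C d)) := by
    rw [C_sub, C_add, C_add, C_mul, C_add]
    ring
  have hE2 : (X : L[X]) = C l + (X - C l) := by ring
  exact congrArg₂ (cub a₂ a₄ a₆) hE1 hE2

end

end Pool.Agent.EFF

end

section


namespace Pool.Agent.EFF

open Polynomial

open scoped Classical

universe u v w

section

theorem d_cone_cub_map {k : Type u} [Field k] {R : Type v} {S : Type w} [CommRing R]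
    [CommRing S] [Algebra k R] [Algebra k S] (φ : R →ₐ[k] S) (a₂ a₄ a₆ : k[X]) (x t : R) :
    φ (cub a₂ a₄ a₆ x t) = cub a₂ a₄ a₆ (φ x) (φ t) := by
  simp only [cub, map_add, map_mul, map_pow, Polynomial.aeval_algHom_apply]

theorem d_cone_aeval_X {k : Type u} {L : Type v} [Field k] [Field L] [Algebra k L] (a : k[X]) :
    aeval (X : L[X]) a = a.map (algebraMap k L) := by
  induction a using Polynomial.induction_on' with
  | add p q hp hq => rw [map_add, hp, hq, Polynomial.map_add]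
  | monomial n c =>
    rw [aeval_monomial, Polynomial.map_monomial, ← C_mul_X_pow_eq_monomial]
    rfl

/-- the invariants over `L` -/
theorem d_cone_inv {k : Type u} {L : Type v} [Field k] [Field L] [Algebra k L] (a₂ a₄ a₆ : k[X]) :
    (crv a₂ a₄ a₆ (X : L[X])).Δ = ((crv a₂ a₄ a₆ (X : k[X])).Δ).map (algebraMap k L) ∧
    (crv a₂ a₄ a₆ (X : L[X])).c₄ = ((crv a₂ a₄ a₆ (X : k[X])).c₄).map (algebraMap k L) := by
  have h : crv a₂ a₄ a₆ (X : L[X]) = (crv a₂ a₄ a₆ (X : k[X])).map (mapRingHom (algebraMap k L)) := by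
    simp only [crv, WeierstrassCurve.map, map_zero, d_cone_aeval_X, coe_mapRingHom]
    simp
  rw [h, WeierstrassCurve.map_Δ, WeierstrassCurve.map_c₄]
  exact ⟨rfl, rfl⟩

theorem d_cone_noniso {k : Type u} {L : Type v} [Field k] [Field L] [Algebra k L]
    (a₂ a₄ a₆ : k[X]) (hN : NonIso a₂ a₄ a₆) (j : L)
    (h : (crv a₂ a₄ a₆ (X : L[X])).c₄ ^ 3 = C j * (crv a₂ a₄ a₆ (X : L[X])).Δ) : False := by
  obtain ⟨h1, h2⟩ := d_cone_inv (k := k) (L := L) a₂ a₄ a₆
  rw [h1, h2, ← Polynomial.map_pow] at h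
  set D := (crv a₂ a₄ a₆ (X : k[X])).Δ with hD
  set E := (crv a₂ a₄ a₆ (X : k[X])).c₄ with hE
  have hD0 : D ≠ 0 := hN.1
  have hc : D.coeff D.natDegree ≠ 0 := by
    rw [coeff_natDegree]; exact leadingCoeff_ne_zero.2 hD0
  have hj : j = algebraMap k L ((E ^ 3).coeff D.natDegree / D.coeff D.natDegree) := by
    have := congrArg (fun f => coeff f D.natDegree) h
    simp only [coeff_map, coeff_C_mul] at this
    rw [map_div₀, this, mul_div_assoc, div_self, mul_one]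
    exact fun h0 => hc ((map_eq_zero _).1 h0)
  refine hN.2 ((E ^ 3).coeff D.natDegree / D.coeff D.natDegree) ?_
  apply map_injective (algebraMap k L) (algebraMap k L).injective
  rw [h, hj, Polynomial.map_mul, map_C]

theorem d_cone_coef {L : Type v} [Field L] {c₁ c₂ c₃ : L}
    (h : X * C c₁ + X ^ 2 * C c₂ + X ^ 3 * C c₃ = (0 : L[X])) : c₁ = 0 ∧ c₂ = 0 ∧ c₃ = 0 := by
  have h1 := congrArg (fun f => coeff f 1) h
  have h2 := congrArg (fun f => coeff f 2) h
  have h3 := congrArg (fun f => coeff f 3) h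
  simp only [coeff_add, coeff_mul_C, coeff_X_pow, coeff_zero, coeff_X] at h1 h2 h3
  norm_num at h1 h2 h3
  exact ⟨h1, h2, h3⟩

theorem d_cone_kap {L : Type v} [Field L] {m u p v q b₁ b₂ b₃ κ α : L}
    (h : dl m u p v q b₁ b₂ b₃ = C κ * (X - C α) ^ 4) : κ = u ^ 2 - 4 * m := by
  have h4 := congrArg (fun f => coeff f 4) h
  have l1 : dl m u p v q b₁ b₂ b₃ = C (u ^ 2 - 4 * m) * X ^ 4 +
      C (2 * u * v - 4 * m * p - 4 * b₁) * X ^ 3 + C (v ^ 2 + 2 * u * b₂ - 4 * m * q - 4 * b₁ * p) * X ^ 2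
      + C (2 * v * b₂ - 4 * m * b₃ - 4 * b₁ * q) * X + C (b₂ ^ 2 - 4 * b₁ * b₃) := by
    simp only [dl, C_add, C_mul, C_pow, C_sub, show (C (2 : L)) = (2 : L[X]) from rfl,
      show (C (4 : L)) = (4 : L[X]) from rfl]
    ring
  have l2 : C κ * (X - C α) ^ 4 = C κ * X ^ 4 + C (-4 * κ * α) * X ^ 3 + C (6 * κ * α ^ 2) * X ^ 2
      + C (-4 * κ * α ^ 3) * X + C (κ * α ^ 4) := by
    simp only [C_mul, C_pow, C_neg, show (C (6 : L)) = (6 : L[X]) from rfl,
      show (C (4 : L)) = (4 : L[X]) from rfl]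
    ring
  rw [l1, l2] at h4
  simp only [coeff_add, coeff_C_mul, coeff_X_pow, coeff_X, coeff_C] at h4
  norm_num at h4
  exact h4.symm

theorem d_cone_c4 {R : Type v} [CommRing R] (A₂ A₄ A₆ U M θ ρ : R) (g2 : A₂ = U * θ - 3 * ρ)
    (g4 : A₄ = M * θ ^ 2 - 2 * (U * θ) * ρ + 3 * ρ ^ 2) :
    (⟨0, A₂, 0, A₄, A₆⟩ : WeierstrassCurve R).c₄ = 16 * (U ^ 2 - 3 * M) * θ ^ 2 := by
  simp only [WeierstrassCurve.c₄, WeierstrassCurve.b₂, WeierstrassCurve.b₄]
  rw [g2, g4]
  ring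

theorem d_cone_delta {R : Type v} [CommRing R] (A₂ A₄ A₆ U M θ ρ : R) (g2 : A₂ = U * θ - 3 * ρ)
    (g4 : A₄ = M * θ ^ 2 - 2 * (U * θ) * ρ + 3 * ρ ^ 2)
    (g6 : A₆ = -ρ ^ 3 + U * θ * ρ ^ 2 - M * θ ^ 2 * ρ) :
    (⟨0, A₂, 0, A₄, A₆⟩ : WeierstrassCurve R).Δ = 16 * (M ^ 2 * (U ^ 2 - 4 * M)) * θ ^ 6 := by
  simp only [WeierstrassCurve.Δ, WeierstrassCurve.b₂, WeierstrassCurve.b₄, WeierstrassCurve.b₆,
    WeierstrassCurve.b₈]
  rw [g2, g4, g6]
  ring

theorem d_cone_end {k : Type u} {L : Type v} [Field k] [Field L] [Algebra k L]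
    (hL : (2 : L) ≠ 0) (a₂ a₄ a₆ : k[X]) (hN : NonIso a₂ a₄ a₆) (u m : L) (hm : m ≠ 0)
    (hu : u ^ 2 - 4 * m ≠ 0) (θ ρ : L[X])
    (key : ∀ x : L[X], cub a₂ a₄ a₆ x (X : L[X]) =
      (x - ρ) ^ 3 + C u * θ * (x - ρ) ^ 2 + C m * θ ^ 2 * (x - ρ)) : False := by
  set A₂ := aeval (X : L[X]) a₂ with hA₂
  set A₄ := aeval (X : L[X]) a₄ with hA₄
  set A₆ := aeval (X : L[X]) a₆ with hA₆
  have k0 := key 0
  have k1 := key 1
  have k2 := key (-1)
  simp only [cub, ← hA₂, ← hA₄, ← hA₆] at k0 k1 k2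
  have two : (2 : L[X]) ≠ 0 := by
    intro h
    apply hL
    have := congrArg (eval 0) h
    simpa using this
  have g6 : A₆ = -ρ ^ 3 + C u * θ * ρ ^ 2 - C m * θ ^ 2 * ρ := by linear_combination k0
  have g2 : A₂ = C u * θ - 3 * ρ := by
    apply mul_left_cancel₀ two
    linear_combination k1 + k2 - 2 * k0
  have g4 : A₄ = C m * θ ^ 2 - 2 * (C u * θ) * ρ + 3 * ρ ^ 2 := by
    linear_combination k1 - k0 - g2
  refine d_cone_noniso a₂ a₄ a₆ hN (256 * (u ^ 2 - 3 * m) ^ 3 / (m ^ 2 * (u ^ 2 - 4 * m))) ?_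
  have hc4 : (crv a₂ a₄ a₆ (X : L[X])).c₄ = 16 * (C (u ^ 2 - 3 * m)) * θ ^ 2 := by
    have h := d_cone_c4 A₂ A₄ A₆ (C u) (C m) θ ρ g2 g4
    rw [C_sub, C_mul, C_pow, show (C (3 : L)) = (3 : L[X]) from rfl]
    exact h
  have hΔ : (crv a₂ a₄ a₆ (X : L[X])).Δ = 16 * C (m ^ 2 * (u ^ 2 - 4 * m)) * θ ^ 6 := by
    have h := d_cone_delta A₂ A₄ A₆ (C u) (C m) θ ρ g2 g4 g6
    rw [C_mul, C_sub, C_mul, C_pow, C_pow, show (C (4 : L)) = (4 : L[X]) from rfl]
    exact h
  rw [hc4, hΔ]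
  have hj : C (256 * (u ^ 2 - 3 * m) ^ 3 / (m ^ 2 * (u ^ 2 - 4 * m))) * C (m ^ 2 * (u ^ 2 - 4 * m)) =
      256 * (C (u ^ 2 - 3 * m) : L[X]) ^ 3 := by
    rw [← C_mul, div_mul_cancel₀ _ (mul_ne_zero (pow_ne_zero 2 hm) hu), C_mul, C_pow]
    rfl
  linear_combination (-16 * θ ^ 6) * hj

theorem d_cone {k : Type u} {L : Type v} [Field k] [Field L] [Algebra k L] [IsAlgClosed L]
    (hL : (2 : L) ≠ 0) (a₂ a₄ a₆ : k[X]) (hN : NonIso a₂ a₄ a₆)
    (r l m u p v q b₁ b₂ b₃ κ α lam ν : L)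
    (hloc : Loc a₂ a₄ a₆ r l m u p v q b₁ b₂ b₃) (hm : m ≠ 0) (hu : u ^ 2 - 4 * m ≠ 0)
    (hlam : cub a₂ a₄ a₆ (C lam * X + C ν) (X : L[X]) = 0) (hr : r = lam * l + ν)
    (h : dl m u p v q b₁ b₂ b₃ = C κ * (X - C α) ^ 4) : False := by
  have h0 : cl (C m) (C u) (C p) (C v) (C q) (C b₁) (C b₂) (C b₃) (C lam * X) (X : L[X]) = 0 := by
    rw [← hloc]
    have h1 := congrArg ((aeval (C l + X : L[X]) : L[X] →ₐ[L] L[X]).restrictScalars k) hlam
    rw [d_cone_cub_map, map_zero] at h1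
    rw [← h1]
    refine congrArg₂ (cub a₂ a₄ a₆) ?_ ?_
    · simp only [AlgHom.coe_restrictScalars', map_add, map_mul, aeval_X, aeval_C, hr]
      simp only [algebraMap_eq]
      ring
    · simp
  have hc := d_cone_coef (c₁ := b₁ + m * lam) (c₂ := b₂ + v * lam + u * lam ^ 2)
    (c₃ := b₃ + q * lam + p * lam ^ 2 + lam ^ 3) (by
      rw [← h0]
      simp only [cl, C_add, C_mul, C_pow]
      ring)
  obtain ⟨e₁, e₂, e₃⟩ := hc
  have hκ : κ = u ^ 2 - 4 * m := d_cone_kap h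
  have hα : lam = α := by
    have h5 := congrArg (eval lam) h
    simp only [dl, eval_mul, eval_sub, eval_add, eval_pow, eval_C, eval_X, eval_ofNat] at h5
    have h6 : κ * (lam - α) ^ 4 = 0 := by
      rw [← h5, show u * lam ^ 2 + v * lam + b₂ = 0 by linear_combination e₂,
        show m * lam + b₁ = 0 by linear_combination e₁]
      ring
    rcases mul_eq_zero.1 h6 with h7 | h7
    · exact absurd (hκ ▸ h7) hu
    · exact sub_eq_zero.1 (pow_eq_zero_iff (by norm_num) |>.1 h7)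
  subst hα
  obtain ⟨a, b, p', v', q', hcl, h1, h2, h3⟩ := d_four hL m u p v q b₁ b₂ b₃ κ lam h
  have hab := hcl 0 X
  rw [add_zero, h0] at hab
  have hc2 := d_cone_coef (c₁ := b ^ 2) (c₂ := 2 * a * b) (c₃ := a ^ 2) (by
      rw [hab]
      simp only [cl]
      ring)
  have hb : b = 0 := pow_eq_zero_iff (by norm_num) |>.1 hc2.1
  have ha : a = 0 := pow_eq_zero_iff (by norm_num) |>.1 hc2.2.2
  subst hb ha
  have hp' : p' = u * (v' / (2 * m)) := by
    field_simp
    linear_combination -h1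
  have hq' : q' = m * (v' / (2 * m)) ^ 2 := by
    field_simp
    linear_combination -h2
  set c := v' / (2 * m) with hcdef
  have hv' : v' = 2 * m * c := by
    rw [hcdef]; field_simp
  set s : L[X] := X - C l with hs
  set θ : L[X] := 1 + C c * s with hθ
  set ρ : L[X] := C r + C lam * s with hρ
  have key : ∀ x : L[X], cub a₂ a₄ a₆ x (X : L[X]) =
      (x - ρ) ^ 3 + C u * θ * (x - ρ) ^ 2 + C m * θ ^ 2 * (x - ρ) := by
    intro x
    have e1 : cub a₂ a₄ a₆ x (X : L[X]) = cub a₂ a₄ a₆ (C r + (C lam * s + (x - ρ))) (C l + s) := by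
      congr 1
      · rw [hρ]; ring
      · rw [hs]; ring
    rw [e1, hloc, hcl]
    simp only [cl, hθ, hp', hq', hv', C_mul, C_pow, show (C (2 : L)) = (2 : L[X]) from rfl, C_0]
    ring
  exact d_cone_end hL a₂ a₄ a₆ hN u m hm hu θ ρ key

end

end Pool.Agent.EFF

end

section


namespace Pool.Agent.EFF

open Polynomial

open scoped Classical

universe u v w

section

/-- a tangent line from a root of `dl` -/
theorem d_tan_half {k : Type u} {L : Type v} [Field k] [Field L] [Algebra k L] [IsAlgClosed L]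
    (hL : (2 : L) ≠ 0) (a₂ a₄ a₆ : k[X]) (r l m u p v q b₁ b₂ b₃ α : L)
    (hloc : Loc a₂ a₄ a₆ r l m u p v q b₁ b₂ b₃) (h : (dl m u p v q b₁ b₂ b₃).eval α = 0) :
    ∃ a b : L, cub a₂ a₄ a₆ (C r + C α * X) (C l + X) = X * (C a * X + C b) ^ 2 ∧
      b ^ 2 = b₁ + m * α := by
  have h1 : (b₂ + v * α + u * α ^ 2) ^ 2 =
      4 * (b₁ + m * α) * (b₃ + q * α + p * α ^ 2 + α ^ 3) := by
    simp only [dl, eval_mul, eval_sub, eval_add, eval_pow, eval_C, eval_X, eval_ofNat] at h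
    linear_combination h
  obtain ⟨a, b, h2, h3, h4⟩ := d_sq hL _ _ _ h1
  refine ⟨a, b, ?_, h4.symm⟩
  rw [hloc]
  have g2 := congrArg (C : L → L[X]) h2
  have g3 := congrArg (C : L → L[X]) h3
  have g4 := congrArg (C : L → L[X]) h4
  simp only [C_add, C_mul, C_pow] at g2 g3 g4
  rw [show (C (2 : L)) = (2 : L[X]) from rfl] at g3
  simp only [cl]
  linear_combination X * g4 + X ^ 2 * g3 + X ^ 3 * g2

theorem d_tan_deg {L : Type v} [Field L] (m u p v q b₁ b₂ b₃ : L) (hu : u ^ 2 - 4 * m ≠ 0) :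
    (dl m u p v q b₁ b₂ b₃).natDegree = 4 := by
  have l1 : dl m u p v q b₁ b₂ b₃ = C (u ^ 2 - 4 * m) * X ^ 4 +
      C (2 * u * v - 4 * m * p - 4 * b₁) * X ^ 3 +
      C (v ^ 2 + 2 * u * b₂ - 4 * m * q - 4 * b₁ * p) * X ^ 2
      + C (2 * v * b₂ - 4 * m * b₃ - 4 * b₁ * q) * X + C (b₂ ^ 2 - 4 * b₁ * b₃) := by
    simp only [dl, C_add, C_mul, C_pow, C_sub, show (C (2 : L)) = (2 : L[X]) from rfl,
      show (C (4 : L)) = (4 : L[X]) from rfl]
    ring
  rw [l1]
  compute_degree!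

theorem d_tan {k : Type u} {L : Type v} [Field k] [Field L] [Algebra k L] [IsAlgClosed L]
    (hL : (2 : L) ≠ 0) (a₂ a₄ a₆ : k[X]) (hD : Deg a₂ a₄ a₆) (hN : NonIso a₂ a₄ a₆) (l : L)
    (hl : Transcendental k l) :
    ∃ r α β a b a' b' : L, Tan a₂ a₄ a₆ r l α β a b a' b' := by
  have hΔ : (crv a₂ a₄ a₆ l).Δ ≠ 0 := by
    have h1 : crv a₂ a₄ a₆ l = (crv a₂ a₄ a₆ (X : k[X])).map (aeval l : k[X] →ₐ[k] L).toRingHom := by
      simp [crv, WeierstrassCurve.map]
    rw [h1, WeierstrassCurve.map_Δ]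
    intro h2
    exact hN.1 ((transcendental_iff.1 hl) _ h2)
  have main : ∃ r m u p v q b₁ b₂ b₃ : L, Loc a₂ a₄ a₆ r l m u p v q b₁ b₂ b₃ ∧ m ≠ 0 ∧
      u ^ 2 - 4 * m ≠ 0 ∧ ¬ ∃ κ α : L, dl m u p v q b₁ b₂ b₃ = C κ * (X - C α) ^ 4 := by
    by_cases hline : ∃ lam ν : L, cub a₂ a₄ a₆ (C lam * X + C ν) (X : L[X]) = 0
    · obtain ⟨lam, ν, hlam⟩ := hline
      have hr : cub a₂ a₄ a₆ (lam * l + ν) l = 0 := by
        have h1 := congrArg ((aeval l : L[X] →ₐ[L] L).restrictScalars k) hlam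
        simp only [cub, map_add, map_mul, map_pow, ← Polynomial.aeval_algHom_apply, map_zero,
          AlgHom.coe_restrictScalars', aeval_X, aeval_C] at h1
        exact h1
      obtain ⟨m, u, p, v, q, b₁, b₂, b₃, hloc, hm, hu⟩ := d_loc hL a₂ a₄ a₆ hD _ l hr hΔ
      refine ⟨_, m, u, p, v, q, b₁, b₂, b₃, hloc, hm, hu, ?_⟩
      rintro ⟨κ, α, h⟩
      exact d_cone hL a₂ a₄ a₆ hN _ l m u p v q b₁ b₂ b₃ κ α lam ν hloc hm hu hlam rfl h
    · obtain ⟨r, hr⟩ : ∃ r : L, cub a₂ a₄ a₆ r l = 0 := by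
        obtain ⟨r, hr⟩ := IsAlgClosed.exists_root
          (X ^ 3 + C (aeval l a₂) * X ^ 2 + C (aeval l a₄) * X + C (aeval l a₆) : L[X]) (by
            have : (X ^ 3 + C (aeval l a₂) * X ^ 2 + C (aeval l a₄) * X +
              C (aeval l a₆) : L[X]).degree = 3 := by compute_degree!
            rw [this]; norm_num)
        refine ⟨r, ?_⟩
        simpa [cub] using hr
      obtain ⟨m, u, p, v, q, b₁, b₂, b₃, hloc, hm, hu⟩ := d_loc hL a₂ a₄ a₆ hD r l hr hΔ
      refine ⟨r, m, u, p, v, q, b₁, b₂, b₃, hloc, hm, hu, ?_⟩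
      rintro ⟨κ, α, h⟩
      exact hline (d_line hL a₂ a₄ a₆ r l m u p v q b₁ b₂ b₃ κ α hloc hm h)
  obtain ⟨r, m, u, p, v, q, b₁, b₂, b₃, hloc, hm, hu, hno⟩ := main
  rcases d_quart _ (d_tan_deg m u p v q b₁ b₂ b₃ hu) with ⟨α, β, hne, hα, hβ⟩ | h4
  · obtain ⟨a, b, h1, h2⟩ := d_tan_half hL a₂ a₄ a₆ r l m u p v q b₁ b₂ b₃ α hloc hα
    obtain ⟨a', b', h3, h4⟩ := d_tan_half hL a₂ a₄ a₆ r l m u p v q b₁ b₂ b₃ β hloc hβ
    refine ⟨r, α, β, a, b, a', b', hne, h1, h3, ?_⟩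
    intro h5
    have h6 : m * (α - β) = 0 := by linear_combination h5 - h2 + h4
    rcases mul_eq_zero.1 h6 with h7 | h7
    · exact hm h7
    · exact hne (sub_eq_zero.1 h7)
  · exact absurd h4 hno

end

end Pool.Agent.EFF

end

section


namespace Pool.Agent.EFF

open Polynomial

open scoped Classical

universe u v w

section

theorem d_third {Φ : Type u} [Field Φ] (A₂ A₄ A₆ x₁ y₁ x₂ y₂ v x : Φ) (h12 : x₁ ≠ x₂)
    (h1 : y₁ ^ 2 = x₁ ^ 3 + A₂ * x₁ ^ 2 + A₄ * x₁ + A₆)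
    (h2 : y₂ ^ 2 = x₂ ^ 3 + A₂ * x₂ ^ 2 + A₄ * x₂ + A₆) (hv : v * (x₁ - x₂) = y₁ - y₂) :
    x ^ 3 + A₂ * x ^ 2 + A₄ * x + A₆ - (y₁ + v * (x - x₁)) ^ 2 =
      (x - x₁) * (x - x₂) * (x - (v ^ 2 - A₂ - x₁ - x₂)) := by
  have hy : y₂ = y₁ - v * (x₁ - x₂) := by linear_combination hv
  subst hy
  have h3 : x₁ - x₂ ≠ 0 := sub_ne_zero.2 h12
  apply mul_left_cancel₀ h3
  linear_combination (x₂ - x) * h1 + (x - x₁) * h2

end

end Pool.Agent.EFF

end

section


namespace Pool.Agent.EFF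

open Polynomial

open scoped Classical

universe u v w

section

theorem d_quad {Φ : Type u} [Field Φ] (h2 : (2 : Φ) ≠ 0) (A₂ r α β a b a' b' w ε Z c p : Φ)
    (hαβ : α ≠ β) (hw : w ≠ 0) (hA : A₂ = c + p * w ^ 2)
    (hZ : Z ^ 2 = (ε ^ 4 + 4 * (a - a') / (α - β) * ε ^ 3 + (4 * p + 6 * (α + β)) * ε ^ 2 +
        4 * (a + a') * ε + (α - β) ^ 2) * w ^ 2 +
      (4 * (b - b') / (α - β) * ε ^ 3 + (4 * c + 12 * r) * ε ^ 2 + 4 * (b + b') * ε)) :
    (xx r α β a b a' b' w ε Z - xi r α w) * (xx r α β a b a' b' w ε Z - xi r β w) =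
      2 * w * ε * (yi a b w + vo α β a b a' b' w * (xx r α β a b a' b' w ε Z - xi r α w)) +
        w ^ 2 * ε ^ 2 * (xx r α β a b a' b' w ε Z - xN A₂ r α β a b a' b' w) := by
  have h3 : α - β ≠ 0 := sub_ne_zero.2 hαβ
  subst hA
  have h4 : (w * Z) ^ 2 = w ^ 2 * ((ε ^ 4 + 4 * (a - a') / (α - β) * ε ^ 3 + (4 * p + 6 * (α + β)) * ε ^ 2 +
        4 * (a + a') * ε + (α - β) ^ 2) * w ^ 2 +
      (4 * (b - b') / (α - β) * ε ^ 3 + (4 * c + 12 * r) * ε ^ 2 + 4 * (b + b') * ε)) := by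
    rw [mul_pow, hZ]
  unfold xx xN vo yi xi
  generalize hWZ : w * Z = V at h4 ⊢
  have e : (4 : Φ) ≠ 0 := by
    have : (4 : Φ) = 2 * 2 := by norm_num
    rw [this]; exact mul_ne_zero h2 h2
  field_simp at h4 ⊢
  linear_combination (α - β) * h4

end

end Pool.Agent.EFF

end

section


namespace Pool.Agent.EFF

open Polynomial

open scoped Classical

universe u v w

section

theorem d_id {Φ : Type u} [Field Φ] (h2 : (2 : Φ) ≠ 0) (A₂ A₄ A₆ r α β a b a' b' w ε Z c p : Φ)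
    (hαβ : α ≠ β) (hw : w ≠ 0) (hA : A₂ = c + p * w ^ 2)
    (hi : yi a b w ^ 2 = xi r α w ^ 3 + A₂ * xi r α w ^ 2 + A₄ * xi r α w + A₆)
    (hj : yi a' b' w ^ 2 = xi r β w ^ 3 + A₂ * xi r β w ^ 2 + A₄ * xi r β w + A₆)
    (hZ : Z ^ 2 = (ε ^ 4 + 4 * (a - a') / (α - β) * ε ^ 3 + (4 * p + 6 * (α + β)) * ε ^ 2 +
        4 * (a + a') * ε + (α - β) ^ 2) * w ^ 2 +
      (4 * (b - b') / (α - β) * ε ^ 3 + (4 * c + 12 * r) * ε ^ 2 + 4 * (b + b') * ε)) :
    yy A₂ r α β a b a' b' w ε Z ^ 2 = xx r α β a b a' b' w ε Z ^ 3 +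
      A₂ * xx r α β a b a' b' w ε Z ^ 2 + A₄ * xx r α β a b a' b' w ε Z + A₆ := by
  have h3 : α - β ≠ 0 := sub_ne_zero.2 hαβ
  have hq := d_quad h2 A₂ r α β a b a' b' w ε Z c p hαβ hw hA hZ
  have h12 : xi r α w ≠ xi r β w := by
    unfold xi
    intro h
    have : (α - β) * w ^ 2 = 0 := by linear_combination h
    simp [h3, hw] at this
  have hv : vo α β a b a' b' w * (xi r α w - xi r β w) = yi a b w - yi a' b' w := by
    unfold vo xi yi
    field_simp
    ring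
  have ht := d_third A₂ A₄ A₆ _ _ _ _ (vo α β a b a' b' w) (xx r α β a b a' b' w ε Z) h12 hi hj hv
  unfold yy
  rw [← xN] at ht
  linear_combination -ht - (xx r α β a b a' b' w ε Z - xN A₂ r α β a b a' b' w) * hq

end

end Pool.Agent.EFF

end

section


namespace Pool.Agent.EFF

open Polynomial

open scoped Classical

universe u v w

section

theorem d_conic {L : Type u} {Φ : Type u} [Field L] [Field Φ] [Algebra L Φ] [IsAlgClosed L]
    (hL : (2 : L) ≠ 0) (A B : L[X]) (hA : A ≠ 0) (ε : Φ) (hε : Transcendental L ε) :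
    ∃ z₀ w₀ : Φ, z₀ ∈ IntermediateField.adjoin L ({ε} : Set Φ) ∧
      w₀ ∈ IntermediateField.adjoin L ({ε} : Set Φ) ∧
      z₀ ^ 2 = aeval ε A * w₀ ^ 2 + aeval ε B := by
  have hmem : ε ∈ IntermediateField.adjoin L ({ε} : Set Φ) :=
    IntermediateField.mem_adjoin_simple_self L ε
  have htr : Algebra.trdeg L (IntermediateField.adjoin L ({ε} : Set Φ)) ≤ 1 :=
    Pool.Agent.TBR.T.trdeg_adjoin _ ε hmem fun x hx =>
      isAlgebraic_algebraMap (⟨x, hx⟩ : IntermediateField.adjoin L ({ε} : Set Φ))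
  have hC : Pool.Agent.TBR.T.C1 (IntermediateField.adjoin L ({ε} : Set Φ)) :=
    Pool.Agent.TBR.T.c1_of_trdeg (A := L) htr
  -- the values of the polynomials at `ε` are in the subfield
  have hval : ∀ P : L[X], ∃ a : IntermediateField.adjoin L ({ε} : Set Φ), (a : Φ) = aeval ε P := by
    intro P
    refine ⟨aeval (⟨ε, hmem⟩ : IntermediateField.adjoin L ({ε} : Set Φ)) P, ?_⟩
    have h := Polynomial.aeval_algHom_apply (IntermediateField.adjoin L ({ε} : Set Φ)).val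
      (⟨ε, hmem⟩ : IntermediateField.adjoin L ({ε} : Set Φ)) P
    exact h.symm
  obtain ⟨a, ha⟩ := hval A
  obtain ⟨b, hb⟩ := hval B
  have ha0 : a ≠ 0 := by
    rintro rfl
    have h0 : aeval ε A = 0 := ha.symm
    exact hA ((transcendental_iff.1 hε) A h0)
  -- it is enough to solve the equation in the subfield
  suffices h : ∃ z w : IntermediateField.adjoin L ({ε} : Set Φ), z ^ 2 = a * w ^ 2 + b by
    obtain ⟨z, w, h⟩ := h
    refine ⟨z, w, z.2, w.2, ?_⟩
    rw [← ha, ← hb]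
    exact_mod_cast congrArg (Subtype.val) h
  have h20 : (2 : IntermediateField.adjoin L ({ε} : Set Φ)) ≠ 0 := by
    intro h
    apply hL
    apply (algebraMap L (IntermediateField.adjoin L ({ε} : Set Φ))).injective
    rw [map_zero, map_ofNat]
    exact h
  obtain ⟨x, hx0, hx⟩ := hC (Fin 3) 2
    (MvPolynomial.X 0 ^ 2 - MvPolynomial.C a * MvPolynomial.X 1 ^ 2 -
      MvPolynomial.C b * MvPolynomial.X 2 ^ 2) (by
        have h1 : ∀ (i : Fin 3) (e : IntermediateField.adjoin L ({ε} : Set Φ)),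
            (MvPolynomial.C e * MvPolynomial.X i ^ 2 :
              MvPolynomial (Fin 3) (IntermediateField.adjoin L ({ε} : Set Φ))).IsHomogeneous 2 := by
          intro i e
          have h2 := (MvPolynomial.isHomogeneous_C (Fin 3) e).mul
            ((MvPolynomial.isHomogeneous_X (IntermediateField.adjoin L ({ε} : Set Φ)) i).pow 2)
          simpa using h2
        have h3 : (MvPolynomial.X 0 ^ 2 :
              MvPolynomial (Fin 3) (IntermediateField.adjoin L ({ε} : Set Φ))).IsHomogeneous 2 := by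
          have h4 := (MvPolynomial.isHomogeneous_X
            (IntermediateField.adjoin L ({ε} : Set Φ)) (0 : Fin 3)).pow 2
          simpa using h4
        exact (h3.sub (h1 1 a)).sub (h1 2 b)) (by norm_num) (by simp)
  simp only [map_sub, map_mul, map_pow, MvPolynomial.eval_X, MvPolynomial.eval_C] at hx
  by_cases h2 : x 2 = 0
  · rw [h2] at hx
    have hx1 : x 1 ≠ 0 := by
      intro h1
      rw [h1] at hx
      have h0 : x 0 = 0 := by
        have : x 0 ^ 2 = 0 := by linear_combination hx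
        exact pow_eq_zero_iff (two_ne_zero) |>.1 this
      apply hx0
      funext i
      fin_cases i
      · exact h0
      · exact h1
      · exact h2
    have hah : a = (x 0 / x 1) ^ 2 := by
      rw [div_pow, eq_div_iff (pow_ne_zero 2 hx1)]
      linear_combination -hx
    have hh : x 0 / x 1 ≠ 0 := by
      intro h
      apply ha0
      rw [hah, h]
      ring
    generalize x 0 / x 1 = h at hah hh
    refine ⟨(b + 1) / 2, (b - 1) / (2 * h), ?_⟩
    rw [hah]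
    field_simp
    ring
  · refine ⟨x 0 / x 2, x 1 / x 2, ?_⟩
    field_simp
    linear_combination hx

end

end Pool.Agent.EFF

end

section


namespace Pool.Agent.EFF

open Polynomial

open scoped Classical

universe u v w

section

private theorem d_ew_quad {K : Type u} {Φ : Type v} [Field K] [Field Φ] [Algebra K Φ]
    (a b c x : Φ) (ha : IsAlgebraic K a) (hb : IsAlgebraic K b) (hc : IsAlgebraic K c)
    (h : a * x ^ 2 + b * x + c = 0) (hne : a ≠ 0 ∨ b ≠ 0 ∨ c ≠ 0) : IsAlgebraic K x := by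
  have h1 : IsAlgebraic (algebraicClosure K Φ) x := by
    refine ⟨C (⟨a, mem_algebraicClosure_iff.2 ha⟩ : algebraicClosure K Φ) * X ^ 2 +
      C (⟨b, mem_algebraicClosure_iff.2 hb⟩ : algebraicClosure K Φ) * X +
      C (⟨c, mem_algebraicClosure_iff.2 hc⟩ : algebraicClosure K Φ), ?_, ?_⟩
    · intro h0
      have h2 := congrArg (fun p : (algebraicClosure K Φ)[X] => p.coeff 2) h0
      have h3 := congrArg (fun p : (algebraicClosure K Φ)[X] => p.coeff 1) h0
      have h4 := congrArg (fun p : (algebraicClosure K Φ)[X] => p.coeff 0) h0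
      simp [coeff_X, coeff_C] at h2 h3 h4
      have h2' : a = 0 := congrArg Subtype.val h2
      have h3' : b = 0 := congrArg Subtype.val h3
      have h4' : c = 0 := congrArg Subtype.val h4
      rcases hne with h5 | h5 | h5
      · exact h5 h2'
      · exact h5 h3'
      · exact h5 h4'
    · simp only [map_add, map_mul, map_pow, aeval_C, aeval_X]
      exact h
  exact h1.restrictScalars K

open scoped IntermediateField.algebraAdjoinAdjoin in
private theorem d_ew_iff {L : Type u} {Φ : Type v} [Field L] [Field Φ] [Algebra L Φ] (ε x : Φ) :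
    AlgebraicIndependent L ![ε, x] ↔ Transcendental L ε ∧
      Transcendental (IntermediateField.adjoin L ({ε} : Set Φ)) x := by
  have hfr : Transcendental (Algebra.adjoin L ({ε} : Set Φ)) x ↔
      Transcendental (IntermediateField.adjoin L ({ε} : Set Φ)) x :=
    not_congr (IsFractionRing.isAlgebraic_iff _ _ _)
  constructor
  · intro h
    refine ⟨h.transcendental 0, ?_⟩
    rw [← hfr]
    have h1 := h.transcendental_adjoin (s := {0}) (i := 1) (by simp)
    rw [Set.image_singleton] at h1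
    exact h1
  · rintro ⟨h1, h2⟩
    rw [← hfr] at h2
    have h3 : AlgebraicIndependent L ![ε] := algebraicIndependent_iff_transcendental.2 h1
    have hr : Set.range ![ε] = {ε} := by simp
    have h4 := (h3.option_iff_transcendental x).2 (by rw [hr]; exact h2)
    have h5 := h4.comp ![some 0, none] (by
      intro i j hij
      fin_cases i <;> fin_cases j <;> simp_all)
    have h6 : ((fun o : Option (Fin 1) => o.elim x ![ε]) ∘ ![some 0, none]) = ![ε, x] := by
      funext i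
      fin_cases i <;> rfl
    rw [h6] at h5
    exact h5

theorem d_ew {L : Type u} {Φ : Type v} [Field L] [Field Φ] [Algebra L Φ] (hL : (2 : L) ≠ 0)
    (A B : L[X]) (hA : A ≠ 0) (hB : B ≠ 0) (ε μ : Φ) (h : AlgebraicIndependent L ![ε, μ])
    (z₀ w₀ : Φ) (hz : z₀ ∈ IntermediateField.adjoin L ({ε} : Set Φ))
    (hw : w₀ ∈ IntermediateField.adjoin L ({ε} : Set Φ))
    (hc : z₀ ^ 2 = aeval ε A * w₀ ^ 2 + aeval ε B) :
    ∃ w Z : Φ, AlgebraicIndependent L ![ε, w] ∧ Z ^ 2 = aeval ε A * w ^ 2 + aeval ε B := by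
  obtain ⟨hε, hμ⟩ := (d_ew_iff ε μ).1 h
  have hA' : aeval ε A ≠ 0 := fun h0 => hε ⟨A, hA, h0⟩
  have hB' : aeval ε B ≠ 0 := fun h0 => hε ⟨B, hB, h0⟩
  have h2 : (2 : Φ) ≠ 0 := by
    have h3 : algebraMap L Φ 2 ≠ 0 := (_root_.map_ne_zero _).2 hL
    rwa [map_ofNat] at h3
  have hmem : ∀ P : L[X], aeval ε P ∈ IntermediateField.adjoin L ({ε} : Set Φ) := by
    intro P
    exact (IntermediateField.algebra_adjoin_le_adjoin L ({ε} : Set Φ))
      (by rw [Algebra.adjoin_singleton_eq_range_aeval]; exact ⟨P, rfl⟩)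
  have halg : ∀ y : Φ, y ∈ IntermediateField.adjoin L ({ε} : Set Φ) →
      IsAlgebraic (IntermediateField.adjoin L ({ε} : Set Φ)) y := fun y hy =>
    isAlgebraic_algebraMap (⟨y, hy⟩ : IntermediateField.adjoin L ({ε} : Set Φ))
  have hμA : μ ^ 2 - aeval ε A ≠ 0 := by
    intro h0
    refine hμ (d_ew_quad 1 0 (-aeval ε A) μ isAlgebraic_one isAlgebraic_zero
      (halg _ (hmem A)).neg ?_ (Or.inl one_ne_zero))
    linear_combination h0
  set a := aeval ε A with ha
  set b := aeval ε B with hb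
  obtain ⟨d, hd⟩ : ∃ d : Φ, d * (μ ^ 2 - a) = 2 * a * w₀ - 2 * z₀ * μ :=
    ⟨(2 * a * w₀ - 2 * z₀ * μ) / (μ ^ 2 - a), div_mul_cancel₀ _ hμA⟩
  refine ⟨w₀ + d, z₀ + μ * d, ?_, ?_⟩
  · rw [d_ew_iff]
    refine ⟨hε, fun hwalg => ?_⟩
    have hd' : IsAlgebraic (IntermediateField.adjoin L ({ε} : Set Φ)) d := by
      have h3 := hwalg.sub (halg _ hw)
      rwa [add_sub_cancel_left] at h3
    have hac : IsAlgebraic (IntermediateField.adjoin L ({ε} : Set Φ)) (-(d * a + 2 * a * w₀)) := by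
      have q1 := halg _ (hmem A)
      have q2 : (2 : Φ) ∈ IntermediateField.adjoin L ({ε} : Set Φ) := by
        have := (IntermediateField.adjoin L ({ε} : Set Φ)).algebraMap_mem (2 : L)
        rwa [map_ofNat] at this
      exact ((hd'.mul q1).add (((halg _ q2).mul q1).mul (halg _ hw))).neg
    have hbc : IsAlgebraic (IntermediateField.adjoin L ({ε} : Set Φ)) (2 * z₀) := by
      have q2 : (2 : Φ) ∈ IntermediateField.adjoin L ({ε} : Set Φ) := by
        have := (IntermediateField.adjoin L ({ε} : Set Φ)).algebraMap_mem (2 : L)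
        rwa [map_ofNat] at this
      exact (halg _ q2).mul (halg _ hz)
    refine hμ (d_ew_quad d (2 * z₀) (-(d * a + 2 * a * w₀)) μ hd' hbc hac ?_ ?_)
    · linear_combination hd
    · by_contra hcon
      push Not at hcon
      obtain ⟨h3, h4, h5⟩ := hcon
      have h6 : z₀ = 0 := (mul_eq_zero.1 h4).resolve_left h2
      have h7 : w₀ = 0 := by
        rw [h3] at h5
        have h8 : 2 * a * w₀ = 0 := by linear_combination -h5
        exact (mul_eq_zero.1 h8).resolve_left (mul_ne_zero h2 hA')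
      rw [h6, h7] at hc
      apply hB'
      linear_combination -hc
  · linear_combination hc + d * hd

end

end Pool.Agent.EFF

end

section


namespace Pool.Agent.EFF

open Polynomial

open scoped Classical

universe u v w

section

private theorem d_xw_iff {L : Type v} {Φ : Type w} [Field L] [Field Φ] [Algebra L Φ] (x w : Φ) :
    AlgebraicIndependent L ![x, w] ↔ Transcendental L w ∧
      Transcendental (IntermediateField.adjoin L ({w} : Set Φ)) x := by
  rw [AlgebraicIndependent.iff_transcendental_adjoin_image (0 : Fin 2),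
    IntermediateField.transcendental_adjoin_iff]
  have e : (![x, w] : Fin 2 → Φ) '' {0}ᶜ = {w} := by
    ext z
    simp only [Set.mem_image, Set.mem_compl_iff, Set.mem_singleton_iff]
    constructor
    · rintro ⟨i, hi, rfl⟩
      have hi1 : i = 1 := Fin.eq_one_of_ne_zero i hi
      rw [hi1]
      rfl
    · rintro rfl
      exact ⟨1, by decide, rfl⟩
  rw [e]
  have hs : Subsingleton {j : Fin 2 // j ≠ 0} := ⟨fun a b => by
    have ha := a.2
    have hb := b.2
    apply Subtype.ext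
    omega⟩
  rw [algebraicIndependent_singleton_iff (⟨1, by decide⟩ : {j : Fin 2 // j ≠ 0})]
  rfl

private theorem d_xw_dbl {Φ : Type u} [Field Φ] (h2 : (2 : Φ) ≠ 0) (A₂ A₄ A₆ e f : Φ)
    (h : ∀ x : Φ, x ^ 3 + A₂ * x ^ 2 + A₄ * x + A₆ = (x - e) ^ 2 * (x - f)) :
    (⟨0, A₂, 0, A₄, A₆⟩ : WeierstrassCurve Φ).Δ = 0 := by
  have h0 := h 0
  have h1 := h 1
  have hm := h (-1)
  have h6 : A₆ = - e ^ 2 * f := by linear_combination h0
  have hA2 : A₂ = - (2 * e + f) := by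
    apply mul_left_cancel₀ h2
    linear_combination h1 + hm - 2 * h6
  have hA4 : A₄ = e ^ 2 + 2 * e * f := by
    linear_combination h1 - h6 - hA2
  subst h6 hA2 hA4
  simp only [WeierstrassCurve.Δ, WeierstrassCurve.b₂, WeierstrassCurve.b₄, WeierstrassCurve.b₆,
    WeierstrassCurve.b₈]
  ring

private theorem d_xw_map {k : Type u} {R : Type v} {R' : Type w} [CommRing k] [CommRing R]
    [CommRing R'] [Algebra k R] [Algebra k R'] (a₂ a₄ a₆ : k[X]) (f : R →ₐ[k] R') (x t : R) :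
    f (cub a₂ a₄ a₆ x t) = cub a₂ a₄ a₆ (f x) (f t) := by
  unfold cub
  simp only [map_add, map_mul, map_pow, Polynomial.aeval_algHom_apply]

/-- the section on a line which touches the curve -/
private theorem d_xw_sec {k : Type u} {L : Type v} {Φ : Type w} [Field k] [Field L] [Field Φ]
    [Algebra k L] [Algebra L Φ] [Algebra k Φ] [IsScalarTower k L Φ] (a₂ a₄ a₆ : k[X])
    (r l α a b : L)
    (h : cub a₂ a₄ a₆ (C r + C α * X) (C l + X) = X * (C a * X + C b) ^ 2) (w : Φ) :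
    yi (algebraMap L Φ a) (algebraMap L Φ b) w ^ 2 =
      xi (algebraMap L Φ r) (algebraMap L Φ α) w ^ 3 +
        aeval (w ^ 2 + algebraMap L Φ l) a₂ * xi (algebraMap L Φ r) (algebraMap L Φ α) w ^ 2 +
        aeval (w ^ 2 + algebraMap L Φ l) a₄ * xi (algebraMap L Φ r) (algebraMap L Φ α) w +
        aeval (w ^ 2 + algebraMap L Φ l) a₆ := by
  have h1 := congrArg ((aeval (w ^ 2) : L[X] →ₐ[L] Φ).restrictScalars k) h
  rw [d_xw_map] at h1
  simp only [AlgHom.restrictScalars_apply, map_add, map_mul, map_pow, aeval_C, aeval_X] at h1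
  unfold cub at h1
  rw [add_comm (algebraMap L Φ l)] at h1
  unfold xi yi
  rw [h1]
  ring

/-- values of polynomials over the small field -/
private theorem d_xw_mem {k : Type u} {L : Type v} {Φ : Type w} [Field k] [Field L] [Field Φ]
    [Algebra k L] [Algebra L Φ] [Algebra k Φ] [IsScalarTower k L Φ] (K : Subfield Φ)
    (hK : ∀ c : L, algebraMap L Φ c ∈ K) (T : Φ) (hT : T ∈ K) (f : k[X]) : aeval T f ∈ K := by
  rw [Polynomial.aeval_eq_sum_range]
  refine Subfield.sum_mem _ fun i _ => ?_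
  rw [Algebra.smul_def, IsScalarTower.algebraMap_apply k L Φ]
  exact K.mul_mem (hK _) (K.pow_mem hT _)

private theorem d_xw_ne {k : Type u} {L : Type v} {Φ : Type w} [Field k] [Field L] [Field Φ]
    [Algebra k L] [Algebra L Φ] [Algebra k Φ] [IsScalarTower k L Φ] (a₂ a₄ a₆ : k[X])
    (hN : (crv a₂ a₄ a₆ (X : k[X])).Δ ≠ 0) (l : L) (w : Φ) (hw : Transcendental L w) :
    (⟨0, aeval (w ^ 2 + algebraMap L Φ l) a₂, 0, aeval (w ^ 2 + algebraMap L Φ l) a₄,
      aeval (w ^ 2 + algebraMap L Φ l) a₆⟩ : WeierstrassCurve Φ).Δ ≠ 0 := by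
  set T : Φ := w ^ 2 + algebraMap L Φ l with hT
  have hTt : Transcendental k T := by
    intro hTa
    have h1 : IsAlgebraic L T := hTa.tower_top L
    have h2 : IsAlgebraic L (w ^ 2) := by
      have h3 : w ^ 2 = T - algebraMap L Φ l := by rw [hT]; ring
      rw [h3]
      exact h1.sub (isAlgebraic_algebraMap l)
    exact hw (h2.of_pow (by norm_num))
  have h1 : (⟨0, aeval T a₂, 0, aeval T a₄, aeval T a₆⟩ : WeierstrassCurve Φ) =
      (crv a₂ a₄ a₆ (X : k[X])).map (aeval T : k[X] →ₐ[k] Φ).toRingHom := by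
    unfold crv
    simp [WeierstrassCurve.map]
  rw [h1, WeierstrassCurve.map_Δ]
  intro h2
  exact hN (transcendental_iff.1 hTt _ h2)

/-- the algebraic step -/
private theorem d_xw_alg {Φ : Type w} [Field Φ] (K : Subfield Φ) (h2 : (2 : Φ) ≠ 0)
    (A₂ A₄ A₆ r α β a b a' b' w ε Z c p : Φ)
    (hA₂ : A₂ ∈ K) (hA₄ : A₄ ∈ K) (hA₆ : A₆ ∈ K) (hr : r ∈ K) (hα : α ∈ K) (hβ : β ∈ K)
    (ha : a ∈ K) (hb : b ∈ K) (ha' : a' ∈ K) (hb' : b' ∈ K) (hwK : w ∈ K) (hε : ε ∉ K)
    (hsq : ∀ z : Φ, z ^ 2 ∈ K → z ∈ K)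
    (hD : (⟨0, A₂, 0, A₄, A₆⟩ : WeierstrassCurve Φ).Δ ≠ 0)
    (hαβ : α ≠ β) (hw : w ≠ 0) (hA : A₂ = c + p * w ^ 2)
    (hi : yi a b w ^ 2 = xi r α w ^ 3 + A₂ * xi r α w ^ 2 + A₄ * xi r α w + A₆)
    (hj : yi a' b' w ^ 2 = xi r β w ^ 3 + A₂ * xi r β w ^ 2 + A₄ * xi r β w + A₆)
    (hZ : Z ^ 2 = (ε ^ 4 + 4 * (a - a') / (α - β) * ε ^ 3 + (4 * p + 6 * (α + β)) * ε ^ 2 +
        4 * (a + a') * ε + (α - β) ^ 2) * w ^ 2 +
      (4 * (b - b') / (α - β) * ε ^ 3 + (4 * c + 12 * r) * ε ^ 2 + 4 * (b + b') * ε)) :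
    xx r α β a b a' b' w ε Z ∉ K := by
  intro hx
  have hid := d_id h2 A₂ A₄ A₆ r α β a b a' b' w ε Z c p hαβ hw hA hi hj hZ
  have hqd := d_quad h2 A₂ r α β a b a' b' w ε Z c p hαβ hw hA hZ
  have hY0 : yy A₂ r α β a b a' b' w ε Z =
      yi a b w + vo α β a b a' b' w * (xx r α β a b a' b' w ε Z - xi r α w) +
      w * ε * (xx r α β a b a' b' w ε Z - xN A₂ r α β a b a' b' w) := rfl
  generalize xx r α β a b a' b' w ε Z = x at hx hid hqd hY0
  generalize yy A₂ r α β a b a' b' w ε Z = y at hid hY0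
  have h2K : (2 : Φ) ∈ K := by
    have := K.add_mem K.one_mem K.one_mem
    rwa [one_add_one_eq_two] at this
  have hx1 : xi r α w ∈ K := K.add_mem hr (K.mul_mem hα (K.pow_mem hwK _))
  have hx2 : xi r β w ∈ K := K.add_mem hr (K.mul_mem hβ (K.pow_mem hwK _))
  have hy1 : yi a b w ∈ K := K.mul_mem hwK (K.add_mem (K.mul_mem ha (K.pow_mem hwK _)) hb)
  have hv : vo α β a b a' b' w ∈ K :=
    K.div_mem (K.add_mem (K.mul_mem (K.sub_mem ha ha') (K.pow_mem hwK _)) (K.sub_mem hb hb'))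
      (K.mul_mem hwK (K.sub_mem hα hβ))
  have hNK : xN A₂ r α β a b a' b' w ∈ K :=
    K.sub_mem (K.sub_mem (K.sub_mem (K.pow_mem hv _) hA₂) hx1) hx2
  have hyK : y ∈ K := by
    apply hsq
    rw [hid]
    exact K.add_mem (K.add_mem (K.add_mem (K.pow_mem hx _) (K.mul_mem hA₂ (K.pow_mem hx _)))
      (K.mul_mem hA₄ hx)) hA₆
  have hvv : vo α β a b a' b' w * (xi r α w - xi r β w) = yi a b w - yi a' b' w := by
    have h3 : α - β ≠ 0 := sub_ne_zero.2 hαβ
    unfold vo xi yi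
    field_simp
    ring
  have h12 : xi r α w ≠ xi r β w := by
    unfold xi
    intro h3
    apply hαβ
    have h4 : (α - β) * w ^ 2 = 0 := by linear_combination h3
    rcases mul_eq_zero.1 h4 with h5 | h5
    · exact sub_eq_zero.1 h5
    · exact absurd (pow_eq_zero_iff (by norm_num) |>.1 h5) hw
  have hthird := fun X : Φ => d_third A₂ A₄ A₆ (xi r α w) (yi a b w) (xi r β w) (yi a' b' w)
    (vo α β a b a' b' w) X h12 hi hj hvv
  have hNdef : xN A₂ r α β a b a' b' w =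
    vo α β a b a' b' w ^ 2 - A₂ - xi r α w - xi r β w := rfl
  rw [← hNdef] at hthird
  generalize xN A₂ r α β a b a' b' w = N at hNK hY0 hqd hthird
  generalize vo α β a b a' b' w = v at hv hY0 hqd hthird hvv
  generalize yi a b w = y1 at hy1 hY0 hqd hthird hvv
  generalize yi a' b' w = y2 at hvv
  generalize xi r α w = x1 at hx1 hY0 hqd hthird h12 hvv
  generalize xi r β w = x2 at hx2 hqd hthird h12 hvv
  by_cases hxN : x = N
  · rw [hxN] at hqd
    have hYN : y1 + v * (N - x1) = 0 := by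
      by_contra hne
      apply hε
      have h3 : ε = ((N - x1) * (N - x2)) / (2 * w * (y1 + v * (N - x1))) := by
        rw [eq_div_iff (mul_ne_zero (mul_ne_zero h2 hw) hne), hqd]
        ring
      rw [h3]
      exact K.div_mem (K.mul_mem (K.sub_mem hNK hx1) (K.sub_mem hNK hx2))
        (K.mul_mem (K.mul_mem h2K hwK) (K.add_mem hy1 (K.mul_mem hv (K.sub_mem hNK hx1))))
    have h4 : (N - x1) * (N - x2) = 0 := by
      rw [hqd, hYN]
      ring
    apply hD
    rcases mul_eq_zero.1 h4 with h5 | h5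
    · have h6 : N = x1 := sub_eq_zero.1 h5
      have h7 : y1 = 0 := by rw [h6] at hYN; simpa using hYN
      apply d_xw_dbl h2 A₂ A₄ A₆ x1 (x2 - v ^ 2)
      intro X
      have h8 := hthird X
      rw [h6, h7] at h8
      linear_combination h8
    · have h6 : N = x2 := sub_eq_zero.1 h5
      have h7 : y1 = - (v * (x2 - x1)) := by rw [h6] at hYN; linear_combination hYN
      apply d_xw_dbl h2 A₂ A₄ A₆ x2 (x1 - v ^ 2)
      intro X
      have h8 := hthird X
      rw [h6, h7] at h8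
      linear_combination h8
  · apply hε
    have h3 : ε = (y - (y1 + v * (x - x1))) / (w * (x - N)) := by
      rw [eq_div_iff (mul_ne_zero hw (sub_ne_zero.2 hxN)), hY0]
      ring
    rw [h3]
    exact K.div_mem (K.sub_mem hyK (K.add_mem hy1 (K.mul_mem hv (K.sub_mem hx hx1))))
      (K.mul_mem hwK (K.sub_mem hx hNK))

theorem d_xw {k : Type u} {L : Type v} {Φ : Type w} [Field k] [Field L] [Field Φ] [Algebra k L]
    [Algebra L Φ] [Algebra k Φ] [IsScalarTower k L Φ] (hL : (2 : L) ≠ 0) (a₂ a₄ a₆ : k[X])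
    (hD : Deg a₂ a₄ a₆) (hN : NonIso a₂ a₄ a₆) (l r α β a b a' b' : L)
    (hT : Tan a₂ a₄ a₆ r l α β a b a' b') (ε w Z : Φ) (hew : AlgebraicIndependent L ![ε, w])
    (hZ : Z ^ 2 = aeval ε (QA (algebraMap k L (a₂.coeff 1)) α β a a') * w ^ 2 +
      aeval ε (QB (aeval l a₂) r α β b b')) :
    ∃ x y : Φ, AlgebraicIndependent L ![x, w] ∧
      y ^ 2 = cub a₂ a₄ a₆ x (w ^ 2 + algebraMap L Φ l) := by
  have hw := ((d_xw_iff ε w).1 hew).1
  have hε := ((d_xw_iff ε w).1 hew).2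
  have h2 : (2 : Φ) ≠ 0 := by
    intro h
    apply hL
    apply (algebraMap L Φ).injective
    rw [map_ofNat, map_zero]
    exact h
  have hw0 : w ≠ 0 := by
    rintro rfl
    exact hw (isAlgebraic_zero)
  have hinj := (algebraMap L Φ).injective
  have hαβ : algebraMap L Φ α ≠ algebraMap L Φ β := fun h => hT.ne (hinj h)
  have hi := d_xw_sec a₂ a₄ a₆ r l α a b hT.hi w
  have hj := d_xw_sec a₂ a₄ a₆ r l β a' b' hT.hj w
  have hΔ := d_xw_ne a₂ a₄ a₆ hN.1 l w hw
  have hA : aeval (w ^ 2 + algebraMap L Φ l) a₂ = algebraMap L Φ (aeval l a₂) +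
      algebraMap L Φ (algebraMap k L (a₂.coeff 1)) * w ^ 2 := by
    have h3 := Polynomial.eq_X_add_C_of_natDegree_le_one hD.1
    have h4 : aeval (w ^ 2 + algebraMap L Φ l) a₂ =
        algebraMap L Φ (algebraMap k L (a₂.coeff 1)) * (w ^ 2 + algebraMap L Φ l) +
          algebraMap L Φ (algebraMap k L (a₂.coeff 0)) := by
      conv_lhs => rw [h3]
      simp only [map_add, map_mul, aeval_C, aeval_X, IsScalarTower.algebraMap_apply k L Φ]
    have h5 : algebraMap L Φ (aeval l a₂) =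
        algebraMap L Φ (algebraMap k L (a₂.coeff 1)) * algebraMap L Φ l +
          algebraMap L Φ (algebraMap k L (a₂.coeff 0)) := by
      conv_lhs => rw [h3]
      simp only [map_add, map_mul, aeval_C, aeval_X]
    rw [h4, h5]
    ring
  have hZ' : Z ^ 2 = (ε ^ 4 + 4 * (algebraMap L Φ a - algebraMap L Φ a') /
        (algebraMap L Φ α - algebraMap L Φ β) * ε ^ 3 +
        (4 * algebraMap L Φ (algebraMap k L (a₂.coeff 1)) +
          6 * (algebraMap L Φ α + algebraMap L Φ β)) * ε ^ 2 +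
        4 * (algebraMap L Φ a + algebraMap L Φ a') * ε +
          (algebraMap L Φ α - algebraMap L Φ β) ^ 2) * w ^ 2 +
      (4 * (algebraMap L Φ b - algebraMap L Φ b') /
        (algebraMap L Φ α - algebraMap L Φ β) * ε ^ 3 +
        (4 * algebraMap L Φ (aeval l a₂) + 12 * algebraMap L Φ r) * ε ^ 2 +
        4 * (algebraMap L Φ b + algebraMap L Φ b') * ε) := by
    rw [hZ]
    unfold QA QB
    simp only [map_add, map_mul, map_pow, map_div₀, map_sub, aeval_C, aeval_X, map_ofNat]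
  have hid := d_id h2 _ _ _ _ _ _ _ _ _ _ _ _ _ _ _ hαβ hw0 hA hi hj hZ'
  refine ⟨_, _, ?_, hid⟩
  rw [d_xw_iff]
  refine ⟨hw, ?_⟩
  intro hx
  set E := IntermediateField.adjoin L ({w} : Set Φ) with hE
  have hmem : ∀ z : Φ, z ∈ (algebraicClosure E Φ).toSubfield ↔ IsAlgebraic E z :=
    fun z => mem_algebraicClosure_iff
  have hc : ∀ c : L, algebraMap L Φ c ∈ (algebraicClosure E Φ).toSubfield := fun c => by
    rw [hmem]
    exact isAlgebraic_algebraMap (⟨algebraMap L Φ c, E.algebraMap_mem c⟩ : E)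
  have hwK : w ∈ (algebraicClosure E Φ).toSubfield := by
    rw [hmem]
    exact isAlgebraic_algebraMap (⟨w, IntermediateField.mem_adjoin_simple_self L w⟩ : E)
  have hTK : w ^ 2 + algebraMap L Φ l ∈ (algebraicClosure E Φ).toSubfield :=
    Subfield.add_mem _ (Subfield.pow_mem _ hwK 2) (hc l)
  have hpm := fun f : k[X] => d_xw_mem (algebraicClosure E Φ).toSubfield hc _ hTK f
  refine d_xw_alg (algebraicClosure E Φ).toSubfield h2 _ _ _ _ _ _ _ _ _ _ _ _ _ _ _
    (hpm a₂) (hpm a₄) (hpm a₆) (hc r) (hc α) (hc β) (hc a) (hc b) (hc a') (hc b') hwK ?_ ?_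
    hΔ hαβ hw0 hA hi hj hZ' ((hmem _).2 hx)
  · rw [hmem]
    exact hε
  · intro z hz
    rw [hmem] at hz ⊢
    exact hz.of_pow (by norm_num)

end

end Pool.Agent.EFF

end

section


namespace Pool.Agent.EFF

open Polynomial

open scoped Classical

universe u v w

section

theorem d_uni {k L Φ : Type u} [Field k] [Field L] [Field Φ] [Algebra k L]
    [Algebra L Φ] [Algebra k Φ] [IsScalarTower k L Φ] [IsAlgClosed L] (hL : (2 : L) ≠ 0)
    (a₂ a₄ a₆ : k[X]) (hD : Deg a₂ a₄ a₆) (hN : NonIso a₂ a₄ a₆) (l : L)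
    (hl : Transcendental k l) (ε μ : Φ) (h : AlgebraicIndependent L ![ε, μ]) :
    ∃ x w y : Φ, AlgebraicIndependent L ![x, w] ∧
      y ^ 2 = cub a₂ a₄ a₆ x (w ^ 2 + algebraMap L Φ l) := by
  obtain ⟨r, α, β, a, b, a', b', hT⟩ := d_tan hL a₂ a₄ a₆ hD hN l hl
  have h4 : (4 : L) ≠ 0 := by
    have : (4 : L) = 2 * 2 := by norm_num
    rw [this]; exact mul_ne_zero hL hL
  have hA : QA (algebraMap k L (a₂.coeff 1)) α β a a' ≠ 0 := by
    intro h0
    have key : ∀ q3 q2 q1 q0 : L,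
        (X ^ 4 + C q3 * X ^ 3 + C q2 * X ^ 2 + C q1 * X + C q0 : L[X]).coeff 4 = 1 := by
      intro q3 q2 q1 q0
      simp only [coeff_add, coeff_C_mul, coeff_X_pow, coeff_X, coeff_C]
      norm_num
    have h1 := key (4 * (a - a') / (α - β)) (4 * (algebraMap k L (a₂.coeff 1)) + 6 * (α + β))
      (4 * (a + a')) ((α - β) ^ 2)
    unfold QA at h0
    rw [h0, coeff_zero] at h1
    exact zero_ne_one h1
  have hB : QB (aeval l a₂) r α β b b' ≠ 0 := by
    intro h0
    have key : ∀ q3 q2 q1 : L,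
        (C q3 * X ^ 3 + C q2 * X ^ 2 + C q1 * X : L[X]).coeff 1 = q1 := by
      intro q3 q2 q1
      simp only [coeff_add, coeff_C_mul, coeff_X_pow, coeff_X]
      norm_num
    have h1 := key (4 * (b - b') / (α - β)) (4 * (aeval l a₂) + 12 * r) (4 * (b + b'))
    unfold QB at h0
    rw [h0, coeff_zero] at h1
    rcases mul_eq_zero.1 h1.symm with h1 | h1
    · exact h4 h1
    · apply hT.hb
      linear_combination (b - b') * h1
  have hε : Transcendental L ε := h.transcendental 0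
  obtain ⟨z₀, w₀, hz, hw, hc⟩ := d_conic hL _ (QB (aeval l a₂) r α β b b') hA ε hε
  obtain ⟨w, Z, hew, hZ⟩ := d_ew hL _ _ hA hB ε μ h z₀ w₀ hz hw hc
  obtain ⟨x, y, hxw, hy⟩ := d_xw hL a₂ a₄ a₆ hD hN l r α β a b a' b' hT ε w Z hew hZ
  exact ⟨x, w, y, hxw, hy⟩

end

end Pool.Agent.EFF

end
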