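import Mathlib
import Pool.Agent.T1B.Defs
import Pool.Agent.TQU.Defs

/-!
# Elliptic curves over function fields: definitions
-/

set_option autoImplicit false

namespace Pool.Agent.EFF

open Polynomial WeierstrassCurve WeierstrassCurve.Affine

open scoped Classical

universe u

noncomputable section

/-! ## Crossed homomorphisms with values in an elliptic curve -/

section Sha

variable {K : Type u} [Field K] (W : WeierstrassCurve K) (Kb : Type u) [Field Kb] [Algebra K Kb]

/-- The points of `W` over the extension `Kb` of `K`. -/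
abbrev Pts : Type u := (W.baseChange Kb).toAffine.Point

variable {Kb}

/-- The action of an automorphism of `Kb / K` on the points. -/
def act (σ : Kb ≃ₐ[K] Kb) : Pts W Kb →+ Pts W Kb := Point.map σ.toAlgHom

/-- `c` is a continuous crossed homomorphism `Aut(Kb / K) → W(Kb)`. -/
def Crossed (c : (Kb ≃ₐ[K] Kb) → Pts W Kb) : Prop :=
  IsLocallyConstant c ∧ ∀ σ τ : Kb ≃ₐ[K] Kb, c (σ * τ) = c σ + act W σ (c τ)

/-- On the subgroup `D` the crossed homomorphism `c` is principal. -/
def Principal (D : Subgroup (Kb ≃ₐ[K] Kb)) (c : (Kb ≃ₐ[K] Kb) → Pts W Kb) : Prop :=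
  ∃ P : Pts W Kb, ∀ σ ∈ D, c σ = act W σ P - P

/-- `c 0, c 1, ...` represents an element of the Tate module `T_ℓ Ш(W / K)`, where the places of
`K` are those which are trivial on `k`. -/
structure ShaSys (k : Type u) [Field k] [Algebra k Kb] (ℓ : ℕ)
    (c : ℕ → (Kb ≃ₐ[K] Kb) → Pts W Kb) : Prop where
  crossed : ∀ n, Crossed W (c n)
  zero : Principal W ⊤ (c 0)
  step : ∀ n, Principal W ⊤ (fun σ => ℓ • c (n + 1) σ - c n σ)
  loc : ∀ n (V : ValuationSubring Kb), (∀ x : k, algebraMap k Kb x ∈ V) → V ≠ ⊤ →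
    Principal W (T1B.stab V) (c n)

end Sha

/-! ## Functions on an elliptic curve -/

section Fun

variable {F : Type u} [Field F] (W : Affine F)

/-- the ideal of a point -/
def Ip : W.Point → Ideal W.CoordinateRing
  | 0 => ⊤
  | Point.some x y _ => CoordinateRing.XYIdeal W x (C y)

/-- numerator of the function with divisor `(A) + (B) - (A + B) - (0)` -/
def Nf : W.Point → W.Point → W.CoordinateRing
  | 0, _ => 1
  | Point.some _ _ _, 0 => 1
  | Point.some x₁ y₁ _, Point.some x₂ y₂ _ =>
    if x₁ = x₂ ∧ y₁ = W.negY x₂ y₂ then CoordinateRing.XClass W x₁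
    else CoordinateRing.YClass W (linePolynomial x₁ y₁ (W.slope x₁ x₂ y₁ y₂))

/-- denominator of the function with divisor `(A) + (B) - (A + B) - (0)` -/
def Df : W.Point → W.Point → F[X]
  | 0, _ => 1
  | Point.some _ _ _, 0 => 1
  | Point.some x₁ y₁ _, Point.some x₂ y₂ _ =>
    if x₁ = x₂ ∧ y₁ = W.negY x₂ y₂ then 1
    else X - C (W.addX x₁ x₂ (W.slope x₁ x₂ y₁ y₂))

/-- `f` has a pole of order `n` at infinity with leading coefficient one -/
def Mon (f : W.CoordinateRing) (n : ℕ) : Prop :=
  ∃ p q : F[X], f = p • (1 : W.CoordinateRing) + q • CoordinateRing.mk W X ∧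
    ((∃ m, n = 2 * m ∧ p.Monic ∧ p.natDegree = m ∧ (q = 0 ∨ 2 * q.natDegree + 3 < n)) ∨
      (∃ m, n = 2 * m + 3 ∧ q.Monic ∧ q.natDegree = m ∧ (p = 0 ∨ 2 * p.natDegree < n)))

/-- evaluation of a function at the point `(x, y)` -/
def ev {Ω : Type u} [Field Ω] [Algebra F Ω] (x y : Ω) (h : (W.baseChange Ω).toAffine.Equation x y) :
    W.CoordinateRing →+* Ω :=
  AdjoinRoot.lift (aeval x : F[X] →ₐ[F] Ω).toRingHom y (by
    have h1 := (equation_iff _ _).1 h
    have h2 : (aeval x : F[X] →ₐ[F] Ω).toRingHom X = x := by simp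
    have h3 : ∀ a : F, (aeval x : F[X] →ₐ[F] Ω).toRingHom (C a) = algebraMap F Ω a := by simp
    rw [WeierstrassCurve.Affine.polynomial]
    simp only [eval₂_add, eval₂_sub, eval₂_mul, eval₂_pow, eval₂_C, eval₂_X, map_add, map_mul,
      map_pow, h2, h3]
    simp only [map_a₁, map_a₂, map_a₃, map_a₄, map_a₆, WeierstrassCurve.baseChange] at h1
    linear_combination h1)

end Fun

/-! ## Galois groups -/

section Galois

variable {K Kb F Ω : Type u} [Field K] [Field Kb] [Field F] [Field Ω] [Algebra K Kb] [Algebra K F]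
  [Algebra Kb Ω] [Algebra F Ω] [Algebra K Ω] [IsScalarTower K Kb Ω] [IsScalarTower K F Ω]
  [IsAlgClosed Kb] [Algebra.IsAlgebraic K Kb]

variable (K Kb) in
/-- restriction of the automorphisms of `Ω / F` to `Kb` -/
def rk : (Ω ≃ₐ[F] Ω) →* (Kb ≃ₐ[K] Kb) :=
  haveI : IsAlgClosure K Kb := ⟨inferInstance, inferInstance⟩
  haveI : Normal K Kb := IsAlgClosure.normal K Kb
  { toFun := fun σ => AlgEquiv.restrictNormal (σ.restrictScalars K : Ω ≃ₐ[K] Ω) Kb
    map_one' := by
      ext a
      apply (algebraMap Kb Ω).injective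
      rw [AlgEquiv.restrictNormal_commutes]
      rfl
    map_mul' := fun σ τ => by
      ext a
      apply (algebraMap Kb Ω).injective
      rw [AlgEquiv.restrictNormal_commutes, AlgEquiv.mul_apply, AlgEquiv.restrictNormal_commutes,
        AlgEquiv.restrictNormal_commutes]
      rfl }

theorem rk_apply (σ : Ω ≃ₐ[F] Ω) (a : Kb) : algebraMap Kb Ω (rk K Kb σ a) = σ (algebraMap Kb Ω a) := by
  haveI : IsAlgClosure K Kb := ⟨inferInstance, inferInstance⟩
  haveI : Normal K Kb := IsAlgClosure.normal K Kb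
  exact AlgEquiv.restrictNormal_commutes _ Kb a

variable (W : WeierstrassCurve K)

/-- The properties of the functions `H A B` with divisor `(A) + (B) - (A + B) - (0)`, evaluated at
a generic point of the curve. -/
structure HFun (F : Type u) [Field F] [Algebra K F] [Algebra F Ω] [IsScalarTower K F Ω]
    (H : Pts W Kb → Pts W Kb → Ωˣ) : Prop where
  symm : ∀ A B, H A B = H B A
  zero : ∀ B, H 0 B = 1
  assoc : ∀ A B C, H A B * H (A + B) C = H B C * H A (B + C)
  equi : ∀ (σ : Ω ≃ₐ[F] Ω) A B, σ • H A B = H (act W (rk K Kb σ) A) (act W (rk K Kb σ) B)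

/-- the 2-cochain attached to a crossed homomorphism -/
def fc (F : Type u) [Field F] [Algebra K F] [Algebra F Ω] [IsScalarTower K F Ω]
    (H : Pts W Kb → Pts W Kb → Ωˣ) (c : (Kb ≃ₐ[K] Kb) → Pts W Kb) (σ τ : Ω ≃ₐ[F] Ω) : Ωˣ :=
  H (c (rk K Kb σ)) (act W (rk K Kb σ) (c (rk K Kb τ)))

/-- `(x, y)` is a generic point of the curve `W` over `Kb` with coordinates in `Ω`, and `H A B` is
the value at `(x, y)` of the function with divisor `(A) + (B) - (A + B) - (0)`. -/
structure Gen (F : Type u) [Field F] [Algebra K F] [Algebra F Ω] [IsScalarTower K F Ω]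
    (x y : Ω) (hT : ((W.baseChange Kb).toAffine.baseChange Ω).toAffine.Equation x y)
    (H : Pts W Kb → Pts W Kb → Ωˣ) : Prop where
  trans : Transcendental Kb x
  alg : ∀ t : Ω, IsAlgebraic (IntermediateField.adjoin Kb {x}) t
  mem : x ∈ Set.range (algebraMap F Ω) ∧ y ∈ Set.range (algebraMap F Ω)
  val : ∀ A B, (H A B : Ω) * aeval x (Df (W.baseChange Kb).toAffine A B) =
    ev (W.baseChange Kb).toAffine x y hT (Nf (W.baseChange Kb).toAffine A B)
  hfun : HFun W F H

end Galois

/-- (a consequence of the theorem of Lang and Néron) There is a finitely generated group `N` of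
points such that every point of `W` over `Kb` which is fixed by all automorphisms over `K` and the
algebraic closure of `k` has a multiple `p ^ r P` in `N`. -/
def LangNeron (k : Type u) {K : Type u} [Field k] [Field K] (W : WeierstrassCurve K)
    (Kb : Type u) [Field Kb] [Algebra K Kb] [Algebra k Kb] (p : ℕ) : Prop :=
  ∃ N : AddSubgroup (Pts W Kb), N.FG ∧
    ∀ P : Pts W Kb, (∀ σ ∈ T1B.geo k K Kb, act W σ P = P) → ∃ r : ℕ, p ^ r • P ∈ N

end

end Pool.Agent.EFF
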