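import Pool.Agent.EFM.Defs
import Pool.Agent.TBM.Br
import Pool.Agent.TBM.Coh
import Pool.Agent.EFM.S
import Pool.Agent.EFM.Sha

/-!
# Descent of the constants
-/

set_option autoImplicit false

section


namespace Pool.Agent.EFF

open Polynomial WeierstrassCurve WeierstrassCurve.Affine

open scoped Classical

universe u v w

section

variable {k K Kb : Type u} [Field k] [Field K] [Field Kb] [Algebra k K] [Algebra k Kb] [Algebra K Kb]
  [IsScalarTower k K Kb] [IsAlgClosed Kb] [Algebra.IsAlgebraic K Kb]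

omit [IsAlgClosed Kb] [Algebra.IsAlgebraic K Kb] in
private theorem ln_f1_pow [Finite k] (p : k[X]) (θ : Kb) :
    aeval (θ ^ Nat.card k) p = (aeval θ p) ^ Nat.card k := by
  letI : Fintype k := Fintype.ofFinite k
  rw [Nat.card_eq_fintype_card]
  have h := FiniteField.expand_card p
  rw [← Polynomial.expand_aeval, h, map_pow]

/-- one element -/
private theorem ln_f1_one [Finite k]
    (hkK : ∀ a : K, IsAlgebraic k a → a ∈ Set.range (algebraMap k K)) (θ : Kb)
    (hθ : IsAlgebraic k θ) : ∃ σ : Kb ≃ₐ[K] Kb, σ θ = θ ^ Nat.card k := by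
  have : IsAlgClosure K Kb := ⟨inferInstance, inferInstance⟩
  have : Normal K Kb := IsAlgClosure.normal K Kb
  have hint : IsIntegral k θ := hθ.isIntegral
  have hintK : IsIntegral K θ := hint.tower_top
  have hdvd : minpoly K θ ∣ (minpoly k θ).map (algebraMap k K) := by
    apply minpoly.dvd
    rw [aeval_map_algebraMap, minpoly.aeval]
  have hc : ∀ i, (minpoly K θ).coeff i ∈ Set.range (algebraMap k K) := fun i =>
    hkK _ (isIntegral_coeff_of_dvd _ _ (minpoly.monic hint) (minpoly.monic hintK) hdvd i).isAlgebraic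
  obtain ⟨p, hp⟩ : ∃ p : k[X], p.map (algebraMap k K) = minpoly K θ := by
    rw [← Polynomial.mem_lifts, Polynomial.lifts_iff_coeff_lifts]
    exact hc
  have hp0 : aeval θ p = 0 := by
    have := minpoly.aeval K θ
    rwa [← hp, aeval_map_algebraMap] at this
  have hp1 : aeval (θ ^ Nat.card k) (minpoly K θ) = 0 := by
    rw [← hp, aeval_map_algebraMap, ln_f1_pow, hp0, zero_pow Nat.card_pos.ne']
  have hconj : IsConjRoot K θ (θ ^ Nat.card k) := (isConjRoot_iff_aeval_eq_zero hintK).2 hp1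
  obtain ⟨σ, hσ⟩ := isConjRoot_iff_exists_algEquiv.1 hconj
  refine ⟨σ.symm, ?_⟩
  rw [← σ.symm_apply_apply (θ ^ Nat.card k), hσ]

/-- finitely many elements -/
private theorem ln_f1_fin [Finite k]
    (hkK : ∀ a : K, IsAlgebraic k a → a ∈ Set.range (algebraMap k K)) (S : Finset Kb) :
    ∃ σ : Kb ≃ₐ[K] Kb, ∀ a ∈ S, IsAlgebraic k a → σ a = a ^ Nat.card k := by
  let T : Finset Kb := S.filter fun a => IsAlgebraic k a
  let E : IntermediateField k Kb := IntermediateField.adjoin k (T : Set Kb)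
  have : FiniteDimensional k E := by
    apply IntermediateField.finiteDimensional_adjoin
    intro x hx
    exact ((Finset.mem_filter.1 (Finset.mem_coe.1 hx)).2).isIntegral
  obtain ⟨θ, hθ⟩ := Field.exists_primitive_element_of_finite_bot k E
  obtain ⟨σ, hσ⟩ := ln_f1_one hkK (θ : Kb) (by
    have : IsAlgebraic k θ := Algebra.IsAlgebraic.isAlgebraic θ
    exact this.algebraMap)
  refine ⟨σ, fun a ha hal => ?_⟩
  have haE : a ∈ E := IntermediateField.subset_adjoin k _
    (Finset.mem_coe.2 (Finset.mem_filter.2 ⟨ha, hal⟩))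
  have h1 : (⟨a, haE⟩ : E) ∈ IntermediateField.adjoin k {θ} := by
    rw [hθ]; exact IntermediateField.mem_top
  rw [← IntermediateField.mem_toSubalgebra,
    IntermediateField.adjoin_simple_toSubalgebra_of_isAlgebraic
      (Algebra.IsAlgebraic.isAlgebraic θ), Algebra.adjoin_singleton_eq_range_aeval] at h1
  obtain ⟨p, hp⟩ := h1
  have hp' : aeval (θ : Kb) p = a := by
    have h3 : (aeval θ) p = (⟨a, haE⟩ : E) := hp
    have h4 := congrArg (algebraMap E Kb) h3
    rw [← Polynomial.aeval_algebraMap_apply] at h4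
    exact h4
  have h2 : σ (aeval (θ : Kb) p) = aeval (σ (θ : Kb)) p := by
    have := Polynomial.aeval_algHom_apply ((σ : Kb →ₐ[K] Kb).restrictScalars k) (θ : Kb) p
    exact this.symm
  rw [← hp', h2, hσ, ln_f1_pow]

theorem ln_f1 [Finite k] (hkK : ∀ a : K, IsAlgebraic k a → a ∈ Set.range (algebraMap k K)) :
    ∃ φ : Kb ≃ₐ[K] Kb, ∀ a : Kb, IsAlgebraic k a → φ a = a ^ Nat.card k := by
  have horb : ∀ x : Kb, {y : Kb | ∃ σ : Kb ≃ₐ[K] Kb, σ x = y}.Finite := by
    intro x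
    refine ((minpoly K x).aroots Kb).toFinset.finite_toSet.subset ?_
    rintro y ⟨σ, rfl⟩
    have hx : IsIntegral K x := (Algebra.IsAlgebraic.isAlgebraic x).isIntegral
    rw [Finset.mem_coe, Multiset.mem_toFinset, Polynomial.mem_aroots]
    refine ⟨minpoly.ne_zero hx, ?_⟩
    rw [show σ x = (σ : Kb →ₐ[K] Kb) x from rfl, Polynomial.aeval_algHom_apply, minpoly.aeval,
      map_zero]
  choose g hg using fun S : Finset Kb => ln_f1_fin (k := k) hkK S
  obtain ⟨U, hU⟩ : ∃ U : Ultrafilter (Finset Kb), (U : Filter (Finset Kb)) ≤ Filter.atTop :=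
    ⟨Ultrafilter.of Filter.atTop, Ultrafilter.of_le _⟩
  have hone : ∀ h : Finset Kb → (Kb ≃ₐ[K] Kb), ∀ x : Kb, ∃ y : Kb,
      ∀ᶠ S in (U : Filter (Finset Kb)), h S x = y := by
    intro h x
    have hfin := horb x
    have h2 : (⋃ y ∈ {y : Kb | ∃ σ : Kb ≃ₐ[K] Kb, σ x = y}, {S : Finset Kb | h S x = y}) ∈ U := by
      refine Filter.mem_of_superset Filter.univ_mem fun S _ => ?_
      rw [Set.mem_iUnion₂]
      exact ⟨h S x, ⟨h S, rfl⟩, rfl⟩
    rw [Ultrafilter.finite_biUnion_mem_iff hfin] at h2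
    obtain ⟨y, -, hy⟩ := h2
    exact ⟨y, hy⟩
  choose σ hσ using hone g
  choose σ' hσ' using hone (fun S => (g S)⁻¹)
  have hex : ∀ {P : Finset Kb → Prop}, (∀ᶠ S in (U : Filter (Finset Kb)), P S) → ∃ S, P S :=
    fun h => h.exists
  have hl : ∀ x, σ' (σ x) = x := by
    intro x
    obtain ⟨S, hS1, hS2⟩ := hex ((hσ x).and (hσ' (σ x)))
    rw [← hS2, ← hS1]
    exact (g S).symm_apply_apply x
  have hr : ∀ x, σ (σ' x) = x := by
    intro x
    obtain ⟨S, hS1, hS2⟩ := hex ((hσ' x).and (hσ (σ' x)))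
    rw [← hS2, ← hS1]
    exact (g S).apply_symm_apply x
  have hmul : ∀ x y, σ (x * y) = σ x * σ y := by
    intro x y
    obtain ⟨S, ⟨hS1, hS2⟩, hS3⟩ := hex (((hσ x).and (hσ y)).and (hσ (x * y)))
    rw [← hS1, ← hS2, ← hS3, map_mul]
  have hadd : ∀ x y, σ (x + y) = σ x + σ y := by
    intro x y
    obtain ⟨S, ⟨hS1, hS2⟩, hS3⟩ := hex (((hσ x).and (hσ y)).and (hσ (x + y)))
    rw [← hS1, ← hS2, ← hS3, map_add]
  have hcom : ∀ r : K, σ (algebraMap K Kb r) = algebraMap K Kb r := by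
    intro r
    obtain ⟨S, hS⟩ := hex (hσ (algebraMap K Kb r))
    rw [← hS, AlgEquiv.commutes]
  let s : Kb ≃ₐ[K] Kb :=
    { toFun := σ, invFun := σ', left_inv := hl, right_inv := hr, map_mul' := hmul,
      map_add' := hadd, commutes' := hcom }
  refine ⟨s, fun a ha => ?_⟩
  have hat : ∀ᶠ S in (U : Filter (Finset Kb)), a ∈ S := by
    refine hU (Filter.mem_of_superset (Filter.mem_atTop ({a} : Finset Kb)) fun S hS => ?_)
    exact Finset.singleton_subset_iff.1 hS
  obtain ⟨S, hS1, hS2⟩ := hex ((hσ a).and hat)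
  change σ a = _
  rw [← hS1]
  exact hg S a hS2 ha

end

end Pool.Agent.EFF

end

section


namespace Pool.Agent.EFF

open Polynomial WeierstrassCurve WeierstrassCurve.Affine

open scoped Classical

universe u v w

section

variable {k K Kb : Type u} [Field k] [Field K] [Field Kb] [Algebra k K] [Algebra k Kb] [Algebra K Kb]
  [IsScalarTower k K Kb] [IsAlgClosed Kb] [Algebra.IsAlgebraic K Kb]
theorem ln_f2 (S : Finset Kb) : ∃ S1 : Finset Kb, (∀ a ∈ S1, IsAlgebraic k a) ∧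
    ∀ h : Kb ≃ₐ[K] Kb, (∀ a ∈ S1, h a = a) → ∃ s ∈ T1B.geo k K Kb, ∀ a ∈ S, h a = s a := by
  have horb : ∀ x : Kb, {y : Kb | ∃ σ ∈ (⊤ : Subgroup (Kb ≃ₐ[K] Kb)), σ x = y}.Finite := by
    intro x
    refine ((minpoly K x).aroots Kb).toFinset.finite_toSet.subset ?_
    rintro y ⟨σ, -, rfl⟩
    have hx : IsIntegral K x := (Algebra.IsAlgebraic.isAlgebraic x).isIntegral
    rw [Finset.mem_coe, Multiset.mem_toFinset, Polynomial.mem_aroots]
    refine ⟨minpoly.ne_zero hx, ?_⟩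
    rw [show σ x = (σ : Kb →ₐ[K] Kb) x from rfl, Polynomial.aeval_algHom_apply, minpoly.aeval,
      map_zero]
  have hcl : TBR.Clo (⊤ : Subgroup (Kb ≃ₐ[K] Kb)) := fun σ _ => Subgroup.mem_top σ
  let f : (Kb ≃ₐ[K] Kb) → Set (S → Kb) := fun g =>
    {t | ∃ s ∈ T1B.geo k K Kb, ∀ a : S, t a = g (s a)}
  have hf : TBR.Lo1 (⊤ : Subgroup (Kb ≃ₐ[K] Kb)) Set.univ f := by
    refine ⟨S.biUnion fun a => (horb a).toFinset, Set.subset_univ _, ?_⟩
    have key : ∀ σ τ : Kb ≃ₐ[K] Kb, TBR.Ag ((S.biUnion fun a => (horb a).toFinset : Finset Kb) : Set Kb) σ τ →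
        f σ ⊆ f τ := by
      rintro σ τ hag t ⟨s, hs, ht⟩
      refine ⟨s, hs, fun a => ?_⟩
      rw [ht a]
      refine hag _ ?_
      rw [Finset.mem_coe, Finset.mem_biUnion]
      exact ⟨a, a.2, (Set.Finite.mem_toFinset _).2 ⟨s, Subgroup.mem_top _, rfl⟩⟩
    intro σ _ τ _ hag
    exact Set.Subset.antisymm (key σ τ hag) (key τ σ fun x hx => (hag x hx).symm)
  have hT : ∀ σ ∈ (⊤ : Subgroup (Kb ≃ₐ[K] Kb)), ∀ τ ∈ (⊤ : Subgroup (Kb ≃ₐ[K] Kb)),
      TBR.Ag {a : Kb | IsAlgebraic k a} σ τ → f σ = f τ := by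
    have key : ∀ σ τ : Kb ≃ₐ[K] Kb, TBR.Ag {a : Kb | IsAlgebraic k a} σ τ → f σ ⊆ f τ := by
      rintro σ τ hag t ⟨s, hs, ht⟩
      refine ⟨τ⁻¹ * σ * s, ?_, fun a => ?_⟩
      · refine Subgroup.mul_mem _ ?_ hs
        intro x hx
        rw [AlgEquiv.mul_apply, hag x hx]
        exact τ.symm_apply_apply x
      · rw [ht a, AlgEquiv.mul_apply, AlgEquiv.mul_apply]
        exact (τ.apply_symm_apply _).symm
    intro σ _ τ _ hag
    exact Set.Subset.antisymm (key σ τ hag) (key τ σ fun x hx => (hag x hx).symm)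
  obtain ⟨S1, hS1, h1⟩ := TBR.cpt (⊤ : Subgroup (Kb ≃ₐ[K] Kb)) (fun x _ => horb x) hcl
    {a : Kb | IsAlgebraic k a} f hf hT
  refine ⟨S1, fun a ha => hS1 ha, fun h hh => ?_⟩
  have h2 : f h = f 1 := h1 h (Subgroup.mem_top _) 1 (Subgroup.mem_top _) fun x hx => hh x hx
  have h3 : (fun a : S => h a) ∈ f h := ⟨1, Subgroup.one_mem _, fun a => rfl⟩
  rw [h2] at h3
  obtain ⟨s, hs, h4⟩ := h3
  exact ⟨s, hs, fun a ha => h4 ⟨a, ha⟩⟩

end

end Pool.Agent.EFF

end

section


namespace Pool.Agent.EFF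

open Polynomial WeierstrassCurve WeierstrassCurve.Affine

open scoped Classical

universe u v w

section

variable {k K Kb : Type u} [Field k] [Field K] [Field Kb] [Algebra k K] [Algebra k Kb] [Algebra K Kb]
  [IsScalarTower k K Kb] [IsAlgClosed Kb] [Algebra.IsAlgebraic K Kb]
theorem ln_frob [Finite k] (hkK : ∀ a : K, IsAlgebraic k a → a ∈ Set.range (algebraMap k K)) :
    ∃ φ : Kb ≃ₐ[K] Kb, ∀ (S : Finset Kb) (g : Kb ≃ₐ[K] Kb), ∃ (i : ℕ) (s : Kb ≃ₐ[K] Kb),
      s ∈ T1B.geo k K Kb ∧ ∀ a ∈ S, g a = (φ ^ i * s) a := by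
  obtain ⟨φ, hφ⟩ := ln_f1 (k := k) (K := K) (Kb := Kb) hkK
  refine ⟨φ, fun S g => ?_⟩
  obtain ⟨S1, hS1, hS2⟩ := ln_f2 (k := k) (K := K) (Kb := Kb) S
  have hpow : ∀ (i : ℕ) (a : Kb), IsAlgebraic k a → (φ ^ i) a = a ^ (Nat.card k) ^ i := by
    intro i
    induction i with
    | zero => intro a _; simp
    | succ n ih =>
      intro a ha
      rw [pow_succ, AlgEquiv.mul_apply, hφ a ha, map_pow, ih a ha, ← pow_mul, pow_succ]
  let E : IntermediateField k Kb := IntermediateField.adjoin k (S1 : Set Kb)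
  haveI : FiniteDimensional k E := by
    apply IntermediateField.finiteDimensional_adjoin
    intro x hx
    exact (hS1 x hx).isIntegral
  haveI : Finite E := Module.finite_of_finite k
  letI : Fintype k := Fintype.ofFinite k
  haveI : IsGalois k E := inferInstance
  haveI : Normal k E := inferInstance
  let gE : E ≃ₐ[k] E := AlgEquiv.restrictNormal (g.restrictScalars k : Kb ≃ₐ[k] Kb) E
  obtain ⟨i, hi⟩ := (FiniteField.bijective_frobeniusAlgEquivOfAlgebraic_pow k E).2 gE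
  have hgi : ∀ a ∈ S1, g a = (φ ^ (i : ℕ)) a := by
    intro a ha
    have haE : a ∈ E := IntermediateField.subset_adjoin k _ ha
    have h1 : algebraMap E Kb (gE ⟨a, haE⟩) = g a :=
      AlgEquiv.restrictNormal_commutes (g.restrictScalars k : Kb ≃ₐ[k] Kb) E ⟨a, haE⟩
    rw [hpow i a (hS1 a ha), ← h1, ← hi]
    rw [AlgEquiv.coe_pow, FiniteField.coe_frobeniusAlgEquivOfAlgebraic_iterate]
    rw [Nat.card_eq_fintype_card]
    rfl
  obtain ⟨s, hs, hs1⟩ := hS2 ((φ ^ (i : ℕ))⁻¹ * g) (by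
    intro a ha
    rw [AlgEquiv.mul_apply, hgi a ha]
    exact (φ ^ (i : ℕ)).symm_apply_apply a)
  refine ⟨i, s, hs, fun a ha => ?_⟩
  rw [AlgEquiv.mul_apply, ← hs1 a ha, AlgEquiv.mul_apply]
  exact ((φ ^ (i : ℕ)).apply_symm_apply (g a)).symm

end

end Pool.Agent.EFF

end

section


namespace Pool.Agent.EFF

open Polynomial WeierstrassCurve WeierstrassCurve.Affine

open scoped Classical

universe u v w

section

variable {k K Kb : Type u} [Field k] [Field K] [Field Kb] [Algebra k K] [Algebra k Kb] [Algebra K Kb]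
  [IsScalarTower k K Kb] [IsAlgClosed Kb] [Algebra.IsAlgebraic K Kb] (W : WeierstrassCurve K)
omit [IsAlgClosed Kb] [Algebra.IsAlgebraic K Kb] in
private theorem ln_div_act_one (P : Pts W Kb) : act W (1 : Kb ≃ₐ[K] Kb) P = P := by
  cases P with
  | zero => exact map_zero _
  | some x y h => rfl

omit [IsAlgClosed Kb] [Algebra.IsAlgebraic K Kb] in
private theorem ln_div_act_mul (g h : Kb ≃ₐ[K] Kb) (P : Pts W Kb) :
    act W (g * h) P = act W g (act W h P) := by
  cases P with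
  | zero =>
    have h0 : (Point.zero : Pts W Kb) = 0 := rfl
    rw [h0, map_zero, map_zero, map_zero]
  | some x y h => rfl

/-- the coordinates of a point -/
private noncomputable def ln_div_coord : Pts W Kb → Finset Kb
  | 0 => ∅
  | Point.some x y _ => {x, y}

omit [IsAlgClosed Kb] [Algebra.IsAlgebraic K Kb] in
private theorem ln_div_act_congr (g g' : Kb ≃ₐ[K] Kb) (P : Pts W Kb)
    (h : ∀ a ∈ ln_div_coord W P, g a = g' a) : act W g P = act W g' P := by
  cases P with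
  | zero => exact (map_zero _).trans (map_zero _).symm
  | some x y hxy =>
    have hx : g x = g' x := h x (by simp [ln_div_coord])
    have hy : g y = g' y := h y (by simp [ln_div_coord])
    change Point.map g.toAlgHom (Point.some x y hxy) = Point.map g'.toAlgHom (Point.some x y hxy)
    rw [Point.map_some, Point.map_some]
    congr 1

theorem ln_div (φ : Kb ≃ₐ[K] Kb)
    (hφ : ∀ (S : Finset Kb) (g : Kb ≃ₐ[K] Kb), ∃ (i : ℕ) (s : Kb ≃ₐ[K] Kb),
      s ∈ T1B.geo k K Kb ∧ ∀ a ∈ S, g a = (φ ^ i * s) a)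
    (c : (Kb ≃ₐ[K] Kb) → Pts W Kb) (hc : Crossed W c) (h0 : ∀ s ∈ T1B.geo k K Kb, c s = 0)
    (R : Pts W Kb) (hR : ∀ s ∈ T1B.geo k K Kb, act W s R = R) (hφR : c φ = act W φ R - R) :
    Principal W ⊤ c := by
  obtain ⟨S, hS1, -⟩ := c_fin W c hc
  have hcr := hc.2
  have hpow : ∀ i : ℕ, c (φ ^ i) = act W (φ ^ i) R - R := by
    intro i
    induction i with
    | zero =>
      rw [pow_zero, ln_div_act_one, sub_self]
      have h2 := hcr 1 1
      rw [mul_one, ln_div_act_one] at h2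
      simpa using h2
    | succ n ih =>
      rw [pow_succ, hcr, ih, hφR, map_sub, ← ln_div_act_mul]
      abel
  have hall : ∀ (i : ℕ) (s : Kb ≃ₐ[K] Kb), s ∈ T1B.geo k K Kb →
      c (φ ^ i * s) = act W (φ ^ i * s) R - R := by
    intro i s hs
    rw [hcr, h0 s hs, map_zero, add_zero, hpow i, ln_div_act_mul, hR s hs]
  refine ⟨R, fun g _ => ?_⟩
  obtain ⟨i, s, hs, hgs⟩ := hφ (S ∪ ln_div_coord W R) g
  rw [hS1 g (φ ^ i * s) fun a ha => hgs a (Finset.mem_union_left _ ha), hall i s hs,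
    ln_div_act_congr W g (φ ^ i * s) R fun a ha => hgs a (Finset.mem_union_right _ ha)]

end

end Pool.Agent.EFF

end

section


namespace Pool.Agent.EFF

open Polynomial WeierstrassCurve WeierstrassCurve.Affine

open scoped Classical

universe u v w

section

variable {k K Kb : Type u} [Field k] [Field K] [Field Kb] [Algebra k K] [Algebra k Kb] [Algebra K Kb]
  [IsScalarTower k K Kb] [IsAlgClosed Kb] [Algebra.IsAlgebraic K Kb] (W : WeierstrassCurve K)

omit [IsScalarTower k K Kb] [IsAlgClosed Kb] [Algebra.IsAlgebraic K Kb] [Algebra k K] [Algebra k Kb]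
  [Field k] in
private theorem lnb_act_mul (g h : Kb ≃ₐ[K] Kb) (P : Pts W Kb) :
    act W (g * h) P = act W g (act W h P) := by
  cases P with
  | zero => rfl
  | some x y hxy => rfl

omit [IsScalarTower k K Kb] [IsAlgClosed Kb] [Algebra.IsAlgebraic K Kb] [Algebra k K] [Algebra k Kb]
  [Field k] in
private theorem lnb_act_one (P : Pts W Kb) : act W (1 : Kb ≃ₐ[K] Kb) P = P := by
  cases P with
  | zero => rfl
  | some x y hxy => rfl

omit [IsScalarTower k K Kb] [IsAlgClosed Kb] [Algebra.IsAlgebraic K Kb] [Algebra k K] [Algebra k Kb]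
  [Field k] in
private theorem lnb_one (c : (Kb ≃ₐ[K] Kb) → Pts W Kb) (hc : Crossed W c) : c 1 = 0 := by
  have h := hc.2 1 1
  rw [mul_one, lnb_act_one] at h
  exact (left_eq_add.mp h)

omit [IsScalarTower k K Kb] [IsAlgClosed Kb] [Algebra.IsAlgebraic K Kb] [Algebra k K] [Algebra k Kb]
  [Field k] in
private theorem lnb_pow_mul (φ : Kb ≃ₐ[K] Kb) (a : Kb) (j n : ℕ) (h : (φ ^ j) a = a) :
    (φ ^ (j * n)) a = a := by
  induction n with
  | zero => simp
  | succ n ih => rw [Nat.mul_succ, pow_add, AlgEquiv.mul_apply, h, ih]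

omit [IsScalarTower k K Kb] [IsAlgClosed Kb] [Algebra k K] [Algebra k Kb] [Field k] in
/-- some power of `φ` fixes a given element -/
private theorem lnb_pow_one (φ : Kb ≃ₐ[K] Kb) (a : Kb) : ∃ j : ℕ, 0 < j ∧ (φ ^ j) a = a := by
  have hint : IsIntegral K a := Algebra.IsIntegral.isIntegral a
  have hmem : ∀ i : ℕ, (φ ^ i) a ∈ (minpoly K a).rootSet Kb := by
    intro i
    rw [mem_rootSet]
    refine ⟨minpoly.ne_zero hint, ?_⟩
    have h : aeval ((φ ^ i) a) (minpoly K a) = (φ ^ i) (aeval a (minpoly K a)) :=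
      aeval_algHom_apply ((φ ^ i : Kb ≃ₐ[K] Kb) : Kb →ₐ[K] Kb) a (minpoly K a)
    rw [h, minpoly.aeval, map_zero]
  have : Finite ((minpoly K a).rootSet Kb) := (minpoly K a).rootSet_finite Kb
  obtain ⟨i, j, hij, he⟩ := Finite.exists_ne_map_eq_of_infinite
    (fun i : ℕ => (⟨(φ ^ i) a, hmem i⟩ : (minpoly K a).rootSet Kb))
  have he' : (φ ^ i) a = (φ ^ j) a := congrArg Subtype.val he
  have key : ∀ i j : ℕ, i < j → (φ ^ i) a = (φ ^ j) a → ∃ j : ℕ, 0 < j ∧ (φ ^ j) a = a := by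
    intro i j hlt h
    refine ⟨j - i, Nat.sub_pos_of_lt hlt, ?_⟩
    have h1 : φ ^ j = φ ^ i * φ ^ (j - i) := by rw [← pow_add, Nat.add_sub_cancel' hlt.le]
    rw [h1, AlgEquiv.mul_apply] at h
    exact ((φ ^ i).injective h).symm
  rcases lt_or_gt_of_ne hij with h | h
  · exact key i j h he'
  · exact key j i h he'.symm

omit [IsScalarTower k K Kb] [IsAlgClosed Kb] [Algebra k K] [Algebra k Kb] [Field k] in
/-- some power of `φ` fixes a given finite set -/
private theorem lnb_pow_fix (φ : Kb ≃ₐ[K] Kb) (S : Finset Kb) :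
    ∃ j : ℕ, 0 < j ∧ ∀ a ∈ S, (φ ^ j) a = a := by
  induction S using Finset.induction_on with
  | empty => exact ⟨1, one_pos, by simp⟩
  | insert a S _ ih =>
    obtain ⟨j, hj, hS⟩ := ih
    obtain ⟨i, hi, ha⟩ := lnb_pow_one φ a
    refine ⟨i * j, Nat.mul_pos hi hj, fun b hb => ?_⟩
    rcases Finset.mem_insert.1 hb with rfl | hb
    · exact lnb_pow_mul φ _ i j ha
    · rw [mul_comm]
      exact lnb_pow_mul φ b j i (hS b hb)

omit [IsScalarTower k K Kb] [IsAlgClosed Kb] [Algebra k K] [Algebra k Kb] [Field k] in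
/-- some power of `φ` fixes a given point -/
private theorem lnb_point (φ : Kb ≃ₐ[K] Kb) (P : Pts W Kb) :
    ∃ j : ℕ, 0 < j ∧ ∀ n : ℕ, act W (φ ^ (j * n)) P = P := by
  cases P with
  | zero => exact ⟨1, one_pos, fun n => rfl⟩
  | some x y hxy =>
    obtain ⟨j, hj, hS⟩ := lnb_pow_fix φ {x, y}
    refine ⟨j, hj, fun n => ?_⟩
    have hx := lnb_pow_mul φ x j n (hS x (by simp))
    have hy := lnb_pow_mul φ y j n (hS y (by simp))
    show Point.some _ _ _ = Point.some _ _ _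
    simp only [Point.some.injEq]
    exact ⟨hx, hy⟩

/-- some power of `φ` fixes a finitely generated group of points -/
private theorem lnb_group (φ : Kb ≃ₐ[K] Kb) (N : AddSubgroup (Pts W Kb)) (hN : N.FG) :
    ∃ j : ℕ, 0 < j ∧ ∀ n : ℕ, ∀ P ∈ N, act W (φ ^ (j * n)) P = P := by
  obtain ⟨S, hS⟩ := hN
  have key : ∀ S : Finset (Pts W Kb), ∃ j : ℕ, 0 < j ∧ ∀ n : ℕ, ∀ P ∈ S, act W (φ ^ (j * n)) P = P := by
    intro S
    induction S using Finset.induction_on with
    | empty => exact ⟨1, one_pos, by simp⟩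
    | insert P S _ ih =>
      obtain ⟨j, hj, hS⟩ := ih
      obtain ⟨i, hi, hP⟩ := lnb_point W φ P
      refine ⟨i * j, Nat.mul_pos hi hj, fun n Q hQ => ?_⟩
      rcases Finset.mem_insert.1 hQ with rfl | hQ
      · rw [mul_assoc]
        exact hP _
      · rw [mul_comm i j, mul_assoc]
        exact hS _ Q hQ
  obtain ⟨j, hj, h⟩ := key S
  refine ⟨j, hj, fun n P hP => ?_⟩
  rw [← hS] at hP
  refine AddSubgroup.closure_induction (fun Q hQ => h n Q (by exact_mod_cast hQ)) (map_zero _)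
    (fun Q R _ _ h1 h2 => ?_) (fun Q _ h1 => ?_) hP
  · rw [map_add, h1, h2]
  · rw [map_neg, h1]

/-- the torsion of a finitely generated commutative group has finite exponent -/
private theorem lnb_tors {A : Type*} [AddCommGroup A] (N : AddSubgroup A) (hN : N.FG) :
    ∃ τ : ℕ, 0 < τ ∧ ∀ P ∈ N, ∀ j : ℕ, 0 < j → j • P = 0 → τ • P = 0 := by
  have h1 : AddGroup.FG N := (AddGroup.fg_iff_addSubgroup_fg N).2 hN
  have h2 : Module.Finite ℤ N := Module.Finite.iff_addGroup_fg.2 h1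
  have h3 : Module.Finite ℤ (Submodule.torsion ℤ N) := inferInstance
  have h4 : Finite (Submodule.torsion ℤ N) :=
    Module.finite_of_fg_torsion _ (Submodule.torsion_isTorsion)
  refine ⟨Nat.card (Submodule.torsion ℤ N), Nat.card_pos, fun P hP j hj h => ?_⟩
  have hm : (⟨P, hP⟩ : N) ∈ Submodule.torsion ℤ N := by
    refine (Submodule.mem_torsion_iff _).2 ⟨⟨(j : ℤ), mem_nonZeroDivisors_of_ne_zero (by exact_mod_cast hj.ne')⟩, ?_⟩
    apply Subtype.ext
    show ((j : ℤ) • (⟨P, hP⟩ : N) : N).1 = 0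
    rw [AddSubgroup.coe_zsmul]
    simpa using h
  have h2 : Nat.card (Submodule.torsion ℤ N) • (⟨⟨P, hP⟩, hm⟩ : Submodule.torsion ℤ N) = 0 :=
    card_nsmul_eq_zero'
  have h3 := congrArg (fun z : Submodule.torsion ℤ N => ((z : N) : A)) h2
  simpa using h3

theorem ln_bound (p : ℕ) (hLN : LangNeron k W Kb p) (hp : p ≠ 0) (φ : Kb ≃ₐ[K] Kb)
    (hφ : ∀ (S : Finset Kb) (g : Kb ≃ₐ[K] Kb), ∃ (i : ℕ) (s : Kb ≃ₐ[K] Kb),
      s ∈ T1B.geo k K Kb ∧ ∀ a ∈ S, g a = (φ ^ i * s) a) :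
    ∃ m : ℕ, 0 < m ∧ ∀ c : (Kb ≃ₐ[K] Kb) → Pts W Kb, Crossed W c →
      (∀ s ∈ T1B.geo k K Kb, c s = 0) → ∃ r : ℕ, Principal W ⊤ (fun g => (m * p ^ r) • c g) := by
  obtain ⟨N, hNfg, hN⟩ := hLN
  obtain ⟨m0, hm0, hfix⟩ := lnb_group W φ N hNfg
  obtain ⟨τ, hτ, htors⟩ := lnb_tors N hNfg
  refine ⟨m0 * τ, Nat.mul_pos hm0 hτ, fun c hc h0 => ?_⟩
  have hnorm : ∀ (g s : Kb ≃ₐ[K] Kb), s ∈ T1B.geo k K Kb → g⁻¹ * s * g ∈ T1B.geo k K Kb := by
    intro g s hs x hx
    have h1 : IsAlgebraic k (g x) := by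
      have := hx.algHom ((g.toAlgHom.restrictScalars k : Kb →ₐ[k] Kb))
      exact this
    have h2 : s (g x) = g x := hs (g x) h1
    rw [AlgEquiv.mul_apply, AlgEquiv.mul_apply, h2]
    exact g.symm_apply_apply x
  have hgf : ∀ (g : Kb ≃ₐ[K] Kb) (P : Pts W Kb), (∀ s ∈ T1B.geo k K Kb, act W s P = P) →
      ∀ s ∈ T1B.geo k K Kb, act W s (act W g P) = act W g P := by
    intro g P hP s hs
    have h1 : s * g = g * (g⁻¹ * s * g) := by group
    rw [← lnb_act_mul, h1, lnb_act_mul, hP _ (hnorm g s hs)]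
  have hx : ∀ s ∈ T1B.geo k K Kb, act W s (c φ) = c φ := by
    intro s hs
    have h1 : s * φ = φ * (φ⁻¹ * s * φ) := by group
    have h2 := hc.2 s φ
    rw [h0 s hs, zero_add, h1, hc.2, h0 _ (hnorm φ s hs), map_zero, add_zero] at h2
    exact h2.symm
  have hcpow : ∀ n : ℕ, c (φ ^ n) = ∑ i ∈ Finset.range n, act W (φ ^ i) (c φ) := by
    intro n
    induction n with
    | zero => rw [pow_zero, lnb_one W c hc, Finset.sum_range_zero]
    | succ n ih => rw [pow_succ, hc.2, ih, Finset.sum_range_succ]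
  obtain ⟨S, hS, -⟩ := c_fin W c hc
  obtain ⟨j, hj, hjS⟩ := lnb_pow_fix φ S
  have hzero : c (φ ^ (m0 * j)) = 0 := by
    rw [hS (φ ^ (m0 * j)) 1 (fun a ha => by
      rw [mul_comm]
      exact lnb_pow_mul φ a j m0 (hjS a ha))]
    exact lnb_one W c hc
  obtain ⟨r, hr⟩ := hN (c φ) hx
  obtain ⟨y, hy⟩ : ∃ y, y = p ^ r • c φ := ⟨_, rfl⟩
  rw [← hy] at hr
  have hygeo : ∀ s ∈ T1B.geo k K Kb, act W s y = y := by
    intro s hs
    rw [hy, map_nsmul, hx s hs]
  obtain ⟨T, hT⟩ : ∃ T, T = ∑ i ∈ Finset.range m0, act W (φ ^ i) y := ⟨_, rfl⟩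
  have hsum : ∀ n : ℕ, ∑ i ∈ Finset.range (m0 * n), act W (φ ^ i) y = n • T := by
    intro n
    induction n with
    | zero => simp
    | succ n ih =>
      rw [Nat.mul_succ, Finset.sum_range_add, ih, succ_nsmul, hT]
      congr 1
      refine Finset.sum_congr rfl fun i _ => ?_
      rw [add_comm, pow_add, lnb_act_mul, hfix n y hr]
  have hjT : j • T = 0 := by
    rw [← hsum j]
    have h1 := congrArg (fun z => p ^ r • z) hzero
    simp only [hcpow, smul_zero, Finset.smul_sum] at h1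
    rw [← h1]
    refine Finset.sum_congr rfl fun i _ => ?_
    rw [hy, map_nsmul]
  have hTgeo : ∀ s ∈ T1B.geo k K Kb, act W s T = T := by
    intro s hs
    rw [hT, map_sum]
    exact Finset.sum_congr rfl fun i _ => hgf (φ ^ i) y hygeo s hs
  obtain ⟨r', hr'⟩ := hN T hTgeo
  have hτT : τ • (p ^ r' • T) = 0 :=
    htors _ hr' j hj (by rw [smul_comm, hjT, smul_zero])
  obtain ⟨y', hy'⟩ : ∃ y', y' = (τ * p ^ r') • y := ⟨_, rfl⟩
  have hy'geo : ∀ s ∈ T1B.geo k K Kb, act W s y' = y' := by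
    intro s hs
    rw [hy', map_nsmul, hygeo s hs]
  have hsum' : ∑ i ∈ Finset.range m0, act W (φ ^ i) y' = 0 := by
    have h1 : ∀ i, act W (φ ^ i) y' = (τ * p ^ r') • act W (φ ^ i) y := by
      intro i
      rw [hy', map_nsmul]
    simp only [h1]
    rw [← Finset.smul_sum, ← hT, mul_smul, hτT]
  have hU : ∀ n : ℕ, act W φ (∑ i ∈ Finset.range n, act W (φ ^ i) y') -
      ∑ i ∈ Finset.range n, act W (φ ^ i) y' = act W (φ ^ n) y' - y' := by
    intro n
    induction n with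
    | zero => simp [lnb_act_one]
    | succ n ih =>
      rw [Finset.sum_range_succ, map_add, add_sub_add_comm, ih, pow_succ', lnb_act_mul]
      abel
  obtain ⟨R, hR⟩ : ∃ R, R = -∑ n ∈ Finset.range m0, ∑ i ∈ Finset.range n, act W (φ ^ i) y' :=
    ⟨_, rfl⟩
  have hRgeo : ∀ s ∈ T1B.geo k K Kb, act W s R = R := by
    intro s hs
    rw [hR, map_neg, map_sum]
    congr 1
    refine Finset.sum_congr rfl fun n _ => ?_
    rw [map_sum]
    exact Finset.sum_congr rfl fun i _ => hgf (φ ^ i) y' hy'geo s hs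
  have hRφ : act W φ R - R = m0 • y' := by
    rw [hR, map_neg, map_sum, neg_sub_neg, ← Finset.sum_sub_distrib]
    have h1 : ∀ n : ℕ, ∑ i ∈ Finset.range n, act W (φ ^ i) y' -
        act W φ (∑ i ∈ Finset.range n, act W (φ ^ i) y') = y' - act W (φ ^ n) y' := by
      intro n
      rw [← neg_sub, hU n, neg_sub]
    simp only [h1]
    rw [Finset.sum_sub_distrib, hsum', sub_zero, Finset.sum_const, Finset.card_range]
  refine ⟨r + r', ln_div W φ hφ (fun g => (m0 * τ * p ^ (r + r')) • c g) ⟨?_, ?_⟩ ?_ R hRgeo ?_⟩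
  · exact hc.1.comp fun P => (m0 * τ * p ^ (r + r')) • P
  · intro g h
    show (m0 * τ * p ^ (r + r')) • c (g * h) = _
    rw [hc.2, smul_add, map_nsmul]
  · intro s hs
    show (m0 * τ * p ^ (r + r')) • c s = 0
    rw [h0 s hs, smul_zero]
  · show (m0 * τ * p ^ (r + r')) • c φ = _
    rw [hRφ, hy', hy, smul_smul, smul_smul]
    congr 1
    ring

end

end Pool.Agent.EFF

end

section


namespace Pool.Agent.EFF

open Polynomial WeierstrassCurve WeierstrassCurve.Affine

open scoped Classical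

universe u v w

section

variable {k K Kb : Type u} [Field k] [Field K] [Field Kb] [Algebra k K] [Algebra k Kb] [Algebra K Kb]
  [IsScalarTower k K Kb] [IsAlgClosed Kb] [Algebra.IsAlgebraic K Kb] (W : WeierstrassCurve K)
omit [IsAlgClosed Kb] [Algebra.IsAlgebraic K Kb] in
private theorem lnm_act_mul (g h : Kb ≃ₐ[K] Kb) (P : Pts W Kb) :
    act W (g * h) P = act W g (act W h P) := by
  cases P with
  | zero => rfl
  | some x y hxy => rfl

/-- the action on a point is locally constant -/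
private theorem lnm_lc (P : Pts W Kb) : IsLocallyConstant (fun g : Kb ≃ₐ[K] Kb => act W g P) := by
  cases P with
  | zero => exact IsLocallyConstant.const (0 : Pts W Kb)
  | some x y hxy =>
    have hx : IsIntegral K x := Algebra.IsIntegral.isIntegral x
    have hy : IsIntegral K y := Algebra.IsIntegral.isIntegral y
    have hfd := IntermediateField.finiteDimensional_adjoin_pair hx hy
    rw [IsLocallyConstant.iff_exists_open]
    intro g
    refine ⟨(fun h : Kb ≃ₐ[K] Kb => g⁻¹ * h) ⁻¹'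
      ((IntermediateField.adjoin K {x, y}).fixingSubgroup : Set (Kb ≃ₐ[K] Kb)),
      (IntermediateField.fixingSubgroup_isOpen _).preimage (continuous_const_mul _), ?_, ?_⟩
    · show g⁻¹ * g ∈ (IntermediateField.adjoin K {x, y}).fixingSubgroup
      rw [inv_mul_cancel]
      exact one_mem _
    · intro h hh
      have h1 : ∀ z ∈ IntermediateField.adjoin K {x, y}, (g⁻¹ * h) z = z :=
        (IntermediateField.mem_fixingSubgroup_iff _ _).1 hh
      have h2 : ∀ z ∈ IntermediateField.adjoin K {x, y}, h z = g z := by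
        intro z hz
        have h3 : g ((g⁻¹ * h) z) = g z := by rw [h1 z hz]
        rw [← h3, ← AlgEquiv.mul_apply, mul_inv_cancel_left]
      show Point.some _ _ _ = Point.some _ _ _
      simp only [Point.some.injEq]
      exact ⟨h2 x (IntermediateField.subset_adjoin K _ (by simp)),
        h2 y (IntermediateField.subset_adjoin K _ (by simp))⟩

theorem ln_main [Finite k] (hkK : ∀ a : K, IsAlgebraic k a → a ∈ Set.range (algebraMap k K))
    (p : ℕ) [Fact p.Prime] [CharP k p] (hLN : LangNeron k W Kb p) (ℓ : ℕ) (hℓ : ℓ.Prime)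
    (hℓp : ℓ ≠ p) (c : ℕ → (Kb ≃ₐ[K] Kb) → Pts W Kb) (hc : ShaSys W k ℓ c)
    (hgeo : ∀ n, Principal W (T1B.geo k K Kb) (c n)) (n : ℕ) : Principal W ⊤ (c n) := by
  obtain ⟨φ, hφ⟩ := ln_frob (k := k) (K := K) (Kb := Kb) hkK
  obtain ⟨m, hm, hbd⟩ := ln_bound W p hLN (Fact.out : p.Prime).ne_zero φ hφ
  obtain ⟨a, m', hm', hmm⟩ := Nat.exists_eq_pow_mul_and_not_dvd hm.ne' ℓ hℓ.ne_one
  obtain ⟨ht1, ht2⟩ := c_tors W ℓ c hc
  obtain ⟨P, hP⟩ := hgeo (n + a)
  have hcr : Crossed W (fun g => c (n + a) g - (act W g P - P)) := by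
    refine ⟨?_, fun g h => ?_⟩
    · exact (hc.crossed (n + a)).1.sub ((lnm_lc W P).sub (IsLocallyConstant.const P))
    · show c (n + a) (g * h) - (act W (g * h) P - P) = _
      rw [(hc.crossed (n + a)).2, lnm_act_mul]
      simp only [map_sub]
      abel
  obtain ⟨r, Q, hQ⟩ := hbd (fun g => c (n + a) g - (act W g P - P)) hcr
    (fun s hs => by rw [hP s hs, sub_self])
  obtain ⟨R, hR⟩ := ht2 n a
  have hb : Principal W ⊤ (fun g => (m' * p ^ r) • c n g) := by
    refine ⟨Q + (m * p ^ r) • P - (m' * p ^ r) • R, fun g _ => ?_⟩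
    have h1 := hQ g trivial
    have h2 := hR g trivial
    simp only at h1 h2
    have h3 : c n g = ℓ ^ a • c (n + a) g - (act W g R - R) := by
      rw [← h2]
      abel
    have h4 : (m * p ^ r) • c (n + a) g =
        act W g Q - Q + (m * p ^ r) • (act W g P - P) := by
      rw [← h1, smul_sub]
      abel
    show (m' * p ^ r) • c n g = _
    rw [h3, smul_sub, smul_smul, show m' * p ^ r * ℓ ^ a = m * p ^ r by rw [hmm]; ring, h4]
    simp only [map_add, map_sub, map_nsmul, smul_sub]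
    abel
  refine c_cop W ⊤ (c n) (ℓ ^ n) (m' * p ^ r) ?_ (ht1 n) hb
  refine Nat.Coprime.mul_right ?_ ?_
  · exact Nat.Coprime.pow_left n ((Nat.Prime.coprime_iff_not_dvd hℓ).2 hm')
  · exact Nat.Coprime.pow n r ((Nat.coprime_primes hℓ (Fact.out : p.Prime)).2 hℓp)

end

end Pool.Agent.EFF

end
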