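import Pool.Agent.EFM.Fam
import Pool.Agent.EFM.Cub

/-!
# The parametrization of the rational elliptic surface
-/

set_option autoImplicit false

section


namespace Pool.Agent.EFF

open Polynomial

open scoped Classical

universe u v w

section

theorem i_exp {k : Type u} [CommRing k] {R : Type v} [CommRing R] [Algebra k R] (a₂ a₄ a₆ : k[X])
    (hD : Deg a₂ a₄ a₆) (e : k) (he : Inf a₂ a₄ a₆ e) (u t : R) :
    cub a₂ a₄ a₆ (u + algebraMap k R e * t) t =
      aeval u (PA a₂ a₄ a₆ e) * t ^ 2 + aeval u (PB a₂ a₄ a₆ e) * t + aeval u (PC a₂ a₄ a₆) := by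
  obtain ⟨h2, h4, h6⟩ := hD
  have e2 : ∀ x : R, aeval x a₂ =
      algebraMap k R (a₂.coeff 0) + algebraMap k R (a₂.coeff 1) * x := by
    intro x
    rw [aeval_eq_sum_range' (n := 2) (by omega)]
    simp [Finset.sum_range_succ, Algebra.smul_def]
  have e4 : ∀ x : R, aeval x a₄ = algebraMap k R (a₄.coeff 0) +
      algebraMap k R (a₄.coeff 1) * x + algebraMap k R (a₄.coeff 2) * x ^ 2 := by
    intro x
    rw [aeval_eq_sum_range' (n := 3) (by omega)]
    simp [Finset.sum_range_succ, Algebra.smul_def]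
  have e6 : ∀ x : R, aeval x a₆ = algebraMap k R (a₆.coeff 0) +
      algebraMap k R (a₆.coeff 1) * x + algebraMap k R (a₆.coeff 2) * x ^ 2 +
      algebraMap k R (a₆.coeff 3) * x ^ 3 := by
    intro x
    rw [aeval_eq_sum_range' (n := 4) (by omega)]
    simp [Finset.sum_range_succ, Algebra.smul_def]
  have he' := congrArg (algebraMap k R) he
  simp only [map_add, map_mul, map_pow, map_zero] at he'
  unfold cub PA PB PC
  rw [e2, e4, e6]
  simp only [map_add, map_mul, map_pow, aeval_X, aeval_C, map_ofNat]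
  linear_combination (t ^ 3) * he'

end

end Pool.Agent.EFF

end

section


namespace Pool.Agent.EFF

open Polynomial

open scoped Classical

universe u v w

section

private theorem i_disc_coeffs {k : Type u} [Field k] (c4 c3 c2 c1 c0 : k)
    (h : (C c4 * X ^ 4 + C c3 * X ^ 3 + C c2 * X ^ 2 + C c1 * X + C c0 : k[X]) = 0) :
    c4 = 0 ∧ c3 = 0 ∧ c2 = 0 ∧ c1 = 0 ∧ c0 = 0 := by
  have h4 := congrArg (fun p : k[X] => p.coeff 4) h
  have h3 := congrArg (fun p : k[X] => p.coeff 3) h
  have h2 := congrArg (fun p : k[X] => p.coeff 2) h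
  have h1 := congrArg (fun p : k[X] => p.coeff 1) h
  have h0 := congrArg (fun p : k[X] => p.coeff 0) h
  simp [coeff_X, coeff_C] at h4 h3 h2 h1 h0
  exact ⟨h4, h3, h2, h1, h0⟩

theorem i_disc {k : Type u} [Field k] (hk : (2 : k) ≠ 0) (a₂ a₄ a₆ : k[X])
    (hD : Deg a₂ a₄ a₆) (hN : NonIso a₂ a₄ a₆) (e : k) (he : Inf a₂ a₄ a₆ e) :
    PB a₂ a₄ a₆ e ^ 2 - 4 * PA a₂ a₄ a₆ e * PC a₂ a₄ a₆ ≠ 0 := by
  intro h
  have p2 : a₂ = C (a₂.coeff 0) + C (a₂.coeff 1) * X := by
    rw [add_comm]
    exact eq_X_add_C_of_natDegree_le_one hD.1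
  have p4 : a₄ = C (a₄.coeff 0) + C (a₄.coeff 1) * X + C (a₄.coeff 2) * X ^ 2 := by
    have h1 := a₄.as_sum_range_C_mul_X_pow' (n := 3) (Nat.lt_succ_of_le hD.2.1)
    rw [Finset.sum_range_succ, Finset.sum_range_succ, Finset.sum_range_one, pow_zero, mul_one,
      pow_one] at h1
    exact h1
  have p6 : a₆ = C (a₆.coeff 0) + C (a₆.coeff 1) * X + C (a₆.coeff 2) * X ^ 2 +
      C (a₆.coeff 3) * X ^ 3 := by
    have h1 := a₆.as_sum_range_C_mul_X_pow' (n := 4) (Nat.lt_succ_of_le hD.2.2)
    rw [Finset.sum_range_succ, Finset.sum_range_succ, Finset.sum_range_succ, Finset.sum_range_one,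
      pow_zero, mul_one, pow_one] at h1
    exact h1
  obtain ⟨hΔ, hj⟩ := hN
  have e2 : (aeval (X : k[X])) a₂ = a₂ := by
    rw [aeval_X_left, AlgHom.id_apply]
  have e4 : (aeval (X : k[X])) a₄ = a₄ := by
    rw [aeval_X_left, AlgHom.id_apply]
  have e6 : (aeval (X : k[X])) a₆ = a₆ := by
    rw [aeval_X_left, AlgHom.id_apply]
  have hΔ2 : (crv a₂ a₄ a₆ (X : k[X])).Δ =
      16 * (a₂ ^ 2 * a₄ ^ 2 - 4 * a₂ ^ 3 * a₆ - 4 * a₄ ^ 3 - 27 * a₆ ^ 2 + 18 * a₂ * a₄ * a₆) := by
    simp only [crv, WeierstrassCurve.Δ, WeierstrassCurve.b₂, WeierstrassCurve.b₄,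
      WeierstrassCurve.b₆, WeierstrassCurve.b₈, e2, e4, e6]
    ring
  have hc42 : (crv a₂ a₄ a₆ (X : k[X])).c₄ = 16 * (a₂ ^ 2 - 3 * a₄) := by
    simp only [crv, WeierstrassCurve.c₄, WeierstrassCurve.b₂, WeierstrassCurve.b₄, e2, e4]
    ring
  rw [hΔ2] at hΔ hj
  rw [hc42] at hj
  unfold Inf at he
  unfold PA PB PC at h
  generalize a₂.coeff 0 = α0 at *
  generalize a₂.coeff 1 = α1 at *
  generalize a₄.coeff 0 = β0 at *
  generalize a₄.coeff 1 = β1 at *
  generalize a₄.coeff 2 = β2 at *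
  generalize a₆.coeff 0 = γ0 at *
  generalize a₆.coeff 1 = γ1 at *
  generalize a₆.coeff 2 = γ2 at *
  generalize a₆.coeff 3 = γ3 at *
  have four : (4 : k) ≠ 0 := by
    have h1 : (4 : k) = 2 * 2 := by norm_num
    rw [h1]
    exact mul_ne_zero hk hk
  obtain ⟨h4, h3, h2, h1, h0⟩ := i_disc_coeffs
    ((3 * e + α1) ^ 2 - 4 * (3 * e ^ 2 + 2 * α1 * e + β2))
    (2 * (3 * e + α1) * (2 * α0 * e + β1) - 4 * ((3 * e ^ 2 + 2 * α1 * e + β2) * α0 +
      (α0 * e ^ 2 + β1 * e + γ2)))
    ((2 * α0 * e + β1) ^ 2 + 2 * (3 * e + α1) * (β0 * e + γ1) -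
      4 * ((3 * e ^ 2 + 2 * α1 * e + β2) * β0 + (α0 * e ^ 2 + β1 * e + γ2) * α0))
    (2 * (2 * α0 * e + β1) * (β0 * e + γ1) -
      4 * ((3 * e ^ 2 + 2 * α1 * e + β2) * γ0 + (α0 * e ^ 2 + β1 * e + γ2) * β0))
    ((β0 * e + γ1) ^ 2 - 4 * ((α0 * e ^ 2 + β1 * e + γ2) * γ0))
    (by
      rw [← h]
      simp only [C_sub, C_add, C_mul, C_pow, map_ofNat]
      ring)
  by_cases hs : 3 * e + α1 = 0
  · -- the curve is isotrivial
    have g1 : α1 = -3 * e := by linear_combination hs
    have g2 : 3 * e ^ 2 + 2 * α1 * e + β2 = 0 := by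
      rw [hs] at h4
      have h5 : 4 * (3 * e ^ 2 + 2 * α1 * e + β2) = 0 := by linear_combination -h4
      exact (mul_eq_zero.1 h5).resolve_left four
    have g3 : α0 * e ^ 2 + β1 * e + γ2 = 0 := by
      rw [hs, g2] at h3
      have h5 : 4 * (α0 * e ^ 2 + β1 * e + γ2) = 0 := by linear_combination -h3
      exact (mul_eq_zero.1 h5).resolve_left four
    have g4 : 2 * α0 * e + β1 = 0 := by
      rw [hs, g2, g3] at h2
      have h5 : (2 * α0 * e + β1) ^ 2 = 0 := by linear_combination h2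
      exact pow_eq_zero_iff (two_ne_zero) |>.1 h5
    have g5 : β0 * e + γ1 = 0 := by
      rw [g3] at h0
      have h5 : (β0 * e + γ1) ^ 2 = 0 := by linear_combination h0
      exact pow_eq_zero_iff (two_ne_zero) |>.1 h5
    have k1 : β1 = -2 * α0 * e := by linear_combination g4
    have k2 : γ1 = -β0 * e := by linear_combination g5
    have k3 : β2 = 3 * e ^ 2 := by
      rw [g1] at g2
      linear_combination g2
    have k4 : γ2 = α0 * e ^ 2 := by
      rw [k1] at g3
      linear_combination g3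
    have k5 : γ3 = -e ^ 3 := by
      rw [g1, k3] at he
      linear_combination he
    have q2 : a₂ = C α0 - 3 * C e * X := by
      rw [p2, g1]
      simp only [C_neg, C_mul, map_ofNat]
      ring
    have q4 : a₄ = C β0 - 2 * C α0 * C e * X + 3 * C e ^ 2 * X ^ 2 := by
      rw [p4, k1, k3]
      simp only [C_neg, C_mul, C_pow, map_ofNat]
      ring
    have q6 : a₆ = C γ0 - C β0 * C e * X + C α0 * C e ^ 2 * X ^ 2 - C e ^ 3 * X ^ 3 := by
      rw [p6, k2, k4, k5]
      simp only [C_neg, C_mul, C_pow]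
      ring
    have r1 : 16 * (a₂ ^ 2 * a₄ ^ 2 - 4 * a₂ ^ 3 * a₆ - 4 * a₄ ^ 3 - 27 * a₆ ^ 2 +
        18 * a₂ * a₄ * a₆) = C (16 * (α0 ^ 2 * β0 ^ 2 - 4 * α0 ^ 3 * γ0 - 4 * β0 ^ 3 -
          27 * γ0 ^ 2 + 18 * α0 * β0 * γ0)) := by
      rw [q2, q4, q6]
      simp only [C_sub, C_add, C_mul, C_pow, map_ofNat]
      ring
    have r2 : 16 * (a₂ ^ 2 - 3 * a₄) = C (16 * (α0 ^ 2 - 3 * β0)) := by
      rw [q2, q4]
      simp only [C_sub, C_mul, C_pow, map_ofNat]
      ring
    rw [r1] at hΔ hj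
    rw [r2] at hj
    generalize (16 * (α0 ^ 2 * β0 ^ 2 - 4 * α0 ^ 3 * γ0 - 4 * β0 ^ 3 -
          27 * γ0 ^ 2 + 18 * α0 * β0 * γ0)) = d at *
    generalize (16 * (α0 ^ 2 - 3 * β0)) = c at *
    have hd : d ≠ 0 := by
      intro hd
      rw [hd, C_0] at hΔ
      exact hΔ rfl
    apply hj (c ^ 3 / d)
    rw [← C_pow, ← C_mul, div_mul_cancel₀ _ hd]
  · -- the curve is singular
    obtain ⟨s, hs2⟩ : ∃ s : k, 3 * e + α1 = 2 * s := ⟨(3 * e + α1) / 2, by field_simp⟩
    have hs0 : s ≠ 0 := by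
      intro h5
      rw [h5, mul_zero] at hs2
      exact hs hs2
    have g1 : α1 = 2 * s - 3 * e := by linear_combination hs2
    have g2 : 3 * e ^ 2 + 2 * α1 * e + β2 = s ^ 2 := by
      rw [hs2] at h4
      have h5 : 4 * (3 * e ^ 2 + 2 * α1 * e + β2 - s ^ 2) = 0 := by linear_combination -h4
      exact sub_eq_zero.1 ((mul_eq_zero.1 h5).resolve_left four)
    obtain ⟨u0, hu0⟩ : ∃ u0 : k, α0 * e ^ 2 + β1 * e + γ2 = -u0 * s ^ 2 :=
      ⟨-(α0 * e ^ 2 + β1 * e + γ2) / s ^ 2, by field_simp⟩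
    obtain ⟨w, hw⟩ : ∃ w : k, α0 = 2 * w - u0 := ⟨(α0 + u0) / 2, by field_simp; ring⟩
    have g4 : 2 * α0 * e + β1 = 2 * s * (w - u0) := by
      rw [hs2, g2, hu0] at h3
      have h5 : 4 * s * (2 * α0 * e + β1 - 2 * s * (w - u0)) = 0 := by
        rw [hw] at h3 ⊢
        linear_combination h3
      exact sub_eq_zero.1 ((mul_eq_zero.1 h5).resolve_left (mul_ne_zero four hs0))
    have g5 : β0 * e + γ1 = s * (β0 - w ^ 2) := by
      rw [hs2, g2, hu0, g4] at h2
      have h5 : 4 * s * (β0 * e + γ1 - s * (β0 - w ^ 2)) = 0 := by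
        rw [hw] at h2
        linear_combination h2
      exact sub_eq_zero.1 ((mul_eq_zero.1 h5).resolve_left (mul_ne_zero four hs0))
    have g6 : γ0 = w * (β0 - w ^ 2 + u0 * w) := by
      rw [g4, g5, g2, hu0] at h1
      have h5 : 4 * s ^ 2 * (γ0 - w * (β0 - w ^ 2 + u0 * w)) = 0 := by
        linear_combination -h1
      exact sub_eq_zero.1 ((mul_eq_zero.1 h5).resolve_left (mul_ne_zero four (pow_ne_zero 2 hs0)))
    have g7 : β0 = w ^ 2 - 2 * u0 * w := by
      rw [g5, hu0, g6] at h0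
      have h5 : s ^ 2 * (β0 - w ^ 2 + 2 * u0 * w) ^ 2 = 0 := by
        linear_combination h0
      have h6 := (pow_eq_zero_iff (two_ne_zero)).1 ((mul_eq_zero.1 h5).resolve_left (pow_ne_zero 2 hs0))
      linear_combination h6
    have k0 : γ0 = -u0 * w ^ 2 := by
      rw [g6, g7]
      ring
    have k1 : β1 = 2 * s * (w - u0) - 2 * (2 * w - u0) * e := by
      rw [hw] at g4
      linear_combination g4
    have k2 : γ1 = -2 * s * u0 * w - (w ^ 2 - 2 * u0 * w) * e := by
      rw [g7] at g5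
      linear_combination g5
    have k3 : β2 = s ^ 2 - 4 * s * e + 3 * e ^ 2 := by
      rw [g1] at g2
      linear_combination g2
    have k4 : γ2 = -u0 * s ^ 2 - (2 * w - u0) * e ^ 2 -
        (2 * s * (w - u0) - 2 * (2 * w - u0) * e) * e := by
      rw [k1, hw] at hu0
      linear_combination hu0
    have k5 : γ3 = -e ^ 3 - (2 * s - 3 * e) * e ^ 2 - (s ^ 2 - 4 * s * e + 3 * e ^ 2) * e := by
      rw [g1, k3] at he
      linear_combination he
    have q2 : a₂ = -(C e * X + C u0) + 2 * ((C s - C e) * X + C w) := by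
      rw [p2, g1, hw]
      simp only [C_sub, C_mul, map_ofNat]
      ring
    have q4 : a₄ = -2 * (C e * X + C u0) * ((C s - C e) * X + C w) +
        ((C s - C e) * X + C w) ^ 2 := by
      rw [p4, k1, k3, g7]
      simp only [C_sub, C_add, C_mul, C_pow, map_ofNat]
      ring
    have q6 : a₆ = -(C e * X + C u0) * ((C s - C e) * X + C w) ^ 2 := by
      rw [p6, k0, k2, k4, k5]
      simp only [C_sub, C_add, C_mul, C_pow, C_neg, map_ofNat]
      ring
    apply hΔ
    rw [q2, q4, q6]
    ring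

end

end Pool.Agent.EFF

end

section


namespace Pool.Agent.EFF

open Polynomial

open scoped Classical

universe u v w

section

theorem i_norm {k : Type u} [Field k] [IsAlgClosed k] (D : k[X]) :
    ∃ U V : k[X], U ^ 2 - X * V ^ 2 = D := by
  have hmul : ∀ D₁ D₂ : k[X], (∃ U V : k[X], U ^ 2 - X * V ^ 2 = D₁) →
      (∃ U V : k[X], U ^ 2 - X * V ^ 2 = D₂) → ∃ U V : k[X], U ^ 2 - X * V ^ 2 = D₁ * D₂ := by
    rintro _ _ ⟨U, V, rfl⟩ ⟨U', V', rfl⟩
    exact ⟨U * U' + X * V * V', U * V' + V * U', by ring⟩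
  have hC : ∀ c : k, ∃ U V : k[X], U ^ 2 - X * V ^ 2 = C c := by
    intro c
    obtain ⟨s, hs⟩ := IsAlgClosed.exists_pow_nat_eq c (n := 2) (by norm_num)
    exact ⟨C s, 0, by rw [← C_pow, hs]; ring⟩
  have hX : ∀ a : k, ∃ U V : k[X], U ^ 2 - X * V ^ 2 = X - C a := by
    intro a
    obtain ⟨s, hs⟩ := IsAlgClosed.exists_pow_nat_eq (-a) (n := 2) (by norm_num)
    obtain ⟨i, hi⟩ := IsAlgClosed.exists_pow_nat_eq (-1 : k) (n := 2) (by norm_num)
    refine ⟨C s, C i, ?_⟩
    rw [← C_pow, ← C_pow, hs, hi, C_neg, C_neg, C_1]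
    ring
  have hprod : ∀ m : Multiset k, ∃ U V : k[X], U ^ 2 - X * V ^ 2 = (m.map fun a => X - C a).prod := by
    intro m
    induction m using Multiset.induction with
    | empty =>
      rw [Multiset.map_zero, Multiset.prod_zero]
      exact ⟨1, 0, by ring⟩
    | cons a m ih =>
      rw [Multiset.map_cons, Multiset.prod_cons]
      exact hmul _ _ (hX a) ih
  rw [(IsAlgClosed.splits D).eq_prod_roots]
  exact hmul _ _ (hC _) (hprod _)

end

end Pool.Agent.EFF

end

section


namespace Pool.Agent.EFF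

open Polynomial

open scoped Classical

universe u v w

section

theorem i_pt_one {k : Type u} [Field k] [IsAlgClosed k] (hk : (2 : k) ≠ 0) (a : k) (ha : a ≠ 0)
    (B D : k[X]) : ∃ p r q : k[X], Cone (C a) B D p r q := by
  obtain ⟨s, hs⟩ := IsAlgClosed.exists_pow_nat_eq a (n := 2) two_pos
  have hs0 : s ≠ 0 := by
    rintro rfl
    apply ha
    rw [← hs]
    ring
  subst hs
  refine ⟨C (1 / (2 * s ^ 2)) * (C (1 / 2) * (B ^ 2 - 4 * C (s ^ 2) * D + 1) - B),
    C (1 / (4 * s)) * (B ^ 2 - 4 * C (s ^ 2) * D - 1), 1, one_ne_zero, isCoprime_one_right, ?_⟩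
  apply Polynomial.funext
  intro x
  have h4 : (4 : k) ≠ 0 := by
    have : (4 : k) = 2 * 2 := by norm_num
    rw [this]
    exact mul_ne_zero hk hk
  simp only [eval_add, eval_mul, eval_sub, eval_pow, eval_C, eval_one, eval_ofNat]
  field_simp
  ring

theorem i_pt_two {k : Type u} [Field k] [IsAlgClosed k] (hk : (2 : k) ≠ 0) (a u₀ : k)
    (ha : a ≠ 0) (B D : k[X]) : ∃ p r q : k[X], Cone (C a * (X - C u₀)) B D p r q := by
  obtain ⟨s, hs⟩ := IsAlgClosed.exists_pow_nat_eq a (n := 2) two_pos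
  have hs0 : s ≠ 0 := by
    rintro rfl
    apply ha
    rw [← hs]
    ring
  have h4 : (4 : k) ≠ 0 := by
    have : (4 : k) = 2 * 2 := by norm_num
    rw [this]
    exact mul_ne_zero hk hk
  obtain ⟨Δ, hΔ⟩ : ∃ Δ : k[X], Δ = B ^ 2 - 4 * (C a * (X - C u₀)) * D := ⟨_, rfl⟩
  obtain ⟨U₁, V₁, hUV⟩ := i_norm (Δ.comp (X + C u₀))
  obtain ⟨U, V, hUV'⟩ : ∃ U V : k[X], U ^ 2 - (X - C u₀) * V ^ 2 = Δ := by
    refine ⟨U₁.comp (X - C u₀), V₁.comp (X - C u₀), ?_⟩
    have h1 := congrArg (fun f : k[X] => f.comp (X - C u₀)) hUV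
    simp only [sub_comp, mul_comp, pow_comp, X_comp, comp_assoc, add_comp, C_comp] at h1
    rw [h1, sub_add_cancel, comp_X]
  have hev : eval u₀ U ^ 2 = eval u₀ B ^ 2 := by
    have h1 := congrArg (eval u₀) hUV'
    rw [hΔ] at h1
    simpa using h1
  obtain ⟨U', hU', hUe⟩ : ∃ U' : k[X], U' ^ 2 = U ^ 2 ∧ eval u₀ U' = eval u₀ B := by
    rcases sq_eq_sq_iff_eq_or_eq_neg.1 hev with h | h
    · exact ⟨U, rfl, h⟩
    · exact ⟨-U, by ring, by rw [eval_neg, h, neg_neg]⟩
  have hdvd : X - C u₀ ∣ U' - B := by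
    rw [dvd_iff_isRoot, IsRoot.def, eval_sub, hUe, sub_self]
  obtain ⟨P, hP⟩ := hdvd
  refine ⟨C (1 / (2 * a)) * P, C (1 / (2 * s)) * V, 1, one_ne_zero, isCoprime_one_right, ?_⟩
  have hne : (4 : k[X]) * (C a * (X - C u₀)) ≠ 0 := by
    refine mul_ne_zero ?_ (mul_ne_zero (C_ne_zero.2 ha) (X_sub_C_ne_zero u₀))
    have : (4 : k[X]) = C 4 := (map_ofNat (C : k →+* k[X]) 4).symm
    rw [this]
    exact C_ne_zero.2 h4
  refine mul_left_cancel₀ hne ?_
  have hUB : U' = B + (X - C u₀) * P := by rw [← hP]; ring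
  have e1 : (2 : k[X]) * C a * C (1 / (2 * a)) = 1 := by
    have : (2 : k[X]) = C 2 := (map_ofNat (C : k →+* k[X]) 2).symm
    rw [this, ← C_mul, ← C_mul]
    have h : 2 * a * (1 / (2 * a)) = 1 := by field_simp
    rw [h, C_1]
  have e2 : (4 : k[X]) * C a * C (1 / (2 * s)) ^ 2 = 1 := by
    have : (4 : k[X]) = C 4 := (map_ofNat (C : k →+* k[X]) 4).symm
    rw [this, ← C_mul, ← C_pow, ← C_mul, ← hs]
    have h : 4 * s ^ 2 * (1 / (2 * s)) ^ 2 = 1 := by
      field_simp
      norm_num
    rw [h, C_1]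
  have e3 : (X - C u₀) * V ^ 2 = U' ^ 2 - Δ := by rw [hU', ← hUV']; ring
  calc 4 * (C a * (X - C u₀)) * (C (1 / (2 * s)) * V) ^ 2
      = (4 * C a * C (1 / (2 * s)) ^ 2) * ((X - C u₀) * V ^ 2) := by ring
    _ = U' ^ 2 - Δ := by rw [e2, one_mul, e3]
    _ = (B + (2 * C a * C (1 / (2 * a))) * ((X - C u₀) * P)) ^ 2 - Δ := by
      rw [e1, one_mul, hUB]
    _ = _ := by rw [hΔ]; ring

theorem i_pt_three {k : Type u} [Field k] [IsAlgClosed k] (B D : k[X]) (hB : B ≠ 0) :
    ∃ p r q : k[X], Cone 0 B D p r q := by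
  obtain ⟨d, hd⟩ := Infinite.exists_notMem_finset (B.roots.toFinset.image fun u => eval u D)
  obtain ⟨c, hc⟩ := IsAlgClosed.exists_pow_nat_eq d (n := 2) two_pos
  refine ⟨C d - D, C c * B, B, hB, ?_, ?_⟩
  · rw [Polynomial.isCoprime_iff_aeval_ne_zero_of_isAlgClosed (k := k) k]
    intro u
    by_cases hu : (aeval u B : k) = 0
    · left
      intro h
      apply hd
      rw [Finset.mem_image]
      refine ⟨u, ?_, ?_⟩
      · rw [Multiset.mem_toFinset, mem_roots hB, IsRoot.def]
        simpa using hu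
      · have h1 : eval u (C d - D) = 0 := by simpa using h
        rw [eval_sub, eval_C, sub_eq_zero] at h1
        exact h1.symm
    · exact Or.inr hu
  · rw [mul_pow, ← C_pow, hc]
    ring

theorem i_pt {k : Type u} [Field k] [IsAlgClosed k] (hk : (2 : k) ≠ 0) (A B D : k[X])
    (hA : A.natDegree ≤ 1) (hAB : A ≠ 0 ∨ B ≠ 0) : ∃ p r q : k[X], Cone A B D p r q := by
  have hA' := eq_X_add_C_of_natDegree_le_one hA
  by_cases h1 : A.coeff 1 = 0
  · by_cases h0 : A.coeff 0 = 0
    · have hA0 : A = 0 := by rw [hA', h1, h0]; simp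
      subst hA0
      exact i_pt_three B D (hAB.resolve_left (fun h => h rfl))
    · rw [h1, C_0, zero_mul, zero_add] at hA'
      rw [hA']
      exact i_pt_one hk _ h0 B D
  · have : A = C (A.coeff 1) * (X - C (-(A.coeff 0 / A.coeff 1))) := by
      conv_lhs => rw [hA']
      rw [C_neg, sub_neg_eq_add, mul_add, ← C_mul, mul_div_cancel₀ _ h1]
    rw [this]
    exact i_pt_two hk _ _ h1 B D

end

end Pool.Agent.EFF

end

section


namespace Pool.Agent.EFF

open Polynomial

open scoped Classical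

universe u v w

section

/-- algebraic elements -/
theorem i_irrA_alg {k : Type u} {M' : Type v} [Field k] [Field M'] [Algebra k M'] {u : M'}
    (hu : IsAlgebraic k u) (f : k[X]) : IsAlgebraic k (aeval u f) := by
  have h1 : Algebra.adjoin k {u} ≤ integralClosure k M' := by
    rw [Algebra.adjoin_le_iff, Set.singleton_subset_iff]
    exact hu.isIntegral
  have h2 : aeval u f ∈ integralClosure k M' := h1 (aeval_mem_adjoin_singleton k u)
  exact IsIntegral.isAlgebraic h2

/-- common divisors of the coefficients are units -/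
theorem i_irrA_prim {k : Type u} {M : Type v} [Field k] [Field M] [Algebra k M] (hk : (2 : k) ≠ 0)
    (A B D p r q : k[X]) (h : Cone A B D p r q) (hd : B ^ 2 - 4 * A * D ≠ 0) (t : M)
    (ht : Transcendental k t) (g : M[X])
    (ha : g ∣ p.map (algebraMap k M) - C t * q.map (algebraMap k M))
    (ha0 : p.map (algebraMap k M) - C t * q.map (algebraMap k M) ≠ 0)
    (hb : g ∣ 2 * r.map (algebraMap k M))
    (hc : g ∣ A.map (algebraMap k M) * (p.map (algebraMap k M) + C t * q.map (algebraMap k M)) +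
        B.map (algebraMap k M) * q.map (algebraMap k M)) : IsUnit g := by
  by_contra hg
  have hg0 : g ≠ 0 := by
    rintro rfl
    exact ha0 (zero_dvd_iff.1 ha)
  have hdeg : g.degree ≠ 0 := fun h0 => hg (isUnit_iff_degree_eq_zero.2 h0)
  obtain ⟨M', _, _, _, _⟩ : ∃ (M' : Type v) (_ : Field M') (_ : Algebra M M')
      (_ : IsAlgClosed M'), True := ⟨AlgebraicClosure M, inferInstance, inferInstance,
    inferInstance, trivial⟩
  letI : Algebra k M' := ((algebraMap M M').comp (algebraMap k M)).toAlgebra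
  haveI : IsScalarTower k M M' := IsScalarTower.of_algebraMap_eq' rfl
  obtain ⟨u0, hu0⟩ := IsAlgClosed.exists_aeval_eq_zero M' g hdeg
  have hmap : ∀ f : k[X], aeval u0 (f.map (algebraMap k M)) = aeval u0 f := fun f =>
    aeval_map_algebraMap M u0 f
  have hz : ∀ f : M[X], g ∣ f → aeval u0 f = 0 := by
    rintro f ⟨e, rfl⟩
    rw [map_mul, hu0, zero_mul]
  set τ : M' := algebraMap M M' t with hτ
  have h1 : aeval u0 p - τ * aeval u0 q = 0 := by
    have := hz _ ha
    rw [map_sub, map_mul, aeval_C, hmap, hmap] at this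
    exact this
  have h2 : aeval u0 r = 0 := by
    have h3 := hz _ hb
    rw [map_mul, hmap] at h3
    have h4 : aeval u0 (2 : M[X]) = (algebraMap k M' (2 : k)) := by
      rw [map_ofNat, map_ofNat]
    rw [h4] at h3
    exact (mul_eq_zero.1 h3).resolve_left ((_root_.map_ne_zero _).2 hk)
  have h3 : aeval u0 A * (aeval u0 p + τ * aeval u0 q) + aeval u0 B * aeval u0 q = 0 := by
    have := hz _ hc
    rw [map_add, map_mul, map_mul, map_add, map_mul, aeval_C, hmap, hmap, hmap, hmap] at this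
    exact this
  have hq : aeval u0 q ≠ 0 := by
    intro hq
    rw [hq, mul_zero, sub_zero] at h1
    obtain ⟨a, b, hab⟩ := h.cop
    have h4 := congrArg (aeval u0) hab
    rw [map_add, map_mul, map_mul, h1, hq, mul_zero, mul_zero, add_zero, map_one] at h4
    exact zero_ne_one h4
  have h5 : aeval u0 (2 * A * p + B * q) = 0 := by
    rw [map_add, map_mul, map_mul, map_mul, map_ofNat]
    linear_combination (aeval u0 A) * h1 + h3
  have halg : IsAlgebraic k u0 := by
    by_cases hr : r = 0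
    · refine ⟨2 * A * p + B * q, ?_, h5⟩
      intro h6
      have h7 := h.eq
      rw [hr] at h7
      have h8 : (2 * A * p + B * q) ^ 2 = (B ^ 2 - 4 * A * D) * q ^ 2 := by
        linear_combination (-4 * A) * h7
      rw [h6] at h8
      have h9 := mul_ne_zero hd (pow_ne_zero 2 h.q0)
      apply h9
      rw [← h8]
      ring
    · exact ⟨r, hr, h2⟩
  apply ht
  rw [← isAlgebraic_algebraMap_iff (A := M') (algebraMap M M').injective]
  have h6 : algebraMap M M' t = aeval u0 p * (aeval u0 q)⁻¹ := by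
    rw [← hτ, eq_mul_inv_iff_mul_eq₀ hq]
    linear_combination -h1
  rw [h6]
  exact (i_irrA_alg halg p).mul (i_irrA_alg halg q).inv

/-- the discriminant of a product -/
theorem i_irrA_disc {R : Type v} [CommRing R] [IsDomain R] {a b c : R}
    {G H : R[X]} (h : (C a * X ^ 2 - C b * X + C c : R[X]) = G * H) (hG : G.natDegree ≤ 1)
    (hH : H.natDegree ≤ 1) : ∃ w : R, b ^ 2 - 4 * a * c = w ^ 2 := by
  rw [eq_X_add_C_of_natDegree_le_one hG, eq_X_add_C_of_natDegree_le_one hH] at h
  set g1 := G.coeff 1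
  set g0 := G.coeff 0
  set h1 := H.coeff 1
  set h0 := H.coeff 0
  have e : (C g1 * X + C g0) * (C h1 * X + C h0) =
      (C (g1 * h1) * X ^ 2 - C (-(g1 * h0 + g0 * h1)) * X + C (g0 * h0) : R[X]) := by
    simp only [C_mul, C_neg, C_add]
    ring
  rw [e] at h
  have e2 : ∀ x y z : R, (C x * X ^ 2 - C y * X + C z : R[X]).coeff 2 = x ∧
      (C x * X ^ 2 - C y * X + C z : R[X]).coeff 1 = -y ∧
      (C x * X ^ 2 - C y * X + C z : R[X]).coeff 0 = z := by
    intro x y z
    refine ⟨?_, ?_, ?_⟩ <;> simp [coeff_X, coeff_C, coeff_X_pow]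
  have c2 := congrArg (fun f : R[X] => f.coeff 2) h
  have c1 := congrArg (fun f : R[X] => f.coeff 1) h
  have c0 := congrArg (fun f : R[X] => f.coeff 0) h
  simp only [(e2 _ _ _).1] at c2
  simp only [(e2 _ _ _).2.1] at c1
  simp only [(e2 _ _ _).2.2] at c0
  have c1' : b = -(g1 * h0 + g0 * h1) := neg_injective c1
  refine ⟨g1 * h0 - g0 * h1, ?_⟩
  rw [c2, c1', c0]
  ring

theorem i_irrA_nd {R : Type v} [CommRing R] [IsDomain R] {a b c : R} (ha : a ≠ 0) :
    (C a * X ^ 2 - C b * X + C c : R[X]).natDegree = 2 := by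
  have e : (C a * X ^ 2 - C b * X + C c : R[X]) = C a * X ^ 2 + C (-b) * X + C c := by
    rw [C_neg]
    ring
  rw [e]
  exact natDegree_quadratic ha

theorem i_irrA {k : Type u} {M : Type v} [Field k] [Field M] [Algebra k M] (hk : (2 : k) ≠ 0)
    (A B D p r q : k[X]) (h : Cone A B D p r q) (hA : A.natDegree ≤ 1) (hB : B.natDegree ≤ 2)
    (hD : D.Monic) (hD3 : D.natDegree = 3) (hd : B ^ 2 - 4 * A * D ≠ 0) (t : M)
    (ht : Transcendental k t) :
    Irreducible (C (p.map (algebraMap k M) - C t * q.map (algebraMap k M)) * X ^ 2 -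
      C (2 * r.map (algebraMap k M)) * X +
      C (A.map (algebraMap k M) * (p.map (algebraMap k M) + C t * q.map (algebraMap k M)) +
        B.map (algebraMap k M) * q.map (algebraMap k M)) : M[X][X]) := by
  classical
  set P := p.map (algebraMap k M) with hP
  set Q := q.map (algebraMap k M) with hQ
  set R := r.map (algebraMap k M) with hR
  set A' := A.map (algebraMap k M) with hA'
  set B' := B.map (algebraMap k M) with hB'
  set D' := D.map (algebraMap k M) with hD'
  have hQ0 : Q ≠ 0 := (Polynomial.map_ne_zero_iff (algebraMap k M).injective).2 h.q0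
  have heq : R ^ 2 = A' * P ^ 2 + B' * P * Q + D' * Q ^ 2 := by
    have := congrArg (fun f : k[X] => f.map (algebraMap k M)) h.eq
    simpa only [Polynomial.map_pow, Polynomial.map_add, Polynomial.map_mul] using this
  have ha0 : P - C t * Q ≠ 0 := by
    intro h0
    obtain ⟨i, hi⟩ : ∃ i, q.coeff i ≠ 0 := by
      by_contra hcon
      push Not at hcon
      exact h.q0 (Polynomial.ext fun i => by rw [hcon i, coeff_zero])
    have h1 := congrArg (fun f : M[X] => f.coeff i) h0
    simp only [coeff_sub, coeff_C_mul, hP, hQ, coeff_map, coeff_zero] at h1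
    have hi' : algebraMap k M (q.coeff i) ≠ 0 := (_root_.map_ne_zero _).2 hi
    apply ht
    have h2 : t = algebraMap k M (p.coeff i / q.coeff i) := by
      rw [map_div₀, eq_div_iff hi']
      linear_combination -h1
    rw [h2]
    exact isAlgebraic_algebraMap _
  set E : M[X] := A' * C (t ^ 2) + B' * C t + D' with hE
  have hEdeg : E.natDegree = 3 := by
    have h1 : D'.natDegree = 3 := by
      rw [hD', natDegree_map, hD3]
    have h2 : (A' * C (t ^ 2) + B' * C t).natDegree < D'.natDegree := by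
      rw [h1]
      have h3 : (A' * C (t ^ 2)).natDegree ≤ 2 :=
        (natDegree_mul_C_le _ _).trans ((natDegree_map_le).trans (hA.trans (by norm_num)))
      have h4 : (B' * C t).natDegree ≤ 2 :=
        (natDegree_mul_C_le _ _).trans ((natDegree_map_le).trans hB)
      exact (natDegree_add_le_of_degree_le h3 h4).trans_lt (by norm_num)
    rw [hE, natDegree_add_eq_right_of_natDegree_lt h2, h1]
  have h2M : (2 : M) ≠ 0 := by
    have : algebraMap k M 2 = 2 := map_ofNat _ 2
    rw [← this]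
    exact (_root_.map_ne_zero _).2 hk
  have hnsq : ∀ w : M[X], (2 * R) ^ 2 - 4 * (P - C t * Q) * (A' * (P + C t * Q) + B' * Q) ≠
      w ^ 2 := by
    intro w hw
    have h1 : (2 * R) ^ 2 - 4 * (P - C t * Q) * (A' * (P + C t * Q) + B' * Q) =
        C (2 ^ 2) * (Q ^ 2 * E) := by
      rw [hE, C_pow, C_pow]
      have h2 : (C (2 : M) : M[X]) = 2 := rfl
      rw [h2]
      linear_combination 4 * heq
    rw [h1] at hw
    have hE0 : E ≠ 0 := by
      intro h0
      rw [h0, natDegree_zero] at hEdeg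
      omega
    have h2 := congrArg natDegree hw
    rw [natDegree_C_mul (pow_ne_zero 2 h2M), natDegree_mul (pow_ne_zero 2 hQ0) hE0, natDegree_pow,
      natDegree_pow, hEdeg] at h2
    omega
  have hprim : ∀ g : M[X], g ∣ P - C t * Q → g ∣ 2 * R → g ∣ A' * (P + C t * Q) + B' * Q →
      IsUnit g := fun g h1 h2 h3 =>
    i_irrA_prim hk A B D p r q h hd t ht g h1 ha0 h2 h3
  set F : M[X][X] := C (P - C t * Q) * X ^ 2 - C (2 * R) * X + C (A' * (P + C t * Q) + B' * Q)
    with hF
  have hFd : F.natDegree = 2 := i_irrA_nd ha0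
  have hF0 : F ≠ 0 := by
    intro h0
    rw [h0, natDegree_zero] at hFd
    omega
  have key : ∀ g : M[X], C g ∣ F → IsUnit (C g : M[X][X]) := by
    intro g hg
    rw [isUnit_C]
    have h1 := C_dvd_iff_dvd_coeff g F |>.1 hg
    have e2 : F.coeff 2 = P - C t * Q := by
      rw [hF]
      simp only [coeff_add, coeff_sub, coeff_C_mul, coeff_X_pow, coeff_X, coeff_C]
      norm_num
    have e1 : F.coeff 1 = -(2 * R) := by
      rw [hF]
      simp only [coeff_add, coeff_sub, coeff_C_mul, coeff_X_pow, coeff_X, coeff_C]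
      norm_num
    have e0 : F.coeff 0 = A' * (P + C t * Q) + B' * Q := by
      rw [hF]
      simp only [coeff_add, coeff_sub, coeff_C_mul, coeff_X_pow, coeff_X, coeff_C]
      norm_num
    apply hprim g
    · rw [← e2]; exact h1 2
    · have := h1 1
      rw [e1] at this
      exact (dvd_neg).1 this
    · rw [← e0]; exact h1 0
  refine ⟨fun hu => ?_, fun G H hGH => ?_⟩
  · have := natDegree_eq_zero_of_isUnit hu
    omega
  · have hG0 : G ≠ 0 := by
      rintro rfl
      rw [zero_mul] at hGH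
      exact hF0 hGH
    have hH0 : H ≠ 0 := by
      rintro rfl
      rw [mul_zero] at hGH
      exact hF0 hGH
    have hdeg : G.natDegree + H.natDegree = 2 := by
      rw [← natDegree_mul hG0 hH0, ← hGH, hFd]
    rcases Nat.eq_zero_or_pos G.natDegree with h1 | h1
    · left
      rw [eq_C_of_natDegree_eq_zero h1]
      apply key
      rw [← eq_C_of_natDegree_eq_zero h1, hGH]
      exact dvd_mul_right _ _
    rcases Nat.eq_zero_or_pos H.natDegree with h2 | h2
    · right
      rw [eq_C_of_natDegree_eq_zero h2]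
      apply key
      rw [← eq_C_of_natDegree_eq_zero h2, hGH]
      exact dvd_mul_left _ _
    obtain ⟨w, hw⟩ := i_irrA_disc hGH (by omega) (by omega)
    exact absurd hw (hnsq w)

end

end Pool.Agent.EFF

end

section


namespace Pool.Agent.EFF

open Polynomial

open scoped Classical

universe u v w

section

theorem i_irr {k : Type u} {M : Type v} [Field k] [Field M] [Algebra k M] (hk : (2 : k) ≠ 0)
    (A B D p r q : k[X]) (h : Cone A B D p r q) (hA : A.natDegree ≤ 1) (hB : B.natDegree ≤ 2)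
    (hD : D.Monic) (hD3 : D.natDegree = 3) (hd : B ^ 2 - 4 * A * D ≠ 0) (t : M)
    (ht : Transcendental k t) :
    Irreducible (MvPolynomial.map (algebraMap k M) (fE A B p r q) -
      MvPolynomial.C t * MvPolynomial.map (algebraMap k M) (gE A q)) := by
  -- the isomorphism
  let a : MvPolynomial (Fin 2) M →+* M[X][X] :=
    MvPolynomial.eval₂Hom ((C : M[X] →+* M[X][X]).comp (C : M →+* M[X])) ![C X, X]
  let b : M[X][X] →+* MvPolynomial (Fin 2) M :=
    Polynomial.eval₂RingHom (Polynomial.eval₂RingHom MvPolynomial.C (MvPolynomial.X 0)) (MvPolynomial.X 1)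
  have hab : a.comp b = RingHom.id _ := by
    apply Polynomial.ringHom_ext'
    · apply Polynomial.ringHom_ext'
      · ext m : 1
        simp [a, b]
      · simp [a, b]
    · simp [a, b]
  have hba : b.comp a = RingHom.id _ := by
    apply MvPolynomial.ringHom_ext
    · intro m
      simp [a, b]
    · intro i
      fin_cases i <;> simp [a, b]
  let Ψ : MvPolynomial (Fin 2) M ≃+* M[X][X] := RingEquiv.ofRingHom a b hab hba
  have hmv : ∀ f : k[X], Ψ (MvPolynomial.map (algebraMap k M) (toMv f)) = C (f.map (algebraMap k M)) := by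
    intro f
    have e : (a.comp (MvPolynomial.map (algebraMap k M))).comp (aeval (MvPolynomial.X 0 : MvPolynomial (Fin 2) k)).toRingHom =
        (C : M[X] →+* M[X][X]).comp (Polynomial.mapRingHom (algebraMap k M)) := by
      apply Polynomial.ringHom_ext'
      · ext m : 1
        simp [a]
      · simp [a]
    exact DFunLike.congr_fun e f
  rw [← MulEquiv.irreducible_iff Ψ]
  have h1 := i_irrA hk A B D p r q h hA hB hD hD3 hd t ht
  have e1 : Ψ (MvPolynomial.map (algebraMap k M) (fE A B p r q) -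
      MvPolynomial.C t * MvPolynomial.map (algebraMap k M) (gE A q)) =
      C (p.map (algebraMap k M) - C t * q.map (algebraMap k M)) * X ^ 2 -
      C (2 * r.map (algebraMap k M)) * X +
      C (A.map (algebraMap k M) * (p.map (algebraMap k M) + C t * q.map (algebraMap k M)) +
        B.map (algebraMap k M) * q.map (algebraMap k M)) := by
    have hX : Ψ (MvPolynomial.X 1) = X := by
      change a (MvPolynomial.X 1) = X
      simp [a]
    have hC : Ψ (MvPolynomial.C t) = C (C t) := by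
      change a (MvPolynomial.C t) = C (C t)
      simp [a]
    unfold fE gE
    simp only [map_sub, map_add, map_mul, map_pow, map_ofNat, MvPolynomial.map_X, hX, hC, hmv]
    ring
  rw [e1]
  exact h1

end

end Pool.Agent.EFF

end

section


namespace Pool.Agent.EFF

open Polynomial

open scoped Classical

universe u v w

section

theorem i_rel {F : Type u} [Field F] (A B D p r q t y : F) (h : r ^ 2 = A * p ^ 2 + B * p * q + D * q ^ 2)
    (hy : y ^ 2 = A * t ^ 2 + B * t + D) (hq : q * t - p ≠ 0) :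
    t * (q * (((q * y - r) / (q * t - p)) ^ 2 - A)) =
      p * ((q * y - r) / (q * t - p)) ^ 2 - 2 * r * ((q * y - r) / (q * t - p)) + A * p + B * q := by
  set m := (q * y - r) / (q * t - p) with hm
  have hm2 : m * (q * t - p) = q * y - r := div_mul_cancel₀ _ hq
  have key : (q * t - p) * (t * (q * (m ^ 2 - A))) =
      (q * t - p) * (p * m ^ 2 - 2 * r * m + A * p + B * q) := by
    linear_combination (m * (q * t - p) + q * y - r) * hm2 + 2 * r * hm2 + q ^ 2 * hy - h
  exact mul_left_cancel₀ hq key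

end

end Pool.Agent.EFF

end

section


namespace Pool.Agent.EFF

open Polynomial

open scoped Classical

universe u v w

section

theorem i_ind_crit {L : Type v} {F : Type w} [Field L] [Field F] [Algebra L F] (u t : F) :
    AlgebraicIndependent L ![u, t] ↔
      Transcendental L u ∧ Transcendental (Algebra.adjoin L ({u} : Set F)) t := by
  rw [AlgebraicIndependent.iff_transcendental_adjoin_image (1 : Fin 2)]
  have e : (![u, t] : Fin 2 → F) '' {1}ᶜ = {u} := by
    ext z
    simp only [Set.mem_image, Set.mem_compl_iff, Set.mem_singleton_iff, Fin.exists_fin_two]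
    constructor
    · rintro (⟨-, h⟩ | ⟨h, -⟩)
      · exact h.symm
      · exact (h trivial).elim
    · rintro rfl
      left
      exact ⟨by decide, rfl⟩
  rw [e]
  letI : Unique {j : Fin 2 // j ≠ 1} :=
    ⟨⟨⟨0, by decide⟩⟩, fun ⟨j, hj⟩ => Subtype.ext (by
      show j = 0
      fin_cases j
      · rfl
      · exact absurd rfl hj)⟩
  rw [algebraicIndependent_unique_type_iff]
  exact Iff.rfl

theorem i_ind_mv {k : Type u} {F : Type w} [Field k] [Field F] [Algebra k F] (f : k[X]) (u μ : F) :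
    MvPolynomial.aeval ![u, μ] (toMv f) = aeval u f := by
  unfold toMv
  rw [← Polynomial.aeval_algHom_apply, MvPolynomial.aeval_X]
  rfl

theorem i_ind_mem {k : Type u} {F : Type w} [Field k] [Field F] [Algebra k F] (f : k[X])
    (K : IntermediateField k F) (u : F) (hu : u ∈ K) : aeval u f ∈ K := by
  have := (aeval (⟨u, hu⟩ : K) f).2
  have e : ((aeval (⟨u, hu⟩ : K) f : K) : F) = aeval u f := by
    rw [← K.coe_val, ← Polynomial.aeval_algHom_apply]
    rfl
  rwa [e] at this

theorem i_ind_alg {k : Type u} {L : Type v} {F : Type w} [Field k] [Field L] [Field F] [Algebra k L]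
    [Algebra L F] [Algebra k F] [IsScalarTower k L F] (f : k[X]) (u : F) :
    IsAlgebraic (Algebra.adjoin L ({u} : Set F)) (aeval u f) := by
  have hu : u ∈ Algebra.adjoin L ({u} : Set F) := Algebra.subset_adjoin rfl
  have h : aeval u (f.map (algebraMap k L)) ∈ Algebra.adjoin L ({u} : Set F) :=
    Algebra.adjoin_singleton_eq_range_aeval L u ▸ ⟨_, rfl⟩
  rw [Polynomial.aeval_map_algebraMap] at h
  exact isAlgebraic_algebraMap (⟨_, h⟩ : Algebra.adjoin L ({u} : Set F))

theorem i_ind {k : Type u} {L : Type v} {F : Type w} [Field k] [Field L] [Field F] [Algebra k L]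
    [Algebra L F] [Algebra k F] [IsScalarTower k L F] (hk : (2 : k) ≠ 0) (A B D p r q : k[X])
    (h : Cone A B D p r q) (hd : B ^ 2 - 4 * A * D ≠ 0) (u t y : F)
    (hut : AlgebraicIndependent L ![u, t])
    (hy : y ^ 2 = aeval u A * t ^ 2 + aeval u B * t + aeval u D) :
    ∃ μ : F, AlgebraicIndependent L ![u, μ] ∧
      t * MvPolynomial.aeval ![u, μ] (gE A q) = MvPolynomial.aeval ![u, μ] (fE A B p r q) ∧
      t ∈ IntermediateField.adjoin k ({u, μ} : Set F) ∧
      y ∈ IntermediateField.adjoin k ({u, μ} : Set F) ∧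
      μ ∈ IntermediateField.adjoin k ({u, t, y} : Set F) := by
  obtain ⟨hu, ht⟩ := (i_ind_crit u t).mp hut
  have huk : ∀ f : k[X], aeval u f = 0 → f = 0 := by
    intro f hf
    by_contra h0
    apply hu
    refine ⟨f.map (algebraMap k L), ?_, ?_⟩
    · rwa [Ne, Polynomial.map_eq_zero]
    · rwa [Polynomial.aeval_map_algebraMap]
  have hQ : aeval u q ≠ 0 := fun h' => h.q0 (huk _ h')
  have hE : (aeval u r) ^ 2 = aeval u A * (aeval u p) ^ 2 + aeval u B * aeval u p * aeval u q +
      aeval u D * (aeval u q) ^ 2 := by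
    have := congrArg (aeval u) h.eq
    simpa only [map_add, map_mul, map_pow] using this
  have hΔ : (aeval u B) ^ 2 - 4 * aeval u A * aeval u D ≠ 0 := by
    intro h'
    apply hd
    apply huk
    rw [map_sub, map_pow, map_mul, map_mul, map_ofNat]
    exact h'
  have aA := i_ind_alg (L := L) A u
  have aB := i_ind_alg (L := L) B u
  have aP := i_ind_alg (L := L) p u
  have aQ := i_ind_alg (L := L) q u
  have aR := i_ind_alg (L := L) r u
  have a2 : IsAlgebraic (Algebra.adjoin L ({u} : Set F)) (2 : F) := by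
    have := isAlgebraic_algebraMap (R := Algebra.adjoin L ({u} : Set F)) (A := F) 2
    rwa [map_ofNat] at this
  have hqt : aeval u q * t - aeval u p ≠ 0 := by
    intro h'
    apply ht
    have e : t = aeval u p * (aeval u q)⁻¹ := by
      field_simp
      linear_combination h'
    rw [e]
    exact aP.mul aQ.inv
  have rel := i_rel (aeval u A) (aeval u B) (aeval u D) (aeval u p) (aeval u r) (aeval u q) t y
    hE hy hqt
  obtain ⟨μ, hμ⟩ : ∃ μ, μ = (aeval u q * y - aeval u r) / (aeval u q * t - aeval u p) := ⟨_, rfl⟩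
  rw [← hμ] at rel
  have hμ2 : μ * (aeval u q * t - aeval u p) = aeval u q * y - aeval u r := by
    rw [hμ]
    field_simp
  have eg : MvPolynomial.aeval ![u, μ] (gE A q) = aeval u q * (μ ^ 2 - aeval u A) := by
    unfold gE
    rw [map_mul, map_sub, map_pow, i_ind_mv, i_ind_mv, MvPolynomial.aeval_X]
    rfl
  have ef : MvPolynomial.aeval ![u, μ] (fE A B p r q) = aeval u p * μ ^ 2 - 2 * aeval u r * μ +
      aeval u A * aeval u p + aeval u B * aeval u q := by
    unfold fE
    rw [map_add, map_add, map_sub, map_mul, map_mul, map_mul, map_mul, map_mul, map_pow,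
      map_ofNat, i_ind_mv, i_ind_mv, i_ind_mv, i_ind_mv, i_ind_mv, MvPolynomial.aeval_X]
    rfl
  have hg : aeval u q * (μ ^ 2 - aeval u A) ≠ 0 := by
    apply mul_ne_zero hQ
    intro h'
    have h1 : μ ^ 2 = aeval u A := sub_eq_zero.mp h'
    rw [h', mul_zero, mul_zero] at rel
    have h2 : 2 * aeval u r * μ = 2 * aeval u A * aeval u p + aeval u B * aeval u q := by
      linear_combination rel + aeval u p * h1
    have h3 : ((aeval u B) ^ 2 - 4 * aeval u A * aeval u D) * (aeval u q) ^ 2 = 0 := by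
      linear_combination (-(2 * aeval u r * μ) - (2 * aeval u A * aeval u p +
        aeval u B * aeval u q)) * h2 + 4 * (aeval u r) ^ 2 * h1 + 4 * aeval u A * hE
    rcases mul_eq_zero.mp h3 with h4 | h4
    · exact hΔ h4
    · exact hQ (pow_eq_zero_iff (two_ne_zero) |>.mp h4)
  have htf : t = (aeval u p * μ ^ 2 - 2 * aeval u r * μ +
      aeval u A * aeval u p + aeval u B * aeval u q) * (aeval u q * (μ ^ 2 - aeval u A))⁻¹ := by
    rw [eq_mul_inv_iff_mul_eq₀ hg]
    exact rel
  have hyf : y = (μ * (aeval u q * t - aeval u p) + aeval u r) * (aeval u q)⁻¹ := by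
    rw [hμ2]
    field_simp
    ring
  refine ⟨μ, ?_, ?_, ?_, ?_, ?_⟩
  · rw [i_ind_crit]
    refine ⟨hu, ?_⟩
    intro hm
    apply ht
    rw [htf]
    refine IsAlgebraic.mul ?_ (IsAlgebraic.inv ?_)
    · exact (((aP.mul (hm.pow 2)).sub ((a2.mul aR).mul hm)).add (aA.mul aP)).add (aB.mul aQ)
    · exact aQ.mul ((hm.pow 2).sub aA)
  · rw [eg, ef]
    exact rel
  · have m1 : u ∈ IntermediateField.adjoin k ({u, μ} : Set F) :=
      IntermediateField.subset_adjoin _ _ (by simp)
    have m2 : μ ∈ IntermediateField.adjoin k ({u, μ} : Set F) :=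
      IntermediateField.subset_adjoin _ _ (by simp)
    have mA := i_ind_mem A _ u m1
    have mB := i_ind_mem B _ u m1
    have mP := i_ind_mem p _ u m1
    have mQ := i_ind_mem q _ u m1
    have mR := i_ind_mem r _ u m1
    rw [htf]
    exact mul_mem (add_mem (add_mem (sub_mem (mul_mem mP (pow_mem m2 2))
      (mul_mem (mul_mem (ofNat_mem _ 2) mR) m2)) (mul_mem mA mP)) (mul_mem mB mQ))
      (inv_mem (mul_mem mQ (sub_mem (pow_mem m2 2) mA)))
  · have m1 : u ∈ IntermediateField.adjoin k ({u, μ} : Set F) :=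
      IntermediateField.subset_adjoin _ _ (by simp)
    have m2 : μ ∈ IntermediateField.adjoin k ({u, μ} : Set F) :=
      IntermediateField.subset_adjoin _ _ (by simp)
    have mA := i_ind_mem A _ u m1
    have mB := i_ind_mem B _ u m1
    have mP := i_ind_mem p _ u m1
    have mQ := i_ind_mem q _ u m1
    have mR := i_ind_mem r _ u m1
    have mt : t ∈ IntermediateField.adjoin k ({u, μ} : Set F) := by
      rw [htf]
      exact mul_mem (add_mem (add_mem (sub_mem (mul_mem mP (pow_mem m2 2))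
        (mul_mem (mul_mem (ofNat_mem _ 2) mR) m2)) (mul_mem mA mP)) (mul_mem mB mQ))
        (inv_mem (mul_mem mQ (sub_mem (pow_mem m2 2) mA)))
    rw [hyf]
    exact mul_mem (add_mem (mul_mem m2 (sub_mem (mul_mem mQ mt) mP)) mR) (inv_mem mQ)
  · have m1 : u ∈ IntermediateField.adjoin k ({u, t, y} : Set F) :=
      IntermediateField.subset_adjoin _ _ (by simp)
    have m2 : t ∈ IntermediateField.adjoin k ({u, t, y} : Set F) :=
      IntermediateField.subset_adjoin _ _ (by simp)
    have m3 : y ∈ IntermediateField.adjoin k ({u, t, y} : Set F) :=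
      IntermediateField.subset_adjoin _ _ (by simp)
    have mP := i_ind_mem p _ u m1
    have mQ := i_ind_mem q _ u m1
    have mR := i_ind_mem r _ u m1
    rw [hμ]
    exact div_mem (sub_mem (mul_mem mQ m3) mR) (sub_mem (mul_mem mQ m2) mP)

end

end Pool.Agent.EFF

end

section


namespace Pool.Agent.EFF

open Polynomial

open scoped Classical

universe u v w

section

private theorem i_dpu_sq {L Φ : Type u} [Field L] [Field Φ] [Algebra L Φ] (x w : Φ) (l e : L)
    (h : AlgebraicIndependent L ![x, w]) :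
    AlgebraicIndependent L ![x - algebraMap L Φ e * (w ^ 2 + algebraMap L Φ l),
      w ^ 2 + algebraMap L Φ l] := by
  have h1 : ∀ i, Transcendental L ((![X, X ^ 2 + C l] : Fin 2 → L[X]) i) := by
    intro i
    fin_cases i
    · exact Polynomial.transcendental_X L
    · refine Polynomial.transcendental _ ?_ ?_
      · show (X ^ 2 + C l : L[X]).natDegree ≠ 0
        rw [Polynomial.natDegree_X_pow_add_C]
        decide
      · show (X ^ 2 + C l : L[X]).leadingCoeff ∈ nonZeroDivisors L
        rw [Polynomial.leadingCoeff_X_pow_add_C (by decide)]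
        exact one_mem _
  have h2 : AlgebraicIndependent L ![x, w ^ 2 + algebraMap L Φ l] := by
    have h3 := h.polynomial_aeval_of_transcendental h1
    have h4 : (fun i => aeval ((![x, w] : Fin 2 → Φ) i) ((![X, X ^ 2 + C l] : Fin 2 → L[X]) i)) =
        ![x, w ^ 2 + algebraMap L Φ l] := by
      funext i
      fin_cases i <;> simp
    rwa [h4] at h3
  set t := w ^ 2 + algebraMap L Φ l with ht
  rw [AlgebraicIndependent] at h2 ⊢
  set ρ : MvPolynomial (Fin 2) L →ₐ[L] MvPolynomial (Fin 2) L :=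
    MvPolynomial.aeval ![MvPolynomial.X 0 - MvPolynomial.C e * MvPolynomial.X 1,
      MvPolynomial.X 1] with hρ
  set ρ' : MvPolynomial (Fin 2) L →ₐ[L] MvPolynomial (Fin 2) L :=
    MvPolynomial.aeval ![MvPolynomial.X 0 + MvPolynomial.C e * MvPolynomial.X 1,
      MvPolynomial.X 1] with hρ'
  have e1 : ρ'.comp ρ = AlgHom.id L _ := by
    apply MvPolynomial.algHom_ext
    intro i
    fin_cases i <;> simp [hρ, hρ', MvPolynomial.algHom_C]
  have e2 : Function.Injective ρ := by
    intro a b hab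
    have := congrArg ρ' hab
    rw [← AlgHom.comp_apply, ← AlgHom.comp_apply, e1] at this
    exact this
  have e3 : MvPolynomial.aeval ![x - algebraMap L Φ e * t, t] =
      (MvPolynomial.aeval ![x, t] : MvPolynomial (Fin 2) L →ₐ[L] Φ).comp ρ := by
    apply MvPolynomial.algHom_ext
    intro i
    fin_cases i <;> simp [hρ, MvPolynomial.algHom_C]
  rw [e3]
  exact h2.comp e2

theorem i_dpu {k L : Type u} [Field k] [Field L] [Algebra k L] [IsAlgClosed L]
    (hk : (2 : k) ≠ 0) (a₂ a₄ a₆ : k[X]) (hD : Deg a₂ a₄ a₆) (hN : NonIso a₂ a₄ a₆) (e : k)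
    (he : Inf a₂ a₄ a₆ e) (p r q : k[X])
    (hc : Cone (PA a₂ a₄ a₆ e) (PB a₂ a₄ a₆ e) (PC a₂ a₄ a₆) p r q) (l : L)
    (hl : Transcendental k l) :
    RDP.DPU (fE (PA a₂ a₄ a₆ e) (PB a₂ a₄ a₆ e) p r q) (gE (PA a₂ a₄ a₆ e) q) L l := by
  have hL : (2 : L) ≠ 0 := by
    have := (map_ne_zero (algebraMap k L)).2 hk
    rwa [map_ofNat] at this
  have hinj : Function.Injective (IsScalarTower.toAlgHom L (MvPolynomial (Fin 2) L)
      (FractionRing (MvPolynomial (Fin 2) L))) :=
    IsFractionRing.injective (MvPolynomial (Fin 2) L) (FractionRing (MvPolynomial (Fin 2) L))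
  have h0 := (MvPolynomial.algebraicIndependent_X (Fin 2) L).map' hinj
  have h1 : AlgebraicIndependent L
      ![algebraMap (MvPolynomial (Fin 2) L) (FractionRing (MvPolynomial (Fin 2) L))
        (MvPolynomial.X 0), algebraMap (MvPolynomial (Fin 2) L)
          (FractionRing (MvPolynomial (Fin 2) L)) (MvPolynomial.X 1)] := by
    have h4 : (IsScalarTower.toAlgHom L (MvPolynomial (Fin 2) L)
      (FractionRing (MvPolynomial (Fin 2) L))) ∘ MvPolynomial.X =
      ![algebraMap (MvPolynomial (Fin 2) L) (FractionRing (MvPolynomial (Fin 2) L))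
        (MvPolynomial.X 0), algebraMap (MvPolynomial (Fin 2) L)
          (FractionRing (MvPolynomial (Fin 2) L)) (MvPolynomial.X 1)] := by
      funext i
      fin_cases i <;> rfl
    rwa [h4] at h0
  obtain ⟨x, w, y, hxw, hy⟩ := d_uni (k := k) hL a₂ a₄ a₆ hD hN l hl _ _ h1
  have h2 := i_dpu_sq x w l (algebraMap k L e) hxw
  set t := w ^ 2 + algebraMap L (FractionRing (MvPolynomial (Fin 2) L)) l with ht
  rw [← IsScalarTower.algebraMap_apply k L (FractionRing (MvPolynomial (Fin 2) L)) e] at h2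
  set v := x - algebraMap k (FractionRing (MvPolynomial (Fin 2) L)) e * t with hv
  have hx : x = v + algebraMap k (FractionRing (MvPolynomial (Fin 2) L)) e * t := by rw [hv]; ring
  rw [hx, i_exp a₂ a₄ a₆ hD e he] at hy
  obtain ⟨μ, hμ, hg, -, -, -⟩ := i_ind (k := k) (L := L) hk _ _ _ p r q hc
    (i_disc hk a₂ a₄ a₆ hD hN e he) v t y h2 hy
  refine ⟨![v, μ], w, hμ, ?_⟩
  rw [← hg, ht]
  ring

end

end Pool.Agent.EFF

end
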