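import Pool.Agent.EFM.Fam
import Pool.Agent.RDM.Main
import Pool.Agent.EFM.Par
import Pool.Agent.EFM.Cub
import Pool.Agent.T1B.Transfer
import Pool.Agent.T1B.Transport
import Pool.Agent.EFM.Defs
import Pool.Agent.T1B.Transfer2
import Pool.Agent.T1B.Transfer3
import Pool.Agent.TBM.Val
import Pool.Agent.TBM.Br
import Pool.Agent.EFM.Sha
import Pool.Agent.EFM.Ln

set_option maxSynthPendingDepth 3

private theorem efm_main_tf_field (K L : Type*) [Field K] [Field L] [Algebra K L] :
    Module.IsTorsionFree K L := inferInstance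

private theorem efm_main_fs_field (K L : Type*) [Field K] [Field L] [Algebra K L] :
    FaithfulSMul K L := inferInstance

attribute [local instance 5000] efm_main_tf_field efm_main_fs_field


/-!
# The main theorems
-/

set_option autoImplicit false

section


namespace Pool.Agent.EFF

universe u

open Polynomial

theorem rdp_final (k M : Type u) [Field k] [Field M] [Algebra k M] [IsAlgClosed M]
    (hk : (2 : k) ≠ 0) (f g : MvPolynomial (Fin 2) k) (hg : g ≠ 0)
    (hR : RDP.DPU f g (AlgebraicClosure (RatFunc k))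
      (algebraMap (RatFunc k) (AlgebraicClosure (RatFunc k)) RatFunc.X)) (φ : k[X])
    (hφ : (∃ N, 0 < N ∧ φ = X ^ N) ∨ (TQU.AddPoly φ ∧ φ ≠ 0)) (P : Fin 2 → M)
    (hP : AlgebraicIndependent k P) (z : M)
    (hz : aeval z φ * MvPolynomial.aeval P g = MvPolynomial.aeval P f)
    (hG : Irreducible (MvPolynomial.map (algebraMap k M) f -
      MvPolynomial.C (aeval z φ) * MvPolynomial.map (algebraMap k M) g))
    (K : IntermediateField k M) (hK : K = IntermediateField.adjoin k ({z} ∪ Set.range P))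
    (hM : ∀ x : M, IsAlgebraic K x) :
    ∃ (m : ℕ) (K₁ K₂ : Fin m → IntermediateField k M), (∀ i, (K₁ i).FG ∧ (K₂ i).FG ∧
      Algebra.trdeg k (K₁ i) ≤ 1 ∧ Algebra.trdeg k (K₂ i) ≤ 1) ∧
      ∀ ℓ : ℕ, ℓ.Prime → (ℓ : k) ≠ 0 →
        (∀ i, T1B.T1 k (K₁ i ⊔ K₂ i : IntermediateField k M) ℓ) → T1B.T1 k K ℓ :=
  RDP.final k M hk f g hg hR φ hφ P hP z hz hG K hK hM

end Pool.Agent.EFF

end

section


namespace Pool.Agent.EFF

open Polynomial

open scoped Classical

universe u v w

section

/-- `φ` is not constant -/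
theorem i_core_deg {k : Type u} [Field k] (φ : k[X])
    (hφ : (∃ N, 0 < N ∧ φ = X ^ N) ∨ (TQU.AddPoly φ ∧ φ ≠ 0)) : Transcendental k φ := by
  have h0 : φ ≠ 0 := by
    rcases hφ with ⟨N, -, rfl⟩ | ⟨-, h2⟩
    · exact pow_ne_zero _ X_ne_zero
    · exact h2
  refine Polynomial.transcendental φ ?_ (mem_nonZeroDivisors_of_ne_zero
    (leadingCoeff_ne_zero.mpr h0))
  rcases hφ with ⟨N, hN, rfl⟩ | ⟨h1, h2⟩
  · rw [natDegree_X_pow]
    exact hN.ne'
  · intro hd
    obtain ⟨c, hc⟩ : ∃ c, φ = C c := ⟨_, eq_C_of_natDegree_eq_zero hd⟩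
    have h3 := h1 k 0 0
    rw [hc] at h3
    simp only [add_zero, aeval_C, Algebra.algebraMap_self, RingHom.id_apply] at h3
    refine h2 ?_
    rw [hc, left_eq_add.mp h3, map_zero]

theorem i_core_swap {k M : Type u} [Field k] [Field M] [Algebra k M] (e : k) (t x : M)
    (h : AlgebraicIndependent k ![t, x]) :
    AlgebraicIndependent k ![x - algebraMap k M e * t, t] := by
  unfold AlgebraicIndependent at h ⊢
  obtain ⟨θ, hθ⟩ : ∃ θ : MvPolynomial (Fin 2) k →ₐ[k] MvPolynomial (Fin 2) k,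
    θ = MvPolynomial.aeval ![MvPolynomial.X 1 - MvPolynomial.C e * MvPolynomial.X 0,
      MvPolynomial.X 0] := ⟨_, rfl⟩
  obtain ⟨θ', hθ'⟩ : ∃ θ' : MvPolynomial (Fin 2) k →ₐ[k] MvPolynomial (Fin 2) k,
    θ' = MvPolynomial.aeval ![MvPolynomial.X 1,
      MvPolynomial.X 0 + MvPolynomial.C e * MvPolynomial.X 1] := ⟨_, rfl⟩
  have h1 : θ'.comp θ = AlgHom.id _ _ := by
    apply MvPolynomial.algHom_ext
    intro i
    fin_cases i <;> simp [hθ, hθ']
  have h2 : (MvPolynomial.aeval ![x - algebraMap k M e * t, t] :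
      MvPolynomial (Fin 2) k →ₐ[k] M) = (MvPolynomial.aeval ![t, x]).comp θ := by
    apply MvPolynomial.algHom_ext
    intro i
    fin_cases i <;> simp [hθ]
  rw [h2, AlgHom.coe_comp]
  refine h.comp ?_
  refine Function.LeftInverse.injective (g := θ') fun p => ?_
  exact congrArg (fun f => f p) h1

theorem i_core_gE {k : Type u} [Field k] (A q : k[X]) (hq : q ≠ 0) : gE A q ≠ 0 := by
  unfold gE
  refine mul_ne_zero ?_ ?_
  · intro h
    have h1 : MvPolynomial.aeval (fun _ : Fin 2 => (X : k[X])) (toMv q) = q := by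
      unfold toMv
      rw [← Polynomial.aeval_algHom_apply, MvPolynomial.aeval_X]
      simp
    rw [h, map_zero] at h1
    exact hq h1.symm
  · intro h
    have h1 := congrArg (MvPolynomial.aeval (![0, X] : Fin 2 → k[X])) h
    unfold toMv at h1
    rw [map_sub, map_pow, MvPolynomial.aeval_X, ← Polynomial.aeval_algHom_apply,
      MvPolynomial.aeval_X, map_zero] at h1
    simp only [Matrix.cons_val_zero, Matrix.cons_val_one] at h1
    have h2 : aeval (0 : k[X]) A = C (A.eval 0) := by
      have h3 : (0 : k[X]) = algebraMap k k[X] 0 := by simp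
      rw [h3, Polynomial.aeval_algebraMap_apply]
      simp
    rw [h2] at h1
    exact (monic_X_pow_sub_C (A.eval 0) (two_ne_zero)).ne_zero h1

theorem i_core_adj {k M : Type u} [Field k] [Field M] [Algebra k M] (e : k) (φ : k[X])
    (z x y μ : M)
    (h1 : y ∈ IntermediateField.adjoin k ({x - algebraMap k M e * aeval z φ, μ} : Set M))
    (h2 : μ ∈ IntermediateField.adjoin k
      ({x - algebraMap k M e * aeval z φ, aeval z φ, y} : Set M)) :
    IntermediateField.adjoin k ({z, x, y} : Set M) = IntermediateField.adjoin k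
      ({z} ∪ Set.range ![x - algebraMap k M e * aeval z φ, μ]) := by
  have hpoly : ∀ (E : IntermediateField k M), z ∈ E → aeval z φ ∈ E := by
    intro E hz
    have h3 : aeval z φ ∈ Algebra.adjoin k ({z} : Set M) :=
      Polynomial.aeval_mem_adjoin_singleton k z
    have h4 : Algebra.adjoin k ({z} : Set M) ≤ E.toSubalgebra :=
      Algebra.adjoin_le (by simpa using hz)
    exact h4 h3
  apply le_antisymm
  · rw [IntermediateField.adjoin_le_iff]
    have hz : z ∈ IntermediateField.adjoin k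
        ({z} ∪ Set.range ![x - algebraMap k M e * aeval z φ, μ]) :=
      IntermediateField.subset_adjoin _ _ (Or.inl rfl)
    have hu : x - algebraMap k M e * aeval z φ ∈ IntermediateField.adjoin k
        ({z} ∪ Set.range ![x - algebraMap k M e * aeval z φ, μ]) :=
      IntermediateField.subset_adjoin _ _ (Or.inr ⟨0, rfl⟩)
    have hμ : μ ∈ IntermediateField.adjoin k
        ({z} ∪ Set.range ![x - algebraMap k M e * aeval z φ, μ]) :=
      IntermediateField.subset_adjoin _ _ (Or.inr ⟨1, rfl⟩)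
    have hx : x ∈ IntermediateField.adjoin k
        ({z} ∪ Set.range ![x - algebraMap k M e * aeval z φ, μ]) := by
      have h5 := add_mem hu (mul_mem (IntermediateField.algebraMap_mem _ e) (hpoly _ hz))
      rwa [sub_add_cancel] at h5
    have hy : y ∈ IntermediateField.adjoin k
        ({z} ∪ Set.range ![x - algebraMap k M e * aeval z φ, μ]) := by
      refine (IntermediateField.adjoin_le_iff.mpr ?_) h1
      rintro a (rfl | ha)
      · exact hu
      · rw [Set.mem_singleton_iff.mp ha]; exact hμ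
    rintro a (rfl | ha)
    · exact hz
    · rcases ha with rfl | ha
      · exact hx
      · rw [Set.mem_singleton_iff.mp ha]; exact hy
  · rw [IntermediateField.adjoin_le_iff]
    have hz : z ∈ IntermediateField.adjoin k ({z, x, y} : Set M) :=
      IntermediateField.subset_adjoin _ _ (by simp)
    have hx : x ∈ IntermediateField.adjoin k ({z, x, y} : Set M) :=
      IntermediateField.subset_adjoin _ _ (by simp)
    have hy : y ∈ IntermediateField.adjoin k ({z, x, y} : Set M) :=
      IntermediateField.subset_adjoin _ _ (by simp)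
    have ht := hpoly _ hz
    have hu : x - algebraMap k M e * aeval z φ ∈ IntermediateField.adjoin k ({z, x, y} : Set M) :=
      sub_mem hx (mul_mem (IntermediateField.algebraMap_mem _ e) ht)
    have hμ : μ ∈ IntermediateField.adjoin k ({z, x, y} : Set M) := by
      refine (IntermediateField.adjoin_le_iff.mpr ?_) h2
      rintro a (rfl | ha)
      · exact hu
      · rcases ha with rfl | ha
        · exact ht
        · rw [Set.mem_singleton_iff.mp ha]; exact hy
    rintro a (ha | ⟨i, rfl⟩)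
    · rw [Set.mem_singleton_iff.mp ha]; exact hz
    · fin_cases i
      · exact hu
      · exact hμ

end

section

theorem i_core {k M : Type u} [Field k] [Field M] [Algebra k M] [IsAlgClosed M]
    (hk : (2 : k) ≠ 0) (a₂ a₄ a₆ : k[X]) (hD : Deg a₂ a₄ a₆) (hN : NonIso a₂ a₄ a₆) (e : k)
    (he : Inf a₂ a₄ a₆ e) (p r q : k[X])
    (hc : Cone (PA a₂ a₄ a₆ e) (PB a₂ a₄ a₆ e) (PC a₂ a₄ a₆) p r q) (φ : k[X])
    (hφ : (∃ N, 0 < N ∧ φ = X ^ N) ∨ (TQU.AddPoly φ ∧ φ ≠ 0)) (z x y : M)
    (hzx : AlgebraicIndependent k ![z, x]) (hy : y ^ 2 = cub a₂ a₄ a₆ x (aeval z φ))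
    (hM : ∀ a : M, IsAlgebraic (IntermediateField.adjoin k ({z, x, y} : Set M)) a) :
    ∃ (m : ℕ) (K₁ K₂ : Fin m → IntermediateField k M), (∀ i, (K₁ i).FG ∧ (K₂ i).FG ∧
      Algebra.trdeg k (K₁ i) ≤ 1 ∧ Algebra.trdeg k (K₂ i) ≤ 1) ∧
      ∀ ℓ : ℕ, ℓ.Prime → (ℓ : k) ≠ 0 →
        (∀ i, T1B.T1 k (K₁ i ⊔ K₂ i : IntermediateField k M) ℓ) →
          T1B.T1 k (IntermediateField.adjoin k ({z, x, y} : Set M)) ℓ := by
  have hφt := i_core_deg φ hφ
  have htx : AlgebraicIndependent k ![aeval z φ, x] := by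
    have h1 := AlgebraicIndependent.polynomial_aeval_of_transcendental hzx (f := ![φ, X]) (by
      intro i
      fin_cases i
      · exact hφt
      · exact Polynomial.transcendental_X k)
    have h2 : (fun i => Polynomial.aeval ((![z, x] : Fin 2 → M) i) ((![φ, X] : Fin 2 → k[X]) i)) =
        ![aeval z φ, x] := by
      funext i
      fin_cases i <;> simp
    rwa [h2] at h1
  have hut := i_core_swap e _ _ htx
  have hd := i_disc hk a₂ a₄ a₆ hD hN e he
  have hy' : y ^ 2 = aeval (x - algebraMap k M e * aeval z φ) (PA a₂ a₄ a₆ e) * (aeval z φ) ^ 2 +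
      aeval (x - algebraMap k M e * aeval z φ) (PB a₂ a₄ a₆ e) * (aeval z φ) +
      aeval (x - algebraMap k M e * aeval z φ) (PC a₂ a₄ a₆) := by
    rw [← i_exp a₂ a₄ a₆ hD e he, sub_add_cancel, hy]
  obtain ⟨μ, hμ1, hμ2, -, hμ4, hμ5⟩ := i_ind (L := k) hk _ _ _ p r q hc hd _ _ y hut hy'
  have ht : Transcendental k (aeval z φ) := by
    have h1 := htx.transcendental 0
    simpa using h1
  have hA : (PA a₂ a₄ a₆ e).natDegree ≤ 1 := by
    unfold PA
    compute_degree
  have hB : (PB a₂ a₄ a₆ e).natDegree ≤ 2 := by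
    unfold PB
    compute_degree
  have hC1 : (PC a₂ a₄ a₆).Monic := by
    unfold PC
    monicity!
  have hC2 : (PC a₂ a₄ a₆).natDegree = 3 := by
    unfold PC
    compute_degree!
  have hirr := i_irr (M := M) hk _ _ _ p r q hc hA hB hC1 hC2 hd (aeval z φ) ht
  have hl : Transcendental k (algebraMap (RatFunc k) (AlgebraicClosure (RatFunc k)) RatFunc.X) :=
    (transcendental_algebraMap_iff (algebraMap (RatFunc k)
      (AlgebraicClosure (RatFunc k))).injective).mpr RatFunc.transcendental_X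
  have hR := i_dpu (L := AlgebraicClosure (RatFunc k)) hk a₂ a₄ a₆ hD hN e he p r q hc _ hl
  exact rdp_final k M hk _ _ (i_core_gE _ q hc.q0) hR φ hφ _ hμ1 z hμ2 hirr _
    (i_core_adj e φ z x y μ hμ4 hμ5) hM

end

end Pool.Agent.EFF

end

section


namespace Pool.Agent.EFF

open Polynomial

open scoped Classical

universe u v w

section

private theorem i_ext_Inf {K L : Type u} [Field K] [Field L] (f : K →+* L) (a₂ a₄ a₆ : K[X])
    (e : K) : Inf (a₂.map f) (a₄.map f) (a₆.map f) (f e) ↔ Inf a₂ a₄ a₆ e := by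
  unfold Inf
  rw [coeff_map, coeff_map, coeff_map]
  rw [← map_pow, ← map_pow, ← map_mul, ← map_mul, ← map_add, ← map_add, ← map_add]
  exact map_eq_zero_iff f f.injective

private theorem i_ext_PA {K L : Type u} [Field K] [Field L] (f : K →+* L) (a₂ a₄ a₆ : K[X])
    (e : K) : PA (a₂.map f) (a₄.map f) (a₆.map f) (f e) = (PA a₂ a₄ a₆ e).map f := by
  unfold PA
  simp only [coeff_map, Polynomial.map_add, Polynomial.map_mul, Polynomial.map_C, Polynomial.map_X,
    map_add, map_mul, map_pow, map_ofNat, Polynomial.map_pow, Polynomial.map_ofNat]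

private theorem i_ext_PB {K L : Type u} [Field K] [Field L] (f : K →+* L) (a₂ a₄ a₆ : K[X])
    (e : K) : PB (a₂.map f) (a₄.map f) (a₆.map f) (f e) = (PB a₂ a₄ a₆ e).map f := by
  unfold PB
  simp only [coeff_map, Polynomial.map_add, Polynomial.map_mul, Polynomial.map_C, Polynomial.map_X,
    map_add, map_mul, map_ofNat, Polynomial.map_pow, Polynomial.map_ofNat]

private theorem i_ext_PC {K L : Type u} [Field K] [Field L] (f : K →+* L) (a₂ a₄ a₆ : K[X]) :
    PC (a₂.map f) (a₄.map f) (a₆.map f) = (PC a₂ a₄ a₆).map f := by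
  unfold PC
  simp only [coeff_map, Polynomial.map_add, Polynomial.map_mul, Polynomial.map_C, Polynomial.map_X,
    Polynomial.map_pow]

private theorem i_ext_Cone {K L : Type u} [Field K] [Field L] (f : K →+* L)
    (A B D p r q : K[X]) :
    Cone (A.map f) (B.map f) (D.map f) (p.map f) (r.map f) (q.map f) ↔ Cone A B D p r q := by
  constructor
  · intro h
    refine ⟨?_, (Polynomial.isCoprime_map f).1 h.cop, ?_⟩
    · intro h0
      exact h.q0 (by rw [h0, Polynomial.map_zero])
    · apply Polynomial.map_injective f f.injective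
      have := h.eq
      simp only [Polynomial.map_add, Polynomial.map_mul, Polynomial.map_pow]
      exact this
  · intro h
    refine ⟨?_, (Polynomial.isCoprime_map f).2 h.cop, ?_⟩
    · exact (Polynomial.map_ne_zero_iff f.injective).2 h.q0
    · have := congrArg (Polynomial.map f) h.eq
      simpa only [Polynomial.map_add, Polynomial.map_mul, Polynomial.map_pow] using this

private theorem i_ext_root {K : Type u} [Field K] [IsAlgClosed K] (a b c : K) :
    ∃ e : K, e ^ 3 + a * e ^ 2 + b * e + c = 0 := by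
  have hd : (X ^ 3 + C a * X ^ 2 + C b * X + C c : K[X]).degree ≠ 0 := by
    have : (X ^ 3 + C a * X ^ 2 + C b * X + C c : K[X]).degree = 3 := by compute_degree!
    rw [this]
    decide
  obtain ⟨e, he⟩ := IsAlgClosed.exists_root _ hd
  refine ⟨e, ?_⟩
  simpa [IsRoot] using he

private theorem i_ext_exists {K : Type u} [Field K] [IsAlgClosed K] (hk : (2 : K) ≠ 0)
    (a₂ a₄ a₆ : K[X]) (hD : Deg a₂ a₄ a₆) (hN : NonIso a₂ a₄ a₆) :
    ∃ (e : K) (p r q : K[X]), Inf a₂ a₄ a₆ e ∧
      Cone (PA a₂ a₄ a₆ e) (PB a₂ a₄ a₆ e) (PC a₂ a₄ a₆) p r q := by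
  obtain ⟨e, he⟩ := i_ext_root (a₂.coeff 1) (a₄.coeff 2) (a₆.coeff 3)
  have hI : Inf a₂ a₄ a₆ e := he
  have hA : (PA a₂ a₄ a₆ e).natDegree ≤ 1 := by
    unfold PA
    compute_degree
  have hAB : PA a₂ a₄ a₆ e ≠ 0 ∨ PB a₂ a₄ a₆ e ≠ 0 := by
    by_contra hcon
    push Not at hcon
    apply i_disc hk a₂ a₄ a₆ hD hN e hI
    rw [hcon.1, hcon.2]
    ring
  obtain ⟨p, r, q, h⟩ := i_pt hk (PA a₂ a₄ a₆ e) (PB a₂ a₄ a₆ e) (PC a₂ a₄ a₆) hA hAB
  exact ⟨e, p, r, q, hI, h⟩

private theorem i_ext_lift {k M : Type u} [Field k] [Field M] [Algebra k M]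
    (κ k' : IntermediateField k M) (p : κ[X])
    (h : ∀ n, ((p.coeff n : κ) : M) ∈ k') :
    ∃ p' : k'[X], p'.map (algebraMap k' M) = p.map (algebraMap κ M) := by
  have : p.map (algebraMap κ M) ∈ Polynomial.lifts (algebraMap k' M) := by
    rw [Polynomial.lifts_iff_coeff_lifts]
    intro n
    rw [coeff_map]
    exact ⟨⟨_, h n⟩, rfl⟩
  obtain ⟨p', hp'⟩ := (Polynomial.mem_lifts _).1 this
  exact ⟨p', hp'⟩

private theorem i_ext_main {k M : Type u} [Field k] [Field M] [Algebra k M]
    (κ : IntermediateField k M) [IsAlgClosed κ] [Algebra.IsAlgebraic k κ]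
    (hk : (2 : k) ≠ 0) (a₂ a₄ a₆ : k[X]) (hD : Deg a₂ a₄ a₆) (hN : NonIso a₂ a₄ a₆) :
    ∃ k' : IntermediateField k M, FiniteDimensional k k' ∧ ∃ (e : k') (p r q : k'[X]),
      Inf (a₂.map (algebraMap k k')) (a₄.map (algebraMap k k')) (a₆.map (algebraMap k k')) e ∧
      Cone (PA (a₂.map (algebraMap k k')) (a₄.map (algebraMap k k'))
          (a₆.map (algebraMap k k')) e)
        (PB (a₂.map (algebraMap k k')) (a₄.map (algebraMap k k')) (a₆.map (algebraMap k k')) e)
        (PC (a₂.map (algebraMap k k')) (a₄.map (algebraMap k k')) (a₆.map (algebraMap k k')))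
        p r q := by
  have hk2 : (2 : κ) ≠ 0 := by
    have := (map_ne_zero_iff (algebraMap k κ) (algebraMap k κ).injective).2 hk
    rwa [map_ofNat] at this
  obtain ⟨hD', hN'⟩ := i_map (L := κ) a₂ a₄ a₆ hD hN
  obtain ⟨e, p, r, q, hI, hC⟩ := i_ext_exists hk2 _ _ _ hD' hN'
  let S : Set κ := insert e ((p.coeffs : Set κ) ∪ (r.coeffs : Set κ) ∪ (q.coeffs : Set κ))
  have hSf : S.Finite := by
    apply Set.Finite.insert
    exact ((p.coeffs.finite_toSet.union r.coeffs.finite_toSet).union q.coeffs.finite_toSet)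
  let T : Set M := (algebraMap κ M) '' S
  have hTf : T.Finite := hSf.image _
  let k' : IntermediateField k M := IntermediateField.adjoin k T
  have hfin : FiniteDimensional k k' := by
    have : Finite T := hTf
    apply IntermediateField.finiteDimensional_adjoin
    rintro x ⟨s, _, rfl⟩
    exact (Algebra.IsIntegral.isIntegral (R := k) s).map (IsScalarTower.toAlgHom k κ M)
  have hmem : ∀ s ∈ S, ((s : κ) : M) ∈ k' := fun s hs =>
    IntermediateField.subset_adjoin k T ⟨s, hs, rfl⟩
  have hco : ∀ (P : κ[X]), (P.coeffs : Set κ) ⊆ S → ∀ n, ((P.coeff n : κ) : M) ∈ k' := by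
    intro P hP n
    by_cases h0 : P.coeff n = 0
    · rw [h0]
      exact zero_mem k'
    · exact hmem _ (hP (Polynomial.coeff_mem_coeffs h0))
  have hp : (p.coeffs : Set κ) ⊆ S := fun x hx => Or.inr (Or.inl (Or.inl hx))
  have hr : (r.coeffs : Set κ) ⊆ S := fun x hx => Or.inr (Or.inl (Or.inr hx))
  have hq : (q.coeffs : Set κ) ⊆ S := fun x hx => Or.inr (Or.inr hx)
  obtain ⟨p', hp'⟩ := i_ext_lift κ k' p (hco p hp)
  obtain ⟨r', hr'⟩ := i_ext_lift κ k' r (hco r hr)
  obtain ⟨q', hq'⟩ := i_ext_lift κ k' q (hco q hq)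
  have he : ((e : κ) : M) ∈ k' := hmem e (Or.inl rfl)
  let e' : k' := ⟨_, he⟩
  have hee : algebraMap k' M e' = algebraMap κ M e := rfl
  have hmap : ∀ (a : k[X]), (a.map (algebraMap k k')).map (algebraMap k' M) =
      (a.map (algebraMap k κ)).map (algebraMap κ M) := by
    intro a
    rw [Polynomial.map_map, Polynomial.map_map]
    rfl
  refine ⟨k', hfin, e', p', r', q', ?_, ?_⟩
  · rw [← i_ext_Inf (algebraMap k' M), hmap, hmap, hmap, hee, i_ext_Inf]
    exact hI
  · rw [← i_ext_Cone (algebraMap k' M), ← i_ext_PA, ← i_ext_PB, ← i_ext_PC, hmap, hmap, hmap, hee,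
      hp', hr', hq', i_ext_PA, i_ext_PB, i_ext_PC, i_ext_Cone]
    exact hC

theorem i_ext {k M : Type u} [Field k] [Field M] [Algebra k M] [IsAlgClosed M]
    (hk : (2 : k) ≠ 0) (a₂ a₄ a₆ : k[X]) (hD : Deg a₂ a₄ a₆) (hN : NonIso a₂ a₄ a₆) :
    ∃ k' : IntermediateField k M, FiniteDimensional k k' ∧ ∃ (e : k') (p r q : k'[X]),
      Inf (a₂.map (algebraMap k k')) (a₄.map (algebraMap k k')) (a₆.map (algebraMap k k')) e ∧
      Cone (PA (a₂.map (algebraMap k k')) (a₄.map (algebraMap k k'))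
          (a₆.map (algebraMap k k')) e)
        (PB (a₂.map (algebraMap k k')) (a₄.map (algebraMap k k')) (a₆.map (algebraMap k k')) e)
        (PC (a₂.map (algebraMap k k')) (a₄.map (algebraMap k k')) (a₆.map (algebraMap k k')))
        p r q := by
  have : IsAlgClosed (algebraicClosure k M) :=
    (inferInstance : IsAlgClosure k (algebraicClosure k M)).isAlgClosed
  exact i_ext_main (algebraicClosure k M) hk a₂ a₄ a₆ hD hN

end

end Pool.Agent.EFF

end

section


namespace Pool.Agent.EFF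

open Polynomial

open scoped Classical

universe u v w

section

theorem i_res {k M : Type u} [Field k] [Field M] [Algebra k M] (k' : IntermediateField k M)
    [FiniteDimensional k k'] :
    (∀ K : IntermediateField k' M, K.FG → (K.restrictScalars k).FG) ∧
    (∀ K : IntermediateField k' M, Algebra.trdeg k (K.restrictScalars k) = Algebra.trdeg k' K) ∧
    ∀ K₁ K₂ : IntermediateField k' M, (K₁ ⊔ K₂).restrictScalars k =
      K₁.restrictScalars k ⊔ K₂.restrictScalars k := by
  refine ⟨?_, ?_, fun K₁ K₂ => (IntermediateField.restrictScalars_sup k K₁ K₂).symm⟩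
  · rintro K ⟨S, rfl⟩
    rw [IntermediateField.restrictScalars_adjoin_eq_sup]
    refine IntermediateField.fg_sup ?_ (IntermediateField.fg_adjoin_finset S)
    exact IntermediateField.fg_of_fg_toSubalgebra k' (Subalgebra.fg_of_fg_toSubmodule
      (Module.Finite.iff_fg.1 (inferInstanceAs (Module.Finite k k'))))
  · intro K
    have h1 : Algebra.trdeg k k' + Algebra.trdeg k' K = Algebra.trdeg k K := trdeg_add_eq k k'
    have h0 : Algebra.trdeg k k' = 0 := by
      have : Algebra.IsAlgebraic k k' := Algebra.IsAlgebraic.of_finite k k'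
      exact trdeg_eq_zero
    rw [h0, zero_add] at h1
    rw [h1]
    rfl

end

end Pool.Agent.EFF

end

section


namespace Pool.Agent.EFF

open Polynomial

open scoped Classical

universe u v w

section

private theorem i_base_alg {k k' Ω : Type u} [Field k] [Field k'] [Field Ω] [Algebra k k']
    [Algebra k' Ω] [Algebra k Ω] [IsScalarTower k k' Ω] [Algebra.IsAlgebraic k k'] (x : Ω) :
    IsAlgebraic k' x ↔ IsAlgebraic k x :=
  ⟨fun h => h.restrictScalars k, fun h => h.tower_top k'⟩

private theorem i_base_val {k k' Ω : Type u} [Field k] [Field k'] [Field Ω] [Algebra k k']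
    [Algebra k' Ω] [Algebra k Ω] [IsScalarTower k k' Ω] [Algebra.IsAlgebraic k k']
    (V : ValuationSubring Ω) :
    (∀ x : k', algebraMap k' Ω x ∈ V) ↔ ∀ x : k, algebraMap k Ω x ∈ V := by
  constructor
  · intro h x
    rw [IsScalarTower.algebraMap_apply k k' Ω]
    exact h _
  · intro h x
    let f : k →+* V := (algebraMap k Ω).codRestrict V.toSubring h
    have h1 : IsIntegral k (algebraMap k' Ω x) :=
      (Algebra.IsAlgebraic.isAlgebraic (R := k) x).isIntegral.map (IsScalarTower.toAlgHom k k' Ω)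
    have h2 : IsIntegral V (algebraMap k' Ω x) := by
      obtain ⟨p, hp, hp0⟩ := h1
      refine ⟨p.map f, hp.map f, ?_⟩
      rw [eval₂_map]
      exact hp0
    obtain ⟨y, hy⟩ := IsIntegrallyClosed.isIntegral_iff.1 h2
    rw [← hy]
    exact y.2

private theorem i_base_geo {k k' F Ω : Type u} [Field k] [Field k'] [Field F] [Field Ω]
    [Algebra k k'] [Algebra F Ω]
    [Algebra k' Ω] [Algebra k Ω] [IsScalarTower k k' Ω] [Algebra.IsAlgebraic k k'] :
    T1B.geo k' F Ω = T1B.geo k F Ω := by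
  ext σ
  constructor
  · intro h x hx
    exact h x ((i_base_alg x).2 hx)
  · intro h x hx
    exact h x ((i_base_alg x).1 hx)

private theorem i_base_sys {k k' F Ω : Type u} [Field k] [Field k'] [Field F] [Field Ω]
    [Algebra k k'] [Algebra F Ω]
    [Algebra k' Ω] [Algebra k Ω] [IsScalarTower k k' Ω] [Algebra.IsAlgebraic k k'] (ℓ : ℕ)
    (c : ℕ → (Ω ≃ₐ[F] Ω) → (Ω ≃ₐ[F] Ω) → Ωˣ) : T1B.Sys k' ℓ c ↔ T1B.Sys k ℓ c := by
  have hg : T1B.geo k' F Ω = T1B.geo k F Ω := i_base_geo
  constructor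
  · intro h
    refine ⟨h.lc, ?_, ?_, ?_, ?_, ?_⟩
    · rw [← hg]; exact h.coc
    · rw [← hg]; exact h.zero
    · rw [← hg]; exact h.step
    · rw [← hg]; exact h.inv
    · intro n V hV
      rw [← hg]
      exact h.unr n V ((i_base_val (k := k) (k' := k') V).2 hV)
  · intro h
    refine ⟨h.lc, ?_, ?_, ?_, ?_, ?_⟩
    · rw [hg]; exact h.coc
    · rw [hg]; exact h.zero
    · rw [hg]; exact h.step
    · rw [hg]; exact h.inv
    · intro n V hV
      rw [hg]
      exact h.unr n V ((i_base_val (k := k) (k' := k') V).1 hV)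

end

section

theorem i_base {k k' F : Type u} [Field k] [Field k'] [Field F] [Algebra k k'] [Algebra k' F]
    [Algebra k F] [IsScalarTower k k' F] [Algebra.IsAlgebraic k k'] (ℓ : ℕ) :
    T1B.T1 k' F ℓ ↔ T1B.T1 k F ℓ := by
  have hg : T1B.geo k' F (AlgebraicClosure F) = T1B.geo k F (AlgebraicClosure F) := i_base_geo
  constructor
  · intro h c hc n
    rw [← hg]
    exact h c ((i_base_sys (k := k) (k' := k') ℓ c).2 hc) n
  · intro h c hc n
    rw [hg]
    exact h c ((i_base_sys (k := k) (k' := k') ℓ c).1 hc) n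

end

end Pool.Agent.EFF

end

section


namespace Pool.Agent.EFF

open Polynomial

open scoped Classical

universe u v w

section

theorem i_tr {k M : Type u} [Field k] [Field M] [Algebra k M] (F F' : IntermediateField k M)
    (h : F ≤ F') (T : Finset M) (hT : ∀ t ∈ T, IsAlgebraic k t)
    (hF' : F' ≤ F ⊔ IntermediateField.adjoin k (T : Set M)) (ℓ : ℕ) (hℓ : ℓ.Prime)
    (h1 : T1B.T1 k F' ℓ) : T1B.T1 k F ℓ := by
  let alg : Algebra F F' := (IntermediateField.inclusion h).toRingHom.toAlgebra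
  have : IsScalarTower k F F' := IsScalarTower.of_algebraMap_eq fun x => rfl
  have hfin : FiniteDimensional F (IntermediateField.adjoin F (T : Set M)) :=
    IntermediateField.finiteDimensional_adjoin fun x hx =>
      ((hT x hx).isIntegral).tower_top
  have hmem : ∀ x : F', (x : M) ∈ IntermediateField.adjoin F (T : Set M) := by
    intro x
    have h1 : (x : M) ∈ F ⊔ IntermediateField.adjoin k (T : Set M) := hF' x.2
    rw [← IntermediateField.restrictScalars_adjoin_eq_sup] at h1
    exact h1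
  let f : F' →ₗ[F] IntermediateField.adjoin F (T : Set M) :=
    { toFun := fun x => ⟨(x : M), hmem x⟩
      map_add' := fun x y => rfl
      map_smul' := fun c x => rfl }
  have : FiniteDimensional F F' := FiniteDimensional.of_injective f fun x y hxy =>
    Subtype.ext (congrArg (fun z : IntermediateField.adjoin F (T : Set M) => (z : M)) hxy)
  exact T1B.T1.descend hℓ h1

end

end Pool.Agent.EFF

end

section


namespace Pool.Agent.EFF

open Polynomial

open scoped Classical

universe u v w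

section

theorem i_final {k M : Type u} [Field k] [Field M] [Algebra k M] [IsAlgClosed M]
    (hk : (2 : k) ≠ 0) (a₂ a₄ a₆ : k[X]) (hD : Deg a₂ a₄ a₆) (hN : NonIso a₂ a₄ a₆)
    (φ : k[X]) (hφ : (∃ N, 0 < N ∧ φ = X ^ N) ∨ (TQU.AddPoly φ ∧ φ ≠ 0)) (z x y : M)
    (hzx : AlgebraicIndependent k ![z, x]) (hy : y ^ 2 = cub a₂ a₄ a₆ x (aeval z φ))
    (hM : ∀ a : M, IsAlgebraic (IntermediateField.adjoin k ({z, x, y} : Set M)) a) :
    ∃ (m : ℕ) (K₁ K₂ : Fin m → IntermediateField k M), (∀ i, (K₁ i).FG ∧ (K₂ i).FG ∧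
      Algebra.trdeg k (K₁ i) ≤ 1 ∧ Algebra.trdeg k (K₂ i) ≤ 1) ∧
      ∀ ℓ : ℕ, ℓ.Prime → (ℓ : k) ≠ 0 →
        (∀ i, T1B.T1 k (K₁ i ⊔ K₂ i : IntermediateField k M) ℓ) →
          T1B.T1 k (IntermediateField.adjoin k ({z, x, y} : Set M)) ℓ := by
  obtain ⟨k', hfd, e, p, r, q, hInf, hCone⟩ := i_ext (k := k) (M := M) hk a₂ a₄ a₆ hD hN
  have hres := i_res (k := k) (M := M) k'
  obtain ⟨hres1, hres2, hres3⟩ := hres
  obtain ⟨hD', hN'⟩ := i_map (L := k') a₂ a₄ a₆ hD hN
  have hinj : Function.Injective (algebraMap k k') := (algebraMap k k').injective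
  have hk' : (2 : k') ≠ 0 := by
    intro h
    apply hk
    apply hinj
    rw [map_ofNat, h, map_zero]
  have hφ' : (∃ N, 0 < N ∧ φ.map (algebraMap k k') = X ^ N) ∨
      (TQU.AddPoly (φ.map (algebraMap k k')) ∧ φ.map (algebraMap k k') ≠ 0) := by
    rcases hφ with ⟨N, hN0, rfl⟩ | ⟨h1, h2⟩
    · exact Or.inl ⟨N, hN0, by rw [Polynomial.map_pow, map_X]⟩
    · refine Or.inr ⟨?_, (Polynomial.map_ne_zero_iff hinj).2 h2⟩
      intro L _ _ a b
      let _ : Algebra k L := ((algebraMap k' L).comp (algebraMap k k')).toAlgebra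
      have : IsScalarTower k k' L := IsScalarTower.of_algebraMap_eq (fun _ => rfl)
      simp only [aeval_map_algebraMap]
      exact h1 L a b
  have hzx' : AlgebraicIndependent k' ![z, x] := hzx.extendScalars k'
  have hy' : y ^ 2 = cub (a₂.map (algebraMap k k')) (a₄.map (algebraMap k k'))
      (a₆.map (algebraMap k k')) x (aeval z (φ.map (algebraMap k k'))) := by
    rw [hy]
    simp only [cub, aeval_map_algebraMap]
  have hle : IntermediateField.adjoin k ({z, x, y} : Set M) ≤
      (IntermediateField.adjoin k' ({z, x, y} : Set M)).restrictScalars k := by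
    rw [IntermediateField.adjoin_le_iff]
    exact IntermediateField.subset_adjoin k' _
  have hM' : ∀ a : M, IsAlgebraic (IntermediateField.adjoin k' ({z, x, y} : Set M)) a := by
    intro a
    exact IsAlgebraic.tower_top_of_subalgebra_le
      (A := (IntermediateField.adjoin k ({z, x, y} : Set M)).toSubalgebra)
      (B := ((IntermediateField.adjoin k' ({z, x, y} : Set M)).restrictScalars k).toSubalgebra)
      hle (hM a)
  obtain ⟨m, K₁, K₂, hK, hT⟩ := i_core (k := k') (M := M) hk' _ _ _ hD' hN' e hInf p r q hCone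
    (φ.map (algebraMap k k')) hφ' z x y hzx' hy' hM'
  refine ⟨m, fun i => (K₁ i).restrictScalars k, fun i => (K₂ i).restrictScalars k, ?_, ?_⟩
  · intro i
    obtain ⟨h1, h2, h3, h4⟩ := hK i
    exact ⟨hres1 _ h1, hres1 _ h2, (hres2 _).trans_le h3, (hres2 _).trans_le h4⟩
  · intro ℓ hℓ hℓk h
    have hℓk' : (ℓ : k') ≠ 0 := by
      intro h0
      apply hℓk
      apply hinj
      rw [map_natCast, h0, map_zero]
    have hb : ∀ K : IntermediateField k' M, T1B.T1 k' K ℓ ↔
        T1B.T1 k (K.restrictScalars k : IntermediateField k M) ℓ := by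
      intro K
      exact i_base (k := k) (k' := k') (F := K) ℓ
    have h1 : T1B.T1 k' (IntermediateField.adjoin k' ({z, x, y} : Set M)) ℓ := by
      refine hT ℓ hℓ hℓk' (fun i => ?_)
      rw [hb, hres3]
      exact h i
    rw [hb] at h1
    obtain ⟨T, hTk⟩ : ∃ T : Finset M, IntermediateField.adjoin k (T : Set M) = k' := by
      have hfg : k'.FG := by
        have : Algebra.EssFiniteType k k' := inferInstance
        exact IntermediateField.essFiniteType_iff.1 this
      exact hfg
    have hTalg : ∀ t ∈ T, IsAlgebraic k t := by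
      intro t ht
      have hmem : t ∈ k' := by
        rw [← hTk]
        exact IntermediateField.subset_adjoin k _ (by simpa using ht)
      have := Algebra.IsAlgebraic.isAlgebraic (R := k) (⟨t, hmem⟩ : k')
      exact (isAlgebraic_algebraMap_iff (algebraMap k' M).injective).2 this
    refine i_tr (IntermediateField.adjoin k ({z, x, y} : Set M)) _ hle T hTalg ?_ ℓ hℓ h1
    rw [IntermediateField.restrictScalars_adjoin_eq_sup, ← hTk, sup_comm]

end

end Pool.Agent.EFF

end

section


namespace Pool.Agent.EFF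

open Polynomial

open scoped Classical

universe u v w

section

theorem f_rat {k : Type u} [Field k] :
    (∀ a : RatFunc k, IsAlgebraic k a → a ∈ Set.range (algebraMap k (RatFunc k))) ∧
    ∀ a : RatFunc k, IsAlgebraic (IntermediateField.adjoin k {(RatFunc.X : RatFunc k)}) a := by
  refine ⟨fun a ha => ?_, fun a => ?_⟩
  · by_contra h
    refine RatFunc.transcendental_of_ne_C (f := a) ?_ ha
    rintro ⟨c, rfl⟩
    exact h ⟨c, rfl⟩
  · have h : a ∈ IntermediateField.adjoin k {(RatFunc.X : RatFunc k)} := by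
      rw [RatFunc.adjoin_X]
      exact IntermediateField.mem_top
    exact isAlgebraic_algebraMap (⟨a, h⟩ : IntermediateField.adjoin k {(RatFunc.X : RatFunc k)})

end

end Pool.Agent.EFF

end

section


namespace Pool.Agent.EFF

open Polynomial Polynomial WeierstrassCurve WeierstrassCurve.Affine

open scoped Classical

universe u v w

section

theorem f_main_x {k M : Type u} [Field k] [Field M] [Algebra k M] (z x : M)
    (h : AlgebraicIndependent k ![z, x]) : Transcendental (IntermediateField.adjoin k ({z} : Set M)) x := by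
  open scoped IntermediateField.algebraAdjoinAdjoin in
  have h1 := h.transcendental_adjoin (s := {0}) (i := 1) (by simp)
  have h2 : (![z, x] '' ({0} : Set (Fin 2))) = {z} := by simp
  rw [h2] at h1
  intro h3
  apply h1
  open scoped IntermediateField.algebraAdjoinAdjoin in
  exact (IsFractionRing.isAlgebraic_iff (Algebra.adjoin k ({z} : Set M))
    (IntermediateField.adjoin k ({z} : Set M)) M).2 h3

theorem f_main_z {k M : Type u} [Field k] [Field M] [Algebra k M] (z x : M)
    (h : AlgebraicIndependent k ![z, x]) : Transcendental k z := h.transcendental 0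

theorem f_main_alg {k M K : Type u} [Field k] [Field M] [Field K] [Algebra k M] [Algebra K M] (z x : M)
    (hr : ∀ r : K, algebraMap K M r ∈ IntermediateField.adjoin k ({z} : Set M))
    (h : Transcendental (IntermediateField.adjoin k ({z} : Set M)) x) : Transcendental K x := by
  rintro ⟨p, hp, hx⟩
  apply h
  let g : K →+* IntermediateField.adjoin k ({z} : Set M) :=
    RingHom.codRestrict (algebraMap K M) (IntermediateField.adjoin k ({z} : Set M)).toSubfield hr
  refine ⟨p.map g, ?_, ?_⟩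
  · rwa [Ne, Polynomial.map_eq_zero]
  · rw [aeval_def, eval₂_map]
    rw [aeval_def] at hx
    exact hx

theorem f_main_ne {k : Type u} [Field k] (φ : k[X])
    (hφ : (∃ N, 0 < N ∧ φ = X ^ N) ∨ (TQU.AddPoly φ ∧ φ ≠ 0)) : φ.natDegree ≠ 0 := by
  rcases hφ with ⟨N, hN, rfl⟩ | ⟨h1, h2⟩
  · rw [natDegree_X_pow]; exact hN.ne'
  · intro h0
    rw [natDegree_eq_zero] at h0
    obtain ⟨c, rfl⟩ := h0
    have h3 := h1 k 0 0
    simp only [aeval_C, Algebra.algebraMap_self, RingHom.id_apply] at h3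
    have h4 : c = 0 := by linear_combination -h3
    exact h2 (by rw [h4, C_0])

theorem f_main_map {k R R' : Type u} [Field k] [CommRing R] [CommRing R'] [Algebra k R] [Algebra k R'] (f : R →ₐ[k] R')
    (a₂ a₄ a₆ : k[X]) (t : R) : (crv a₂ a₄ a₆ t).map (f : R →+* R') = crv a₂ a₄ a₆ (f t) := by
  unfold crv WeierstrassCurve.map
  simp only [map_zero]
  congr 1
  · exact (aeval_algHom_apply f t a₂).symm
  · exact (aeval_algHom_apply f t a₄).symm
  · exact (aeval_algHom_apply f t a₆).symm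

theorem f_main_ell {k : Type u} [Field k] (a₂ a₄ a₆ : k[X]) (hN : NonIso a₂ a₄ a₆)
    (φ : k[X]) (hφ : φ.natDegree ≠ 0) : (crv a₂ a₄ a₆ (aeval (RatFunc.X : RatFunc k) φ)).IsElliptic := by
  have ht : Transcendental k (aeval (RatFunc.X : RatFunc k) φ) :=
    RatFunc.transcendental_X.aeval φ hφ (mem_nonZeroDivisors_of_ne_zero (leadingCoeff_ne_zero.2 (by
      rintro rfl; exact hφ natDegree_zero)))
  have h1 : crv a₂ a₄ a₆ (aeval (RatFunc.X : RatFunc k) φ) = (crv a₂ a₄ a₆ (X : k[X])).map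
      ((aeval (aeval (RatFunc.X : RatFunc k) φ) : k[X] →ₐ[k] RatFunc k) : k[X] →+* RatFunc k) := by
    rw [f_main_map, aeval_X]
  rw [WeierstrassCurve.isElliptic_iff, h1, WeierstrassCurve.map_Δ, isUnit_iff_ne_zero]
  intro h0
  rw [transcendental_iff_injective] at ht
  apply hN.1
  apply ht
  rw [map_zero]
  exact h0

theorem f_main_gen {k M K : Type u} [Field k] [Field M] [Field K] [Algebra k M] (z x y : M)
    (hz : z ∈ IntermediateField.adjoin k ({z, x, y} : Set M))
    (hx : x ∈ IntermediateField.adjoin k ({z, x, y} : Set M))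
    (hy : y ∈ IntermediateField.adjoin k ({z, x, y} : Set M))
    [Algebra k K] [Algebra K (IntermediateField.adjoin k ({z, x, y} : Set M))]
    [IsScalarTower k K (IntermediateField.adjoin k ({z, x, y} : Set M))]
    (E : IntermediateField K (IntermediateField.adjoin k ({z, x, y} : Set M)))
    (hxE : ⟨x, hx⟩ ∈ E) (hyE : ⟨y, hy⟩ ∈ E) (hzE : ⟨z, hz⟩ ∈ E)
    (f : IntermediateField.adjoin k ({z, x, y} : Set M)) : f ∈ E := by
  obtain ⟨f, hf⟩ := f
  induction hf using IntermediateField.adjoin_induction with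
  | mem a ha =>
    have ha' : a = z ∨ a = x ∨ a = y := by simpa using ha
    rcases ha' with h | h | h
    · subst h; exact hzE
    · subst h; exact hxE
    · subst h; exact hyE
  | algebraMap r =>
    have h1 : algebraMap K _ (algebraMap k K r) ∈ E := IntermediateField.algebraMap_mem E _
    rw [← IsScalarTower.algebraMap_apply k K] at h1
    exact h1
  | add a b ha hb h1 h2 => exact add_mem h1 h2
  | inv a ha h1 => exact inv_mem h1
  | mul a b ha hb h1 h2 => exact mul_mem h1 h2

end

section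

theorem f_main {k M : Type u} [Field k] [Field M] [Algebra k M] [IsAlgClosed M]
    (hk : (2 : k) ≠ 0) (a₂ a₄ a₆ : k[X]) (hD : Deg a₂ a₄ a₆) (hN : NonIso a₂ a₄ a₆)
    (φ : k[X]) (hφ : (∃ N, 0 < N ∧ φ = X ^ N) ∨ (TQU.AddPoly φ ∧ φ ≠ 0)) (B : Fin 2 → M)
    (hB : IsTranscendenceBasis k B) :
    ∃ (m : ℕ) (K₁ K₂ : Fin m → IntermediateField k M), (∀ i, (K₁ i).FG ∧ (K₂ i).FG ∧
      Algebra.trdeg k (K₁ i) ≤ 1 ∧ Algebra.trdeg k (K₂ i) ≤ 1) ∧
      ∀ ℓ : ℕ, ℓ.Prime → (ℓ : k) ≠ 0 →
        (∀ i, T1B.T1 k (K₁ i ⊔ K₂ i : IntermediateField k M) ℓ) →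
        ∀ c, ShaSys (crv a₂ a₄ a₆ (aeval (RatFunc.X : RatFunc k) φ))
            (Kb := AlgebraicClosure (RatFunc k)) k ℓ c →
          ∀ n, Principal (crv a₂ a₄ a₆ (aeval (RatFunc.X : RatFunc k) φ))
            (T1B.geo k (RatFunc k) (AlgebraicClosure (RatFunc k))) (c n) := by
  have hz : AlgebraicIndependent k ![B 0, B 1] := by
    have : ![B 0, B 1] = B := by
      funext i
      fin_cases i <;> rfl
    rw [this]
    exact hB.1
  obtain ⟨y, hy⟩ := IsAlgClosed.exists_pow_nat_eq (cub a₂ a₄ a₆ (B 1) (aeval (B 0) φ)) (n := 2) (by norm_num)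
  have hM : ∀ a : M, IsAlgebraic (IntermediateField.adjoin k ({B 0, B 1, y} : Set M)) a := by
    intro a
    have h1 := hB.isAlgebraic_field.isAlgebraic a
    have hle : IntermediateField.adjoin k (Set.range B) ≤ IntermediateField.adjoin k ({B 0, B 1, y} : Set M) := by
      apply IntermediateField.adjoin.mono
      rintro _ ⟨i, rfl⟩
      fin_cases i
      · simp
      · simp
    obtain ⟨p, hp, hpa⟩ := h1
    refine ⟨p.map (IntermediateField.inclusion hle).toRingHom, ?_, ?_⟩
    · rwa [Ne, Polynomial.map_eq_zero]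
    · rw [aeval_def, eval₂_map]
      rw [aeval_def] at hpa
      exact hpa
  obtain ⟨m, K₁, K₂, hK, hmain⟩ := i_final hk a₂ a₄ a₆ hD hN φ hφ (B 0) (B 1) y hz hy hM
  refine ⟨m, K₁, K₂, hK, ?_⟩
  intro ℓ hℓ hℓk hT c hc n
  have hT1 := hmain ℓ hℓ hℓk hT
  set F := IntermediateField.adjoin k ({B 0, B 1, y} : Set M) with hF
  have hzF : B 0 ∈ F := IntermediateField.subset_adjoin _ _ (by simp)
  have hxF : B 1 ∈ F := IntermediateField.subset_adjoin _ _ (by simp)
  have hyF : y ∈ F := IntermediateField.subset_adjoin _ _ (by simp)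
  have hztr : Transcendental k (B 0) := f_main_z _ _ hz
  have hztrF : Transcendental k (⟨B 0, hzF⟩ : F) := by
    intro h
    exact hztr (h.algHom F.val)
  have hinj : Function.Injective (aeval (⟨B 0, hzF⟩ : F) : k[X] →ₐ[k] F) := transcendental_iff_injective.1 hztrF
  let Ψ : RatFunc k →ₐ[k] F := RatFunc.liftAlgHom (aeval (⟨B 0, hzF⟩ : F) : k[X] →ₐ[k] F)
    (nonZeroDivisors_le_comap_nonZeroDivisors_of_injective _ hinj)
  have hΨX : Ψ RatFunc.X = ⟨B 0, hzF⟩ := by
    show RatFunc.liftAlgHom _ _ RatFunc.X = _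
    rw [RatFunc.liftAlgHom_apply, RatFunc.num_X, RatFunc.denom_X, aeval_X, map_one, div_one]
  let algF : Algebra (RatFunc k) F := Ψ.toRingHom.toAlgebra
  have towF : IsScalarTower k (RatFunc k) F := by
    apply IsScalarTower.of_algebraMap_eq
    intro r
    exact (Ψ.commutes r).symm
  let algM : Algebra (RatFunc k) M := (F.val.toRingHom.comp Ψ.toRingHom).toAlgebra
  have hrange : ∀ r : RatFunc k, algebraMap (RatFunc k) M r ∈ IntermediateField.adjoin k ({B 0} : Set M) := by
    intro r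
    have e : algebraMap (RatFunc k) M r = aeval (B 0) r.num / aeval (B 0) r.denom := by
      show F.val (Ψ r) = _
      have e1 : Ψ r = aeval (⟨B 0, hzF⟩ : F) r.num / aeval (⟨B 0, hzF⟩ : F) r.denom := RatFunc.liftAlgHom_apply _ _ r
      rw [e1, map_div₀]
      congr 1
      · exact (aeval_algHom_apply F.val (⟨B 0, hzF⟩ : F) r.num).symm
      · exact (aeval_algHom_apply F.val (⟨B 0, hzF⟩ : F) r.denom).symm
    rw [e]
    apply div_mem
    · exact IntermediateField.algebra_adjoin_le_adjoin k _ (aeval_mem_adjoin_singleton k (B 0))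
    · exact IntermediateField.algebra_adjoin_le_adjoin k _ (aeval_mem_adjoin_singleton k (B 0))
  have hxtr : Transcendental (RatFunc k) (⟨B 1, hxF⟩ : F) := by
    have h1 := f_main_alg (K := RatFunc k) (B 0) (B 1) hrange (f_main_x _ _ hz)
    rintro ⟨p, hp, hx⟩
    apply h1
    refine ⟨p, hp, ?_⟩
    have h2 := congrArg F.val hx
    rw [map_zero] at h2
    rw [← h2, aeval_def, aeval_def]
    exact (hom_eval₂ p Ψ.toRingHom F.val.toRingHom (⟨B 1, hxF⟩ : F)).symm
  refine sha_geo (k := k) (K := RatFunc k) (Kb := AlgebraicClosure (RatFunc k)) (F := F)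
    (crv a₂ a₄ a₆ (aeval (RatFunc.X : RatFunc k) φ)) (f_main_ell a₂ a₄ a₆ hN φ (f_main_ne φ hφ))
    ⟨B 1, hxF⟩ ⟨y, hyF⟩ ?_ hxtr ?_ RatFunc.X f_rat.2 ℓ hℓ hℓk hT1 c hc n
  · have e1 : (crv a₂ a₄ a₆ (aeval (RatFunc.X : RatFunc k) φ)).baseChange F =
        crv a₂ a₄ a₆ (aeval (⟨B 0, hzF⟩ : F) φ) := by
      have e2 := f_main_map Ψ a₂ a₄ a₆ (aeval (RatFunc.X : RatFunc k) φ)
      have e3 : Ψ (aeval (RatFunc.X : RatFunc k) φ) = aeval (⟨B 0, hzF⟩ : F) φ := by
        rw [← aeval_algHom_apply, hΨX]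
      rw [e3] at e2
      exact e2
    rw [e1, WeierstrassCurve.Affine.equation_iff]
    apply Subtype.ext
    have hcoe : ∀ q : k[X], ((aeval (⟨B 0, hzF⟩ : F) q : F) : M) = aeval (B 0) q := fun q =>
      (aeval_algHom_apply F.val (⟨B 0, hzF⟩ : F) q).symm
    have hcoe2 : ∀ q : k[X], ((aeval (aeval (⟨B 0, hzF⟩ : F) φ) q : F) : M) = aeval (aeval (B 0) φ) q := by
      intro q
      have := (aeval_algHom_apply F.val (aeval (⟨B 0, hzF⟩ : F) φ) q).symm
      rw [← hcoe φ]
      exact this
    unfold crv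
    unfold cub at hy
    push_cast
    rw [hcoe2, hcoe2, hcoe2]
    rw [hy]
    ring
  · intro f
    have hxE : (⟨B 1, hxF⟩ : F) ∈ IntermediateField.adjoin (RatFunc k)
        ({(⟨B 1, hxF⟩ : F), (⟨y, hyF⟩ : F)} : Set F) := IntermediateField.subset_adjoin _ _ (by simp)
    have hyE : (⟨y, hyF⟩ : F) ∈ IntermediateField.adjoin (RatFunc k)
        ({(⟨B 1, hxF⟩ : F), (⟨y, hyF⟩ : F)} : Set F) := IntermediateField.subset_adjoin _ _ (by simp)
    have hzE : (⟨B 0, hzF⟩ : F) ∈ IntermediateField.adjoin (RatFunc k)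
        ({(⟨B 1, hxF⟩ : F), (⟨y, hyF⟩ : F)} : Set F) := by
      rw [← hΨX]
      exact IntermediateField.algebraMap_mem _ (RatFunc.X : RatFunc k)
    exact f_main_gen (B 0) (B 1) y hzF hxF hyF _ hxE hyE hzE f

end

end Pool.Agent.EFF

end

section


namespace Pool.Agent.EFF

open Polynomial Polynomial WeierstrassCurve WeierstrassCurve.Affine

open scoped Classical

universe u v w

section

theorem f_mainB {k : Type u} [Field k] [Finite k] (p : ℕ) [Fact p.Prime] [CharP k p] (a₂ a₄ a₆ : k[X])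
    (φ : k[X])
    (hLN : LangNeron k (crv a₂ a₄ a₆ (aeval (RatFunc.X : RatFunc k) φ))
      (AlgebraicClosure (RatFunc k)) p) (ℓ : ℕ) (hℓ : ℓ.Prime) (hℓp : ℓ ≠ p)
    (c : ℕ → (AlgebraicClosure (RatFunc k) ≃ₐ[RatFunc k] AlgebraicClosure (RatFunc k)) →
      Pts (crv a₂ a₄ a₆ (aeval (RatFunc.X : RatFunc k) φ)) (AlgebraicClosure (RatFunc k)))
    (hc : ShaSys (crv a₂ a₄ a₆ (aeval (RatFunc.X : RatFunc k) φ)) k ℓ c)
    (h : ∀ n, Principal (crv a₂ a₄ a₆ (aeval (RatFunc.X : RatFunc k) φ))
      (T1B.geo k (RatFunc k) (AlgebraicClosure (RatFunc k))) (c n)) (n : ℕ) :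
    Principal (crv a₂ a₄ a₆ (aeval (RatFunc.X : RatFunc k) φ)) ⊤ (c n) := by
  exact ln_main (crv a₂ a₄ a₆ (aeval (RatFunc.X : RatFunc k) φ)) (fun a ha => f_rat.1 a ha)
    p hLN ℓ hℓ hℓp c hc h n

end

end Pool.Agent.EFF

end
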