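import Pool.Agent.EFM.Defs
import Pool.Agent.RDM.Dpu

/-!
# The curves `y² = x³ + a₂(t) x² + a₄(t) x + a₆(t)`
-/

set_option autoImplicit false

namespace Pool.Agent.EFF

open Polynomial

universe u v w

noncomputable section

section Cubic

variable {k : Type u} [CommRing k] (a₂ a₄ a₆ : k[X])

section

variable {R : Type v} [CommRing R] [Algebra k R]

/-- the cubic polynomial `x³ + a₂(t) x² + a₄(t) x + a₆(t)` -/
def cub (x t : R) : R := x ^ 3 + aeval t a₂ * x ^ 2 + aeval t a₄ * x + aeval t a₆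

/-- the Weierstrass curve `y² = x³ + a₂(t) x² + a₄(t) x + a₆(t)` -/
def crv (t : R) : WeierstrassCurve R := ⟨0, aeval t a₂, 0, aeval t a₄, aeval t a₆⟩

end

/-- the total degree of `x³ + a₂(t) x² + a₄(t) x + a₆(t)` is three -/
def Deg : Prop := a₂.natDegree ≤ 1 ∧ a₄.natDegree ≤ 2 ∧ a₆.natDegree ≤ 3

/-- the discriminant is not zero and the `j`-invariant is not constant -/
def NonIso : Prop := (crv a₂ a₄ a₆ (X : k[X])).Δ ≠ 0 ∧
  ∀ j : k, (crv a₂ a₄ a₆ (X : k[X])).c₄ ^ 3 ≠ C j * (crv a₂ a₄ a₆ (X : k[X])).Δ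

/-- the line `x = e t` meets the cubic curve at infinity -/
def Inf (e : k) : Prop := e ^ 3 + a₂.coeff 1 * e ^ 2 + a₄.coeff 2 * e + a₆.coeff 3 = 0

/-- `x³ + a₂(t) x² + a₄(t) x + a₆(t) = PA(u) t² + PB(u) t + PC(u)` for `x = u + e t` -/
def PA (e : k) : k[X] := C (3 * e ^ 2 + 2 * a₂.coeff 1 * e + a₄.coeff 2) * X +
  C (a₂.coeff 0 * e ^ 2 + a₄.coeff 1 * e + a₆.coeff 2)

/-- `x³ + a₂(t) x² + a₄(t) x + a₆(t) = PA(u) t² + PB(u) t + PC(u)` for `x = u + e t` -/
def PB (e : k) : k[X] := C (3 * e + a₂.coeff 1) * X ^ 2 +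
  C (2 * a₂.coeff 0 * e + a₄.coeff 1) * X + C (a₄.coeff 0 * e + a₆.coeff 1)

/-- `x³ + a₂(t) x² + a₄(t) x + a₆(t) = PA(u) t² + PB(u) t + PC(u)` for `x = u + e t` -/
def PC : k[X] := X ^ 3 + C (a₂.coeff 0) * X ^ 2 + C (a₄.coeff 0) * X + C (a₆.coeff 0)

end Cubic

section Param

variable {k : Type u} [Field k]

/-- `(p : r : q)` is a point of the conic `y² = A t² + B t + D` over `k(u)` -/
structure Cone (A B D p r q : k[X]) : Prop where
  q0 : q ≠ 0
  cop : IsCoprime p q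
  eq : r ^ 2 = A * p ^ 2 + B * p * q + D * q ^ 2

/-- a polynomial in the first variable -/
def toMv (f : k[X]) : MvPolynomial (Fin 2) k := aeval (MvPolynomial.X 0) f

/-- the numerator of `t` as a function of `u` and `μ` -/
def fE (A B p r q : k[X]) : MvPolynomial (Fin 2) k :=
  toMv p * MvPolynomial.X 1 ^ 2 - 2 * toMv r * MvPolynomial.X 1 + toMv A * toMv p +
    toMv B * toMv q

/-- the denominator of `t` as a function of `u` and `μ` -/
def gE (A q : k[X]) : MvPolynomial (Fin 2) k := toMv q * (MvPolynomial.X 1 ^ 2 - toMv A)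

end Param

section Local

/-- a cubic polynomial in `ξ, s` with constant term zero, where the coefficient of `ξ³` is one -/
def cl {R : Type v} [CommRing R] (m u p v q b₁ b₂ b₃ ξ s : R) : R :=
  ξ ^ 3 + u * ξ ^ 2 + m * ξ + s * (b₁ + v * ξ + p * ξ ^ 2) + s ^ 2 * (b₂ + q * ξ) + s ^ 3 * b₃

/-- the discriminant of `cl (α s) s / s` with respect to `s`, a polynomial in `α` -/
def dl {L : Type v} [CommRing L] (m u p v q b₁ b₂ b₃ : L) : L[X] :=
  (C u * X ^ 2 + C v * X + C b₂) ^ 2 -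
    4 * (C m * X + C b₁) * (X ^ 3 + C p * X ^ 2 + C q * X + C b₃)

variable {k : Type u} [Field k] (a₂ a₄ a₆ : k[X]) {L : Type v} [Field L] [Algebra k L]

/-- the Taylor expansion of the cubic at the point `(r, l)` -/
def Loc (r l m u p v q b₁ b₂ b₃ : L) : Prop :=
  ∀ ξ s : L[X], cub a₂ a₄ a₆ (C r + ξ) (C l + s) =
    cl (C m) (C u) (C p) (C v) (C q) (C b₁) (C b₂) (C b₃) ξ s

/-- two lines through the point `(r, l)` of the cubic curve which touch the curve -/
structure Tan (r l α β a b a' b' : L) : Prop where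
  ne : α ≠ β
  hi : cub a₂ a₄ a₆ (C r + C α * X) (C l + X) = X * (C a * X + C b) ^ 2
  hj : cub a₂ a₄ a₆ (C r + C β * X) (C l + X) = X * (C a' * X + C b') ^ 2
  hb : b ^ 2 ≠ b' ^ 2

end Local

section Dbl

variable {Φ : Type v} [Field Φ]

/-- the first section -/
def xi (r α w : Φ) : Φ := r + α * w ^ 2

/-- the first section -/
def yi (a b w : Φ) : Φ := w * (a * w ^ 2 + b)

/-- the slope of the line through the two sections -/
def vo (α β a b a' b' w : Φ) : Φ := ((a - a') * w ^ 2 + (b - b')) / (w * (α - β))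

/-- the third point on the line -/
def xN (A₂ r α β a b a' b' w : Φ) : Φ :=
  vo α β a b a' b' w ^ 2 - A₂ - xi r α w - xi r β w

/-- a point on a line through the third point -/
def xx (r α β a b a' b' w ε Z : Φ) : Φ :=
  (xi r α w + xi r β w + 2 * ((a - a') * w ^ 2 + (b - b')) * ε / (α - β) + w ^ 2 * ε ^ 2 +
    w * Z) / 2

/-- a point on a line through the third point -/
def yy (A₂ r α β a b a' b' w ε Z : Φ) : Φ :=
  yi a b w + vo α β a b a' b' w * (xx r α β a b a' b' w ε Z - xi r α w) +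
    w * ε * (xx r α β a b a' b' w ε Z - xN A₂ r α β a b a' b' w)

/-- coefficients of the conic `Z² = QA(ε) w² + QB(ε)` -/
def QA {L : Type v} [Field L] (p α β a a' : L) : L[X] :=
  X ^ 4 + C (4 * (a - a') / (α - β)) * X ^ 3 + C (4 * p + 6 * (α + β)) * X ^ 2 +
    C (4 * (a + a')) * X + C ((α - β) ^ 2)

/-- coefficients of the conic `Z² = QA(ε) w² + QB(ε)` -/
def QB {L : Type v} [Field L] (c r α β b b' : L) : L[X] :=
  C (4 * (b - b') / (α - β)) * X ^ 3 + C (4 * c + 12 * r) * X ^ 2 + C (4 * (b + b')) * X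

end Dbl

end

end Pool.Agent.EFF
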